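import Pool.Agent.NFP.St

/-!
# Disintegration of a measure on the circle bundle whose projection has a density
-/

open Complex MeasureTheory Filter Topology Set
open UpperHalfPlane hiding I
open scoped ContDiff MatrixGroups ProbabilityTheory

namespace NFP.KER

open MeasureTheory ProbabilityTheory
open scoped ENNReal NNReal

/-- disintegration of a measure on a product whose first marginal has a density with respect to a
sigma-finite measure -/
theorem gen {X A : Type*} [MeasurableSpace X] [MeasurableSpace A] [StandardBorelSpace A]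
    [Nonempty A] (lam : Measure X) [SigmaFinite lam] (μ : Measure (X × A)) (p : X → ℝ)
    (hp : Measurable p)
    (h : μ.map Prod.fst = lam.withDensity (fun z => ENNReal.ofReal (p z))) :
    ∃ s : Kernel X A, (∀ z, s z Set.univ = ENNReal.ofReal (p z)) ∧ μ = lam ⊗ₘ s := by
  classical
  have hq : Measurable (fun z => ENNReal.ofReal (p z)) := hp.ennreal_ofReal
  have hsf : SigmaFinite (μ.map Prod.fst) := by
    rw [h]
    exact SigmaFinite.withDensity_ofReal p
  obtain ⟨g, g0, gm, gi⟩ := exists_pos_lintegral_lt_of_sigmaFinite (μ.map Prod.fst)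
    (ε := 1) one_ne_zero
  have gm1 : Measurable (fun x : X => (g x : ℝ≥0∞)) := gm.coe_nnreal_ennreal
  have gm' : Measurable (fun y : X × A => (g y.1 : ℝ≥0∞)) := gm1.comp measurable_fst
  set μ' : Measure (X × A) := μ.withDensity (fun y => (g y.1 : ℝ≥0∞)) with hμ'
  have hint : ∫⁻ y, (g y.1 : ℝ≥0∞) ∂μ = ∫⁻ x, (g x : ℝ≥0∞) ∂(μ.map Prod.fst) := by
    rw [lintegral_map gm1 measurable_fst]
  have : IsFiniteMeasure μ' := by
    refine isFiniteMeasure_withDensity ?_
    rw [hint]
    exact (gi.trans ENNReal.one_lt_top).ne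
  have hfst : μ'.fst = (μ.map Prod.fst).withDensity (fun x => (g x : ℝ≥0∞)) := by
    ext S hS
    rw [Measure.fst_apply hS, hμ', withDensity_apply _ (measurable_fst hS),
      withDensity_apply _ hS]
    rw [setLIntegral_map hS gm1 measurable_fst]
  have hinv : μ = μ'.withDensity (fun y => (g y.1 : ℝ≥0∞)⁻¹) := by
    rw [hμ']
    have := withDensity_inv_same (μ := μ) (f := fun y : X × A => (g y.1 : ℝ≥0∞)) gm'
      (ae_of_all _ fun y => by simpa using (g0 y.1).ne') (ae_of_all _ fun y => by simp)
    exact this.symm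
  set κ := μ'.condKernel with hκ
  have hdis : μ'.fst ⊗ₘ κ = μ' := Measure.disintegrate μ' μ'.condKernel
  have hunc : Measurable (Function.uncurry (fun (z : X) (_ : A) => ENNReal.ofReal (p z))) :=
    hq.comp measurable_fst
  set s : Kernel X A := Kernel.withDensity κ (fun z _ => ENNReal.ofReal (p z)) with hs
  have hsap : ∀ z, s z = ENNReal.ofReal (p z) • κ z := by
    intro z
    rw [hs, Kernel.withDensity_apply κ hunc, withDensity_const]
  have : IsSFiniteKernel s := by
    rw [hs]
    exact Kernel.IsSFiniteKernel.withDensity κ (fun z _ => ENNReal.ofReal_ne_top)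
  refine ⟨s, ?_, ?_⟩
  · intro z
    rw [hsap, Measure.smul_apply, measure_univ, smul_eq_mul, mul_one]
  · ext S hS
    rw [Measure.compProd_apply hS]
    conv_lhs => rw [hinv, ← hdis]
    rw [withDensity_apply _ hS, ← lintegral_indicator hS]
    rw [Measure.lintegral_compProd (by
      refine Measurable.indicator ?_ hS
      exact gm'.inv)]
    have h1 : ∀ x, ∫⁻ a, S.indicator (fun y : X × A => (g y.1 : ℝ≥0∞)⁻¹) (x, a) ∂(κ x)
        = (g x : ℝ≥0∞)⁻¹ * κ x (Prod.mk x ⁻¹' S) := by
      intro x
      have hS' : MeasurableSet (Prod.mk x ⁻¹' S) := measurable_prodMk_left hS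
      have : (fun a => S.indicator (fun y : X × A => (g y.1 : ℝ≥0∞)⁻¹) (x, a))
          = (Prod.mk x ⁻¹' S).indicator (fun _ => (g x : ℝ≥0∞)⁻¹) := by
        funext a
        by_cases ha : (x, a) ∈ S
        · rw [Set.indicator_of_mem ha, Set.indicator_of_mem (show a ∈ Prod.mk x ⁻¹' S from ha)]
        · rw [Set.indicator_of_notMem ha,
            Set.indicator_of_notMem (show a ∉ Prod.mk x ⁻¹' S from ha)]
      rw [this, lintegral_indicator_const hS']
    have hkm : Measurable (fun x => κ x (Prod.mk x ⁻¹' S)) :=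
      Kernel.measurable_kernel_prodMk_left hS
    have hmm : Measurable (fun x => (g x : ℝ≥0∞)⁻¹ * κ x (Prod.mk x ⁻¹' S)) :=
      gm1.inv.mul hkm
    simp_rw [h1]
    rw [hfst, lintegral_withDensity_eq_lintegral_mul _ gm1 hmm, h,
      lintegral_withDensity_eq_lintegral_mul _ hq (gm1.mul hmm)]
    refine lintegral_congr fun x => ?_
    simp only [Pi.mul_apply]
    rw [hsap, Measure.smul_apply, smul_eq_mul, ← mul_assoc (g x : ℝ≥0∞),
      ENNReal.mul_inv_cancel (by simpa using (g0 x).ne') (by simp), one_mul]

instance : StandardBorelSpace S1 :=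
  (Metric.isClosed_sphere (x := (0 : ℂ)) (ε := 1)).measurableSet.standardBorel

instance : Nonempty S1 := ⟨⟨1, by simp⟩⟩

instance (ρ : ℍ → ℝ) : SigmaFinite (Berry.area ρ) :=
  SigmaFinite.withDensity_ofReal _

end NFP.KER

namespace NFP

open QE QE.NC

/-- disintegration of a measure on the circle bundle over the half plane whose projection has a
density -/
theorem ker : StmtKer := by
  intro ρ μ p _ _ hp _ h
  exact KER.gen (Berry.area ρ) μ p hp h

end NFP
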