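import Pool.Agent.NFP.St

/-!
# SEMTWO: the limits of the products of two jets are the moments of the semiclassical measure
-/

open Complex MeasureTheory Filter Topology Set
open UpperHalfPlane hiding I
open scoped ContDiff MatrixGroups ProbabilityTheory

namespace NFP

open QE QE.NC

noncomputable section

namespace SEMTWO

/-- the moments -/
def mom (ρ : ℍ → ℝ) (μ : Measure (ℍ × S1)) (ζ : ℂ → ℂ) (k : ℤ) : ℂ :=
  ∫ p : ℍ × S1, ζ p.1 * ((p.1.im ^ 2 * Real.exp (-(2 * ρ p.1)) : ℝ) : ℂ) * (p.2 : ℂ) ^ (-k) ∂μ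

theorem ro_coe (ρ : ℍ → ℝ) (z : ℍ) : ro ρ (z : ℂ) = ρ z := by
  unfold ro
  rw [ofComplex_apply]

theorem cont_rho {ρ : ℍ → ℝ} (hρ : ContDiffOn ℝ ∞ (ro ρ) UH) : Continuous ρ := by
  have h1 : Continuous fun z : ℍ => ro ρ (z : ℂ) :=
    hρ.continuousOn.comp_continuous continuous_coe fun z => z.im_pos
  have h2 : (fun z : ℍ => ro ρ (z : ℂ)) = ρ := funext (ro_coe ρ)
  rwa [h2] at h1

theorem int_area {ρ : ℍ → ℝ} (hρ : Continuous ρ) (F : ℂ → ℂ) :
    ∫ z : ℍ, F z ∂(Berry.area ρ) = ∫ z in UH, F z * gR ρ z := by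
  have hm : Measurable fun z : ℍ => ENNReal.ofReal (Real.exp (2 * ρ z)) := by
    have h0 : Continuous fun z : ℍ => Real.exp (2 * ρ z) :=
      Real.continuous_exp.comp (continuous_const.mul hρ)
    exact h0.measurable.ennreal_ofReal
  unfold Berry.area
  rw [integral_withDensity_eq_integral_toReal_smul hm
    (Eventually.of_forall fun z => ENNReal.ofReal_lt_top)]
  have h1 : ∀ z : ℍ, (ENNReal.ofReal (Real.exp (2 * ρ z))).toReal • F z
      = (fun w : ℂ => ((Real.exp (2 * ro ρ w) : ℝ) : ℂ) * F w) z := by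
    intro z
    rw [ENNReal.toReal_ofReal (Real.exp_pos _).le, Complex.real_smul]
    simp only [ro_coe]
  simp only [h1]
  rw [integral_uhp (fun w : ℂ => ((Real.exp (2 * ro ρ w) : ℝ) : ℂ) * F w)]
  refine setIntegral_congr_fun (measurableSet_lt measurable_const Complex.measurable_im) ?_
  intro z hz
  have hz0 : (z.im : ℂ) ≠ 0 := by
    have : (0 : ℝ) < z.im := hz
    exact_mod_cast this.ne'
  simp only [gR]
  push_cast
  field_simp

theorem conv {ρ : ℍ → ℝ} (hρ : Continuous ρ) {ζ : ℂ → ℂ} (hζ : Test UH ζ) (G : ℂ → ℂ) :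
    ∫ z : ℍ, (ζ z * aR ρ z ^ 2) * G z ∂(Berry.area ρ) = ∫ z, ζ z * G z := by
  rw [int_area hρ (fun z => (ζ z * aR ρ z ^ 2) * G z)]
  have h1 : ∫ z, ζ z * G z = ∫ z in UH, ζ z * G z := by
    rw [setIntegral_eq_integral_of_forall_compl_eq_zero]
    intro z hz
    rw [image_eq_zero_of_notMem_tsupport fun hh => hz (hζ.sub hh), zero_mul]
  rw [h1]
  refine setIntegral_congr_fun (measurableSet_lt measurable_const Complex.measurable_im) ?_
  intro z hz
  have hz0 : (z.im : ℂ) ≠ 0 := by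
    have : (0 : ℝ) < z.im := hz
    exact_mod_cast this.ne'
  have h2 : aR ρ z ^ 2 * gR ρ z = 1 := by
    unfold aR gR
    rw [Real.exp_neg, show (2 : ℝ) * ro ρ z = ro ρ z + ro ρ z by ring, Real.exp_add]
    have h3 : ((Real.exp (ro ρ z) : ℝ) : ℂ) ≠ 0 := by exact_mod_cast (Real.exp_pos _).ne'
    push_cast at h3 ⊢
    field_simp
  simp only
  linear_combination (ζ z * G z) * h2

theorem int_mu {μ : Measure (ℍ × S1)} (hfin : ∀ K : Set ℍ, IsCompact K → μ (K ×ˢ univ) < ⊤)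
    {ζ : ℂ → ℂ} (hζ : Test UH ζ) {G : ℍ × S1 → ℂ} (hG : Continuous G) :
    Integrable (fun p : ℍ × S1 => ζ p.1 * G p) μ := by
  set K : Set ℍ := (fun z : ℍ => (z : ℂ)) ⁻¹' (tsupport ζ) with hK
  have hKc : IsCompact K := by
    have hr : tsupport ζ ⊆ Set.range (fun z : ℍ => (z : ℂ)) := by
      intro z hz
      exact ⟨⟨z, hζ.sub hz⟩, rfl⟩
    exact (isOpenEmbedding_coe.isEmbedding.isInducing.isCompact_preimage_iff hr).2 hζ.supp
  have hcont : Continuous (fun p : ℍ × S1 => ζ p.1 * G p) :=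
    (hζ.smooth.continuous.comp (continuous_coe.comp continuous_fst)).mul hG
  have hKu : IsCompact (K ×ˢ (univ : Set S1)) := hKc.prod isCompact_univ
  obtain ⟨M, hM⟩ := hKu.exists_bound_of_continuousOn hcont.continuousOn
  have hsupp : Function.support (fun p : ℍ × S1 => ζ p.1 * G p) ⊆ K ×ˢ (univ : Set S1) := by
    intro p hp
    refine ⟨?_, trivial⟩
    by_contra h1
    apply hp
    have : ζ p.1 = 0 := image_eq_zero_of_notMem_tsupport h1
    simp [this]
  rw [← integrableOn_iff_integrable_of_support_subset hsupp]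
  refine Measure.integrableOn_of_bounded (M := M) (hfin K hKc).ne hcont.aestronglyMeasurable ?_
  exact (ae_restrict_iff' hKu.measurableSet).2 (Eventually.of_forall fun p hp => hM p hp)

/-- the symbol identity -/
theorem symb {ρ : ℍ → ℝ} (p : ℍ × S1) (k : ℕ) :
    (-(2 * I)) ^ k * (∑ m ∈ Finset.HasAntidiagonal.antidiagonal k,
      ((1 / 2) ^ k * (k.choose m.1 * I ^ m.1)) *
        ((((Real.exp (ρ p.1) / p.1.im * (p.2 : ℂ).re) ^ m.1
          * (Real.exp (ρ p.1) / p.1.im * (p.2 : ℂ).im) ^ m.2 : ℝ)) : ℂ)) * aR ρ p.1 ^ k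
      = (p.2 : ℂ) ^ (-(k : ℤ)) := by
  set r : ℝ := Real.exp (ρ p.1) / p.1.im with hr
  set w : ℂ := (p.2 : ℂ) with hw
  have hw1 : ‖w‖ = 1 := by
    have := p.2.2
    rwa [mem_sphere_zero_iff_norm] at this
  have hconj : (starRingEnd ℂ) w = w⁻¹ := (Complex.inv_eq_conj hw1).symm
  have h1 : ∑ m ∈ Finset.HasAntidiagonal.antidiagonal k,
      ((1 / 2) ^ k * (k.choose m.1 * I ^ m.1)) *
        (((r * w.re) ^ m.1 * (r * w.im) ^ m.2 : ℝ) : ℂ)
      = (1 / 2) ^ k * (I * ((r * w.re : ℝ) : ℂ) + ((r * w.im : ℝ) : ℂ)) ^ k := by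
    rw [(Commute.all _ _).add_pow', Finset.mul_sum]
    refine Finset.sum_congr rfl fun m _ => ?_
    rw [nsmul_eq_mul, mul_pow]
    push_cast
    ring
  rw [h1]
  have h2 : (-(2 * I)) ^ k * ((1 / 2) ^ k * (I * ((r * w.re : ℝ) : ℂ) + ((r * w.im : ℝ) : ℂ)) ^ k)
      * aR ρ p.1 ^ k = ((r : ℂ) * aR ρ p.1 * (starRingEnd ℂ) w) ^ k := by
    rw [← mul_pow, ← mul_pow, ← mul_pow]
    congr 1
    have h3 : (starRingEnd ℂ) w = (w.re : ℂ) - w.im * I := by
      apply Complex.ext <;> simp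
    rw [h3]
    push_cast
    linear_combination (-(r : ℂ) * w.re * aR ρ p.1) * I_mul_I
  rw [h2]
  have h4 : (r : ℂ) * aR ρ p.1 = 1 := by
    unfold aR
    rw [ro_coe, hr]
    have h5 : (p.1.im : ℝ) ≠ 0 := p.1.im_pos.ne'
    have h6 : Real.exp (ρ p.1) / p.1.im * ((p.1 : ℂ).im * Real.exp (-(ρ p.1))) = 1 := by
      rw [Real.exp_neg]
      have h7 := (Real.exp_pos (ρ p.1)).ne'
      have h8 : (p.1 : ℂ).im = p.1.im := rfl
      rw [h8]
      field_simp
    rw [← Complex.ofReal_mul, h6, Complex.ofReal_one]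
  rw [h4, one_mul, hconj, zpow_neg, zpow_natCast, inv_pow]

theorem sq_aR (ρ : ℍ → ℝ) (z : ℍ) :
    aR ρ z ^ 2 = ((z.im ^ 2 * Real.exp (-(2 * ρ z)) : ℝ) : ℂ) := by
  unfold aR
  rw [ro_coe, ← Complex.ofReal_pow, mul_pow, ← Real.exp_nat_mul]
  have h8 : (z : ℂ).im = z.im := rfl
  rw [h8]
  congr 3
  push_cast
  ring

variable {ρ : ℍ → ℝ} {φ : ℕ → ℍ → ℝ} {m : ℕ → ℝ} {μ : Measure (ℍ × S1)}

/-- the case `j = 0`, `l = k ≥ 0` -/
theorem base_nat (hρ : ContDiffOn ℝ ∞ (ro ρ) UH)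
    (S : Setup UH (gR ρ) (aR ρ) (fun n => 1 / m n) (fun n z => (φ n (ofComplex z) : ℂ)))
    (hs : Semiclassical ρ φ m μ) (k : ℕ) {ζ : ℂ → ℂ} (hζ : Test UH ζ) :
    Tendsto (fun n => ∫ z, ζ z
        * (E (fun n => 1 / m n) (aR ρ) (fun n z => (φ n (ofComplex z) : ℂ)) 0 n z
          * E (fun n => 1 / m n) (aR ρ) (fun n z => (φ n (ofComplex z) : ℂ)) k n z)) atTop
      (𝓝 (mom ρ μ ζ k)) := by
  set Φ : ℕ → ℂ → ℂ := fun n z => (φ n (ofComplex z) : ℂ) with hΦ
  set h : ℕ → ℝ := fun n => 1 / m n with hh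
  have hρc := cont_rho hρ
  have hcon : ∀ n, ContDiffOn ℝ ∞ (Φ n) UH := S.tame.smooth
  have hζ' : Test UH (fun z => ζ z * aR ρ z ^ k) := hζ.mul S.op (S.ha.pow k)
  have hζ'' : Test UH (fun z => (ζ z * aR ρ z ^ k) * aR ρ z ^ 2) := hζ'.mul S.op (S.ha.pow 2)
  -- the limits of the monomials
  have hmono : ∀ m₁ m₂ : ℕ, Tendsto (fun n => ∫ z, (ζ z * aR ρ z ^ k)
      * (mono (h n) (Φ n) m₁ m₂ z * Φ n z)) atTop
      (𝓝 (∫ p : ℍ × S1, ((ζ p.1 * aR ρ p.1 ^ k) * aR ρ p.1 ^ 2) *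
        (((Real.exp (ρ p.1) / p.1.im * (p.2 : ℂ).re) ^ m₁
          * (Real.exp (ρ p.1) / p.1.im * (p.2 : ℂ).im) ^ m₂ : ℝ) : ℂ) ∂μ)) := by
    intro m₁ m₂
    have h1 := hs.lim m₁ m₂ _ hζ''.smooth hζ''.supp hζ''.sub
    refine h1.congr fun n => ?_
    rw [← conv hρc hζ']
    refine integral_congr_ae (Eventually.of_forall fun z => ?_)
    simp only [mono, hΦ, ofComplex_apply]
    rfl
  -- the jet
  obtain ⟨w, hw, hw'⟩ := S.jet_near k
  have t2 := tendsto_h_int S.hlim S.tame hw hζ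
  have t1 : Tendsto (fun n => (-(2 * I)) ^ k * ∑ a ∈ Finset.HasAntidiagonal.antidiagonal k,
      ((1 / 2) ^ k * (k.choose a.1 * I ^ a.1)) * ∫ z, (ζ z * aR ρ z ^ k)
        * (mono (h n) (Φ n) a.1 a.2 z * Φ n z)) atTop
      (𝓝 ((-(2 * I)) ^ k * ∑ a ∈ Finset.HasAntidiagonal.antidiagonal k,
      ((1 / 2) ^ k * (k.choose a.1 * I ^ a.1)) *
      (∫ p : ℍ × S1, ((ζ p.1 * aR ρ p.1 ^ k) * aR ρ p.1 ^ 2) *
        (((Real.exp (ρ p.1) / p.1.im * (p.2 : ℂ).re) ^ a.1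
          * (Real.exp (ρ p.1) / p.1.im * (p.2 : ℂ).im) ^ a.2 : ℝ) : ℂ) ∂μ))) :=
    (tendsto_finsetSum _ fun a _ => (hmono a.1 a.2).const_mul _).const_mul _
  have t3 := t1.add t2
  rw [add_zero] at t3
  -- the limit
  have hlim : (-(2 * I)) ^ k * ∑ a ∈ Finset.HasAntidiagonal.antidiagonal k,
      ((1 / 2) ^ k * (k.choose a.1 * I ^ a.1)) *
      (∫ p : ℍ × S1, ((ζ p.1 * aR ρ p.1 ^ k) * aR ρ p.1 ^ 2) *
        (((Real.exp (ρ p.1) / p.1.im * (p.2 : ℂ).re) ^ a.1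
          * (Real.exp (ρ p.1) / p.1.im * (p.2 : ℂ).im) ^ a.2 : ℝ) : ℂ) ∂μ)
      = mom ρ μ ζ k := by
    have hcr : Continuous fun p : ℍ × S1 => Real.exp (ρ p.1) / p.1.im := by
      refine (Real.continuous_exp.comp (hρc.comp continuous_fst)).div
        (UpperHalfPlane.continuous_im.comp continuous_fst) fun p => p.1.im_pos.ne'
    have hcw : Continuous fun p : ℍ × S1 => (p.2 : ℂ) := continuous_subtype_val.comp continuous_snd
    have hint : ∀ a : ℕ × ℕ, Integrable (fun p : ℍ × S1 =>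
        ((ζ p.1 * aR ρ p.1 ^ k) * aR ρ p.1 ^ 2) *
        (((Real.exp (ρ p.1) / p.1.im * (p.2 : ℂ).re) ^ a.1
          * (Real.exp (ρ p.1) / p.1.im * (p.2 : ℂ).im) ^ a.2 : ℝ) : ℂ)) μ := by
      intro a
      refine int_mu hs.fin hζ'' ?_
      exact continuous_ofReal.comp (((hcr.mul (continuous_re.comp hcw)).pow a.1).mul
        ((hcr.mul (continuous_im.comp hcw)).pow a.2))
    simp only [← integral_const_mul]
    rw [← integral_finsetSum _ fun a _ => (hint a).const_mul _, ← integral_const_mul, mom]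
    refine integral_congr_ae (Eventually.of_forall fun p => ?_)
    have h1 := symb (ρ := ρ) p k
    have h2 := sq_aR ρ p.1
    simp only
    rw [← h1, ← h2, Finset.mul_sum, Finset.mul_sum, Finset.sum_mul, Finset.mul_sum]
    refine Finset.sum_congr rfl fun a _ => ?_
    ring
  rw [hlim] at t3
  refine t3.congr fun n => ?_
  have hd := (dz_iterate_eq S.op (h n) (hcon n) k).2
  have i0 : ∀ a : ℕ × ℕ, Integrable (fun z => (ζ z * aR ρ z ^ k)
      * (mono (h n) (Φ n) a.1 a.2 z * Φ n z)) := fun a =>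
    hζ'.int S.op ((contDiffOn_mono S.op (h n) (hcon n) a.1 a.2).mul (hcon n))
  have i2 : Integrable (fun z => ζ z * (Φ n z * w n z)) :=
    hζ.int S.op ((S.tame.smooth.mul hw.smooth) n)
  have e := hζ.integral_congr (f := fun z => E h (aR ρ) Φ 0 n z * E h (aR ρ) Φ k n z)
    (f' := fun z => (∑ a ∈ Finset.HasAntidiagonal.antidiagonal k,
      ((-(2 * I)) ^ k * ((1 / 2) ^ k * (k.choose a.1 * I ^ a.1))) * (aR ρ z ^ k *
        (mono (h n) (Φ n) a.1 a.2 z * Φ n z)))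
      + (h n : ℂ) * (Φ n z * w n z)) (fun z hz => by
        have e1 : E h (aR ρ) Φ k n z = jet h (aR ρ) Φ k n z := rfl
        have e2 : E h (aR ρ) Φ 0 n z = Φ n z := rfl
        rw [e1, e2, hw' n z hz]
        beta_reduce
        rw [hd z hz, Finset.mul_sum, Finset.mul_sum, mul_add, Finset.mul_sum]
        congr 1
        · refine Finset.sum_congr rfl fun a _ => ?_
          ring
        · ring)
  rw [e]
  have e3 : ∀ z, ζ z * ((∑ a ∈ Finset.HasAntidiagonal.antidiagonal k,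
      ((-(2 * I)) ^ k * ((1 / 2) ^ k * (k.choose a.1 * I ^ a.1))) * (aR ρ z ^ k *
        (mono (h n) (Φ n) a.1 a.2 z * Φ n z))) + (h n : ℂ) * (Φ n z * w n z))
      = (∑ a ∈ Finset.HasAntidiagonal.antidiagonal k,
      ((-(2 * I)) ^ k * ((1 / 2) ^ k * (k.choose a.1 * I ^ a.1))) * ((ζ z * aR ρ z ^ k) *
        (mono (h n) (Φ n) a.1 a.2 z * Φ n z))) + (h n : ℂ) * (ζ z * (Φ n z * w n z)) := by
    intro z
    rw [mul_add, Finset.mul_sum]
    congr 1
    · refine Finset.sum_congr rfl fun a _ => ?_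
      ring
    · ring
  simp only [e3]
  rw [integral_add (integrable_finsetSum _ fun a _ => (i0 a).const_mul _) (i2.const_mul _),
    integral_finsetSum _ fun a _ => (i0 a).const_mul _]
  simp only [integral_const_mul]
  rw [Finset.mul_sum]
  congr 1
  refine Finset.sum_congr rfl fun a _ => ?_
  ring

theorem mom_conj (ζ : ℂ → ℂ) (k : ℤ) :
    (starRingEnd ℂ) (mom ρ μ (fun z => (starRingEnd ℂ) (ζ z)) k) = mom ρ μ ζ (-k) := by
  unfold mom
  rw [← integral_conj]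
  refine integral_congr_ae (Eventually.of_forall fun p => ?_)
  simp only [map_mul, starRingEnd_self_apply, conj_ofReal, map_zpow₀, neg_neg]
  have hw1 : ‖(p.2 : ℂ)‖ = 1 := by
    have := p.2.2
    rwa [mem_sphere_zero_iff_norm] at this
  have hconj : (starRingEnd ℂ) (p.2 : ℂ) = (p.2 : ℂ)⁻¹ := (Complex.inv_eq_conj hw1).symm
  rw [hconj, inv_zpow', neg_neg]

/-- the products `E_i E_m` with `i, m ≥ 0` -/
theorem up_nat (hρ : ContDiffOn ℝ ∞ (ro ρ) UH)
    (S : Setup UH (gR ρ) (aR ρ) (fun n => 1 / m n) (fun n z => (φ n (ofComplex z) : ℂ)))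
    (hs : Semiclassical ρ φ m μ) {ζ : ℂ → ℂ} (hζ : Test UH ζ) (i : ℕ) : ∀ k : ℕ,
    Tendsto (fun n => ∫ z, ζ z
        * (E (fun n => 1 / m n) (aR ρ) (fun n z => (φ n (ofComplex z) : ℂ)) i n z
          * E (fun n => 1 / m n) (aR ρ) (fun n z => (φ n (ofComplex z) : ℂ)) k n z)) atTop
      (𝓝 ((-1) ^ i * mom ρ μ ζ (i + k))) := by
  induction i with
  | zero =>
    intro k
    have := base_nat hρ S hs k hζ
    simpa using this
  | succ i ih =>
    intro k
    have h2 := (S.int_add i k hζ).sub (ih (k + 1))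
    have e1 : (0 : ℂ) - (-1) ^ i * mom ρ μ ζ ((i : ℤ) + ((k + 1 : ℕ) : ℤ))
        = (-1) ^ (i + 1) * mom ρ μ ζ (((i + 1 : ℕ) : ℤ) + k) := by
      rw [show (i : ℤ) + ((k + 1 : ℕ) : ℤ) = ((i + 1 : ℕ) : ℤ) + k by push_cast; ring]
      ring
    rw [e1] at h2
    refine h2.congr fun n => ?_
    push_cast
    ring

theorem mom_odd_nat (hρ : ContDiffOn ℝ ∞ (ro ρ) UH)
    (S : Setup UH (gR ρ) (aR ρ) (fun n => 1 / m n) (fun n z => (φ n (ofComplex z) : ℂ)))
    (hs : Semiclassical ρ φ m μ) {ζ : ℂ → ℂ} (hζ : Test UH ζ) {k : ℕ} (hk : Odd k) :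
    mom ρ μ ζ k = 0 := by
  have h1 := up_nat hρ S hs hζ k 0
  have h2 := base_nat hρ S hs k hζ
  have h3 : (-1) ^ k * mom ρ μ ζ ((k : ℤ) + ((0 : ℕ) : ℤ)) = mom ρ μ ζ k := by
    refine tendsto_nhds_unique h1 (h2.congr fun n => ?_)
    refine integral_congr_ae (Eventually.of_forall fun z => ?_)
    simp only [Nat.cast_zero]
    ring
  rw [hk.neg_one_pow, Nat.cast_zero, add_zero] at h3
  have h4 : 2 * mom ρ μ ζ k = 0 := by linear_combination -h3
  rcases mul_eq_zero.1 h4 with h5 | h5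
  · norm_num at h5
  · exact h5

/-- the case `j = 0` -/
theorem base (hρ : ContDiffOn ℝ ∞ (ro ρ) UH)
    (S : Setup UH (gR ρ) (aR ρ) (fun n => 1 / m n) (fun n z => (φ n (ofComplex z) : ℂ)))
    (hs : Semiclassical ρ φ m μ) {ζ : ℂ → ℂ} (hζ : Test UH ζ) (l : ℤ) :
    Tendsto (fun n => ∫ z, ζ z
        * (E (fun n => 1 / m n) (aR ρ) (fun n z => (φ n (ofComplex z) : ℂ)) 0 n z
          * E (fun n => 1 / m n) (aR ρ) (fun n z => (φ n (ofComplex z) : ℂ)) l n z)) atTop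
      (𝓝 (mom ρ μ ζ l)) := by
  obtain ⟨k, rfl | rfl⟩ := l.eq_nat_or_neg
  · exact base_nat hρ S hs k hζ
  · have h1 := base_nat hρ S hs k hζ.conj
    have h2 := ((continuous_conj.tendsto _).comp h1).const_mul ((-1 : ℂ) ^ k)
    have h3 : (-1 : ℂ) ^ k * (starRingEnd ℂ) (mom ρ μ (fun z => (starRingEnd ℂ) (ζ z)) k)
        = mom ρ μ ζ (-k) := by
      rcases Nat.even_or_odd k with he | ho
      · rw [he.neg_one_pow, one_mul, mom_conj]
      · rw [← mom_conj, mom_odd_nat hρ S hs hζ.conj ho, map_zero, mul_zero]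
    rw [h3] at h2
    refine h2.congr fun n => ?_
    simp only [Function.comp_apply]
    rw [← integral_conj, ← integral_const_mul]
    have e2 := hζ.integral_congr
      (f := fun z => E (fun n => 1 / m n) (aR ρ) (fun n z => (φ n (ofComplex z) : ℂ)) 0 n z
          * E (fun n => 1 / m n) (aR ρ) (fun n z => (φ n (ofComplex z) : ℂ)) (-(k : ℤ)) n z)
      (f' := fun z => (-1 : ℂ) ^ k * ((starRingEnd ℂ)
        (E (fun n => 1 / m n) (aR ρ) (fun n z => (φ n (ofComplex z) : ℂ)) 0 n z)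
        * (starRingEnd ℂ) (E (fun n => 1 / m n) (aR ρ)
          (fun n z => (φ n (ofComplex z) : ℂ)) (k : ℤ) n z))) (fun z hz => by
        have e3 : (starRingEnd ℂ)
            (E (fun n => 1 / m n) (aR ρ) (fun n z => (φ n (ofComplex z) : ℂ)) 0 n z)
            = E (fun n => 1 / m n) (aR ρ) (fun n z => (φ n (ofComplex z) : ℂ)) 0 n z :=
          S.real n z hz
        rw [e3, S.E_neg k n z hz]
        have e4 : E (fun n => 1 / m n) (aR ρ) (fun n z => (φ n (ofComplex z) : ℂ)) (k : ℤ) n z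
            = jet (fun n => 1 / m n) (aR ρ) (fun n z => (φ n (ofComplex z) : ℂ)) k n z := rfl
        rw [e4]
        ring)
    rw [e2]
    refine integral_congr_ae (Eventually.of_forall fun z => ?_)
    simp only [map_mul, starRingEnd_self_apply]
    ring

end SEMTWO

open SEMTWO in
theorem semTwo : StmtSemTwo := by
  intro ρ φ m μ hρ S hs j l ζ hζ
  have hb := base hρ S hs hζ
  have up : ∀ j : ℤ, (∀ l : ℤ, Tendsto (fun n => ∫ z, ζ z
        * (E (fun n => 1 / m n) (aR ρ) (fun n z => (φ n (ofComplex z) : ℂ)) j n z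
          * E (fun n => 1 / m n) (aR ρ) (fun n z => (φ n (ofComplex z) : ℂ)) l n z)) atTop
      (𝓝 ((-1) ^ j * mom ρ μ ζ (j + l)))) →
      ∀ l : ℤ, Tendsto (fun n => ∫ z, ζ z
        * (E (fun n => 1 / m n) (aR ρ) (fun n z => (φ n (ofComplex z) : ℂ)) (j + 1) n z
          * E (fun n => 1 / m n) (aR ρ) (fun n z => (φ n (ofComplex z) : ℂ)) l n z)) atTop
      (𝓝 ((-1) ^ (j + 1) * mom ρ μ ζ ((j + 1) + l))) := by
    intro j hj l
    have h2 := (S.int_add j l hζ).sub (hj (l + 1))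
    have e1 : (0 : ℂ) - (-1) ^ j * mom ρ μ ζ (j + (l + 1))
        = (-1) ^ (j + 1) * mom ρ μ ζ ((j + 1) + l) := by
      rw [show j + (l + 1) = (j + 1) + l by ring, zpow_add_one₀ (by norm_num)]
      ring
    rw [e1] at h2
    refine h2.congr fun n => ?_
    ring
  have down : ∀ j : ℤ, (∀ l : ℤ, Tendsto (fun n => ∫ z, ζ z
        * (E (fun n => 1 / m n) (aR ρ) (fun n z => (φ n (ofComplex z) : ℂ)) j n z
          * E (fun n => 1 / m n) (aR ρ) (fun n z => (φ n (ofComplex z) : ℂ)) l n z)) atTop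
      (𝓝 ((-1) ^ j * mom ρ μ ζ (j + l)))) →
      ∀ l : ℤ, Tendsto (fun n => ∫ z, ζ z
        * (E (fun n => 1 / m n) (aR ρ) (fun n z => (φ n (ofComplex z) : ℂ)) (j - 1) n z
          * E (fun n => 1 / m n) (aR ρ) (fun n z => (φ n (ofComplex z) : ℂ)) l n z)) atTop
      (𝓝 ((-1) ^ (j - 1) * mom ρ μ ζ ((j - 1) + l))) := by
    intro j hj l
    have h2 := (S.int_add (j - 1) (l - 1) hζ).sub (hj (l - 1))
    have e1 : (0 : ℂ) - (-1) ^ j * mom ρ μ ζ (j + (l - 1))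
        = (-1) ^ (j - 1) * mom ρ μ ζ ((j - 1) + l) := by
      rw [show j + (l - 1) = (j - 1) + l by ring, zpow_sub_one₀ (by norm_num)]
      ring
    rw [e1] at h2
    refine h2.congr fun n => ?_
    have e2 : j - 1 + 1 = j := by ring
    have e3 : l - 1 + 1 = l := by ring
    rw [e2, e3]
    ring
  have key : ∀ j : ℤ, ∀ l : ℤ, Tendsto (fun n => ∫ z, ζ z
        * (E (fun n => 1 / m n) (aR ρ) (fun n z => (φ n (ofComplex z) : ℂ)) j n z
          * E (fun n => 1 / m n) (aR ρ) (fun n z => (φ n (ofComplex z) : ℂ)) l n z)) atTop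
      (𝓝 ((-1) ^ j * mom ρ μ ζ (j + l))) := by
    intro j
    induction j using Int.induction_on with
    | zero => intro l; simpa using hb l
    | succ i ih => exact up _ ih
    | pred i ih => exact down _ ih
  exact key j l

end

end NFP
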