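import Pool.Agent.BWM.Defs

/-!
# Semiclassical measures and four-point functions of eigenfunctions on surfaces: definitions
-/

open Complex MeasureTheory Filter Topology UpperHalfPlane
open scoped ContDiff

namespace NFP

noncomputable section

/-- the unit circle, the set of directions -/
abbrev S1 : Type := Metric.sphere (0 : ℂ) 1

/-- **Semiclassical measures.** The measure `μ` on `ℍ × S¹`, finite over the compact subsets of `ℍ`, is
the semiclassical measure of the functions `φₙ` on `ℍ` at the scale `h = 1 / mₙ`, for the metric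
`e^{2ρ} (dx² + dy²) / y²`: for all semiclassical differential operators
`A = ζ(z) (- i h ∂_x)^j (- i h ∂_y)^k`, with `ζ` smooth and compactly supported, the integrals of
`(A φₙ) φₙ` with respect to the area of the metric converge to the integral with respect to `μ` of
the symbol `ζ(z) ξ^j η^k` of `A` at the covector `ξ + i η = (e^ρ / y) w` of length one, for
`(z, w) ∈ ℍ × S¹`. -/
structure Semiclassical (ρ : ℍ → ℝ) (φ : ℕ → ℍ → ℝ) (m : ℕ → ℝ) (μ : Measure (ℍ × S1)) :
    Prop where
  fin : ∀ K : Set ℍ, IsCompact K → μ (K ×ˢ Set.univ) < ⊤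
  lim : ∀ (j k : ℕ) (ζ : ℂ → ℂ), ContDiff ℝ ∞ ζ → HasCompactSupport ζ →
    tsupport ζ ⊆ {w | 0 < w.im} →
    Tendsto (fun n => ∫ z : ℍ, ζ z * ((QE.hD (1 / m n) 1)^[j] ((QE.hD (1 / m n) Complex.I)^[k]
        (fun w => (φ n (ofComplex w) : ℂ))) z * (φ n z : ℂ)) ∂(Berry.area ρ)) atTop
      (𝓝 (∫ p : ℍ × S1, ζ p.1 * (((Real.exp (ρ p.1) / p.1.im * (p.2 : ℂ).re) ^ j
          * (Real.exp (ρ p.1) / p.1.im * (p.2 : ℂ).im) ^ k : ℝ) : ℂ) ∂μ))

/-- `K_s(x) = ∫ cos (x · w) s(dw)`, the covariance of the Gaussian wave with the directional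
distribution `s`, a measure on the circle (for the uniform probability measure this is `K`) -/
def dirK (s : Measure S1) (x : ℂ) : ℝ := ∫ w, Real.cos (x * (starRingEnd ℂ) (w : ℂ)).re ∂s

/-- the average over the rotations `R` of the plane of the sum over the three pairings of
`K_s(R(xᵢ - xⱼ)) K_s(R(x_k - x_l))`, the four-point function of the Gaussian wave with the
directional distribution `s` in a random frame -/
def dirWick (s : Measure S1) (x : Fin 4 → ℂ) : ℝ :=
  1 / (2 * Real.pi) * ∫ θ in (0 : ℝ)..(2 * Real.pi),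
    (dirK s (Complex.exp (θ * Complex.I) * (x 0 - x 1))
        * dirK s (Complex.exp (θ * Complex.I) * (x 2 - x 3))
      + dirK s (Complex.exp (θ * Complex.I) * (x 0 - x 2))
        * dirK s (Complex.exp (θ * Complex.I) * (x 1 - x 3))
      + dirK s (Complex.exp (θ * Complex.I) * (x 0 - x 3))
        * dirK s (Complex.exp (θ * Complex.I) * (x 1 - x 2)))

/-- the four-point function (times three) of the waves in one random direction -/
def resK (x : Fin 4 → ℂ) : ℝ :=
  Berry.waveK (x 0 + x 1 - x 2 - x 3) + Berry.waveK (x 0 + x 2 - x 1 - x 3)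
    + Berry.waveK (x 0 + x 3 - x 1 - x 2)

/-- the Fourier coefficients `∫ w^{-k} s(dw)` of a measure on the circle -/
def cof (s : Measure S1) (k : ℤ) : ℂ := ∫ w, (w : ℂ) ^ (-k) ∂s

end

end NFP
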