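import Pool.Agent.NFP.Defs
import Pool.Agent.BWM.C23

/-!
# Semiclassical measures of arbitrary sequences of eigenfunctions: statements of the steps
-/

open Complex MeasureTheory Filter Topology Set
open UpperHalfPlane hiding I
open scoped ContDiff MatrixGroups

namespace NFP

open QE QE.NC QJ U3

noncomputable section

/-- SEMU: the limits of the products of two jets are the moments of the semiclassical measure -/
def StmtSemU : Prop :=
  ∀ (ρ : ℍ → ℝ) (φ : ℕ → ℍ → ℝ) (m : ℕ → ℝ) (μ : Measure (ℍ × S1)),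
    ContDiffOn ℝ ∞ (ro ρ) UH →
    LocU UH (gr ρ) (fun n => 1 / m n) (fun n z => (φ n (ofComplex z) : ℂ)) →
    Semiclassical ρ φ m μ →
    ∀ (V : Set ℂ) (σ : ℂ → ℝ) (φ' : ℕ → ℂ → ℂ),
      Agree V UH (gr ρ) (fun n => 1 / m n) (fun n z => (φ n (ofComplex z) : ℂ)) σ φ' →
      ∀ (j l : ℤ) (ζ : ℂ → ℂ), Test V ζ →
        Tendsto (fun n => ∫ z, ζ z * (QJ.E σ (fun n => 1 / m n) φ' j n z
          * QJ.E σ (fun n => 1 / m n) φ' l n z)) atTop
          (𝓝 ((-1) ^ l * ∫ p : ℍ × S1, ζ p.1 * ((Real.exp (-(2 * σ p.1)) : ℝ) : ℂ)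
            * (Complex.I * (starRingEnd ℂ) (p.2 : ℂ)) ^ (j + l) ∂μ))

/-- USEM: conversely, a measure with these moments is the semiclassical measure -/
def StmtUSem : Prop :=
  ∀ (ρ : ℍ → ℝ) (φ : ℕ → ℍ → ℝ) (m : ℕ → ℝ) (μ : Measure (ℍ × S1)),
    ContDiffOn ℝ ∞ (ro ρ) UH →
    LocU UH (gr ρ) (fun n => 1 / m n) (fun n z => (φ n (ofComplex z) : ℂ)) →
    (∀ K : Set ℍ, IsCompact K → μ (K ×ˢ univ) < ⊤) →
    (∀ (V : Set ℂ) (σ : ℂ → ℝ) (φ' : ℕ → ℂ → ℂ),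
      Agree V UH (gr ρ) (fun n => 1 / m n) (fun n z => (φ n (ofComplex z) : ℂ)) σ φ' →
      ∀ (j : ℤ) (ζ : ℂ → ℂ), Test V ζ →
        Tendsto (fun n => ∫ z, ζ z * (QJ.E σ (fun n => 1 / m n) φ' j n z
          * QJ.E σ (fun n => 1 / m n) φ' 0 n z)) atTop
          (𝓝 (∫ p : ℍ × S1, ζ p.1 * ((Real.exp (-(2 * σ p.1)) : ℝ) : ℂ)
            * (Complex.I * (starRingEnd ℂ) (p.2 : ℂ)) ^ j ∂μ))) →
    Semiclassical ρ φ m μ

/-- EXIST: every sequence of eigenfunctions with bounded mean square has a subsequence with a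
semiclassical measure -/
def StmtExist : Prop :=
  ∀ (Γ : Subgroup SL(2, ℝ)) (ρ : ℍ → ℝ) (D : Set ℍ) (φ : ℕ → ℍ → ℝ) (m : ℕ → ℝ), Countable Γ →
    Fac Γ ρ → MeasurableSet D → IsFundamentalDomain Γ D (volume : Measure ℍ) →
    Berry.REigenSeq Γ ρ φ m →
    (∀ n, ContDiffOn ℝ ∞ (fun w : ℂ => φ n (ofComplex w)) {w | 0 < w.im}) →
    (∀ n, Berry.rAvg ρ D (fun z => φ n z ^ 2) = 1) →
    ∃ (s : ℕ → ℕ) (μ : Measure (ℍ × S1)), StrictMono s ∧
      Semiclassical ρ (fun n => φ (s n)) (fun n => m (s n)) μ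

end

end NFP
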