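import Pool.Agent.NFP.St
import Pool.Agent.BWM.C44

/-!
# The four-point formula for sequences with bounded fourth moments (module NFP_BND)
-/

open Complex MeasureTheory Filter Topology Set
open UpperHalfPlane hiding I
open scoped ContDiff MatrixGroups ProbabilityTheory ENNReal Pointwise

namespace NFP

open QE QE.NC

noncomputable section

namespace BND

variable {Γ : Subgroup SL(2, ℝ)} {ρ : ℍ → ℝ} {D : Set ℍ}

/-- integrals over a fundamental domain of functions which are invariant almost everywhere -/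
theorem lint_le [Countable Γ] (hD : IsFundamentalDomain Γ D (volume : Measure ℍ)) {K : Set ℍ}
    (hcov : ∀ z, ∃ γ ∈ Γ, γ • z ∈ K) {f : ℍ → ℝ≥0∞} (hf : ∀ γ ∈ Γ, ∀ᵐ z : ℍ, f (γ • z) = f z) :
    ∫⁻ z in D, f z ≤ ∫⁻ z in K, f z := by
  have h1 : D ⊆ ⋃ g : Γ, (g • K ∩ D) := by
    intro z hz
    obtain ⟨γ, hγ, h⟩ := hcov z
    refine mem_iUnion.2 ⟨(⟨γ, hγ⟩ : Γ)⁻¹, ?_, hz⟩
    rw [mem_inv_smul_set_iff]
    exact h
  calc ∫⁻ z in D, f z ≤ ∫⁻ z in ⋃ g : Γ, (g • K ∩ D), f z := lintegral_mono_set h1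
    _ ≤ ∑' g : Γ, ∫⁻ z in g • K ∩ D, f z := lintegral_iUnion_le _ _
    _ = ∑' g : Γ, ∫⁻ z in g • K ∩ D, f (g⁻¹ • z) := by
        refine tsum_congr fun g => lintegral_congr_ae (ae_restrict_of_ae ?_)
        filter_upwards [hf _ (g⁻¹).2] with z hz
        exact hz.symm
    _ = ∫⁻ z in K, f z := (hD.setLIntegral_eq_tsum' f K).symm

theorem sq_int [Countable Γ] (hD : IsFundamentalDomain Γ D (volume : Measure ℍ))
    (hK : ∃ K : Set ℍ, IsCompact K ∧ ∀ z, ∃ γ ∈ Γ, γ • z ∈ K) {p : ℍ → ℝ} (hpm : Measurable p)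
    (hinv : ∀ γ ∈ Γ, ∀ᵐ z : ℍ, p (γ • z) = p z) {u0 : ℂ → ℂ} (hu : LocL2 UH u0)
    (he : ∀ᵐ z : ℍ, u0 z = (p z : ℂ)) : IntegrableOn (fun z => p z ^ 2) D (volume : Measure ℍ) := by
  obtain ⟨K, hKc, hcov⟩ := hK
  have h1 : MemLp p 2 ((volume : Measure ℍ).restrict K) := by
    refine (QE.FM.memLp_H hu hKc).re.ae_eq ?_
    filter_upwards [ae_restrict_of_ae he] with z hz
    rw [hz]
    rfl
  have h2 : Integrable (fun z => p z ^ 2) ((volume : Measure ℍ).restrict K) := h1.integrable_sq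
  refine ⟨(hpm.pow_const 2).aestronglyMeasurable, ?_⟩
  refine lt_of_le_of_lt (lint_le hD hcov fun γ hγ => ?_) h2.2
  filter_upwards [hinv γ hγ] with z hz
  rw [hz]

theorem int_area {R : ℝ} (hR : ∀ z, |ρ z| ≤ R) {f : ℍ → ℝ}
    (hf : IntegrableOn f D (volume : Measure ℍ)) : IntegrableOn f D (Berry.area ρ) := by
  have h1 : Berry.area ρ ≤ ENNReal.ofReal (Real.exp (2 * R)) • (volume : Measure ℍ) := by
    unfold Berry.area
    rw [← withDensity_const]
    exact withDensity_mono (Eventually.of_forall fun z =>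
      ENNReal.ofReal_le_ofReal (Real.exp_le_exp.2 (by have := (abs_le.1 (hR z)).2; linarith)))
  have h2 : (Berry.area ρ).restrict D ≤ ENNReal.ofReal (Real.exp (2 * R)) •
      (volume : Measure ℍ).restrict D := by
    rw [← Measure.restrict_smul]
    exact Measure.restrict_mono_measure h1 D
  exact (Integrable.smul_measure hf ENNReal.ofReal_ne_top).mono_measure h2

theorem cof_zero (s : Measure S1) : cof s 0 = ((s univ).toReal : ℂ) := by
  unfold cof
  simp [Measure.real]

/-- the data -/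
structure Dat (Γ : Subgroup SL(2, ℝ)) (ρ : ℍ → ℝ) (D : Set ℍ) (φ : ℕ → ℍ → ℝ) (m : ℕ → ℝ)
    (u : ℤ → ℂ → ℂ) (s : ProbabilityTheory.Kernel ℍ S1) : Prop where
  ws : WS Γ ρ D φ m (fun n => 1 / m n) (gR ρ)
  set : Setup UH (gR ρ) (aR ρ) (fun n => 1 / m n) (fun n z => (φ n (ofComplex z) : ℂ))
  lim : JetLim UH (fun n => 1 / m n) (aR ρ) (fun n z => (φ n (ofComplex z) : ℂ)) u
  fin : ∀ z, IsFiniteMeasure (s z)
  cof : ∀ k, ∀ᵐ z ∂(volume.restrict UH), u k z = NFP.cof (s (ofComplex z)) k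
  odd : ∀ k, Odd k → ∀ᵐ z ∂(volume.restrict UH), u k z = 0

variable {φ : ℕ → ℍ → ℝ} {m : ℕ → ℝ} {u : ℤ → ℂ → ℂ} {s : ProbabilityTheory.Kernel ℍ S1}

namespace Dat

theorem ue (T : Dat Γ ρ D φ m u s) :
    ∀ᵐ z ∂(volume.restrict UH), u 0 z = (((s (ofComplex z)) univ).toReal : ℂ) := by
  filter_upwards [T.cof 0] with z hz
  rw [hz, cof_zero]

theorem uH (T : Dat Γ ρ D φ m u s) : ∀ᵐ z : ℍ, u 0 z = (((s z) univ).toReal : ℂ) := by
  filter_upwards [QE.FM.ae_H T.ue] with z hz
  rw [hz, ofComplex_apply]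

/-- the rotation averages in the two settings -/
theorem ang_eq (T : Dat Γ ρ D φ m u s) {k : ℕ} (x : Fin k → ℂ) {ψ : ℂ → ℝ} (hψ : ContDiff ℝ ∞ ψ)
    (hψs : HasCompactSupport ψ) (hψU : tsupport ψ ⊆ QE.HH) :
    ∀ᶠ n in atTop, ∫ θ, (∫ z, (ψ z : ℂ) * ∏ i, (φ n (ofComplex (z + ((1 / m n : ℝ) : ℂ) * aR ρ z
        * frXi (fun n => 1 / m n) (em ρ) (x i) n θ z)) : ℂ)) ∂ang
      = ((∫ z, ψ z * angProd ρ (φ n) (m n) x (ofComplex z) : ℝ) : ℂ) := by
  have W := T.ws
  filter_upwards [W.ang_eq x hψ hψs hψU] with n hn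
  rw [← hn]
  refine integral_congr_ae (Eventually.of_forall fun θ => ?_)
  refine integral_congr_ae (Eventually.of_forall fun z => ?_)
  beta_reduce
  by_cases hz : z ∈ UH
  · rw [wt_aR hz]
  · have : ψ z = 0 := image_eq_zero_of_notMem_tsupport fun hh => hz (hψU hh)
    rw [this]; simp

/-- local bounds for the second moments -/
theorem bdd2 (T : Dat Γ ρ D φ m u s) {K : Set ℂ} (hKc : IsCompact K) (hKU : K ⊆ QE.HH) :
    ∃ C : ℝ, ∀ᶠ n in atTop, ∫ z in K, |φ n (ofComplex z) ^ 2| ≤ C := by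
  obtain ⟨M, hM⟩ := T.ws.bdd4 hKc hKU
  refine ⟨(volume K).toReal + M, ?_⟩
  filter_upwards [hM] with n hn
  have cφ : ContinuousOn (fun z : ℂ => φ n (ofComplex z)) QE.HH := cont_ofComplex (T.ws.pc n)
  have i1 : IntegrableOn (fun _ : ℂ => (1 : ℝ)) K := continuousOn_const.integrableOn_compact hKc
  have i4 : IntegrableOn (fun z : ℂ => φ n (ofComplex z) ^ 4) K :=
    ((cφ.mono hKU).pow 4).integrableOn_compact hKc
  calc ∫ z in K, |φ n (ofComplex z) ^ 2|
      ≤ ∫ z in K, (1 + φ n (ofComplex z) ^ 4) := by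
        refine integral_mono_of_nonneg (Eventually.of_forall fun z => abs_nonneg _)
          (i1.add i4) (Eventually.of_forall fun z => ?_)
        beta_reduce
        rw [abs_of_nonneg (sq_nonneg (φ n (ofComplex z)))]
        nlinarith [sq_nonneg (φ n (ofComplex z) ^ 2 - 1), sq_nonneg (φ n (ofComplex z))]
    _ = (volume K).toReal + ∫ z in K, φ n (ofComplex z) ^ 4 := by
        rw [integral_add i1 i4, integral_const, smul_eq_mul, mul_one,
          measureReal_restrict_apply_univ]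
        rfl
    _ ≤ _ := by linarith

/-- the total mass of the kernel is invariant -/
theorem inv [Countable Γ] (T : Dat Γ ρ D φ m u s) (h3 : StmtGlob) :
    ∀ γ ∈ Γ, ∀ᵐ z : ℍ, ((s (γ • z)) univ).toReal = ((s z) univ).toReal := by
  have W := T.ws
  refine (h3 Γ ρ D (fun n z => φ n z ^ 2) (fun z => ((s z) univ).toReal) inferInstance W.geo W.rc
    W.coc (Eventually.of_forall fun n => (W.pc n).pow 2) (fun n γ hγ z => by rw [W.pinv n γ hγ])
    (fun K hKc hKU => T.bdd2 hKc hKU) (fun K hKc hKU => ?_) (fun ψ hψ hψs hψU => ?_)).1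
  · have : IsFiniteMeasure ((volume : Measure ℂ).restrict K) := ⟨by
      rw [Measure.restrict_apply_univ]; exact hKc.measure_lt_top⟩
    have h1 : Integrable (fun z => (u 0 z).re) ((volume : Measure ℂ).restrict K) :=
      ((T.lim.loc 0 K hKc hKU).integrable one_le_two).re
    refine h1.congr ?_
    have h2 := ae_restrict_of_ae_restrict_of_subset (show K ⊆ UH from hKU) T.ue
    filter_upwards [h2] with z hz
    rw [hz, Complex.ofReal_re]
  · have hw0 : WLim UH (fun n z => (φ n (ofComplex z) : ℂ) * (φ n (ofComplex z) : ℂ)) (u 0) :=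
      T.set.lim_zero T.lim.loc T.lim.lim 0
    have h1 := hw0.test (test_of_smooth hψ hψs hψU)
    have h2 := (Complex.continuous_re.tendsto _).comp h1
    have e1 : ∀ n, ∫ z, (ψ z : ℂ) * ((φ n (ofComplex z) : ℂ) * (φ n (ofComplex z) : ℂ))
        = ((∫ z, ψ z * φ n (ofComplex z) ^ 2 : ℝ) : ℂ) := by
      intro n
      refine Eq.trans ?_ (integral_ofReal (𝕜 := ℂ) (μ := volume) (f := fun z : ℂ => ψ z
        * φ n (ofComplex z) ^ 2))
      refine integral_congr_ae (Eventually.of_forall fun z => ?_)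
      change _ = ((ψ z * φ n (ofComplex z) ^ 2 : ℝ) : ℂ)
      push_cast
      ring
    have e2 : ∫ z, (ψ z : ℂ) * u 0 z
        = ((∫ z, ψ z * ((s (ofComplex z)) univ).toReal : ℝ) : ℂ) := by
      refine Eq.trans ?_ (integral_ofReal (𝕜 := ℂ) (μ := volume) (f := fun z : ℂ => ψ z
        * ((s (ofComplex z)) univ).toReal))
      refine integral_congr_ae ?_
      have h4 := (ae_restrict_iff' isOpen_UH.measurableSet).1 T.ue
      filter_upwards [h4] with z hz
      change _ = ((ψ z * ((s (ofComplex z)) univ).toReal : ℝ) : ℂ)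
      by_cases hzU : z ∈ UH
      · rw [hz hzU]
        push_cast
        ring
      · rw [image_eq_zero_of_notMem_tsupport fun hh => hzU (hψU hh)]
        simp
    rw [e2] at h2
    refine (h2.congr fun n => ?_)
    rw [Function.comp_apply, e1, Complex.ofReal_re]

theorem pm : Measurable fun z => ((s z) univ).toReal :=
  (s.measurable_coe MeasurableSet.univ).ennreal_toReal

/-- the square of the total mass is integrable -/
theorem psq [Countable Γ] (T : Dat Γ ρ D φ m u s) (h3 : StmtGlob) :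
    IntegrableOn (fun z => ((s z) univ).toReal ^ 2) D (Berry.area ρ) := by
  obtain ⟨R, hR⟩ := T.ws.geo.bdd
  exact int_area hR (sq_int T.ws.geo.dom T.ws.coc pm (T.inv h3) (T.lim.loc 0) T.uH)

/-- the local limit -/
theorem loc (T : Dat Γ ρ D φ m u s) (h2 : StmtFourVar) (x : Fin 4 → ℂ) :
    (∀ K, IsCompact K → K ⊆ UH →
      IntegrableOn (fun z => dirWick (s (ofComplex z)) x) K ∧
      IntegrableOn (fun z => ((s (ofComplex z)) univ).toReal ^ 2) K) ∧
    ∀ ψ : ℂ → ℝ, ContDiff ℝ ∞ ψ → HasCompactSupport ψ → tsupport ψ ⊆ QE.HH →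
      Tendsto (fun n => ∫ z, ψ z * (angProd ρ (φ n) (m n) x (ofComplex z)
        - defc x * φ n (ofComplex z) ^ 4)) atTop
      (𝓝 (∫ z, ψ z * (dirWick (s (ofComplex z)) x
        - 3 * defc x * ((s (ofComplex z)) univ).toReal ^ 2))) := by
  have h0 := h2 UH (gR ρ) (aR ρ) (fun n => 1 / m n) (fun n z => (φ n (ofComplex z) : ℂ)) u
    (fun z => s (ofComplex z)) T.set T.lim (fun z => T.fin _) T.cof T.odd x
  refine ⟨h0.1, fun ψ hψ hψs hψU => ?_⟩
  have W := T.ws
  obtain ⟨δ, hδ, hδU⟩ := exists_thick hψs hψU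
  have h1 := h0.2 (tsupport ψ) hψs δ hδ hδU 2 two_ne_zero
    (fun i => frXi (fun n => 1 / m n) (em ρ) (x i))
    (fun i => (W.disp hψs hψU (x i)).congr_a fun z hz => (wt_aR (hψU hz)).symm)
    (fun z => (ψ z : ℂ)) (test_of_smooth hψ hψs hψU) (by rw [Test.tsupport_eq])
  obtain ⟨k1, k2⟩ := h0.1 (tsupport ψ) hψs hψU
  have cψ : ContinuousOn ψ (tsupport ψ) := hψ.continuous.continuousOn
  -- integrals over the plane
  have hset : ∀ f : ℂ → ℝ, ∫ z, ψ z * f z = ∫ z in tsupport ψ, ψ z * f z := by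
    intro f
    rw [setIntegral_eq_integral_of_forall_compl_eq_zero]
    intro z hz
    rw [image_eq_zero_of_notMem_tsupport hz, zero_mul]
  have hint : ∀ f : ℂ → ℝ, IntegrableOn f (tsupport ψ) → Integrable fun z => ψ z * f z := by
    intro f hf
    have h5 : IntegrableOn (fun z => ψ z * f z) (tsupport ψ) := by
      exact hf.continuousOn_mul cψ hψs
    rw [← integrableOn_iff_integrable_of_support_subset (s := tsupport ψ)]
    · exact h5
    · exact (Function.support_mul_subset_left _ _).trans (subset_tsupport ψ)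
  have j1 := hint _ k1
  have j2 := hint _ k2
  have e2 : ∫ z, ψ z * (dirWick (s (ofComplex z)) x
      - 3 * defc x * ((s (ofComplex z)) univ).toReal ^ 2)
      = (∫ z, ψ z * dirWick (s (ofComplex z)) x)
        - 3 * defc x * ∫ z, ψ z * ((s (ofComplex z)) univ).toReal ^ 2 := by
    rw [← integral_const_mul, ← integral_sub j1 (j2.const_mul _)]
    congr 1; funext z; ring
  have c1 : ∫ z, (ψ z : ℂ) * (dirWick (s (ofComplex z)) x : ℂ)
      = ((∫ z, ψ z * dirWick (s (ofComplex z)) x : ℝ) : ℂ) := by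
    refine Eq.trans ?_ (integral_ofReal (𝕜 := ℂ) (μ := volume) (f := fun z : ℂ => ψ z
      * dirWick (s (ofComplex z)) x))
    refine integral_congr_ae (Eventually.of_forall fun z => ?_)
    change _ = ((ψ z * dirWick (s (ofComplex z)) x : ℝ) : ℂ)
    push_cast; rfl
  have c2 : ∫ z, (ψ z : ℂ) * ((((s (ofComplex z)) univ).toReal ^ 2 : ℝ) : ℂ)
      = ((∫ z, ψ z * ((s (ofComplex z)) univ).toReal ^ 2 : ℝ) : ℂ) := by
    refine Eq.trans ?_ (integral_ofReal (𝕜 := ℂ) (μ := volume) (f := fun z : ℂ => ψ z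
      * ((s (ofComplex z)) univ).toReal ^ 2))
    refine integral_congr_ae (Eventually.of_forall fun z => ?_)
    change _ = ((ψ z * ((s (ofComplex z)) univ).toReal ^ 2 : ℝ) : ℂ)
    push_cast; rfl
  have c3 : ∀ n, ∫ z, (ψ z : ℂ) * ((φ n (ofComplex z) : ℂ) * (φ n (ofComplex z) : ℂ)
      * ((φ n (ofComplex z) : ℂ) * (φ n (ofComplex z) : ℂ)))
      = ((∫ z, ψ z * φ n (ofComplex z) ^ 4 : ℝ) : ℂ) := by
    intro n
    refine Eq.trans ?_ (integral_ofReal (𝕜 := ℂ) (μ := volume) (f := fun z : ℂ => ψ z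
      * φ n (ofComplex z) ^ 4))
    refine integral_congr_ae (Eventually.of_forall fun z => ?_)
    change _ = ((ψ z * φ n (ofComplex z) ^ 4 : ℝ) : ℂ)
    push_cast
    ring
  rw [e2, ← tendsto_sub_nhds_zero_iff]
  have h3 : Tendsto (fun n => (((∫ z, ψ z * (angProd ρ (φ n) (m n) x (ofComplex z)
        - defc x * φ n (ofComplex z) ^ 4)) - ((∫ z, ψ z * dirWick (s (ofComplex z)) x)
        - 3 * defc x * ∫ z, ψ z * ((s (ofComplex z)) univ).toReal ^ 2) : ℝ) : ℂ)) atTop
      (𝓝 0) := by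
    refine h1.congr' ?_
    filter_upwards [T.ang_eq x hψ hψs hψU, W.ac x] with n n1 n3
    beta_reduce
    rw [n1, c1, c2, c3]
    have j3 : Integrable (fun z => ψ z * angProd ρ (φ n) (m n) x (ofComplex z)) :=
      (Surf.continuous_cut_mul hψ.continuous hψU n3).integrable_of_hasCompactSupport
        hψs.mul_right
    have j4 : Integrable (fun z => ψ z * φ n (ofComplex z) ^ 4) :=
      (Surf.continuous_cut_mul hψ.continuous hψU ((W.pc n).pow 4)).integrable_of_hasCompactSupport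
        hψs.mul_right
    have e3 : ∫ z, ψ z * (angProd ρ (φ n) (m n) x (ofComplex z) - defc x * φ n (ofComplex z) ^ 4)
        = (∫ z, ψ z * angProd ρ (φ n) (m n) x (ofComplex z))
          - defc x * ∫ z, ψ z * φ n (ofComplex z) ^ 4 := by
      rw [← integral_const_mul, ← integral_sub j3 (j4.const_mul _)]
      congr 1; funext z; ring
    rw [e3]
    push_cast
    ring
  have h4 := (Complex.continuous_re.tendsto 0).comp h3
  simpa only [Function.comp_def, Complex.ofReal_re, Complex.zero_re] using h4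

/-- the formula for the averages -/
theorem glob [Countable Γ] (T : Dat Γ ρ D φ m u s) (h2 : StmtFourVar) (h3 : StmtGlob)
    (x : Fin 4 → ℂ) (w : ℍ → ℝ) (hw : Continuous w) (hwi : ∀ γ ∈ Γ, ∀ z, w (γ • z) = w z) :
    IntegrableOn (fun z => w z * (dirWick (s z) x - 3 * defc x * ((s z) univ).toReal ^ 2)) D
      (Berry.area ρ) ∧
    Tendsto (fun n => Berry.rAvg ρ D (fun z => w z * (angProd ρ (φ n) (m n) x z
        - defc x * φ n z ^ 4))) atTop
      (𝓝 (Berry.rAvg ρ D (fun z => w z * (dirWick (s z) x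
        - 3 * defc x * ((s z) univ).toReal ^ 2)))) := by
  have W := T.ws
  have h0 := T.loc h2 x
  refine (h3 Γ ρ D (fun n z => angProd ρ (φ n) (m n) x z - defc x * φ n z ^ 4)
    (fun z => dirWick (s z) x - 3 * defc x * ((s z) univ).toReal ^ 2) inferInstance W.geo W.rc
    W.coc ((W.ac x).mono fun n hn => hn.sub (continuous_const.mul ((W.pc n).pow 4)))
    (fun n γ hγ z => by rw [angProd_inv (W.pinv n) W.geo.inv (m n) x γ hγ z, W.pinv n γ hγ])
    (fun K hKc hKU => ?_) (fun K hKc hKU => ?_) (fun ψ hψ hψs hψU => h0.2 ψ hψ hψs hψU)).2 w hw hwi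
  · obtain ⟨C, hC⟩ := W.defect_bdd x (prod_le_four le_rfl) 0 (defc x) hKc hKU
    refine ⟨C, ?_⟩
    filter_upwards [hC] with n hn
    simpa only [zero_add] using hn
  · obtain ⟨k1, k2⟩ := h0.1 K hKc hKU
    exact k1.sub (k2.const_mul _)

/-- the expectation in a random frame -/
theorem frame [Countable Γ] (T : Dat Γ ρ D φ m u s) (x : Fin 4 → ℂ) (w : ℍ → ℝ)
    (hw : Continuous w) (hwi : ∀ γ ∈ Γ, ∀ z, w (γ • z) = w z) :
    ∀ᶠ n in atTop, ∫ p, w p.1 * (Berry.rWave ρ (φ n) (m n) (x 0) p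
          * Berry.rWave ρ (φ n) (m n) (x 1) p * Berry.rWave ρ (φ n) (m n) (x 2) p
          * Berry.rWave ρ (φ n) (m n) (x 3) p) ∂(Berry.rFrameProb ρ D)
      = Berry.rAvg ρ D (fun z => w z * (angProd ρ (φ n) (m n) x z - defc x * φ n z ^ 4))
        + defc x * Berry.rAvg ρ D (fun z => w z * φ n z ^ 4) := by
  have W := T.ws
  filter_upwards [W.wc x, W.ac x] with n hn1 hn2
  obtain ⟨C₀, hC₀⟩ := Berry.bdd_of_cocompact hw hwi W.coc
  obtain ⟨C₁, hC₁⟩ := Berry.bdd_of_cocompact hn2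
    (angProd_inv (W.pinv n) W.geo.inv (m n) x) W.coc
  obtain ⟨C₂, hC₂⟩ := Berry.bdd_of_cocompact (W.pc n) (W.pinv n) W.coc
  have hcond : IsProbabilityMeasure (ProbabilityTheory.cond (Berry.area ρ) D) :=
    ProbabilityTheory.cond_isProbabilityMeasure_of_finite (Berry.area_ne_zero W.geo)
      (Berry.area_ne_top W.geo)
  have i1 : Integrable (fun z => w z * angProd ρ (φ n) (m n) x z)
      (ProbabilityTheory.cond (Berry.area ρ) D) :=
    Integrable.of_bound (hw.mul hn2).aestronglyMeasurable (|C₀| * |C₁|)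
      (Eventually.of_forall fun z => by
        rw [norm_mul, Real.norm_eq_abs, Real.norm_eq_abs]
        exact mul_le_mul ((hC₀ z).trans (le_abs_self _)) ((hC₁ z).trans (le_abs_self _))
          (abs_nonneg _) (abs_nonneg _))
  have i2 : Integrable (fun z => w z * φ n z ^ 4) (ProbabilityTheory.cond (Berry.area ρ) D) :=
    Integrable.of_bound (hw.mul ((W.pc n).pow 4)).aestronglyMeasurable (|C₀| * |C₂| ^ 4)
      (Eventually.of_forall fun z => by
        rw [norm_mul, norm_pow, Real.norm_eq_abs, Real.norm_eq_abs]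
        exact mul_le_mul ((hC₀ z).trans (le_abs_self _))
          (pow_le_pow_left₀ (abs_nonneg _) ((hC₂ z).trans (le_abs_self _)) 4)
          (by positivity) (abs_nonneg _))
  have i3 : Integrable (fun p => w p.1 * ∏ i, Berry.rWave ρ (φ n) (m n) (x i) p)
      ((ProbabilityTheory.cond (Berry.area ρ) D).prod ang) := by
    refine Integrable.of_bound ((hw.comp continuous_fst).mul
      (continuous_finset_prod _ fun i _ => hn1 i)).aestronglyMeasurable
      (|C₀| * ∏ _i : Fin 4, |C₂|) (Eventually.of_forall fun p => ?_)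
    rw [norm_mul, norm_prod, Real.norm_eq_abs]
    refine mul_le_mul ((hC₀ _).trans (le_abs_self _)) (Finset.prod_le_prod
      (fun _ _ => norm_nonneg _) fun i _ => ?_) (Finset.prod_nonneg fun _ _ => norm_nonneg _)
      (abs_nonneg _)
    rw [Real.norm_eq_abs]
    exact (hC₂ _).trans (le_abs_self _)
  have e1 : ∫ p, w p.1 * (Berry.rWave ρ (φ n) (m n) (x 0) p
          * Berry.rWave ρ (φ n) (m n) (x 1) p * Berry.rWave ρ (φ n) (m n) (x 2) p
          * Berry.rWave ρ (φ n) (m n) (x 3) p) ∂(Berry.rFrameProb ρ D)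
      = ∫ z, w z * angProd ρ (φ n) (m n) x z ∂(ProbabilityTheory.cond (Berry.area ρ) D) := by
    have e0 : (fun p : ℍ × ℝ => w p.1 * (Berry.rWave ρ (φ n) (m n) (x 0) p
          * Berry.rWave ρ (φ n) (m n) (x 1) p * Berry.rWave ρ (φ n) (m n) (x 2) p
          * Berry.rWave ρ (φ n) (m n) (x 3) p))
        = fun p => w p.1 * ∏ i, Berry.rWave ρ (φ n) (m n) (x i) p := by
      funext p
      rw [Fin.prod_univ_four]
    rw [e0]
    unfold Berry.rFrameProb
    rw [show (ProbabilityTheory.cond (volume : Measure ℝ) (Set.Ioc 0 (2 * Real.pi))) = ang from rfl,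
      integral_prod _ i3]
    refine integral_congr_ae (Eventually.of_forall fun z => ?_)
    exact integral_const_mul (w z) (fun θ => ∏ i, Berry.rWave ρ (φ n) (m n) (x i) (z, θ))
  have e2 : Berry.rAvg ρ D (fun z => w z * (angProd ρ (φ n) (m n) x z - defc x * φ n z ^ 4))
      = (∫ z, w z * angProd ρ (φ n) (m n) x z ∂(ProbabilityTheory.cond (Berry.area ρ) D))
        - defc x * ∫ z, w z * φ n z ^ 4 ∂(ProbabilityTheory.cond (Berry.area ρ) D) := by
    unfold Berry.rAvg
    rw [← integral_const_mul, ← integral_sub i1 (i2.const_mul _)]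
    congr 1; funext z; ring
  rw [e1, e2]
  unfold Berry.rAvg
  ring

theorem wick_int [Countable Γ] (T : Dat Γ ρ D φ m u s) (h2 : StmtFourVar) (h3 : StmtGlob)
    (x : Fin 4 → ℂ) : IntegrableOn (fun z => dirWick (s z) x) D (Berry.area ρ) := by
  have h1 := (T.glob h2 h3 x (fun _ => 1) continuous_const (fun _ _ _ => rfl)).1
  have h4 := h1.add ((T.psq h3).const_mul (3 * defc x))
  refine h4.congr (Eventually.of_forall fun z => ?_)
  simp only [Pi.add_apply]
  ring

theorem int_w [Countable Γ] (T : Dat Γ ρ D φ m u s) {w : ℍ → ℝ} (hw : Continuous w)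
    (hwi : ∀ γ ∈ Γ, ∀ z, w (γ • z) = w z) {f : ℍ → ℝ} (hf : IntegrableOn f D (Berry.area ρ)) :
    IntegrableOn (fun z => w z * f z) D (Berry.area ρ) := by
  obtain ⟨C₀, hC₀⟩ := Berry.bdd_of_cocompact hw hwi T.ws.coc
  exact Integrable.bdd_mul hf hw.aestronglyMeasurable.restrict
    (Eventually.of_forall fun z => by rw [Real.norm_eq_abs]; exact hC₀ z)

theorem main [Countable Γ] (T : Dat Γ ρ D φ m u s) (h2 : StmtFourVar) (h3 : StmtGlob)
    (w : ℍ → ℝ) (hw : Continuous w) (hwi : ∀ γ ∈ Γ, ∀ z, w (γ • z) = w z) (x : Fin 4 → ℂ) :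
    Tendsto (fun n => (∫ p, w p.1 * (Berry.rWave ρ (φ n) (m n) (x 0) p
          * Berry.rWave ρ (φ n) (m n) (x 1) p * Berry.rWave ρ (φ n) (m n) (x 2) p
          * Berry.rWave ρ (φ n) (m n) (x 3) p) ∂(Berry.rFrameProb ρ D))
        - (Berry.rAvg ρ D (fun z => w z * dirWick (s z) x)
          + (Berry.rAvg ρ D (fun z => w z * φ n z ^ 4)
            - 3 * Berry.rAvg ρ D (fun z => w z * (s z univ).toReal ^ 2)) / 3 * resK x))
        atTop (𝓝 0) := by
  have h1 := (T.glob h2 h3 x w hw hwi).2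
  have hcond : ∀ f : ℍ → ℝ, IntegrableOn f D (Berry.area ρ) →
      Integrable f (ProbabilityTheory.cond (Berry.area ρ) D) := by
    intro f hf
    unfold ProbabilityTheory.cond
    exact hf.smul_measure (ENNReal.inv_ne_top.2 (Berry.area_ne_zero T.ws.geo))
  have i1 := hcond _ (T.int_w hw hwi (T.wick_int h2 h3 x))
  have i2 := hcond _ (T.int_w hw hwi (T.psq h3))
  have e1 : Berry.rAvg ρ D (fun z => w z * (dirWick (s z) x
        - 3 * defc x * ((s z) univ).toReal ^ 2))
      = Berry.rAvg ρ D (fun z => w z * dirWick (s z) x)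
        - 3 * defc x * Berry.rAvg ρ D (fun z => w z * (s z univ).toReal ^ 2) := by
    unfold Berry.rAvg
    rw [← integral_const_mul, ← integral_sub i1 (i2.const_mul _)]
    congr 1; funext z; ring
  have e2 : defc x = resK x / 3 := by
    unfold defc resK
    ring
  rw [← tendsto_sub_nhds_zero_iff] at h1
  refine h1.congr' ?_
  filter_upwards [T.frame x w hw hwi] with n hn
  rw [hn, e1, e2]
  ring

end Dat

end BND

/-- BND -/
theorem bnd (h1 : StmtStruct) (h2 : StmtFourVar) (h3 : StmtGlob) : StmtBnd := by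
  intro Γ ρ D φ m μ hΓ hF hDm hD hφ hs hB hμ
  obtain ⟨B, hB⟩ := hB
  have hK := hF.cpt
  have hρc : Continuous ρ := continuous_of_smooth hF.smooth
  have hc : ∀ n, Continuous (φ n) := fun n => continuous_of_smooth (hs n)
  obtain ⟨N, hN⟩ := (hφ.tendsto.eventually_ge_atTop 1).exists_forall_of_atTop
  have hshift : Tendsto (fun n : ℕ => n + N) atTop atTop := tendsto_add_atTop_nat N
  -- comparison of the averages
  obtain ⟨A₀, hA₀, hAv⟩ := exists_rAvg_eq hDm hD hK hρc hF.inv
  have hvc : Continuous fun z => Real.exp (2 * ρ z) :=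
    Real.continuous_exp.comp (continuous_const.mul hρc)
  obtain ⟨Bv, hBv⟩ := Berry.bdd_of_cocompact (f := fun z => 1 / Real.exp (2 * ρ z))
    (continuous_const.div hvc fun z => (Real.exp_pos _).ne')
    (fun γ hγ z => by rw [hF.inv γ hγ]) hK
  have hBv0 : 0 ≤ Bv := (abs_nonneg _).trans (hBv UpperHalfPlane.I)
  have hcomp : ∀ n, Berry.surfAvg D (fun z => φ n z ^ 4) ≤ Bv * A₀⁻¹ * B := by
    intro n
    have i1 : IntegrableOn (fun z => φ n z ^ 4) D (volume : Measure ℍ) :=
      Surf.integrableOn_of_invariant hD hK ((hc n).pow 4) fun γ hγ z => by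
        rw [hφ.invariant n γ hγ]
    have i2 : IntegrableOn (fun z => Bv * (Real.exp (2 * ρ z) * φ n z ^ 4)) D
        (volume : Measure ℍ) :=
      (Surf.integrableOn_of_invariant hD hK (hvc.mul ((hc n).pow 4)) fun γ hγ z => by
        show Real.exp (2 * ρ (γ • z)) * φ n (γ • z) ^ 4 = Real.exp (2 * ρ z) * φ n z ^ 4
        rw [hφ.invariant n γ hγ, hF.inv γ hγ]).const_mul _
    have h1 : Berry.surfAvg D (fun z => φ n z ^ 4)
        ≤ Berry.surfAvg D (fun z => Bv * (Real.exp (2 * ρ z) * φ n z ^ 4)) := by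
      rw [Surf.surfAvg_eq, Surf.surfAvg_eq]
      refine mul_le_mul_of_nonneg_left (integral_mono i1 i2 fun z => ?_) (by positivity)
      have h3 : 1 / Real.exp (2 * ρ z) ≤ Bv := (le_abs_self _).trans (hBv z)
      have h4 : 1 ≤ Bv * Real.exp (2 * ρ z) := by
        rw [div_le_iff₀ (Real.exp_pos _)] at h3
        exact h3
      have h5 : 0 ≤ φ n z ^ 4 := by positivity
      beta_reduce
      nlinarith
    rw [Surf.surfAvg_const_mul] at h1
    have h6 : Berry.surfAvg D (fun z => Real.exp (2 * ρ z) * φ n z ^ 4) ≤ A₀⁻¹ * B := by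
      have h7 := hB n
      rw [hAv] at h7
      rw [le_inv_mul_iff₀ hA₀]
      exact h7
    calc _ ≤ _ := h1
      _ ≤ Bv * (A₀⁻¹ * B) := mul_le_mul_of_nonneg_left h6 hBv0
      _ = _ := by ring
  have S := stmtSetup Γ ρ (fun n => φ (n + N)) (fun n => m (n + N)) hF (reig_comp hφ hshift)
    (fun n => hs _) (fun n => hN _ (Nat.le_add_left _ _))
    (bdd4_of_avg hD hK (fun n => hc (n + N)) (fun n => hφ.invariant _) (fun n => hcomp _))
  have hμ' : Semiclassical ρ (fun n => φ (n + N)) (fun n => m (n + N)) μ :=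
    ⟨hμ.fin, fun j k ζ a1 a2 a3 => (hμ.lim j k ζ a1 a2 a3).comp hshift⟩
  obtain ⟨u, s, hfin, hμe, -, hL, hcof, hodd⟩ := h1 ρ (fun n => φ (n + N)) (fun n => m (n + N)) μ
    hF.smooth S hμ'
  have T : BND.Dat Γ ρ D (fun n => φ (n + N)) (fun n => m (n + N)) u s := {
    ws := {
      geo := geo_of hDm hD hF.cpt hρc hF.inv
      coc := hF.cpt
      rc := hρc
      pc := fun n => hc _
      pinv := fun n => hφ.invariant _
      mpos := fun n => by have := hN (n + N) (Nat.le_add_left _ _); linarith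
      mlim := hφ.tendsto.comp hshift
      hm := fun _ => rfl
      set := S.congr_a fun z hz => wt_aR hz }
    set := S
    lim := hL
    fin := hfin
    cof := hcof
    odd := hodd }
  refine ⟨s, hfin, hμe, T.psq h3, T.wick_int h2 h3, fun w hw hwi x => ?_⟩
  rw [← tendsto_add_atTop_iff_nat N]
  exact T.main h2 h3 w hw hwi x

end

end NFP
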