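import Pool.Agent.NFP.StU
import Pool.Agent.BWM.C41
import Pool.Agent.BWM.C44

/-!
# EXIST: existence of semiclassical measures along subsequences (helper83)
-/

open Complex MeasureTheory Filter Topology Set
open UpperHalfPlane hiding I
open scoped ContDiff MatrixGroups

namespace NFP

open QE QE.NC QJ U3

noncomputable section

namespace EXIST

/-- the hypotheses `LocU` pass to subsequences -/
lemma locU_comp {U : Set ℂ} {g : ℂ → ℝ} {h : ℕ → ℝ} {φ : ℕ → ℂ → ℂ} (H : LocU U g h φ)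
    {s : ℕ → ℕ} (hs : StrictMono s) : LocU U g (fun k => h (s k)) (fun k => φ (s k)) where
  hpos := fun n => H.hpos _
  hlim := H.hlim.comp hs.tendsto_atTop
  smooth := fun n => H.smooth _
  real := fun n => H.real _
  eig := fun n => H.eig _
  bdd := fun K hK hKV => by
    obtain ⟨C, hC⟩ := H.bdd K hK hKV
    exact ⟨C, hs.tendsto_atTop.eventually hC⟩

/-- the base point and the direction of a frame -/
def pd (g : SL(2, ℝ)) : ℍ × S1 :=
  (g • UpperHalfPlane.I, ⟨dirG g, by rw [mem_sphere_zero_iff_norm]; exact QE.FM.norm_dirG g⟩)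

lemma pd_continuous : Continuous pd := by
  refine Continuous.prodMk ?_ ?_
  · exact continuous_id.smul continuous_const
  · exact QE.FM.continuous_dirG.subtype_mk _

lemma pd_fst (g : SL(2, ℝ)) : (((pd g).1 : ℍ) : ℂ) = pG g := rfl

lemma pd_snd (g : SL(2, ℝ)) : Complex.I * (starRingEnd ℂ) ((pd g).2 : ℂ) = uG g := rfl

/-- the measure on the circle bundle is finite over compact sets -/
lemma fin_over [MeasurableSpace SL(2, ℝ)] [BorelSpace SL(2, ℝ)] (ν : Measure SL(2, ℝ))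
    (hν : IsFiniteMeasureOnCompacts ν) (K : Set ℍ) (hK : IsCompact K) :
    (ν.map pd) (K ×ˢ univ) < ⊤ := by
  rw [Measure.map_apply pd_continuous.measurable (hK.measurableSet.prod MeasurableSet.univ)]
  have h1 : pd ⁻¹' (K ×ˢ univ) = pG ⁻¹' ((fun z : ℍ => (z : ℂ)) '' K) := by
    ext g
    constructor
    · intro hg
      exact ⟨(pd g).1, hg.1, rfl⟩
    · rintro ⟨z, hz, hzg⟩
      refine ⟨?_, mem_univ _⟩
      have h2 : z = (pd g).1 := UpperHalfPlane.ext (by exact hzg)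
      rw [← h2]
      exact hz
  rw [h1]
  have h3 : IsCompact ((fun z : ℍ => (z : ℂ)) '' K) := hK.image UpperHalfPlane.continuous_coe
  refine (stmtRot.2.2.2.2.2.2.2 _ h3 ?_).measure_lt_top
  rintro _ ⟨z, -, rfl⟩
  exact z.im_pos

end EXIST

open EXIST in
theorem exist (h : StmtUSem) : StmtExist := by
  intro Γ ρ D φ m hΓ hF hDm hD hφ hsm hnorm
  let _ : MeasurableSpace SL(2, ℝ) := borel _
  have : BorelSpace SL(2, ℝ) := ⟨rfl⟩
  have := hΓ
  obtain ⟨N, hNpos, hLoc⟩ := U3.srf Γ D ρ φ m hDm hD hF.cpt hF.smooth hF.inv hφ hsm hnorm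
  set h0 : ℕ → ℝ := fun n => 1 / m (n + N) with hh0
  set f0 : ℕ → ℂ → ℂ := fun n z => (φ (n + N) (ofComplex z) : ℂ) with hf0
  have hL : LocU UH (gr ρ) h0 f0 := hLoc
  obtain ⟨Φ, hΦ⟩ := NC.stmtFlow NC.stmtLip Γ ρ hF
  obtain ⟨s, ν, hs, hfin, -, -, hlim⟩ := U3.wgl Γ ρ Φ h0 f0 hF hΦ hL
  have hsN : StrictMono fun n => s n + N := fun a b hab => Nat.add_lt_add_right (hs hab) N
  refine ⟨fun n => s n + N, ν.map pd, hsN, ?_⟩
  have hL' : LocU UH (gr ρ) (fun n => h0 (s n)) (fun n => f0 (s n)) := locU_comp hL hs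
  refine h ρ (fun n => φ (s n + N)) (fun n => m (s n + N)) (ν.map pd) hF.smooth hL'
    (fun K hK => fin_over ν hfin K hK) ?_
  intro V σ φ' hA j ζ hζ
  have hKU : tsupport ζ ⊆ UH := hζ.sub.trans hA.sub
  have hUo : IsOpen UH := isOpen_lt continuous_const Complex.continuous_im
  obtain ⟨V1, F, σ1, φ1, hK1, -, -, -, hA1⟩ := stmtLcz UH (gr ρ) h0 f0 hUo
    (U3.WGA.contDiffOn_gr hF.smooth) (fun z hz => U3.WGA.gr_pos hz) hL (tsupport ζ) hζ.supp hKU
  have hζ1 : Test V1 ζ := ⟨hζ.smooth, hζ.supp, hK1⟩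
  have hW : IsOpen (V ∩ V1) := hA.op.inter hA1.op
  have hσ : ∀ z ∈ V ∩ V1, σ z = σ1 z := by
    intro z hz
    have h1 : Real.exp (2 * σ z) = Real.exp (2 * σ1 z) := by
      rw [hA.eg z hz.1, hA1.eg z hz.2]
    have h2 := Real.exp_injective h1
    linarith
  have hφ1 : ∀ n, ∀ z ∈ V ∩ V1, φ' n z = (fun k => φ1 (s k)) n z := by
    intro n z hz
    rw [hA.eφ n z hz.1]
    exact (hA1.eφ (s n) z hz.2).symm
  have hE := (stmtEcg (V ∩ V1) σ σ1 (fun n => h0 (s n)) φ' (fun k => φ1 (s k)) hW hσ hφ1).1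
  have hE2 := (stmtEcg (V ∩ V1) σ1 σ1 h0 φ1 φ1 hW (fun _ _ => rfl) (fun _ _ _ => rfl)).2
  have hz0 : ∀ z, z ∉ tsupport ζ → ζ z = 0 := fun z hz => image_eq_zero_of_notMem_tsupport hz
  have h1 := hlim V1 σ1 φ1 hA1 j 0 ζ hζ1
  have hleft : ∀ n, ∫ z, ζ z * (QJ.E σ1 h0 φ1 j (s n) z * QJ.E σ1 h0 φ1 0 (s n) z) =
      ∫ z, ζ z * (QJ.E σ (fun n => 1 / m (s n + N)) φ' j n z
        * QJ.E σ (fun n => 1 / m (s n + N)) φ' 0 n z) := by
    intro n
    refine integral_congr_ae (ae_of_all _ fun z => ?_)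
    simp only
    by_cases hz : z ∈ tsupport ζ
    · have hzW : z ∈ V ∩ V1 := ⟨hζ.sub hz, hK1 hz⟩
      have e1 : ∀ i : ℤ, QJ.E σ (fun n => 1 / m (s n + N)) φ' i n z = QJ.E σ1 h0 φ1 i (s n) z := by
        intro i
        rw [← hE2 s i n z]
        exact hE i n z hzW
      rw [e1 j, e1 0]
    · rw [hz0 z hz, zero_mul, zero_mul]
  have hright : (-1 : ℂ) ^ (0 : ℤ) * ∫ g, ζ (pG g) * ((Real.exp (-(2 * σ1 (pG g))) : ℝ) : ℂ)
      * uG g ^ (j + 0) ∂ν = ∫ p : ℍ × S1, ζ p.1 * ((Real.exp (-(2 * σ p.1)) : ℝ) : ℂ)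
        * (Complex.I * (starRingEnd ℂ) (p.2 : ℂ)) ^ j ∂(ν.map pd) := by
    rw [zpow_zero, one_mul, add_zero]
    have hcont : Continuous fun p : ℍ × S1 => ζ p.1 * ((Real.exp (-(2 * σ p.1)) : ℝ) : ℂ)
        * (Complex.I * (starRingEnd ℂ) (p.2 : ℂ)) ^ j := by
      have c1 : Continuous fun p : ℍ × S1 => ((p.1 : ℍ) : ℂ) :=
        UpperHalfPlane.continuous_coe.comp continuous_fst
      have c2 : Continuous fun p : ℍ × S1 => ((p.2 : S1) : ℂ) :=
        continuous_subtype_val.comp continuous_snd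
      refine ((hζ.smooth.continuous.comp c1).mul ?_).mul ?_
      · refine Complex.continuous_ofReal.comp (Real.continuous_exp.comp ?_)
        exact (continuous_const.mul (hA.loc.sm.continuous.comp c1)).neg
      · refine (continuous_const.mul (Complex.continuous_conj.comp c2)).zpow₀ j fun p => ?_
        left
        refine mul_ne_zero Complex.I_ne_zero ?_
        intro h0
        have h1 : ((p.2 : S1) : ℂ) = 0 := (map_eq_zero _).1 h0
        have h2 : ‖((p.2 : S1) : ℂ)‖ = 1 := mem_sphere_zero_iff_norm.1 p.2.2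
        rw [h1, norm_zero] at h2
        exact zero_ne_one h2
    rw [integral_map pd_continuous.measurable.aemeasurable hcont.aestronglyMeasurable]
    refine integral_congr_ae (ae_of_all _ fun g => ?_)
    simp only
    rw [pd_fst, pd_snd]
    by_cases hz : pG g ∈ tsupport ζ
    · rw [hσ (pG g) ⟨hζ.sub hz, hK1 hz⟩]
    · rw [hz0 _ hz, zero_mul, zero_mul, zero_mul, zero_mul]
  rw [← hright]
  exact h1.congr hleft

end

end NFP
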