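import Pool.Agent.NFP.St
import Pool.Agent.BWM.C15

/-!
# The local four-point formula for variable limits (module NFP_FOURVAR)
-/

open Complex MeasureTheory Filter Topology Set
open UpperHalfPlane hiding I
open scoped ContDiff MatrixGroups ProbabilityTheory

namespace NFP

open QE QE.NC

noncomputable section

namespace FOURVAR

lemma cof_zero (s : Measure S1) : cof s 0 = ((s univ).toReal : ℂ) := by
  unfold cof
  simp [Measure.real]

variable {U : Set ℂ} {g a : ℂ → ℂ} {h : ℕ → ℝ} {φ : ℕ → ℂ → ℂ} {u : ℤ → ℂ → ℂ}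
  {σ : ℂ → Measure S1}

/-- the pointwise facts, almost everywhere on `U` -/
lemma ae_facts (hM : StmtModel) (hσ : ∀ z, IsFiniteMeasure (σ z))
    (hu : ∀ k, ∀ᵐ z ∂(volume.restrict U), u k z = cof (σ z) k)
    (ho : ∀ k, Odd k → ∀ᵐ z ∂(volume.restrict U), u k z = 0) (y : Fin 4 → ℂ) :
    ∃ C : ℝ, 0 ≤ C ∧ ∀ᵐ z ∂(volume.restrict U),
      (∀ N : ℕ, ‖modN (fun k => u k z) y N‖ ≤ C * ‖u 0 z‖ ^ 2) ∧
      |dirWick (σ z) y| ≤ C * ‖u 0 z‖ ^ 2 ∧ (σ z univ).toReal ^ 2 = ‖u 0 z‖ ^ 2 ∧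
      u 0 z = ((σ z univ).toReal : ℂ) ∧
      Tendsto (fun N => modN (fun k => u k z) y N) atTop (𝓝 (dirWick (σ z) y : ℂ)) := by
  obtain ⟨C, hC, hCs⟩ := hM y
  refine ⟨C, hC, ?_⟩
  have h1 : ∀ᵐ z ∂(volume.restrict U), ∀ k, u k z = cof (σ z) k := ae_all_iff.2 hu
  have h2 : ∀ᵐ z ∂(volume.restrict U), ∀ k, Odd k → u k z = 0 := by
    rw [ae_all_iff]
    intro k
    by_cases hk : Odd k
    · filter_upwards [ho k hk] with z hz _
      exact hz
    · exact Eventually.of_forall fun z h => absurd h hk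
  filter_upwards [h1, h2] with z z1 z2
  have e : (fun k => u k z) = cof (σ z) := funext z1
  have e0 : u 0 z = ((σ z univ).toReal : ℂ) := by rw [z1, cof_zero]
  have e1 : (σ z univ).toReal ^ 2 = ‖u 0 z‖ ^ 2 := by
    rw [e0, Complex.norm_real, Real.norm_eq_abs, sq_abs]
  obtain ⟨a1, a2, a3⟩ := hCs (σ z) (hσ z) (fun k hk => by rw [← z1, z2 k hk])
  rw [e, ← e1]
  exact ⟨a1, a2, rfl, e0, a3⟩

lemma modN_aesm {K : Set ℂ} (hl : ∀ k, AEStronglyMeasurable (u k) (volume.restrict K))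
    (y : Fin 4 → ℂ) (N : ℕ) :
    AEStronglyMeasurable (fun z => modN (fun k => u k z) y N) (volume.restrict K) := by
  unfold modN
  refine Finset.aestronglyMeasurable_fun_sum _ fun p _ => ?_
  refine aestronglyMeasurable_const.mul (aestronglyMeasurable_const.mul ?_)
  unfold GW WW
  exact ((((hl _).const_mul _).mul ((hl _).const_mul _)).add
    (((hl _).const_mul _).mul ((hl _).const_mul _))).add
    (((hl _).const_mul _).mul ((hl _).const_mul _))

lemma sum_Gam (hU : IsOpen U) (hl : ∀ k, LocL2 U (u k)) {ζ : ℂ → ℂ} (hζ : Test U ζ)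
    (y : Fin 4 → ℂ) (N : ℕ) :
    ∑ p ∈ Fintype.piFinset (fun _ : Fin 4 => Finset.Icc (-(N : ℤ)) N),
      (∏ i, CN N (p i) (y i)) * ((if ∑ i, p i = 0 then 1 else 0)
        * Gam u ζ (p 0) (p 1) (p 2) (p 3)) = ∫ z, ζ z * modN (fun k => u k z) y N := by
  unfold modN Gam
  simp only [Finset.mul_sum, ← integral_const_mul]
  rw [← integral_finset_sum]
  · refine integral_congr_ae (Eventually.of_forall fun z => ?_)
    refine Finset.sum_congr rfl fun p _ => ?_
    have e : GW u (p 0) (p 1) (p 2) (p 3) z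
        = GW (fun k _ => u k z) (p 0) (p 1) (p 2) (p 3) 0 := rfl
    rw [e]
    ring
  · intro p _
    exact ((hζ.int_GW hl (p 0) (p 1) (p 2) (p 3)).const_mul _).const_mul _

end FOURVAR

open FOURVAR in
/-- FOURVAR -/
theorem fourVar (hM : StmtModel) : StmtFourVar := by
  intro U g a h φ u σ S L hσ hu ho y
  obtain ⟨C, hC0, hae⟩ := ae_facts hM hσ hu ho y
  have hsqI : ∀ K : Set ℂ, IsCompact K → K ⊆ U → IntegrableOn (fun z => ‖u 0 z‖ ^ 2) K :=
    fun K hK hKU => MemLp.sqInt (L.loc 0 K hK hKU)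
  have hwK : ∀ K : Set ℂ, IsCompact K → K ⊆ U →
      AEStronglyMeasurable (fun z => (dirWick (σ z) y : ℂ)) (volume.restrict K) := by
    intro K hK hKU
    refine aestronglyMeasurable_of_tendsto_ae atTop
      (fun N => modN_aesm (fun k => (L.loc k K hK hKU).1) y N) ?_
    filter_upwards [ae_restrict_of_ae_restrict_of_subset hKU hae] with z hz
    exact hz.2.2.2.2
  have hwI : ∀ K : Set ℂ, IsCompact K → K ⊆ U → IntegrableOn (fun z => dirWick (σ z) y) K := by
    intro K hK hKU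
    refine Integrable.mono' ((hsqI K hK hKU).const_mul C) ?_ ?_
    · have := (hwK K hK hKU).re
      simpa using this
    · filter_upwards [ae_restrict_of_ae_restrict_of_subset hKU hae] with z hz
      exact hz.2.1
  have hsI : ∀ K : Set ℂ, IsCompact K → K ⊆ U →
      IntegrableOn (fun z => (σ z univ).toReal ^ 2) K := by
    intro K hK hKU
    refine (hsqI K hK hKU).congr ?_
    filter_upwards [ae_restrict_of_ae_restrict_of_subset hKU hae] with z hz
    exact hz.2.2.1.symm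
  refine ⟨fun K hK hKU => ⟨hwI K hK hKU, hsI K hK hKU⟩, ?_⟩
  intro K hK δ hδ hδU q hq ξ hξ ζ hζ hζK
  -- the Wick sum at the origin
  have hG0 : Gam u ζ 0 0 0 0 = 3 * ∫ z, ζ z * (((σ z univ).toReal ^ 2 : ℝ) : ℂ) := by
    unfold Gam
    rw [← integral_const_mul, ← hζ.setIntegral, ← setIntegral_eq_integral_of_forall_compl_eq_zero
      (s := tsupport ζ) (f := fun z => 3 * (ζ z * (((σ z univ).toReal ^ 2 : ℝ) : ℂ)))]
    · refine integral_congr_ae ?_
      filter_upwards [ae_restrict_of_ae_restrict_of_subset hζ.sub hae] with z hz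
      unfold GW WW
      simp only [zpow_zero, one_mul, add_zero]
      rw [hz.2.2.2.1]
      push_cast
      ring
    · intro z hz
      rw [image_eq_zero_of_notMem_tsupport hz]
      ring
  -- the limit of the truncated Wick sums
  have hW1 : Tendsto (fun N : ℕ => ∑ p ∈ Fintype.piFinset (fun _ : Fin 4 =>
      Finset.Icc (-(N : ℤ)) N), (∏ i, CN N (p i) (y i)) * ((if ∑ i, p i = 0 then 1 else 0)
        * Gam u ζ (p 0) (p 1) (p 2) (p 3))) atTop (𝓝 (∫ z, ζ z * (dirWick (σ z) y : ℂ))) := by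
    simp only [sum_Gam S.op L.loc hζ y]
    rw [← hζ.setIntegral]
    simp only [← hζ.setIntegral (fun z => modN (fun k => u k z) y _)]
    obtain ⟨B, hB⟩ := hζ.smooth.continuous.bounded_above_of_compact_support hζ.supp
    refine tendsto_integral_of_dominated_convergence (fun z => B * (C * ‖u 0 z‖ ^ 2)) ?_ ?_ ?_ ?_
    · intro N
      exact hζ.smooth.continuous.aestronglyMeasurable.mul
        (modN_aesm (fun k => (L.loc k _ hζ.supp hζ.sub).1) y N)
    · exact ((hsqI _ hζ.supp hζ.sub).const_mul C).const_mul B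
    · intro N
      filter_upwards [ae_restrict_of_ae_restrict_of_subset hζ.sub hae] with z hz
      rw [norm_mul]
      exact mul_le_mul (hB z) (hz.1 N) (norm_nonneg _) ((norm_nonneg _).trans (hB z))
    · filter_upwards [ae_restrict_of_ae_restrict_of_subset hζ.sub hae] with z hz
      exact hz.2.2.2.2.const_mul _
  set β : ℕ → ℂ := fun n => (∫ z, ζ z * (φ n z * φ n z * (φ n z * φ n z)))
    - 3 * ∫ z, ζ z * (((σ z univ).toReal ^ 2 : ℝ) : ℂ) with hβ
  obtain ⟨C₁, hC₁⟩ := (S.bd2 0 0).test_mul (S.sm2 0 0) (S.bd2 0 0) (S.sm2 0 0) hζ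
  have hκ : ∀ᶠ n in atTop, ‖β n‖ ≤ C₁ + ‖3 * ∫ z, ζ z * (((σ z univ).toReal ^ 2 : ℝ) : ℂ)‖ := by
    filter_upwards [hC₁] with n hn
    exact (norm_sub_le _ _).trans (add_le_add hn le_rfl)
  have key := lim_combine
    (X := fun n => ∫ θ, (∫ z, ζ z * ∏ i, φ n (z + h n * a z * ξ i n θ z)) ∂ang)
    (T := TN h a φ y ζ) (α := fun _ => 1) (β := β)
    (W₁ := fun N : ℕ => ∑ p ∈ Fintype.piFinset (fun _ : Fin 4 =>
      Finset.Icc (-(N : ℤ)) N), (∏ i, CN N (p i) (y i)) * ((if ∑ i, p i = 0 then 1 else 0)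
        * Gam u ζ (p 0) (p 1) (p 2) (p 3)))
    (C := max 1 (C₁ + ‖3 * ∫ z, ζ z * (((σ z univ).toReal ^ 2 : ℝ) : ℂ)‖))
    (fun ε hε => S.bridge hK hδ hδU hq y ξ hξ hζ hζK hε) ?_ hW1 (model_defc y)
    (Eventually.of_forall fun n => by simp)
    (hκ.mono fun n hn => hn.trans (le_max_right _ _))
  · refine key.congr fun n => ?_
    rw [one_mul]
  intro N
  have h1 : ∀ p : Fin 4 → ℤ, Tendsto (fun n => (if ∑ i, p i = 0 then 1 else 0)
      * (∫ z, ζ z * (E h a φ (p 0) n z * E h a φ (p 1) n z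
        * (E h a φ (p 2) n z * E h a φ (p 3) n z)))
      - ((if ∑ i, p i = 0 then 1 else 0) * Gam u ζ (p 0) (p 1) (p 2) (p 3)
        + β n * ((if ∑ i, p i = 0 then 1 else 0) * pat (p 0) (p 1) (p 2) (p 3)))) atTop (𝓝 0) := by
    intro p
    by_cases hp : ∑ i, p i = 0
    · simp only [if_pos hp, one_mul]
      rw [Fin.sum_univ_four] at hp
      refine (jets_four_var S L hζ (p 0) (p 1) (p 2) (p 3) hp).congr fun n => ?_
      unfold YY
      rw [hG0, hβ]
      have e2 : ∫ z, ζ z * (E h a φ 0 n z * E h a φ 0 n z * (E h a φ 0 n z * E h a φ 0 n z))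
          = ∫ z, ζ z * (φ n z * φ n z * (φ n z * φ n z)) := rfl
      rw [e2]
      ring
    · simp only [if_neg hp, zero_mul, mul_zero, add_zero, sub_zero]
      exact tendsto_const_nhds
  have h2 := tendsto_finset_sum (Fintype.piFinset (fun _ : Fin 4 => Finset.Icc (-(N : ℤ)) N))
    fun p _ => (h1 p).const_mul (∏ i, CN N (p i) (y i))
  simp only [mul_zero, Finset.sum_const_zero] at h2
  refine h2.congr fun n => ?_
  unfold TN
  rw [one_mul, Finset.mul_sum, ← Finset.sum_add_distrib, ← Finset.sum_sub_distrib]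
  exact Finset.sum_congr rfl fun p _ => by ring

end

end NFP
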