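import Pool.Agent.NFP.St

/-!
# GLOB: from local limits to averages, with a continuous weight
-/

open Complex MeasureTheory Filter Topology Set
open UpperHalfPlane hiding I
open scoped ContDiff MatrixGroups ENNReal NNReal

namespace NFP

open QE QE.NC

noncomputable section

namespace GLOB

/-! ## continuous test functions -/

lemma integrable_mul {ζ G : ℂ → ℝ} (hζc : Continuous ζ) (hζs : HasCompactSupport ζ)
    (hG : IntegrableOn G (tsupport ζ)) : Integrable (fun z => ζ z * G z) := by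
  have h1 : IntegrableOn (fun z => ζ z * G z) (tsupport ζ) :=
    IntegrableOn.continuousOn_mul hζc.continuousOn hG hζs
  exact (integrableOn_iff_integrable_of_support_subset
    (fun z (hz : ζ z * G z ≠ 0) => subset_tsupport _ (left_ne_zero_of_mul hz))).1 h1

lemma diff_le {ζ ψ G : ℂ → ℝ} {κ : ℝ} (hζc : Continuous ζ) (hζs : HasCompactSupport ζ)
    (hψc : Continuous ψ) (hts : tsupport ψ ⊆ tsupport ζ) (hclose : ∀ z, |ζ z - ψ z| ≤ κ)
    (hG : IntegrableOn G (tsupport ζ)) :
    |(∫ z, ζ z * G z) - ∫ z, ψ z * G z| ≤ κ * ∫ z in tsupport ζ, |G z| := by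
  have hψs : HasCompactSupport ψ := hζs.of_isClosed_subset (isClosed_tsupport _) hts
  have iζ := integrable_mul hζc hζs hG
  have iψ := integrable_mul hψc hψs (hG.mono_set hts)
  rw [← integral_sub iζ iψ]
  have e1 : ∫ w, (ζ w * G w - ψ w * G w) = ∫ w in tsupport ζ, (ζ w - ψ w) * G w := by
    rw [setIntegral_eq_integral_of_forall_compl_eq_zero]
    · congr 1; funext w; ring
    · intro z hz
      rw [image_eq_zero_of_notMem_tsupport hz,
        image_eq_zero_of_notMem_tsupport (fun hz' => hz (hts hz')), sub_zero, zero_mul]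
  rw [e1, ← Real.norm_eq_abs, ← integral_const_mul]
  refine norm_integral_le_of_norm_le ?_ (Eventually.of_forall fun w => ?_)
  · exact hG.abs.const_mul _
  · rw [norm_mul, Real.norm_eq_abs, Real.norm_eq_abs]
    exact mul_le_mul_of_nonneg_right (hclose w) (abs_nonneg _)

variable {F : ℕ → ℍ → ℝ} {H : ℍ → ℝ}

lemma cont_on {f : ℍ → ℝ} (hf : Continuous f) : ContinuousOn (fun z : ℂ => f (ofComplex z)) HH := by
  intro z hz
  exact (hf.continuousAt.comp (contMDiffAt_ofComplex (n := 0) hz).continuousAt).continuousWithinAt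

/-- the limits for nonnegative continuous test functions -/
theorem lim_nonneg (hF : ∀ᶠ n in atTop, Continuous (F n))
    (hbd : ∀ K : Set ℂ, IsCompact K → K ⊆ HH → ∃ C : ℝ, ∀ᶠ n in atTop,
      ∫ z in K, |F n (ofComplex z)| ≤ C)
    (hH : ∀ K : Set ℂ, IsCompact K → K ⊆ HH → IntegrableOn (fun z => H (ofComplex z)) K)
    (hloc : ∀ ψ : ℂ → ℝ, ContDiff ℝ ∞ ψ → HasCompactSupport ψ → tsupport ψ ⊆ HH →
      Tendsto (fun n => ∫ z, ψ z * F n (ofComplex z)) atTop (𝓝 (∫ z, ψ z * H (ofComplex z))))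
    {ζ : ℂ → ℝ} (hζc : Continuous ζ) (hζs : HasCompactSupport ζ) (hζU : tsupport ζ ⊆ HH)
    (hζ0 : ∀ z, 0 ≤ ζ z) :
    Tendsto (fun n => ∫ z, ζ z * F n (ofComplex z)) atTop (𝓝 (∫ z, ζ z * H (ofComplex z))) := by
  have hKc : IsCompact (tsupport ζ) := hζs
  obtain ⟨C, hC⟩ := hbd _ hKc hζU
  set C' : ℝ := ∫ z in tsupport ζ, |H (ofComplex z)| with hC'
  have hC'0 : 0 ≤ C' := integral_nonneg fun z => abs_nonneg _
  rw [Metric.tendsto_nhds]
  intro ε hε
  set δ : ℝ := ε / (12 * (|C| + C' + 1)) with hδ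
  have hδ0 : 0 < δ := by positivity
  obtain ⟨ψ, hψ, hψ1, hψ2⟩ := exists_smooth_between hζc hδ0
  have hψ0 : ∀ z, 0 ≤ ψ z := fun z => (le_max_right _ _).trans (hψ1 z)
  have hsupp : Function.support ψ ⊆ Function.support ζ := by
    intro z hz hz0
    apply hz
    have h1 := hψ2 z
    rw [hz0, max_eq_right (by linarith)] at h1
    exact le_antisymm h1 (hψ0 z)
  have hts : tsupport ψ ⊆ tsupport ζ := closure_mono hsupp
  have hψs : HasCompactSupport ψ := hKc.of_isClosed_subset (isClosed_tsupport _) hts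
  have hclose : ∀ z, |ζ z - ψ z| ≤ 3 * δ := by
    intro z
    have h1 := hψ1 z
    have h2 := hψ2 z
    have h3 := hζ0 z
    have h4 := le_max_left (ζ z - 3 * δ) 0
    have h5 : max (ζ z - δ) 0 ≤ ζ z := max_le (by linarith) h3
    rw [abs_le]
    constructor <;> linarith
  have hl := hloc ψ hψ hψs (hts.trans hζU)
  have hH1 := diff_le hζc hζs hψ.continuous hts hclose (hH _ hKc hζU)
  filter_upwards [hC, hF, (Metric.tendsto_nhds.1 hl) (ε / 2) (by positivity)] with n h1 h2 h3
  rw [Real.dist_eq] at h3 ⊢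
  have hF1 := diff_le hζc hζs hψ.continuous hts hclose
    (((cont_on h2).mono hζU).integrableOn_compact hKc)
  have h6 : 3 * δ * (∫ z in tsupport ζ, |F n (ofComplex z)|) ≤ 3 * δ * |C| := by
    have := h1.trans (le_abs_self C)
    gcongr
  have h7 : 3 * δ * |C| + 3 * δ * C' ≤ ε / 4 := by
    have h8 : 0 ≤ |C| := abs_nonneg C
    calc 3 * δ * |C| + 3 * δ * C' = 3 * δ * (|C| + C') := by ring
      _ ≤ 3 * δ * (|C| + C' + 1) := mul_le_mul_of_nonneg_left (by linarith) (by positivity)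
      _ = ε / 4 := by rw [hδ]; field_simp; norm_num
  rw [← hC'] at hH1
  have e1 := abs_le.1 hF1
  have e2 := abs_le.1 hH1
  have e3 := abs_lt.1 h3
  rw [abs_lt]
  constructor <;> linarith [e1.1, e1.2, e2.1, e2.2, e3.1, e3.2]

/-- the limits for continuous test functions -/
theorem lim_cont (hF : ∀ᶠ n in atTop, Continuous (F n))
    (hbd : ∀ K : Set ℂ, IsCompact K → K ⊆ HH → ∃ C : ℝ, ∀ᶠ n in atTop,
      ∫ z in K, |F n (ofComplex z)| ≤ C)
    (hH : ∀ K : Set ℂ, IsCompact K → K ⊆ HH → IntegrableOn (fun z => H (ofComplex z)) K)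
    (hloc : ∀ ψ : ℂ → ℝ, ContDiff ℝ ∞ ψ → HasCompactSupport ψ → tsupport ψ ⊆ HH →
      Tendsto (fun n => ∫ z, ψ z * F n (ofComplex z)) atTop (𝓝 (∫ z, ψ z * H (ofComplex z))))
    {ζ : ℂ → ℝ} (hζc : Continuous ζ) (hζs : HasCompactSupport ζ) (hζU : tsupport ζ ⊆ HH) :
    Tendsto (fun n => ∫ z, ζ z * F n (ofComplex z)) atTop (𝓝 (∫ z, ζ z * H (ofComplex z))) := by
  have hc1 : Continuous fun z => max (ζ z) 0 := hζc.max continuous_const
  have hc2 : Continuous fun z => max (-ζ z) 0 := hζc.neg.max continuous_const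
  have ht1 : tsupport (fun z => max (ζ z) 0) ⊆ tsupport ζ := by
    refine closure_mono fun z hz hz0 => hz ?_
    show max (ζ z) 0 = 0
    rw [hz0, max_self]
  have ht2 : tsupport (fun z => max (-ζ z) 0) ⊆ tsupport ζ := by
    refine closure_mono fun z hz hz0 => hz ?_
    show max (-ζ z) 0 = 0
    rw [hz0, neg_zero, max_self]
  have hs1 : HasCompactSupport fun z => max (ζ z) 0 :=
    hζs.of_isClosed_subset (isClosed_tsupport _) ht1
  have hs2 : HasCompactSupport fun z => max (-ζ z) 0 :=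
    hζs.of_isClosed_subset (isClosed_tsupport _) ht2
  have l1 := lim_nonneg hF hbd hH hloc hc1 hs1 (ht1.trans hζU) fun z => le_max_right _ _
  have l2 := lim_nonneg hF hbd hH hloc hc2 hs2 (ht2.trans hζU) fun z => le_max_right _ _
  have hsplit : ∀ x : ℝ, x = max x 0 - max (-x) 0 := fun x => by
    rcases le_total 0 x with h | h
    · rw [max_eq_left h, max_eq_right (by linarith), sub_zero]
    · rw [max_eq_right h, max_eq_left (by linarith)]; ring
  have key : ∀ G : ℂ → ℝ, IntegrableOn G (tsupport ζ) →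
      ∫ z, ζ z * G z = (∫ z, max (ζ z) 0 * G z) - ∫ z, max (-ζ z) 0 * G z := by
    intro G hG
    rw [← integral_sub (integrable_mul hc1 hs1 (hG.mono_set ht1))
      (integrable_mul hc2 hs2 (hG.mono_set ht2))]
    congr 1
    funext z
    rw [← sub_mul, ← hsplit]
  rw [key _ (hH _ hζs hζU)]
  refine (l1.sub l2).congr' ?_
  filter_upwards [hF] with n hn
  exact (key _ (((cont_on hn).mono hζU).integrableOn_compact hζs)).symm

/-! ## integrals over the half plane -/

lemma range_coe_HH : Set.range UpperHalfPlane.coe = HH := by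
  ext z
  constructor
  · rintro ⟨w, rfl⟩
    exact w.im_pos
  · intro hz
    exact ⟨⟨z, hz⟩, rfl⟩

lemma dens_meas : Measurable fun z : ℍ => ((1 / NNReal.mk z.im z.im_pos.le : ℝ≥0) ^ 2) := by
  have h1 : Measurable fun z : ℍ => (NNReal.mk z.im z.im_pos.le : ℝ≥0) :=
    (UpperHalfPlane.continuous_im.subtype_mk _).measurable
  exact (measurable_const.div h1).pow_const 2

lemma dens_eq (z : ℍ) : (((1 / NNReal.mk z.im z.im_pos.le : ℝ≥0) ^ 2 : ℝ≥0) : ℝ) =
    1 / z.im ^ 2 := by
  rw [NNReal.coe_pow, NNReal.coe_div, NNReal.coe_one, NNReal.coe_mk, div_pow, one_pow]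

/-- integrals over the hyperbolic plane as integrals in the plane -/
lemma integral_HR (G : ℍ → ℝ) : ∫ w : ℍ, w.im ^ 2 * G w = ∫ z in HH, G (ofComplex z) := by
  have h1 : ∫ z in HH, G (ofComplex z) =
      ∫ w : ℍ, G w ∂((volume : Measure ℂ).comap UpperHalfPlane.coe) := by
    have e := measurableEmbedding_coe.integral_map
      (μ := (volume : Measure ℂ).comap UpperHalfPlane.coe) (fun z : ℂ => G (ofComplex z))
    rw [measurableEmbedding_coe.map_comap, range_coe_HH] at e
    rw [e]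
    refine integral_congr_ae (Eventually.of_forall fun w => ?_)
    show G (ofComplex (w : ℂ)) = G w
    rw [ofComplex_apply]
  rw [h1, UpperHalfPlane.volume_def, integral_withDensity_eq_integral_smul dens_meas]
  refine integral_congr_ae (Eventually.of_forall fun w => ?_)
  have hw : w.im ≠ 0 := w.im_ne_zero
  show ((1 / NNReal.mk w.im w.im_pos.le : ℝ≥0) ^ 2) • (w.im ^ 2 * G w) = G w
  rw [NNReal.smul_def, dens_eq, smul_eq_mul]
  field_simp

/-- integrability on compact sets -/
lemma integrable_iff (G : ℍ → ℝ) {K : Set ℍ} (hK : IsCompact K) :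
    IntegrableOn (fun z : ℂ => G (ofComplex z)) (UpperHalfPlane.coe '' K) ↔
      IntegrableOn G K (volume : Measure ℍ) := by
  have e : Measure.map UpperHalfPlane.coe (((volume : Measure ℂ).comap
      UpperHalfPlane.coe).restrict K) = volume.restrict (UpperHalfPlane.coe '' K) := by
    rw [measurableEmbedding_coe.restrict_comap, measurableEmbedding_coe.map_comap,
      Measure.restrict_restrict measurableEmbedding_coe.measurableSet_range]
    congr 1
    rw [inter_eq_right]
    exact image_subset_range _ _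
  have h1 : IntegrableOn (fun z : ℂ => G (ofComplex z)) (UpperHalfPlane.coe '' K) ↔
      IntegrableOn G K ((volume : Measure ℂ).comap UpperHalfPlane.coe) := by
    unfold IntegrableOn
    rw [← e, measurableEmbedding_coe.integrable_map_iff]
    have e2 : (fun z : ℂ => G (ofComplex z)) ∘ UpperHalfPlane.coe = G := by
      funext w
      show G (ofComplex (w : ℂ)) = G w
      rw [ofComplex_apply]
    rw [e2]
  have h2 : IntegrableOn G K (volume : Measure ℍ) ↔ IntegrableOn (fun w : ℍ => 1 / w.im ^ 2 * G w) K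
      ((volume : Measure ℂ).comap UpperHalfPlane.coe) := by
    unfold IntegrableOn
    rw [volume_def, restrict_withDensity hK.measurableSet,
      integrable_withDensity_iff_integrable_smul dens_meas]
    have e3 : (fun w : ℍ => ((1 / NNReal.mk w.im w.im_pos.le : ℝ≥0) ^ 2) • G w) =
        fun w : ℍ => 1 / w.im ^ 2 * G w := by
      funext w
      rw [NNReal.smul_def, dens_eq, smul_eq_mul]
    rw [e3]
  have hc1 : Continuous fun w : ℍ => 1 / w.im ^ 2 :=
    continuous_const.div (UpperHalfPlane.continuous_im.pow 2) fun w => (pow_pos w.im_pos 2).ne'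
  have hc2 : Continuous fun w : ℍ => w.im ^ 2 := UpperHalfPlane.continuous_im.pow 2
  rw [h1, h2]
  constructor
  · intro h
    exact IntegrableOn.continuousOn_mul hc1.continuousOn h hK
  · intro h
    refine (IntegrableOn.continuousOn_mul hc2.continuousOn h hK).congr_fun (fun w _ => ?_)
      hK.measurableSet
    have hw : w.im ≠ 0 := w.im_ne_zero
    show w.im ^ 2 * (1 / w.im ^ 2 * G w) = G w
    field_simp

/-- almost everywhere statements on the half plane and in the plane -/
lemma ae_plane {P : ℍ → Prop} (h : ∀ᵐ z : ℍ, P z) :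
    ∀ᵐ w ∂((volume : Measure ℂ).restrict HH), P (ofComplex w) := by
  set N : Set ℍ := toMeasurable volume {z | ¬ P z} with hN
  have hN0 : (volume : Measure ℍ) N = 0 := by
    rw [hN, measure_toMeasurable]
    exact h
  have hNm : MeasurableSet N := measurableSet_toMeasurable _ _
  have hsub : ∀ z, ¬ P z → z ∈ N := fun z hz => subset_toMeasurable _ _ hz
  have hgm : Measurable (N.indicator (fun _ => (1 : ℝ≥0∞))) := measurable_const.indicator hNm
  have h1 : ∫⁻ z : ℍ, N.indicator (fun _ => (1 : ℝ≥0∞)) z = 0 := by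
    rw [lintegral_indicator hNm, setLIntegral_one, hN0]
  rw [QE.Surf.lintegral_uhp hgm] at h1
  have hm1 : Measurable fun w : ℂ => ENNReal.ofReal (1 / w.im ^ 2) :=
    ENNReal.measurable_ofReal.comp
      (measurable_const.div (Complex.continuous_im.measurable.pow_const 2))
  have h1' := (lintegral_eq_zero_iff (μ := (volume : Measure ℂ).restrict HH)
    (hm1.mul (hgm.comp QE.Surf.measurable_ofComplex))).1 h1
  have h2 : ∀ᵐ w ∂((volume : Measure ℂ).restrict HH), w ∈ HH :=
    ae_restrict_mem isOpen_HH.measurableSet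
  filter_upwards [h1', h2] with w hw hwU
  by_contra hP
  have h3 : N.indicator (fun _ => (1 : ℝ≥0∞)) (ofComplex w) = 1 :=
    indicator_of_mem (hsub _ hP) _
  have h4 : ENNReal.ofReal (1 / w.im ^ 2) * N.indicator (fun _ => (1 : ℝ≥0∞)) (ofComplex w) = 0 :=
    hw
  rw [h3, mul_one, ENNReal.ofReal_eq_zero] at h4
  have h5 : 0 < w.im := hwU
  exact absurd h4 (not_le.2 (by positivity))

/-! ## invariance -/

variable {Γ : Subgroup SL(2, ℝ)} {ρ : ℍ → ℝ} {D : Set ℍ}

/-- the change of variables by `γ` -/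
lemma exists_transfer (γ : SL(2, ℝ)) {ψ : ℂ → ℝ} (hψ : Continuous ψ) (hψs : HasCompactSupport ψ)
    (hψU : tsupport ψ ⊆ HH) : ∃ ζ : ℂ → ℝ, Continuous ζ ∧ HasCompactSupport ζ ∧ tsupport ζ ⊆ HH ∧
      ∀ G : ℍ → ℝ, ∫ w, ψ w * G (γ • ofComplex w) = ∫ w, ζ w * G (ofComplex w) := by
  have hK1 : IsCompact (UpperHalfPlane.coe ⁻¹' tsupport ψ) := by
    rw [isOpenEmbedding_coe.isInducing.isCompact_preimage_iff]
    · exact hψs
    · rw [range_coe]; exact hψU
  set K : Set ℍ := (fun z : ℍ => γ • z) '' (UpperHalfPlane.coe ⁻¹' tsupport ψ) with hKdef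
  have hK : IsCompact K := hK1.image (continuous_const_smul γ)
  obtain ⟨c, hc, hcs, hcU, hc0, hc1⟩ := QE.Surf.exists_cut hK
  set η : ℍ → ℝ := fun z => ψ (γ⁻¹ • z : ℍ) * (γ⁻¹ • z : ℍ).im ^ 2 with hη
  have hηc : Continuous η :=
    (hψ.comp (UpperHalfPlane.continuous_coe.comp (continuous_const_smul γ⁻¹))).mul
      ((UpperHalfPlane.continuous_im.comp (continuous_const_smul γ⁻¹)).pow 2)
  have hηc2 : Continuous fun z : ℍ => 1 / z.im ^ 2 * η z :=
    (continuous_const.div (UpperHalfPlane.continuous_im.pow 2)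
      fun w => (pow_pos w.im_pos 2).ne').mul hηc
  refine ⟨fun w => c w * (1 / (ofComplex w).im ^ 2 * η (ofComplex w)),
    QE.Surf.continuous_cut_mul hc hcU hηc2, hcs.mul_right,
    (closure_mono (Function.support_mul_subset_left _ _)).trans hcU, fun G => ?_⟩
  have hψ0 : ∀ w : ℂ, w ∉ HH → ψ w = 0 := fun w hw => by
    by_contra h
    exact hw (hψU (subset_tsupport ψ h))
  have hc0' : ∀ w : ℂ, w ∉ HH → c w = 0 := fun w hw => by
    by_contra h
    exact hw (hcU (subset_tsupport c h))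
  have e1 : ∫ w, ψ w * G (γ • ofComplex w) = ∫ z : ℍ, z.im ^ 2 * (ψ z * G (γ • z)) := by
    rw [integral_HR fun z : ℍ => ψ z * G (γ • z)]
    rw [← setIntegral_eq_integral_of_forall_compl_eq_zero (s := HH)]
    · refine setIntegral_congr_fun isOpen_HH.measurableSet fun w hw => ?_
      have e2 : ((ofComplex w : ℍ) : ℂ) = w := by rw [ofComplex_apply_of_im_pos hw]
      show ψ w * G (γ • ofComplex w) = ψ ((ofComplex w : ℍ) : ℂ) * G (γ • ofComplex w)
      rw [e2]
    · intro w hw
      rw [hψ0 w hw, zero_mul]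
  have e3 : ∫ w, c w * (1 / (ofComplex w).im ^ 2 * η (ofComplex w)) * G (ofComplex w) =
      ∫ z : ℍ, η z * G z := by
    have e4 : ∫ w, c w * (1 / (ofComplex w).im ^ 2 * η (ofComplex w)) * G (ofComplex w) =
        ∫ z : ℍ, z.im ^ 2 * (c z * (1 / z.im ^ 2 * η z) * G z) := by
      rw [integral_HR fun z : ℍ => c z * (1 / z.im ^ 2 * η z) * G z]
      rw [← setIntegral_eq_integral_of_forall_compl_eq_zero (s := HH)]
      · refine setIntegral_congr_fun isOpen_HH.measurableSet fun w hw => ?_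
        have e2 : ((ofComplex w : ℍ) : ℂ) = w := by rw [ofComplex_apply_of_im_pos hw]
        show c w * (1 / (ofComplex w).im ^ 2 * η (ofComplex w)) * G (ofComplex w) =
          c ((ofComplex w : ℍ) : ℂ) * (1 / (ofComplex w).im ^ 2 * η (ofComplex w)) *
            G (ofComplex w)
        rw [e2]
      · intro w hw
        rw [hc0' w hw, zero_mul, zero_mul]
    rw [e4]
    refine integral_congr_ae (Eventually.of_forall fun z => ?_)
    have hz : z.im ≠ 0 := z.im_ne_zero
    show z.im ^ 2 * (c z * (1 / z.im ^ 2 * η z) * G z) = η z * G z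
    by_cases h0 : ψ (γ⁻¹ • z : ℍ) = 0
    · have h1 : η z = 0 := by rw [hη]; simp only [h0, zero_mul]
      rw [h1]; ring
    · have h1 : c z = 1 := by
        refine hc1 z ⟨γ⁻¹ • z, subset_tsupport ψ h0, ?_⟩
        show γ • γ⁻¹ • z = z
        rw [smul_inv_smul]
      rw [h1]
      field_simp
  rw [e1, e3, ← integral_smul_eq_self (fun z : ℍ => η z * G z) (g := γ)]
  refine integral_congr_ae (Eventually.of_forall fun z => ?_)
  show z.im ^ 2 * (ψ z * G (γ • z)) = η (γ • z) * G (γ • z)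
  simp only [hη, inv_smul_smul]
  ring

theorem inv_ae (hF : ∀ᶠ n in atTop, Continuous (F n))
    (hinv : ∀ n, ∀ γ ∈ Γ, ∀ z, F n (γ • z) = F n z)
    (hbd : ∀ K : Set ℂ, IsCompact K → K ⊆ HH → ∃ C : ℝ, ∀ᶠ n in atTop,
      ∫ z in K, |F n (ofComplex z)| ≤ C)
    (hH : ∀ K : Set ℂ, IsCompact K → K ⊆ HH → IntegrableOn (fun z => H (ofComplex z)) K)
    (hloc : ∀ ψ : ℂ → ℝ, ContDiff ℝ ∞ ψ → HasCompactSupport ψ → tsupport ψ ⊆ HH →
      Tendsto (fun n => ∫ z, ψ z * F n (ofComplex z)) atTop (𝓝 (∫ z, ψ z * H (ofComplex z))))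
    (γ : SL(2, ℝ)) (hγ : γ ∈ Γ) : ∀ᵐ z : ℍ, H (γ • z) = H z := by
  have hHγ : ∀ K : Set ℂ, IsCompact K → K ⊆ HH →
      IntegrableOn (fun z => H (γ • ofComplex z)) K := by
    intro K hK hKU
    have hK1 : IsCompact (UpperHalfPlane.coe ⁻¹' K) := by
      rw [isOpenEmbedding_coe.isInducing.isCompact_preimage_iff]
      · exact hK
      · rw [range_coe]; exact hKU
    have e1 : UpperHalfPlane.coe '' (UpperHalfPlane.coe ⁻¹' K) = K := by
      rw [image_preimage_eq_iff, range_coe_HH]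
      exact hKU
    have hK2 : IsCompact ((fun z : ℍ => γ • z) '' (UpperHalfPlane.coe ⁻¹' K)) :=
      hK1.image (continuous_const_smul γ)
    have h1 := (integrable_iff H hK2).1 (hH _ (hK2.image UpperHalfPlane.continuous_coe) (by
      rintro _ ⟨z, -, rfl⟩; exact z.im_pos))
    have h2 := ((measurePreserving_smul γ (volume : Measure ℍ)).integrableOn_image
      (measurableEmbedding_const_smul γ)).1 h1
    have h3 := (integrable_iff (H ∘ fun z : ℍ => γ • z) hK1).2 h2
    rw [e1] at h3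
    exact h3
  have hli : LocallyIntegrableOn (fun w : ℂ => H (γ • ofComplex w) - H (ofComplex w)) HH := by
    rw [locallyIntegrableOn_iff isOpen_HH.isLocallyClosed]
    intro K hKU hK
    exact (hHγ K hK hKU).sub (hH K hK hKU)
  have h1 := isOpen_HH.ae_eq_zero_of_integral_contDiff_smul_eq_zero hli (fun ψ hψ hψs hψU => by
    obtain ⟨ζ, hζc, hζs, hζU, hζ⟩ := exists_transfer γ hψ.continuous hψs hψU
    have l1 := lim_cont hF hbd hH hloc hψ.continuous hψs hψU
    have l2 := lim_cont hF hbd hH hloc hζc hζs hζU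
    rw [← hζ H] at l2
    have e1 : ∀ n, ∫ z, ζ z * F n (ofComplex z) = ∫ z, ψ z * F n (ofComplex z) := by
      intro n
      rw [← hζ (F n)]
      simp only [hinv n γ hγ]
    simp only [e1] at l2
    have e2 := tendsto_nhds_unique l1 l2
    have e3 : ∫ w, ψ w • (H (γ • ofComplex w) - H (ofComplex w)) =
        (∫ w, ψ w * H (γ • ofComplex w)) - ∫ w, ψ w * H (ofComplex w) := by
      rw [← integral_sub (integrable_mul hψ.continuous hψs (hHγ _ hψs hψU))
        (integrable_mul hψ.continuous hψs (hH _ hψs hψU))]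
      congr 1
      funext w
      rw [smul_eq_mul]
      ring
    rw [e3, e2, sub_self])
  have h2 : ∀ᵐ w ∂((volume : Measure ℂ).restrict UH),
      H (γ • ofComplex w) - H (ofComplex w) = 0 :=
    (ae_restrict_iff' (μ := (volume : Measure ℂ)) isOpen_HH.measurableSet).2 h1
  filter_upwards [QE.FM.ae_H h2] with z hz
  rw [ofComplex_apply] at hz
  linarith

/-! ## an invariant version -/

theorem exists_version [Countable Γ] (hm : AEMeasurable H (volume : Measure ℍ))
    (hinv : ∀ γ ∈ Γ, ∀ᵐ z : ℍ, H (γ • z) = H z) : ∃ H' : ℍ → ℝ, Measurable H' ∧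
      (∀ γ ∈ Γ, ∀ z, H' (γ • z) = H' z) ∧ ∀ᵐ z : ℍ, H z = H' z := by
  set H₀ : ℍ → ℝ := hm.mk H with hH₀
  have hm₀ : Measurable H₀ := hm.measurable_mk
  have h1 : ∀ᵐ z : ℍ, H z = H₀ z := hm.ae_eq_mk
  have h2 : ∀ γ : Γ, ∀ᵐ z : ℍ, H₀ (γ • z) = H₀ z := by
    intro γ
    have h3 : ∀ᵐ z : ℍ, H ((γ : SL(2, ℝ)) • z) = H₀ ((γ : SL(2, ℝ)) • z) :=
      (measurePreserving_smul (γ : SL(2, ℝ)) (volume : Measure ℍ)).quasiMeasurePreserving.ae h1
    filter_upwards [h1, h3, hinv γ γ.2] with z e1 e2 e3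
    show H₀ ((γ : SL(2, ℝ)) • z) = H₀ z
    rw [← e2, ← e1, e3]
  set G : Set ℍ := {z | ∀ γ : Γ, H₀ (γ • z) = H₀ z} with hG
  have hGm : MeasurableSet G := by
    have : G = ⋂ γ : Γ, {z | H₀ (γ • z) = H₀ z} := by
      ext z; simp [hG]
    rw [this]
    exact MeasurableSet.iInter fun γ => measurableSet_eq_fun
      (hm₀.comp (continuous_const_smul γ).measurable) hm₀
  have hGinv : ∀ (γ : Γ) z, γ • z ∈ G ↔ z ∈ G := by
    have h4 : ∀ (γ : Γ) z, z ∈ G → γ • z ∈ G := by
      intro γ z hz δ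
      have h5 := hz (δ * γ)
      rw [mul_smul] at h5
      rw [h5, hz γ]
    intro γ z
    refine ⟨fun h => ?_, h4 γ z⟩
    have h5 := h4 γ⁻¹ _ h
    rwa [inv_smul_smul] at h5
  refine ⟨G.indicator H₀, hm₀.indicator hGm, ?_, ?_⟩
  · intro γ hγ z
    have h6 := hGinv ⟨γ, hγ⟩ z
    have e1 : (⟨γ, hγ⟩ : Γ) • z = γ • z := rfl
    rw [e1] at h6
    by_cases hz : z ∈ G
    · rw [indicator_of_mem hz, indicator_of_mem (h6.2 hz)]
      exact hz ⟨γ, hγ⟩
    · rw [indicator_of_notMem hz, indicator_of_notMem fun h => hz (h6.1 h)]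
  · have h7 : ∀ᵐ z : ℍ, ∀ γ : Γ, H₀ (γ • z) = H₀ z := ae_all_iff.2 h2
    filter_upwards [h1, h7] with z e1 e2
    rw [indicator_of_mem (show z ∈ G from e2), e1]

/-- one test function computes the integrals over `D` -/
theorem exists_unfold [Countable Γ] (hg : Berry.Geo Γ ρ D) (hρ : Continuous ρ)
    (hK : ∃ K : Set ℍ, IsCompact K ∧ ∀ z, ∃ γ ∈ Γ, γ • z ∈ K) :
    ∃ ζ : ℂ → ℝ, Continuous ζ ∧ HasCompactSupport ζ ∧ tsupport ζ ⊆ HH ∧
      ∀ f : ℍ → ℝ, Measurable f → (∀ γ ∈ Γ, ∀ z, f (γ • z) = f z) →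
        IntegrableOn (fun w => f (ofComplex w)) (tsupport ζ) →
        IntegrableOn f D (Berry.area ρ) ∧
          ∫ z in D, f z ∂(Berry.area ρ) = ∫ w, ζ w * f (ofComplex w) := by
  obtain ⟨ζ₁, h1, h2, h3, h4, h5⟩ := QE.Surf.exists_test_gen hg.dom hK
  have hexpc : Continuous fun z => Real.exp (2 * ρ z) :=
    Real.continuous_exp.comp (continuous_const.mul hρ)
  have hζc := QE.Surf.continuous_cut_mul h1 h3 hexpc
  have hζs : HasCompactSupport fun w => ζ₁ w * Real.exp (2 * ρ (ofComplex w)) := h2.mul_right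
  have hζ0 : ∀ w, 0 ≤ ζ₁ w * Real.exp (2 * ρ (ofComplex w)) :=
    fun w => mul_nonneg (h4 w) (Real.exp_pos _).le
  refine ⟨fun w => ζ₁ w * Real.exp (2 * ρ (ofComplex w)), hζc, hζs,
    (closure_mono (Function.support_mul_subset_left _ _)).trans h3, ?_⟩
  set ζ : ℂ → ℝ := fun w => ζ₁ w * Real.exp (2 * ρ (ofComplex w)) with hζdef
  intro f hf hinv hint
  have hexpm : Measurable fun z => ENNReal.ofReal (Real.exp (2 * ρ z)) :=
    ENNReal.measurable_ofReal.comp hexpc.measurable
  have key : ∀ F : ℍ → ℝ≥0∞, Measurable F → (∀ γ ∈ Γ, ∀ z, F (γ • z) = F z) →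
      ∫⁻ z in D, F z ∂(Berry.area ρ) = ∫⁻ w, ENNReal.ofReal (ζ w) * F (ofComplex w) := by
    intro F hF hFinv
    unfold Berry.area
    rw [setLIntegral_withDensity_eq_setLIntegral_mul _ hexpm hF hg.meas]
    have h6 := h5 (fun z => ENNReal.ofReal (Real.exp (2 * ρ z)) * F z) (hexpm.mul hF)
      (fun γ hγ z => by rw [hFinv γ hγ, hg.inv γ hγ])
    have e1 : ∫⁻ z in D, ((fun z => ENNReal.ofReal (Real.exp (2 * ρ z))) * F) z =
        ∫⁻ z in D, ENNReal.ofReal (Real.exp (2 * ρ z)) * F z := rfl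
    rw [e1, ← h6]
    refine lintegral_congr fun w => ?_
    rw [hζdef]
    simp only
    rw [ENNReal.ofReal_mul (h4 w), mul_assoc]
  have hI : Integrable (fun w => ζ w * f (ofComplex w)) := integrable_mul hζc hζs hint
  have hI2 : IntegrableOn f D (Berry.area ρ) := by
    refine ⟨hf.aestronglyMeasurable, ?_⟩
    unfold HasFiniteIntegral
    rw [key (fun z => ‖f z‖ₑ) hf.enorm (fun γ hγ z => by rw [hinv γ hγ])]
    have h7 := hI.2
    unfold HasFiniteIntegral at h7
    refine lt_of_le_of_lt (lintegral_mono fun w => ?_) h7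
    rw [enorm_mul, Real.enorm_of_nonneg (hζ0 w)]
  refine ⟨hI2, ?_⟩
  rw [integral_eq_lintegral_pos_part_sub_lintegral_neg_part hI2,
    integral_eq_lintegral_pos_part_sub_lintegral_neg_part hI,
    key (fun z => ENNReal.ofReal (f z)) (ENNReal.measurable_ofReal.comp hf)
      (fun γ hγ z => by rw [hinv γ hγ]),
    key (fun z => ENNReal.ofReal (-f z)) (ENNReal.measurable_ofReal.comp hf.neg)
      (fun γ hγ z => by rw [hinv γ hγ])]
  have e2 : ∀ w, ENNReal.ofReal (ζ w) * ENNReal.ofReal (f (ofComplex w)) =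
      ENNReal.ofReal (ζ w * f (ofComplex w)) := fun w => (ENNReal.ofReal_mul (hζ0 w)).symm
  have e3 : ∀ w, ENNReal.ofReal (ζ w) * ENNReal.ofReal (-f (ofComplex w)) =
      ENNReal.ofReal (-(ζ w * f (ofComplex w))) := fun w => by
    rw [← mul_neg, ENNReal.ofReal_mul (hζ0 w)]
  simp only [e2, e3]

lemma rAvg_eq' (f : ℍ → ℝ) : Berry.rAvg ρ D f =
    ((Berry.area ρ D).toReal)⁻¹ * ∫ z in D, f z ∂(Berry.area ρ) := by
  unfold Berry.rAvg ProbabilityTheory.cond
  rw [integral_smul_measure, smul_eq_mul, ENNReal.toReal_inv]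

end GLOB

open GLOB

theorem glob : StmtGlob := by
  intro Γ ρ D F H hΓ hg hρ hK hF hinv hbd hH hloc
  have : Countable Γ := hΓ
  have hae := fun γ hγ => inv_ae (Γ := Γ) hF hinv hbd hH hloc γ hγ
  refine ⟨hae, fun w hw hwinv => ?_⟩
  -- measurability
  have hm : AEMeasurable H (volume : Measure ℍ) := by
    have h1 : LocallyIntegrableOn (fun z : ℂ => H (ofComplex z)) HH := by
      rw [locallyIntegrableOn_iff isOpen_HH.isLocallyClosed]
      exact fun K hKU hK => hH K hK hKU
    have h2 := h1.aestronglyMeasurable.aemeasurable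
    refine ⟨fun z : ℍ => h2.mk _ (z : ℂ),
      h2.measurable_mk.comp UpperHalfPlane.continuous_coe.measurable, ?_⟩
    have h3 : ∀ᵐ z ∂((volume : Measure ℂ).restrict UH), H (ofComplex z) = h2.mk _ z :=
      h2.ae_eq_mk
    filter_upwards [QE.FM.ae_H h3] with z hz
    rw [ofComplex_apply] at hz
    exact hz
  obtain ⟨H', hm', hinv', hHH'⟩ := exists_version (Γ := Γ) hm hae
  obtain ⟨ζ, hζc, hζs, hζU, hζ⟩ := exists_unfold hg hρ hK
  have hplane := ae_plane hHH'
  -- the weighted limit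
  have hint' : ∀ K : Set ℂ, IsCompact K → K ⊆ HH →
      IntegrableOn (fun z => w (ofComplex z) * H' (ofComplex z)) K := by
    intro K hKc hKU
    have h1 : IntegrableOn (fun z => w (ofComplex z) * H (ofComplex z)) K :=
      IntegrableOn.continuousOn_mul ((cont_on hw).mono hKU) (hH K hKc hKU) hKc
    refine Integrable.congr h1 ?_
    filter_upwards [ae_restrict_of_ae_restrict_of_subset hKU hplane] with z hz
    rw [hz]
  obtain ⟨i1, i2⟩ := hζ (fun z => w z * H' z) (hw.measurable.mul hm')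
    (fun γ hγ z => by rw [hwinv γ hγ, hinv' γ hγ]) (hint' _ hζs hζU)
  have hac : ∀ᵐ z ∂((Berry.area ρ).restrict D), w z * H' z = w z * H z := by
    refine ae_restrict_of_ae ?_
    refine (withDensity_absolutelyContinuous _ _) ?_
    filter_upwards [hHH'] with z hz
    rw [hz]
  refine ⟨Integrable.congr i1 hac, ?_⟩
  have hc2 := QE.Surf.continuous_cut_mul hζc hζU hw
  have hs2 : HasCompactSupport fun z => ζ z * w (ofComplex z) := hζs.mul_right
  have hU2 : tsupport (fun z => ζ z * w (ofComplex z)) ⊆ HH :=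
    (closure_mono (Function.support_mul_subset_left _ _)).trans hζU
  have l1 := lim_cont hF hbd hH hloc hc2 hs2 hU2
  have l2 := l1.const_mul ((Berry.area ρ D).toReal)⁻¹
  have e1 : ((Berry.area ρ D).toReal)⁻¹ * ∫ z, ζ z * w (ofComplex z) * H (ofComplex z) =
      Berry.rAvg ρ D (fun z => w z * H z) := by
    rw [rAvg_eq', ← integral_congr_ae hac, i2]
    congr 1
    have hζ0 : ∀ z, z ∉ HH → ζ z = 0 := fun z hz => by
      by_contra h
      exact hz (hζU (subset_tsupport ζ h))
    rw [← setIntegral_eq_integral_of_forall_compl_eq_zero (s := HH)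
        (f := fun z => ζ z * w (ofComplex z) * H (ofComplex z)),
      ← setIntegral_eq_integral_of_forall_compl_eq_zero (s := HH)
        (f := fun z => ζ z * (w (ofComplex z) * H' (ofComplex z)))]
    · refine integral_congr_ae ?_
      filter_upwards [hplane] with z hz
      rw [hz, mul_assoc]
    · intro z hz
      rw [hζ0 z hz, zero_mul]
    · intro z hz
      rw [hζ0 z hz, zero_mul, zero_mul]
  rw [← e1]
  refine l2.congr' ?_
  filter_upwards [hF] with n hn
  rw [rAvg_eq']
  congr 1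
  have hcn : Continuous fun z => w z * F n z := hw.mul hn
  obtain ⟨-, j2⟩ := hζ (fun z => w z * F n z) hcn.measurable
    (fun γ hγ z => by rw [hwinv γ hγ, hinv n γ hγ])
    (((cont_on hcn).mono hζU).integrableOn_compact hζs)
  rw [j2]
  congr 1
  funext z
  ring

end

end NFP
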