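import Pool.Agent.NFP.St
import Pool.Agent.BWM.C43

/-!
# NFP: the semiclassical measure of a sequence bounded in `L⁴` has a density
-/

set_option autoImplicit false

open Complex MeasureTheory Filter Topology Set
open UpperHalfPlane hiding I
open scoped ContDiff MatrixGroups ProbabilityTheory ENNReal

namespace NFP

open QE QE.NC

noncomputable section

namespace STRUCT

/-! ## Kernels with finite values -/

/-- the points with mass in `[n, n + 1)` -/
def lev (s : ProbabilityTheory.Kernel ℍ S1) (n : ℕ) : Set ℍ :=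
  {z | (n : ℝ≥0∞) ≤ s z univ ∧ s z univ < (n : ℝ≥0∞) + 1}

lemma meas_lev (s : ProbabilityTheory.Kernel ℍ S1) (n : ℕ) : MeasurableSet (lev s n) :=
  (measurableSet_le measurable_const (s.measurable_coe MeasurableSet.univ)).inter
    (measurableSet_lt (s.measurable_coe MeasurableSet.univ) measurable_const)

lemma exists_lev (s : ProbabilityTheory.Kernel ℍ S1) (z : ℍ) (h : s z univ < ⊤) :
    z ∈ lev s ⌊(s z univ).toReal⌋₊ := by
  have h1 : s z univ = ENNReal.ofReal (s z univ).toReal := (ENNReal.ofReal_toReal h.ne).symm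
  constructor
  · rw [h1, ENNReal.toReal_ofReal ENNReal.toReal_nonneg, ← ENNReal.ofReal_natCast]
    exact ENNReal.ofReal_le_ofReal (Nat.floor_le ENNReal.toReal_nonneg)
  · rw [h1, ENNReal.toReal_ofReal ENNReal.toReal_nonneg, ← ENNReal.ofReal_natCast,
      ← ENNReal.ofReal_one, ← ENNReal.ofReal_add (Nat.cast_nonneg _) zero_le_one]
    rw [ENNReal.ofReal_lt_ofReal_iff_of_nonneg ENNReal.toReal_nonneg]
    exact Nat.lt_floor_add_one _

lemma lev_unique (s : ProbabilityTheory.Kernel ℍ S1) (z : ℍ) (m n : ℕ) (hm : z ∈ lev s m)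
    (hn : z ∈ lev s n) : m = n := by
  have h1 : (m : ℝ≥0∞) < (n : ℝ≥0∞) + 1 := lt_of_le_of_lt hm.1 hn.2
  have h2 : (n : ℝ≥0∞) < (m : ℝ≥0∞) + 1 := lt_of_le_of_lt hn.1 hm.2
  have h3 : m < n + 1 := by exact_mod_cast h1
  have h4 : n < m + 1 := by exact_mod_cast h2
  omega

lemma sfinite (s : ProbabilityTheory.Kernel ℍ S1) (h : ∀ z, s z univ < ⊤) :
    ProbabilityTheory.IsSFiniteKernel s := by
  classical
  refine ⟨⟨fun n => ProbabilityTheory.Kernel.piecewise (meas_lev s n) s 0, fun n => ?_, ?_⟩⟩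
  · refine ⟨⟨(n : ℝ≥0∞) + 1, ENNReal.add_lt_top.2 ⟨ENNReal.natCast_lt_top n, ENNReal.one_lt_top⟩,
      fun z => ?_⟩⟩
    rw [ProbabilityTheory.Kernel.piecewise_apply']
    split_ifs with hz
    · exact hz.2.le
    · simp
  · ext z t ht
    rw [ProbabilityTheory.Kernel.sum_apply' _ _ ht, tsum_eq_single ⌊(s z univ).toReal⌋₊]
    · rw [ProbabilityTheory.Kernel.piecewise_apply', if_pos (exists_lev s z (h z))]
    · intro n hn
      rw [ProbabilityTheory.Kernel.piecewise_apply', if_neg]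
      · simp
      · intro hz
        exact hn (lev_unique s z _ _ hz (exists_lev s z (h z)))

/-! ## Integrals over the half plane -/

lemma cont_rho {ρ : ℍ → ℝ} (h : ContDiffOn ℝ ∞ (ro ρ) UH) : Continuous ρ := by
  have h1 : Continuous (fun z : ℍ => ro ρ (z : ℂ)) :=
    h.continuousOn.comp_continuous UpperHalfPlane.continuous_coe fun z => z.im_pos
  have h2 : (fun z : ℍ => ro ρ (z : ℂ)) = ρ := by
    funext z
    simp only [ro, ofComplex_apply]
  rwa [h2] at h1

instance sfinite_area (ρ : ℍ → ℝ) : SFinite (Berry.area ρ) := by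
  unfold Berry.area
  infer_instance

lemma integral_area {ρ : ℍ → ℝ} (hρ : Continuous ρ) (G : ℍ → ℂ) :
    ∫ z, G z ∂(Berry.area ρ) = ∫ z, ((Real.exp (2 * ρ z) : ℝ) : ℂ) * G z := by
  unfold Berry.area
  rw [integral_withDensity_eq_integral_toReal_smul]
  · refine integral_congr_ae (Eventually.of_forall fun z => ?_)
    beta_reduce
    rw [ENNReal.toReal_ofReal (Real.exp_pos _).le, real_smul]
  · exact (Real.continuous_exp.comp (continuous_const.mul hρ)).measurable.ennreal_ofReal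
  · exact Eventually.of_forall fun z => ENNReal.ofReal_lt_top

lemma integral_test {ζ : ℂ → ℂ} (hζ : Test UH ζ) (v : ℂ → ℂ) :
    ∫ z, ζ z * v z = ∫ z in UH, ζ z * v z := by
  rw [setIntegral_eq_integral_of_forall_compl_eq_zero]
  intro z hz
  rw [image_eq_zero_of_notMem_tsupport fun h => hz (hζ.sub h), zero_mul]

/-- the plane integral of a test function against a function on the half plane -/
lemma integral_plane {ρ : ℍ → ℝ} (hρ : Continuous ρ) {ζ : ℂ → ℂ} (hζ : Test UH ζ) (v : ℍ → ℂ) :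
    ∫ z, ζ z * v (ofComplex z)
      = ∫ z : ℍ, ζ z * ((z.im ^ 2 * Real.exp (-(2 * ρ z)) : ℝ) : ℂ) * v z ∂(Berry.area ρ) := by
  rw [integral_test hζ, ← QE.FejerN.integral_H, integral_area hρ]
  refine integral_congr_ae (Eventually.of_forall fun z => ?_)
  beta_reduce
  rw [ofComplex_apply]
  have h1 : Real.exp (2 * ρ z) * Real.exp (-(2 * ρ z)) = 1 := by
    rw [← Real.exp_add, add_neg_cancel, Real.exp_zero]
  have h2 : ((Real.exp (2 * ρ z) : ℝ) : ℂ) * ((Real.exp (-(2 * ρ z)) : ℝ) : ℂ) = 1 := by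
    rw [← ofReal_mul, h1, ofReal_one]
  rw [ofReal_mul, ofReal_pow]
  linear_combination (-(z.im : ℂ) ^ 2 * ζ z * v z) * h2

/-! ## The measure -/

/-- the integrand -/
def Gf (ρ : ℍ → ℝ) (ζ : ℂ → ℂ) (k : ℤ) (p : ℍ × S1) : ℂ :=
  ζ p.1 * ((p.1.im ^ 2 * Real.exp (-(2 * ρ p.1)) : ℝ) : ℂ) * (p.2 : ℂ) ^ (-k)

lemma cont_zpow (k : ℤ) : Continuous (fun w : S1 => (w : ℂ) ^ k) := by
  refine continuous_subtype_val.zpow₀ k fun w => Or.inl ?_
  intro h0
  have h1 : ‖(w : ℂ)‖ = 1 := mem_sphere_zero_iff_norm.mp w.2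
  rw [h0, norm_zero] at h1
  exact zero_ne_one h1

lemma norm_zp (k : ℤ) (w : S1) : ‖(w : ℂ) ^ k‖ = 1 := by
  have h1 : ‖(w : ℂ)‖ = 1 := mem_sphere_zero_iff_norm.mp w.2
  rw [norm_zpow, h1, one_zpow]

lemma cont_G {ρ : ℍ → ℝ} (hρ : Continuous ρ) {ζ : ℂ → ℂ} (hζ : Test UH ζ) (k : ℤ) :
    Continuous (Gf ρ ζ k) := by
  unfold Gf
  refine (Continuous.mul ?_ ?_).mul ((cont_zpow (-k)).comp continuous_snd)
  · exact hζ.smooth.continuous.comp (UpperHalfPlane.continuous_coe.comp continuous_fst)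
  · refine continuous_ofReal.comp (Continuous.mul ?_ ?_)
    · exact (UpperHalfPlane.continuous_im.comp continuous_fst).pow 2
    · exact Real.continuous_exp.comp (continuous_const.mul (hρ.comp continuous_fst)).neg

lemma compact_pre {ζ : ℂ → ℂ} (hζ : Test UH ζ) :
    IsCompact (UpperHalfPlane.coe ⁻¹' tsupport ζ) := by
  have h1 : tsupport ζ ⊆ Set.range UpperHalfPlane.coe := by
    rw [range_coe_eq]
    exact hζ.sub
  exact (isOpenEmbedding_coe.isInducing.isCompact_preimage_iff h1).2 hζ.supp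

lemma integrable_G {μ : Measure (ℍ × S1)} (hμ : ∀ K : Set ℍ, IsCompact K → μ (K ×ˢ univ) < ⊤)
    {ρ : ℍ → ℝ} (hρ : Continuous ρ) {ζ : ℂ → ℂ} (hζ : Test UH ζ) (k : ℤ) :
    Integrable (Gf ρ ζ k) μ := by
  have hK := compact_pre hζ
  have hc : IsCompact ((UpperHalfPlane.coe ⁻¹' tsupport ζ) ×ˢ (univ : Set S1)) :=
    hK.prod isCompact_univ
  obtain ⟨C, hC⟩ := hc.exists_bound_of_continuousOn (cont_G hρ hζ k).continuousOn
  have h1 : IntegrableOn (Gf ρ ζ k) ((UpperHalfPlane.coe ⁻¹' tsupport ζ) ×ˢ (univ : Set S1)) μ := by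
    refine Measure.integrableOn_of_bounded (hμ _ hK).ne
      (cont_G hρ hζ k).measurable.aestronglyMeasurable (M := C) ?_
    refine (ae_restrict_iff' (hK.measurableSet.prod MeasurableSet.univ)).2 ?_
    exact Eventually.of_forall fun p hp => hC p hp
  refine (integrableOn_iff_integrable_of_support_subset ?_).1 h1
  intro p hp
  refine ⟨?_, mem_univ _⟩
  refine subset_tsupport _ fun h0 => hp ?_
  unfold Gf
  rw [h0, zero_mul, zero_mul]

section Main

variable {ρ : ℍ → ℝ} {μ : Measure (ℍ × S1)} {s : ProbabilityTheory.Kernel ℍ S1}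

lemma cof_comp (hρ : Continuous ρ) (hμ : ∀ K : Set ℍ, IsCompact K → μ (K ×ˢ univ) < ⊤)
    (hs : ∀ z, s z univ < ⊤) (he : μ = (Berry.area ρ) ⊗ₘ s) {ζ : ℂ → ℂ} (hζ : Test UH ζ) (k : ℤ) :
    ∫ z, ζ z * cof (s (ofComplex z)) k = ∫ p, Gf ρ ζ k p ∂μ := by
  have h0 := sfinite s hs
  have hi := integrable_G hμ hρ hζ k
  rw [integral_plane hρ hζ (fun z => cof (s z) k)]
  rw [he] at hi ⊢
  rw [Measure.integral_compProd hi]
  refine integral_congr_ae (Eventually.of_forall fun z => ?_)
  unfold Gf cof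
  exact (integral_const_mul _ _).symm

lemma meas_cof (s : ProbabilityTheory.Kernel ℍ S1) (k : ℤ) :
    Measurable (fun z => cof (s z) k) :=
  (StronglyMeasurable.integral_kernel (κ := s)
    (cont_zpow (-k)).measurable.stronglyMeasurable).measurable

lemma norm_cof (σ : Measure S1) (k : ℤ) : ‖cof σ k‖ ≤ (σ univ).toReal := by
  unfold cof
  by_cases hf : IsFiniteMeasure σ
  · calc ‖∫ w : S1, (w : ℂ) ^ (-k) ∂σ‖ ≤ ∫ w : S1, ‖(w : ℂ) ^ (-k)‖ ∂σ :=
          norm_integral_le_integral_norm _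
      _ = ∫ w : S1, (1 : ℝ) ∂σ := by
          refine integral_congr_ae (Eventually.of_forall fun w => ?_)
          exact norm_zp (-k) w
      _ = (σ univ).toReal := by
          rw [integral_const, smul_eq_mul, mul_one]
          rfl
  · rw [integral_undef, norm_zero]
    · exact ENNReal.toReal_nonneg
    · intro hi
      apply hf
      have h1 : Integrable (fun w : S1 => (1 : ℝ)) σ :=
        hi.norm.congr (Eventually.of_forall fun w => norm_zp (-k) w)
      exact (integrable_const_iff.1 h1).resolve_left one_ne_zero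

end Main

end STRUCT

open STRUCT in
/-- STRUCT -/
theorem struct_ (h1 : StmtSemTwo) (h2 : StmtKer) (h3 : StmtMarg) : StmtStruct := by
  intro ρ φ m μ hρ S hμ
  have hc := cont_rho hρ
  obtain ⟨s, hs, u, hum, hul, hww⟩ := exists_limits S
  have hS := h1 ρ φ m μ hρ S hμ
  -- the moments
  have hmom : ∀ (k : ℤ) (ζ : ℂ → ℂ), Test UH ζ → ∫ z, ζ z * u k z = ∫ p, Gf ρ ζ k p ∂μ := by
    intro k ζ hζ
    have t1 := (hww 0 k).testVL hζ
    have t2 := (hS 0 k ζ hζ).comp hs.tendsto_atTop
    have e := tendsto_nhds_unique t1 t2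
    simp only [zpow_zero, one_mul, zero_add] at e
    exact e
  have hJ : JetLim UH (fun n => 1 / m n) (aR ρ) (fun n z => (φ n (ofComplex z) : ℂ)) u := by
    refine ⟨hul, fun j l => ?_⟩
    refine TLim.wlim S.op (S.sm2 j l) (S.bd2 j l) ⟨(hul (j + l)).const_mul _, fun ζ hζ => ?_⟩
    have t2 := hS j l ζ hζ
    have e : ∫ z, ζ z * ((-1) ^ j * u (j + l) z) = (-1) ^ j * ∫ p, Gf ρ ζ (j + l) p ∂μ := by
      rw [← hmom (j + l) ζ hζ, ← integral_const_mul]
      refine integral_congr_ae (Eventually.of_forall fun z => ?_)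
      beta_reduce
      ring
    rw [e]
    exact t2
  have hJL : JLim UH (fun n => 1 / m n) (aR ρ) (fun n z => (φ n (ofComplex z) : ℂ)) u := hJ.lim
  have hreal := S.lim_real hul hJL
  -- the marginal
  have hfst : ∀ K : Set ℍ, IsCompact K → μ.map Prod.fst K < ⊤ := by
    intro K hK
    rw [Measure.map_apply measurable_fst hK.measurableSet]
    have e : (Prod.fst ⁻¹' K : Set (ℍ × S1)) = K ×ˢ univ := by
      ext p
      simp
    rw [e]
    exact hμ.fin K hK
  have hmarg := h3 ρ (μ.map Prod.fst) (u 0) hc hfst (hum 0) (hul 0) hreal (by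
    intro ζ hζ
    rw [hmom 0 ζ hζ, integral_map measurable_fst.aemeasurable]
    · refine integral_congr_ae (Eventually.of_forall fun p => ?_)
      unfold Gf
      beta_reduce
      rw [neg_zero, zpow_zero, mul_one]
    · refine Continuous.aestronglyMeasurable ?_
      refine Continuous.mul (hζ.smooth.continuous.comp UpperHalfPlane.continuous_coe) ?_
      refine continuous_ofReal.comp (Continuous.mul ?_ ?_)
      · exact UpperHalfPlane.continuous_im.pow 2
      · exact Real.continuous_exp.comp (continuous_const.mul hc).neg)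
  -- the kernel
  obtain ⟨κ, hκ, hκμ⟩ := h2 ρ μ (fun z => max (u 0 z).re 0) hc hμ.fin
    ((Complex.measurable_re.comp ((hum 0).comp measurable_coe)).max measurable_const)
    (fun z => le_max_right _ _) hmarg
  have hκf : ∀ z, κ z univ < ⊤ := fun z => by
    rw [hκ z]
    exact ENNReal.ofReal_lt_top
  have hbd : ∀ (k : ℤ) (z : ℂ), z ∈ UH → ‖cof (κ (ofComplex z)) k‖ ≤ ‖u 0 z‖ := by
    intro k z hz
    refine (norm_cof _ k).trans ?_
    rw [hκ, ENNReal.toReal_ofReal (le_max_right _ _)]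
    have e : ((ofComplex z : ℍ) : ℂ) = z := by
      rw [ofComplex_apply_of_im_pos hz]
    rw [e]
    exact max_le ((le_abs_self _).trans (abs_re_le_norm _)) (norm_nonneg _)
  have hcl : ∀ k, LocL2 UH (fun z => cof (κ (ofComplex z)) k) := by
    intro k K hK hKU
    refine (hul 0 K hK hKU).mono
      ((meas_cof κ k).comp QE.Surf.measurable_ofComplex).aestronglyMeasurable ?_
    refine (ae_restrict_iff' hK.measurableSet).2 (Eventually.of_forall fun z hz => ?_)
    exact hbd k z (hKU hz)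
  refine ⟨u, κ, fun z => ⟨hκf z⟩, hκμ, hum, hJ, fun k => ?_, S.lim_odd hul hJL⟩
  have key := ae_zero_of_test S.op ((hul k).addVL (hcl k).neg) fun ζ hζ => ?_
  · filter_upwards [key] with z hz
    linear_combination hz
  · have e1 := hmom k ζ hζ
    have e2 := cof_comp hc hμ.fin hκf hκμ hζ k
    have e3 : ∫ z, ζ z * (u k z + - cof (κ (ofComplex z)) k)
        = (∫ z, ζ z * u k z) - ∫ z, ζ z * cof (κ (ofComplex z)) k := by
      rw [← integral_sub (hζ.integrable_loc (hul k)) (hζ.integrable_loc (hcl k))]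
      refine integral_congr_ae (Eventually.of_forall fun z => ?_)
      beta_reduce
      ring
    rw [e3, e1, e2, sub_self]

end

end NFP
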