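import Pool.Agent.NFP.StI
import Pool.Agent.NFP.Struct
import Pool.Agent.CRM.EXF

/-!
# IDENT: the crossing measure of a semiclassical measure with a square integrable density
-/

set_option autoImplicit false

open Complex MeasureTheory Filter Topology Set
open UpperHalfPlane hiding I
open scoped ContDiff MatrixGroups ProbabilityTheory ENNReal

namespace NFP

open QE QE.NC

noncomputable section

namespace IDENT

/-! ### Two measures with the same moments are equal -/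

lemma isOpen_UH1 : IsOpen UH := isOpen_lt continuous_const Complex.continuous_im

lemma fmc {μ : Measure (ℍ × S1)} (h : ∀ K : Set ℍ, IsCompact K → μ (K ×ˢ univ) < ⊤) :
    IsFiniteMeasureOnCompacts μ := by
  constructor
  intro S hS
  refine lt_of_le_of_lt (measure_mono ?_) (h _ (hS.image continuous_fst))
  intro p hp
  exact ⟨mem_image_of_mem _ hp, mem_univ _⟩

lemma cpt_pre {K : Set ℂ} (hK : IsCompact K) (h : K ⊆ UH) :
    IsCompact (UpperHalfPlane.coe ⁻¹' K) := by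
  refine (UpperHalfPlane.isOpenEmbedding_coe.isInducing.isCompact_preimage_iff ?_).2 hK
  intro z hz
  exact ⟨⟨z, h hz⟩, rfl⟩

/-- continuous functions which vanish outside of the points over a compact set -/
lemma intg {μ : Measure (ℍ × S1)} (h : ∀ K : Set ℍ, IsCompact K → μ (K ×ˢ univ) < ⊤)
    {G : ℍ × S1 → ℂ} (hG : Continuous G) {K : Set ℂ} (hK : IsCompact K) (hKU : K ⊆ UH)
    (h0 : ∀ p : ℍ × S1, (p.1 : ℂ) ∉ K → G p = 0) : Integrable G μ := by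
  have := fmc h
  refine hG.integrable_of_hasCompactSupport ?_
  refine HasCompactSupport.intro ((cpt_pre hK hKU).prod isCompact_univ) fun p hp => ?_
  exact h0 p fun hh => hp ⟨hh, mem_univ _⟩

lemma cont_base {ζ : ℂ → ℂ} (hζ : Test UH ζ) : Continuous fun p : ℍ × S1 => ζ p.1 :=
  hζ.smooth.continuous.comp (UpperHalfPlane.continuous_coe.comp continuous_fst)

lemma cont_mom {ζ : ℂ → ℂ} (hζ : Test UH ζ) (k : ℤ) :
    Continuous fun p : ℍ × S1 => ζ p.1 * (p.2 : ℂ) ^ k :=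
  (cont_base hζ).mul ((STRUCT.cont_zpow k).comp continuous_snd)

lemma int_mul {μ : Measure (ℍ × S1)} (h : ∀ K : Set ℍ, IsCompact K → μ (K ×ˢ univ) < ⊤)
    {ζ : ℂ → ℂ} (hζ : Test UH ζ) {F : ℍ × S1 → ℂ} (hF : Continuous F) :
    Integrable (fun p : ℍ × S1 => ζ p.1 * F p) μ := by
  refine intg h ((cont_base hζ).mul hF) hζ.supp hζ.sub fun p hp => ?_
  rw [image_eq_zero_of_notMem_tsupport hp, zero_mul]

lemma int_mom {μ : Measure (ℍ × S1)} (h : ∀ K : Set ℍ, IsCompact K → μ (K ×ˢ univ) < ⊤)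
    {ζ : ℂ → ℂ} (hζ : Test UH ζ) (k : ℤ) :
    Integrable (fun p : ℍ × S1 => ζ p.1 * (p.2 : ℂ) ^ k) μ :=
  int_mul h hζ ((STRUCT.cont_zpow k).comp continuous_snd)

lemma conj_eq_inv (t : S1) : (starRingEnd ℂ) (t : ℂ) = (t : ℂ)⁻¹ := by
  have h1 : ‖(t : ℂ)‖ = 1 := mem_sphere_zero_iff_norm.mp t.2
  have h2 : (t : ℂ) ≠ 0 := by
    rw [← norm_ne_zero_iff, h1]
    exact one_ne_zero
  have h3 : (t : ℂ) * (starRingEnd ℂ) (t : ℂ) = 1 := by
    rw [mul_conj, Complex.normSq_eq_norm_sq, h1]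
    norm_num
  exact eq_inv_of_mul_eq_one_right h3

/-- the difference of an integral and the integral of an approximation -/
lemma approx {μ : Measure (ℍ × S1)} (h : ∀ K : Set ℍ, IsCompact K → μ (K ×ˢ univ) < ⊤)
    {F G : ℍ × S1 → ℂ} (hF : Integrable F μ) (hG : Integrable G μ) {K : Set ℂ}
    (hK : IsCompact K) (hKU : K ⊆ UH) (h0 : ∀ p : ℍ × S1, (p.1 : ℂ) ∉ K → F p - G p = 0)
    {δ : ℝ} (hd : ∀ p, ‖F p - G p‖ ≤ δ) :
    ‖∫ p, F p ∂μ - ∫ p, G p ∂μ‖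
      ≤ δ * μ.real ((UpperHalfPlane.coe ⁻¹' K) ×ˢ (univ : Set S1)) := by
  rw [← integral_sub hF hG]
  have e : ∫ p, (F p - G p) ∂μ =
      ∫ p in (UpperHalfPlane.coe ⁻¹' K) ×ˢ (univ : Set S1), (F p - G p) ∂μ := by
    rw [setIntegral_eq_integral_of_forall_compl_eq_zero]
    intro p hp
    exact h0 p fun hh => hp ⟨hh, mem_univ _⟩
  rw [e]
  exact norm_setIntegral_le_of_norm_le_const (h _ (cpt_pre hK hKU)) fun p _ => hd p

/-- measures with the same moments are equal -/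
lemma ext_mom (h2 : CRM.StmtDns) {μ ν : Measure (ℍ × S1)}
    (hμ : ∀ K : Set ℍ, IsCompact K → μ (K ×ˢ univ) < ⊤)
    (hν : ∀ K : Set ℍ, IsCompact K → ν (K ×ˢ univ) < ⊤)
    (he : ∀ ζ : ℂ → ℂ, Test UH ζ → ∀ k : ℤ,
      ∫ p : ℍ × S1, ζ p.1 * (p.2 : ℂ) ^ k ∂μ = ∫ p : ℍ × S1, ζ p.1 * (p.2 : ℂ) ^ k ∂ν) :
    μ = ν := by
  have i1 := fmc hμ
  have i2 := fmc hν
  refine Measure.ext_of_integral_eq_on_compactlySupported fun f => ?_
  have hfc : Continuous fun p => f p := f.continuous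
  have hcs : IsCompact (tsupport fun p => f p) := f.hasCompactSupport
  set K : Set ℂ := (fun p : ℍ × S1 => (p.1 : ℂ)) '' (tsupport fun p => f p) with hKdef
  have hK : IsCompact K :=
    hcs.image (UpperHalfPlane.continuous_coe.comp continuous_fst)
  have hKU : K ⊆ UH := by
    rintro z ⟨p, -, rfl⟩
    exact p.1.im_pos
  have hf0 : ∀ (z : ℍ) (t : S1), (z : ℂ) ∉ K → f (z, t) = 0 := by
    intro z t hz
    refine image_eq_zero_of_notMem_tsupport (f := fun p => f p) fun hh => hz ?_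
    exact ⟨(z, t), hh, rfl⟩
  have hTF : CRM.TF UH (CRM.EXF.gx (fun _ => 1) fun p => f p) :=
    CRM.EXF.tf_gx continuous_const hfc hK hKU hKU hf0
  obtain ⟨K', hK', hKU', happ⟩ := h2 UH _ isOpen_UH1 hTF
  have hint : ∀ m : Measure (ℍ × S1), (∀ K : Set ℍ, IsCompact K → m (K ×ˢ univ) < ⊤) →
      Integrable (fun p => ((f p : ℝ) : ℂ)) m := by
    intro m hm
    refine intg hm (Complex.continuous_ofReal.comp hfc) hK hKU fun p hp => ?_
    rw [show f p = 0 from hf0 p.1 p.2 hp, Complex.ofReal_zero]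
  have key : ∀ δ : ℝ, 0 < δ → ‖∫ p, ((f p : ℝ) : ℂ) ∂μ - ∫ p, ((f p : ℝ) : ℂ) ∂ν‖ ≤
      δ * (μ.real ((UpperHalfPlane.coe ⁻¹' K') ×ˢ (univ : Set S1))
        + ν.real ((UpperHalfPlane.coe ⁻¹' K') ×ˢ (univ : Set S1))) := by
    intro δ hδ
    obtain ⟨N, ζ, hζ, hζK, hz0, hap⟩ := happ δ hδ
    set G : ℍ × S1 → ℂ := fun p =>
      ∑ k ∈ Finset.Icc (-(N : ℤ)) N, ζ k p.1 * (p.2 : ℂ) ^ (-k) with hG
    have hGi : ∀ m : Measure (ℍ × S1), (∀ K : Set ℍ, IsCompact K → m (K ×ˢ univ) < ⊤) →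
        Integrable G m := fun m hm => integrable_finsetSum _ fun k _ => int_mom hm (hζ k) (-k)
    have hFG : ∀ p : ℍ × S1, ‖((f p : ℝ) : ℂ) - G p‖ ≤ δ := by
      intro p
      have h3 := hap p.1 ((starRingEnd ℂ) (p.2 : ℂ)) (CRM.EXF.norm_conj_S1 p.2)
      rw [CRM.EXF.gx_conj, one_mul] at h3
      refine le_of_eq_of_le ?_ h3
      congr 2
      refine Finset.sum_congr rfl fun k _ => ?_
      rw [conj_eq_inv, inv_zpow, zpow_neg]
    have hFG0 : ∀ p : ℍ × S1, (p.1 : ℂ) ∉ K' → ((f p : ℝ) : ℂ) - G p = 0 := by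
      intro p hp
      have h3 := hz0 p.1 hp ((starRingEnd ℂ) (p.2 : ℂ))
      rw [CRM.EXF.gx_conj, one_mul] at h3
      have h4 : G p = 0 := by
        refine Finset.sum_eq_zero fun k _ => ?_
        rw [image_eq_zero_of_notMem_tsupport fun hh => hp (hζK k hh), zero_mul]
      rw [h4, sub_zero]
      exact h3
    have hsum : ∫ p, G p ∂μ = ∫ p, G p ∂ν := by
      rw [hG, integral_finsetSum _ fun k _ => int_mom hμ (hζ k) (-k),
        integral_finsetSum _ fun k _ => int_mom hν (hζ k) (-k)]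
      exact Finset.sum_congr rfl fun k _ => he _ (hζ k) _
    have a1 := approx hμ (hint μ hμ) (hGi μ hμ) hK' hKU' hFG0 hFG
    have a2 := approx hν (hint ν hν) (hGi ν hν) hK' hKU' hFG0 hFG
    rw [hsum] at a1
    rw [norm_sub_rev] at a2
    calc ‖∫ p, ((f p : ℝ) : ℂ) ∂μ - ∫ p, ((f p : ℝ) : ℂ) ∂ν‖
        = ‖(∫ p, ((f p : ℝ) : ℂ) ∂μ - ∫ p, G p ∂ν) +
            (∫ p, G p ∂ν - ∫ p, ((f p : ℝ) : ℂ) ∂ν)‖ := by
          congr 1
          ring
      _ ≤ _ := norm_add_le _ _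
      _ ≤ _ := add_le_add a1 a2
      _ = _ := by ring
  have hzero : ‖∫ p, ((f p : ℝ) : ℂ) ∂μ - ∫ p, ((f p : ℝ) : ℂ) ∂ν‖ ≤ 0 := by
    refine le_of_forall_pos_lt_add fun ε hε => ?_
    set M := μ.real ((UpperHalfPlane.coe ⁻¹' K') ×ˢ (univ : Set S1))
        + ν.real ((UpperHalfPlane.coe ⁻¹' K') ×ˢ (univ : Set S1)) with hM
    have hM0 : 0 ≤ M := add_nonneg measureReal_nonneg measureReal_nonneg
    have h3 := key (ε / (M + 1)) (by positivity)
    have h4 : ε / (M + 1) * M < ε := by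
      rw [div_mul_eq_mul_div, div_lt_iff₀ (by positivity)]
      nlinarith
    linarith
  have h5 : ∫ p, ((f p : ℝ) : ℂ) ∂μ - ∫ p, ((f p : ℝ) : ℂ) ∂ν = 0 := norm_le_zero_iff.1 hzero
  rw [integral_complex_ofReal, integral_complex_ofReal, sub_eq_zero] at h5
  exact Complex.ofReal_injective h5

/-! ### The measure `crossS` -/

/-- the sum `(2 c_k - c_{k+2} - c_{k-2}) / 4` -/
def X4 (c : ℤ → ℂ) (k : ℤ) : ℂ := (2 * c k - c (k + 2) - c (k - 2)) / 4

/-- the moments of the quotient of two independent directions -/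
def cc (m : Measure S1) (k : ℤ) : ℂ := cof m k * cof m (-k)

lemma S1_ne (t : S1) : (t : ℂ) ≠ 0 := by
  have h1 : ‖(t : ℂ)‖ = 1 := mem_sphere_zero_iff_norm.mp t.2
  rw [← norm_ne_zero_iff, h1]
  exact one_ne_zero

/-- `sin² t · t^k` -/
lemma sin_zpow (t : S1) (k : ℤ) :
    (((t : ℂ).im ^ 2 : ℝ) : ℂ) * (t : ℂ) ^ k = X4 (fun j => (t : ℂ) ^ j) k := by
  have h0 := S1_ne t
  have h1 := conj_eq_inv t
  have h2 : (((t : ℂ).im : ℝ) : ℂ) = ((t : ℂ) - (starRingEnd ℂ) (t : ℂ)) / (2 * Complex.I) :=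
    Complex.im_eq_sub_conj _
  unfold X4
  beta_reduce
  rw [zpow_add₀ h0, zpow_sub₀ h0, Complex.ofReal_pow, h2, h1]
  have h3 : (2 * Complex.I) ^ 2 = -4 := by
    rw [mul_pow, Complex.I_sq]
    norm_num
  rw [div_pow, h3]
  have h4 : (t : ℂ) ^ (2 : ℤ) = (t : ℂ) ^ 2 := by norm_cast
  rw [h4]
  field_simp
  ring

lemma im_sq_le (t : S1) : (t : ℂ).im ^ 2 ≤ 1 := by
  have h1 : ‖(t : ℂ)‖ = 1 := mem_sphere_zero_iff_norm.mp t.2
  have h2 := Complex.abs_im_le_norm (t : ℂ)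
  rw [h1] at h2
  exact (sq_le_one_iff_abs_le_one _).2 h2

section

variable {ρ : ℍ → ℝ} {s : ProbabilityTheory.Kernel ℍ S1}

/-- the measure of the pairs of directions -/
def pm (ρ : ℍ → ℝ) (s : ProbabilityTheory.Kernel ℍ S1) : Measure ((ℍ × S1) × S1) :=
  ((Berry.area ρ) ⊗ₘ s) ⊗ₘ (s.comap Prod.fst measurable_fst)

/-- the map to the angles -/
def qq (p : (ℍ × S1) × S1) : ℍ × S1 := (p.1.1, p.1.2 / p.2)

lemma cont_qq : Continuous qq :=
  (continuous_fst.comp continuous_fst).prodMk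
    ((continuous_snd.comp continuous_fst).div' continuous_snd)

lemma cont_im : Continuous fun p : (ℍ × S1) × S1 => ((p.1.2 / p.2 : S1) : ℂ).im ^ 2 :=
  (Complex.continuous_im.comp (continuous_subtype_val.comp
    (continuous_snd.comp cont_qq))).pow 2

lemma pm_pre (hs : ∀ z, IsFiniteMeasure (s z)) {K : Set ℍ} (hK : MeasurableSet K) :
    pm ρ s ((K ×ˢ univ) ×ˢ univ) = ∫⁻ z in K, (s z univ) ^ 2 ∂(Berry.area ρ) := by
  have := STRUCT.sfinite s fun z => measure_lt_top _ _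
  unfold pm
  rw [Measure.compProd_apply_prod (hK.prod MeasurableSet.univ) MeasurableSet.univ]
  have e : ∀ q : ℍ × S1, (s.comap Prod.fst measurable_fst :
      ProbabilityTheory.Kernel (ℍ × S1) S1) q univ = s q.1 univ := fun q => rfl
  simp only [e]
  have hm : Measurable fun q : ℍ × S1 => s q.1 univ :=
    (s.measurable_coe MeasurableSet.univ).comp measurable_fst
  rw [Measure.setLIntegral_compProd hm hK MeasurableSet.univ]
  refine lintegral_congr fun z => ?_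
  rw [Measure.restrict_univ]
  have e2 : ∫⁻ b : S1, s (z, b).1 univ ∂(s z) = ∫⁻ _ : S1, s z univ ∂(s z) := rfl
  rw [e2, lintegral_const, sq]

lemma crossS_le (hs : ∀ z, IsFiniteMeasure (s z)) {K : Set ℍ} (hK : MeasurableSet K) :
    crossS ρ s (K ×ˢ univ) ≤ ∫⁻ z in K, (s z univ) ^ 2 ∂(Berry.area ρ) := by
  have e : crossS ρ s = Measure.map qq ((pm ρ s).withDensity
    fun p => ENNReal.ofReal (((p.1.2 / p.2 : S1) : ℂ).im ^ 2)) := rfl
  have hpre : qq ⁻¹' (K ×ˢ univ) = ((K ×ˢ univ) ×ˢ univ : Set ((ℍ × S1) × S1)) := by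
    ext p
    simp [qq]
  rw [e, Measure.map_apply cont_qq.measurable (hK.prod MeasurableSet.univ), hpre,
    withDensity_apply _ ((hK.prod MeasurableSet.univ).prod MeasurableSet.univ),
    ← pm_pre hs hK]
  calc ∫⁻ p in (K ×ˢ univ) ×ˢ univ, ENNReal.ofReal (((p.1.2 / p.2 : S1) : ℂ).im ^ 2) ∂(pm ρ s)
      ≤ ∫⁻ p in (K ×ˢ univ) ×ˢ univ, 1 ∂(pm ρ s) := by
        refine lintegral_mono fun p => ?_
        rw [← ENNReal.ofReal_one]
        exact ENNReal.ofReal_le_ofReal (im_sq_le _)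
    _ = _ := by rw [setLIntegral_one]

/-- the square of the mass is locally integrable -/
lemma mass_fin (hρ : Continuous ρ) (hs : ∀ z, IsFiniteMeasure (s z)) {u : ℂ → ℂ}
    (hu : LocL2 UH u) (hus : ∀ᵐ z ∂(volume.restrict UH), u z = cof (s (ofComplex z)) 0)
    {K : Set ℍ} (hK : IsCompact K) :
    ∫⁻ z in K, (s z univ) ^ 2 ∂(Berry.area ρ) < ⊤ := by
  obtain ⟨C, hC⟩ := (hK.image (Real.continuous_exp.comp (continuous_const.mul hρ) :
    Continuous fun z => Real.exp (2 * ρ z))).bddAbove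
  have h3 : (Berry.area ρ).restrict K
      ≤ (ENNReal.ofReal C) • ((volume : Measure ℍ).restrict K) := by
    rw [Berry.area, restrict_withDensity hK.measurableSet, ← withDensity_const]
    refine withDensity_mono ?_
    rw [EventuallyLE, ae_restrict_iff' hK.measurableSet]
    refine Eventually.of_forall fun z hz => ?_
    exact ENNReal.ofReal_le_ofReal (hC (mem_image_of_mem _ hz))
  refine lt_of_le_of_lt (lintegral_mono' h3 le_rfl) ?_
  rw [lintegral_smul_measure]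
  refine ENNReal.mul_lt_top ENNReal.ofReal_lt_top ?_
  have h4 := (QE.FM.memLp_H hu hK)
  have h5 : ∫⁻ z in K, (s z univ) ^ 2 = ∫⁻ z in K, ‖u (z : ℂ)‖ₑ ^ 2 := by
    refine lintegral_congr_ae (ae_restrict_of_ae ?_)
    filter_upwards [QE.FM.ae_H hus] with z hz
    have e : cof (s z) 0 = (((s z univ).toReal : ℝ) : ℂ) := by
      unfold cof
      simp only [neg_zero, zpow_zero]
      rw [integral_const, Complex.real_smul, mul_one]
      rfl
    rw [hz, ofComplex_apply, e]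
    congr 1
    rw [← ofReal_norm, Complex.norm_real, Real.norm_of_nonneg ENNReal.toReal_nonneg,
      ENNReal.ofReal_toReal (measure_ne_top _ _)]
  rw [h5]
  have h6 := h4.eLpNorm_lt_top
  rw [eLpNorm_lt_top_iff_lintegral_rpow_enorm_lt_top two_ne_zero ENNReal.ofNat_ne_top] at h6
  simpa using h6

lemma crossS_fin (hρ : Continuous ρ) (hs : ∀ z, IsFiniteMeasure (s z)) {u : ℂ → ℂ}
    (hu : LocL2 UH u) (hus : ∀ᵐ z ∂(volume.restrict UH), u z = cof (s (ofComplex z)) 0)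
    (K : Set ℍ) (hK : IsCompact K) : crossS ρ s (K ×ˢ univ) < ⊤ :=
  (crossS_le hs hK.measurableSet).trans_lt (mass_fin hρ hs hu hus hK)

/-- the integral over the directions -/
lemma int_dir (m : Measure S1) [IsFiniteMeasure m] (k : ℤ) :
    ∫ w : S1, ∫ w' : S1, ((((w / w' : S1) : ℂ).im ^ 2 : ℝ) : ℂ) * ((w / w' : S1) : ℂ) ^ k ∂m ∂m
      = X4 (cc m) k := by
  have hi : ∀ j : ℤ, Integrable (fun w : S1 => (w : ℂ) ^ j) m := fun j =>
    Integrable.of_bound (STRUCT.cont_zpow j).aestronglyMeasurable 1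
      (Eventually.of_forall fun w => (STRUCT.norm_zp j w).le)
  have e1 : ∀ w w' : S1, ∀ j : ℤ, ((w / w' : S1) : ℂ) ^ j = (w : ℂ) ^ j * (w' : ℂ) ^ (-j) := by
    intro w w' j
    rw [Metric.unitSphere.coe_div, div_zpow, zpow_neg, div_eq_mul_inv]
  have e2 : ∀ w w' : S1,
      ((((w / w' : S1) : ℂ).im ^ 2 : ℝ) : ℂ) * ((w / w' : S1) : ℂ) ^ k =
      (2 * ((w : ℂ) ^ k * (w' : ℂ) ^ (-k)) - (w : ℂ) ^ (k + 2) * (w' : ℂ) ^ (-(k + 2))
        - (w : ℂ) ^ (k - 2) * (w' : ℂ) ^ (-(k - 2))) / 4 := by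
    intro w w'
    rw [sin_zpow]
    unfold X4
    beta_reduce
    rw [e1, e1, e1]
  have e3 : ∀ w : S1, ∫ w' : S1,
      ((((w / w' : S1) : ℂ).im ^ 2 : ℝ) : ℂ) * ((w / w' : S1) : ℂ) ^ k ∂m =
      (2 * ((w : ℂ) ^ k * cof m k) - (w : ℂ) ^ (k + 2) * cof m (k + 2)
        - (w : ℂ) ^ (k - 2) * cof m (k - 2)) / 4 := by
    intro w
    simp only [e2]
    rw [integral_div, integral_sub, integral_sub, integral_const_mul, integral_const_mul,
      integral_const_mul, integral_const_mul]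
    · rfl
    · exact ((hi _).const_mul _).const_mul _
    · exact (hi _).const_mul _
    · exact (((hi _).const_mul _).const_mul _).sub ((hi _).const_mul _)
    · exact (hi _).const_mul _
  simp only [e3]
  rw [integral_div, integral_sub, integral_sub, integral_const_mul, integral_mul_const,
    integral_mul_const, integral_mul_const]
  · unfold X4 cc cof
    simp only [neg_neg]
    ring
  · exact ((hi _).mul_const _).const_mul _
  · exact (hi _).mul_const _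
  · exact (((hi _).mul_const _).const_mul _).sub ((hi _).mul_const _)
  · exact (hi _).mul_const _

/-- the integrand on the pairs of directions -/
def Fk (ζ : ℂ → ℂ) (k : ℤ) (p : (ℍ × S1) × S1) : ℂ :=
  ζ p.1.1 * (((((p.1.2 / p.2 : S1) : ℂ).im ^ 2 : ℝ) : ℂ) * ((p.1.2 / p.2 : S1) : ℂ) ^ k)

lemma cont_Fk {ζ : ℂ → ℂ} (hζ : Test UH ζ) (k : ℤ) : Continuous (Fk ζ k) := by
  unfold Fk
  refine Continuous.mul ?_ (Continuous.mul ?_ ?_)
  · exact hζ.smooth.continuous.comp (UpperHalfPlane.continuous_coe.comp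
      (continuous_fst.comp continuous_fst))
  · exact Complex.continuous_ofReal.comp cont_im
  · exact (STRUCT.cont_zpow k).comp (continuous_snd.comp cont_qq)

lemma int_Fk (hρ : Continuous ρ) (hs : ∀ z, IsFiniteMeasure (s z)) {u : ℂ → ℂ}
    (hu : LocL2 UH u) (hus : ∀ᵐ z ∂(volume.restrict UH), u z = cof (s (ofComplex z)) 0)
    {ζ : ℂ → ℂ} (hζ : Test UH ζ) (k : ℤ) : Integrable (Fk ζ k) (pm ρ s) := by
  have hK : IsCompact (UpperHalfPlane.coe ⁻¹' tsupport ζ) := cpt_pre hζ.supp hζ.sub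
  obtain ⟨C, hC⟩ := hζ.smooth.continuous.bounded_above_of_compact_support hζ.supp
  have h1 : IntegrableOn (Fk ζ k)
      (((UpperHalfPlane.coe ⁻¹' tsupport ζ) ×ˢ univ) ×ˢ univ) (pm ρ s) := by
    refine Measure.integrableOn_of_bounded (M := C) ?_
      (cont_Fk hζ k).measurable.aestronglyMeasurable ?_
    · rw [pm_pre hs hK.measurableSet]
      exact (mass_fin hρ hs hu hus hK).ne
    · refine Eventually.of_forall fun p => ?_
      unfold Fk
      rw [norm_mul, norm_mul, STRUCT.norm_zp, mul_one, Complex.norm_real,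
        Real.norm_of_nonneg (sq_nonneg _)]
      calc ‖ζ p.1.1‖ * ((p.1.2 / p.2 : S1) : ℂ).im ^ 2 ≤ ‖ζ p.1.1‖ * 1 :=
            mul_le_mul_of_nonneg_left (im_sq_le _) (norm_nonneg _)
        _ ≤ C := by
            rw [mul_one]
            exact hC _
  refine (integrableOn_iff_integrable_of_support_subset ?_).1 h1
  intro p hp
  refine ⟨⟨?_, mem_univ _⟩, mem_univ _⟩
  refine subset_tsupport _ fun h0 => hp ?_
  unfold Fk
  rw [h0, zero_mul]

/-- the moments of `crossS` -/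
lemma crossS_mom (hρ : Continuous ρ) (hs : ∀ z, IsFiniteMeasure (s z)) {u : ℂ → ℂ}
    (hu : LocL2 UH u) (hus : ∀ᵐ z ∂(volume.restrict UH), u z = cof (s (ofComplex z)) 0)
    {ζ : ℂ → ℂ} (hζ : Test UH ζ) (k : ℤ) :
    ∫ p : ℍ × S1, ζ p.1 * (p.2 : ℂ) ^ k ∂(crossS ρ s)
      = ∫ z : ℍ, ζ z * X4 (cc (s z)) k ∂(Berry.area ρ) := by
  have hsf := STRUCT.sfinite s fun z => measure_lt_top _ _
  have e : crossS ρ s = Measure.map qq ((pm ρ s).withDensity
    fun p => ENNReal.ofReal (((p.1.2 / p.2 : S1) : ℂ).im ^ 2)) := rfl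
  rw [e, integral_map cont_qq.measurable.aemeasurable (cont_mom hζ k).aestronglyMeasurable,
    integral_withDensity_eq_integral_toReal_smul cont_im.measurable.ennreal_ofReal
      (Eventually.of_forall fun p => ENNReal.ofReal_lt_top)]
  have e1 : ∀ p : (ℍ × S1) × S1, (ENNReal.ofReal (((p.1.2 / p.2 : S1) : ℂ).im ^ 2)).toReal •
      (ζ (qq p).1 * ((qq p).2 : ℂ) ^ k) = Fk ζ k p := by
    intro p
    rw [ENNReal.toReal_ofReal (sq_nonneg _), Complex.real_smul]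
    unfold Fk qq
    ring
  simp only [e1]
  have hF := int_Fk hρ hs hu hus hζ k
  unfold pm at hF ⊢
  rw [Measure.integral_compProd hF]
  have hF2 : Integrable (fun q : ℍ × S1 => ∫ w', Fk ζ k (q, w')
      ∂((s.comap Prod.fst measurable_fst : ProbabilityTheory.Kernel (ℍ × S1) S1) q))
      ((Berry.area ρ) ⊗ₘ s) := by
    have h1 := hF.integral_compProd
    exact h1
  rw [Measure.integral_compProd hF2]
  refine integral_congr_ae (Eventually.of_forall fun z => ?_)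
  have := hs z
  beta_reduce
  rw [← int_dir, ← integral_const_mul]
  refine integral_congr_ae (Eventually.of_forall fun w => ?_)
  beta_reduce
  rw [← integral_const_mul]
  rfl

end

/-! ### The moments of the linked measure -/

section

variable {Γ : Subgroup SL(2, ℝ)} {ρ : ℍ → ℝ} {h : ℕ → ℝ} {φ : ℕ → ℂ → ℂ} {u : ℤ → ℂ → ℂ}

lemma locU (S : Setup UH (gR ρ) (aR ρ) h φ) : U3.LocU UH (U3.gr ρ) h φ where
  hpos := S.hpos
  hlim := S.hlim
  smooth := S.tame.smooth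
  real := S.real
  eig := S.eig
  bdd := LBdd.two_of_four S.tame.bdd4 S.tame.smooth

lemma test_gr (hF : Fac Γ ρ) {ζ : ℂ → ℂ} (hζ : Test UH ζ) :
    Test UH fun z => ζ z * ((U3.gr ρ z : ℝ) : ℂ) :=
  hζ.mul isOpen_UH1 (Complex.ofRealCLM.contDiff.comp_contDiffOn (CRM.EXF.smooth_gr hF))

/-- the limits of the four-jet integrals -/
lemma link_Gam (hJ : StmtJconv) (hF : Fac Γ ρ) (S : Setup UH (gR ρ) (aR ρ) h φ)
    (L : JetLim UH h (aR ρ) φ u) {ϖ : Measure (ℍ × S1)} (hϖ : CRN.LinkG ρ h φ ϖ)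
    {ζ : ℂ → ℂ} (hζ : Test UH ζ) (a b c d : ℤ) (h0 : a + b + c + d = 0) :
    ∫ p : ℍ × S1, ζ p.1 * (((U3.gr ρ p.1)⁻¹ : ℝ) : ℂ)
      * CRM.lk (fun j => (CRM.gk j p.2 : ℂ)) a b c d ∂ϖ
      = Gam u ζ a b c d - pat a b c d * Gam u ζ 0 0 0 0 := by
  obtain ⟨V, F, σ, φ', hKV, -, -, -, hA⟩ := U3.stmtLcz UH (U3.gr ρ) h φ isOpen_UH1
    (CRM.EXF.smooth_gr hF) (CRM.EXF.pos_gr ρ) (locU S) (tsupport ζ) hζ.supp hζ.sub
  have hζV : Test V ζ := ⟨hζ.smooth, hζ.supp, hKV⟩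
  have t1 := hJ ρ h φ S V σ φ' hA ζ hζV a b c d h0
  have t0 := hJ ρ h φ S V σ φ' hA ζ hζV 0 0 0 0 (by norm_num)
  have t2 := jets_four_var S L hζ a b c d h0
  have t3 := hϖ.lim V σ φ' hA ζ hζV a b c d h0
  refine tendsto_nhds_unique t3 ?_
  have t4 := ((t1.sub (t0.const_mul (pat a b c d))).add t2).add_const
    (Gam u ζ a b c d - pat a b c d * Gam u ζ 0 0 0 0)
  rw [mul_zero, sub_zero, add_zero, zero_add] at t4
  refine t4.congr fun n => ?_
  have e : QJ.cl4 a b c d = pat a b c d := rfl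
  rw [e]
  unfold YY
  ring

lemma pat_even {k : ℤ} (hk : Even k) : pat k (-k) 0 0 = 1 := by
  obtain ⟨m, rfl⟩ := hk
  unfold pat
  rw [if_pos]
  refine ⟨by omega, by omega, by omega⟩

lemma gk_zero (t : ℂ) : CRM.gk 0 t = 0 := by
  simp [CRM.gk]

lemma lk_even {k : ℤ} (hk : Even k) (t : ℂ) :
    CRM.lk (fun j => (CRM.gk j t : ℂ)) k (-k) 0 0 = -2 * (CRM.gk k t : ℂ) := by
  obtain ⟨m, rfl⟩ := hk
  unfold CRM.lk
  rw [if_pos ⟨by omega, by omega, by omega⟩]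
  rw [add_neg_cancel, add_zero]
  beta_reduce
  rw [gk_zero]
  push_cast
  ring

/-- the moments of `gk` -/
lemma link_gk (hJ : StmtJconv) (hF : Fac Γ ρ) (S : Setup UH (gR ρ) (aR ρ) h φ)
    (L : JetLim UH h (aR ρ) φ u) {ϖ : Measure (ℍ × S1)} (hϖ : CRN.LinkG ρ h φ ϖ)
    {ζ : ℂ → ℂ} (hζ : Test UH ζ) {k : ℤ} (hk : Even k) :
    ∫ p : ℍ × S1, ζ p.1 * (CRM.gk k p.2 : ℂ) ∂ϖ
      = ∫ z, (ζ z * ((U3.gr ρ z : ℝ) : ℂ)) * (u 0 z * u (-0) z - u k z * u (-k) z) := by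
  have hζ' := test_gr hF hζ
  have h1 := link_Gam hJ hF S L hϖ hζ' k (-k) 0 0 (by ring)
  have e1 : ∫ p : ℍ × S1, (ζ p.1 * ((U3.gr ρ p.1 : ℝ) : ℂ)) * (((U3.gr ρ p.1)⁻¹ : ℝ) : ℂ)
      * CRM.lk (fun j => (CRM.gk j p.2 : ℂ)) k (-k) 0 0 ∂ϖ
      = -2 * ∫ p : ℍ × S1, ζ p.1 * (CRM.gk k p.2 : ℂ) ∂ϖ := by
    rw [← integral_const_mul]
    refine integral_congr_ae (Eventually.of_forall fun p => ?_)
    have h2 : ((U3.gr ρ p.1 : ℝ) : ℂ) * (((U3.gr ρ p.1)⁻¹ : ℝ) : ℂ) = 1 := by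
      rw [← Complex.ofReal_mul, mul_inv_cancel₀ (CRM.EXF.pos_gr ρ p.1 p.1.im_pos).ne',
        Complex.ofReal_one]
    beta_reduce
    rw [lk_even hk]
    linear_combination (ζ p.1 * (-2 * (CRM.gk k p.2 : ℂ))) * h2
  rw [e1, pat_even hk, one_mul] at h1
  have e2 : Gam u (fun z => ζ z * ((U3.gr ρ z : ℝ) : ℂ)) k (-k) 0 0
      - Gam u (fun z => ζ z * ((U3.gr ρ z : ℝ) : ℂ)) 0 0 0 0
      = -2 * ∫ z, (ζ z * ((U3.gr ρ z : ℝ) : ℂ)) * (u 0 z * u (-0) z - u k z * u (-k) z) := by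
    unfold Gam
    rw [← integral_sub (hζ'.int_GW L.loc _ _ _ _) (hζ'.int_GW L.loc _ _ _ _),
      ← integral_const_mul]
    refine integral_congr_ae (Eventually.of_forall fun z => ?_)
    beta_reduce
    have hp : ((-1 : ℂ)) ^ k = 1 := hk.neg_one_zpow
    have hn : ((-1 : ℂ)) ^ (-k) = 1 := hk.neg.neg_one_zpow
    unfold GW WW
    rw [hp, hn, zpow_zero, add_neg_cancel]
    simp only [add_zero, neg_zero]
    ring
  rw [e2] at h1
  have h3 : (-2 : ℂ) ≠ 0 := by norm_num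
  exact mul_left_cancel₀ h3 h1

lemma cont_gk (k : ℤ) : Continuous (CRM.gk k) := by
  unfold CRM.gk
  fun_prop

/-- the second differences of `gk` -/
lemma gk_diff (t : S1) (j : ℕ) :
    CRM.gk (2 * (j : ℤ) + 2) (t : ℂ) - 2 * CRM.gk (2 * (j : ℤ)) (t : ℂ)
      + CRM.gk (2 * (j : ℤ) - 2) (t : ℂ) = 4 * ((t : ℂ) ^ (2 * j)).re := by
  have ht : ‖(t : ℂ)‖ = 1 := mem_sphere_zero_iff_norm.mp t.2
  have e : ∀ m : ℕ, CRM.gk (2 * (m : ℤ)) (t : ℂ)
      = 2 * ‖∑ i ∈ Finset.range m, (t : ℂ) ^ (2 * i)‖ ^ 2 := by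
    intro m
    unfold CRM.gk
    rw [Int.mul_ediv_cancel_left _ two_ne_zero, Int.natAbs_natCast]
  have e1 : CRM.gk (2 * (j : ℤ) + 2) (t : ℂ)
      = 2 * ‖∑ i ∈ Finset.range (j + 1), (t : ℂ) ^ (2 * i)‖ ^ 2 := by
    rw [← e, show (2 * (j : ℤ) + 2) = 2 * ((j + 1 : ℕ) : ℤ) by push_cast; ring]
  rw [e1, e]
  cases j with
  | zero =>
    have e2 : CRM.gk (2 * ((0 : ℕ) : ℤ) - 2) (t : ℂ) = 2 := by
      simp [CRM.gk]
    rw [e2]
    simp
    norm_num
  | succ j =>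
    have e2 : CRM.gk (2 * ((j + 1 : ℕ) : ℤ) - 2) (t : ℂ)
        = 2 * ‖∑ i ∈ Finset.range j, (t : ℂ) ^ (2 * i)‖ ^ 2 := by
      rw [← e, show 2 * ((j + 1 : ℕ) : ℤ) - 2 = 2 * (j : ℤ) by push_cast; ring]
    rw [e2, Finset.sum_range_succ _ (j + 1), Finset.sum_range_succ _ j]
    set S := ∑ i ∈ Finset.range j, (t : ℂ) ^ (2 * i) with hS
    have hgeo : S * ((t : ℂ) ^ 2 - 1) = (t : ℂ) ^ (2 * j) - 1 := by
      have h1 := geom_sum_mul ((t : ℂ) ^ 2) j
      rw [hS]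
      simp only [pow_mul] at h1 ⊢
      exact h1
    set a := (t : ℂ) ^ (2 * j) with ha
    have hab : (t : ℂ) ^ (2 * (j + 1)) = a * (t : ℂ) ^ 2 := by
      rw [ha, ← pow_add]
      congr 1
    rw [hab]
    set b := (t : ℂ) ^ 2 with hb
    have hbn : ‖b‖ = 1 := by rw [hb, norm_pow, ht, one_pow]
    have q2 : b * (starRingEnd ℂ) b = 1 := by
      rw [mul_conj, Complex.normSq_eq_norm_sq, hbn]
      norm_num
    have hgeo' : (starRingEnd ℂ) S * ((starRingEnd ℂ) b - 1) = (starRingEnd ℂ) a - 1 := by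
      have := congrArg (starRingEnd ℂ) hgeo
      simpa only [map_mul, map_sub, map_one] using this
    have hsq : ∀ z : ℂ, (((‖z‖ ^ 2 : ℝ)) : ℂ) = z * (starRingEnd ℂ) z := fun z => by
      rw [mul_conj, Complex.normSq_eq_norm_sq]
    have hre : (((a * b).re : ℝ) : ℂ) = (a * b + (starRingEnd ℂ) (a * b)) / 2 :=
      Complex.re_eq_add_conj _
    apply Complex.ofReal_injective
    have e3 : (((2 * ‖S + a + a * b‖ ^ 2 - 2 * (2 * ‖S + a‖ ^ 2) + 2 * ‖S‖ ^ 2 : ℝ)) : ℂ) =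
        2 * ((‖S + a + a * b‖ ^ 2 : ℝ) : ℂ) - 2 * (2 * ((‖S + a‖ ^ 2 : ℝ) : ℂ))
          + 2 * ((‖S‖ ^ 2 : ℝ) : ℂ) := by
      push_cast
      ring
    have e4 : (((4 * (a * b).re : ℝ)) : ℂ) = 4 * (((a * b).re : ℝ) : ℂ) := by
      push_cast
      ring
    rw [e3, e4, hsq, hsq, hsq, hre]
    simp only [map_add, map_mul]
    linear_combination (-2 * ((starRingEnd ℂ) a * (starRingEnd ℂ) b)) * hgeo
      + (-2 * (a * b)) * hgeo' + (2 * (S * (starRingEnd ℂ) a + (starRingEnd ℂ) S * a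
        + a * (starRingEnd ℂ) a)) * q2

/-- the moments of the linked measure -/
lemma link_mom (hJ : StmtJconv) (hF : Fac Γ ρ) (S : Setup UH (gR ρ) (aR ρ) h φ)
    (L : JetLim UH h (aR ρ) φ u)
    (hodd : ∀ k, Odd k → ∀ᵐ z ∂(volume.restrict UH), u k z = 0)
    {ϖ : Measure (ℍ × S1)} (hϖ : CRN.LinkG ρ h φ ϖ)
    (hsym : ∀ (ζ : ℂ → ℂ), Test UH ζ → ∀ k : ℕ,
      (Odd k → ∫ p : ℍ × S1, ζ p.1 * (p.2 : ℂ) ^ k ∂ϖ = 0) ∧
      ∫ p : ℍ × S1, ζ p.1 * (p.2 : ℂ) ^ k ∂ϖ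
        = ∫ p : ℍ × S1, ζ p.1 * (starRingEnd ℂ) (p.2 : ℂ) ^ k ∂ϖ)
    {ζ : ℂ → ℂ} (hζ : Test UH ζ) (k : ℕ) :
    ∫ p : ℍ × S1, ζ p.1 * (p.2 : ℂ) ^ k ∂ϖ
      = ∫ z, (ζ z * ((U3.gr ρ z : ℝ) : ℂ)) * X4 (fun j => u j z * u (-j) z) k := by
  have hζ' := test_gr hF hζ
  have hiu : ∀ j : ℤ, Integrable
      (fun z => (ζ z * ((U3.gr ρ z : ℝ) : ℂ)) * (u j z * u (-j) z)) := fun j =>
    hζ'.int_LocL2_mul (L.loc j) (L.loc (-j))
  rcases Nat.even_or_odd k with hk | hk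
  · obtain ⟨j, rfl⟩ := hk
    rw [← two_mul]
    have hsy := (hsym ζ hζ (2 * j)).2
    -- the real part
    have hI1 : Integrable (fun p : ℍ × S1 => ζ p.1 * (p.2 : ℂ) ^ (2 * j)) ϖ := by
      have := int_mom hϖ.fin hζ ((2 * j : ℕ) : ℤ)
      simpa only [zpow_natCast] using this
    have hI2 : Integrable (fun p : ℍ × S1 => ζ p.1 * (starRingEnd ℂ) (p.2 : ℂ) ^ (2 * j)) ϖ :=
      int_mul hϖ.fin hζ ((Complex.continuous_conj.comp
        (continuous_subtype_val.comp continuous_snd)).pow _)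
    have hre : 4 * ∫ p : ℍ × S1, ζ p.1 * (p.2 : ℂ) ^ (2 * j) ∂ϖ
        = ∫ p : ℍ × S1, ζ p.1 * ((4 * ((p.2 : ℂ) ^ (2 * j)).re : ℝ) : ℂ) ∂ϖ := by
      have h1 : ∫ p : ℍ × S1, ζ p.1 * ((4 * ((p.2 : ℂ) ^ (2 * j)).re : ℝ) : ℂ) ∂ϖ
          = ∫ p : ℍ × S1, (2 * (ζ p.1 * (p.2 : ℂ) ^ (2 * j))
            + 2 * (ζ p.1 * (starRingEnd ℂ) (p.2 : ℂ) ^ (2 * j))) ∂ϖ := by
        refine integral_congr_ae (Eventually.of_forall fun p => ?_)
        beta_reduce
        rw [Complex.ofReal_mul, Complex.re_eq_add_conj, map_pow]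
        push_cast
        ring
      rw [h1, integral_add (hI1.const_mul 2) (hI2.const_mul 2), integral_const_mul,
        integral_const_mul, ← hsy]
      ring
    have hIg : ∀ m : ℤ, Integrable (fun p : ℍ × S1 => ζ p.1 * (CRM.gk m p.2 : ℂ)) ϖ := fun m =>
      int_mul hϖ.fin hζ (Complex.continuous_ofReal.comp ((cont_gk m).comp
        (continuous_subtype_val.comp continuous_snd)))
    have hg : ∫ p : ℍ × S1, ζ p.1 * ((4 * ((p.2 : ℂ) ^ (2 * j)).re : ℝ) : ℂ) ∂ϖ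
        = ∫ p : ℍ × S1, ζ p.1 * (CRM.gk (2 * (j : ℤ) + 2) p.2 : ℂ) ∂ϖ
          - 2 * ∫ p : ℍ × S1, ζ p.1 * (CRM.gk (2 * (j : ℤ)) p.2 : ℂ) ∂ϖ
          + ∫ p : ℍ × S1, ζ p.1 * (CRM.gk (2 * (j : ℤ) - 2) p.2 : ℂ) ∂ϖ := by
      have hS : Integrable (fun p : ℍ × S1 => ζ p.1 * (CRM.gk (2 * (j : ℤ) + 2) p.2 : ℂ)
          - 2 * (ζ p.1 * (CRM.gk (2 * (j : ℤ)) p.2 : ℂ))) ϖ := (hIg _).sub ((hIg _).const_mul 2)
      rw [← integral_const_mul, ← integral_sub (hIg _) ((hIg _).const_mul 2),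
        ← integral_add hS (hIg _)]
      refine integral_congr_ae (Eventually.of_forall fun p => ?_)
      beta_reduce
      rw [← gk_diff p.2 j]
      push_cast
      ring
    have he0 : Even (2 * (j : ℤ)) := even_two_mul _
    have he1 : Even (2 * (j : ℤ) + 2) := he0.add even_two
    have he2 : Even (2 * (j : ℤ) - 2) := he0.sub even_two
    rw [link_gk hJ hF S L hϖ hζ he1, link_gk hJ hF S L hϖ hζ he0, link_gk hJ hF S L hϖ hζ he2]
      at hg
    have hid : ∀ m : ℤ, ∫ z, (ζ z * ((U3.gr ρ z : ℝ) : ℂ)) * (u 0 z * u (-0) z - u m z * u (-m) z)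
        = (∫ z, (ζ z * ((U3.gr ρ z : ℝ) : ℂ)) * (u 0 z * u (-0) z))
          - (∫ z, (ζ z * ((U3.gr ρ z : ℝ) : ℂ)) * (u m z * u (-m) z)) := by
      intro m
      rw [← integral_sub (hiu 0) (hiu m)]
      refine integral_congr_ae (Eventually.of_forall fun z => ?_)
      beta_reduce
      ring
    rw [hid, hid, hid] at hg
    have hX : ∫ z, (ζ z * ((U3.gr ρ z : ℝ) : ℂ)) * X4 (fun j => u j z * u (-j) z) (2 * (j : ℤ))
        = (2 * (∫ z, (ζ z * ((U3.gr ρ z : ℝ) : ℂ)) * (u (2 * (j : ℤ)) z * u (-(2 * (j : ℤ))) z))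
          - (∫ z, (ζ z * ((U3.gr ρ z : ℝ) : ℂ))
            * (u (2 * (j : ℤ) + 2) z * u (-(2 * (j : ℤ) + 2)) z))
          - (∫ z, (ζ z * ((U3.gr ρ z : ℝ) : ℂ))
            * (u (2 * (j : ℤ) - 2) z * u (-(2 * (j : ℤ) - 2)) z))) / 4 := by
      have hS : Integrable (fun z => 2 * ((ζ z * ((U3.gr ρ z : ℝ) : ℂ))
          * (u (2 * (j : ℤ)) z * u (-(2 * (j : ℤ))) z)) - (ζ z * ((U3.gr ρ z : ℝ) : ℂ))
            * (u (2 * (j : ℤ) + 2) z * u (-(2 * (j : ℤ) + 2)) z)) :=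
        ((hiu _).const_mul 2).sub (hiu _)
      rw [← integral_const_mul, ← integral_sub ((hiu _).const_mul 2) (hiu _),
        ← integral_sub hS (hiu _), ← integral_div]
      refine integral_congr_ae (Eventually.of_forall fun z => ?_)
      unfold X4
      beta_reduce
      ring
    have hc : ((2 * j : ℕ) : ℤ) = 2 * (j : ℤ) := by push_cast; ring
    rw [hc, hX]
    rw [hg] at hre
    linear_combination hre / 4
  · rw [(hsym ζ hζ k).1 hk]
    symm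
    have hk1 : Odd (k : ℤ) := by exact_mod_cast hk
    have hk2 : Odd ((k : ℤ) + 2) := hk1.add_even even_two
    have hk3 : Odd ((k : ℤ) - 2) := hk1.sub_even even_two
    have h1 : ∫ z, (ζ z * ((U3.gr ρ z : ℝ) : ℂ)) * X4 (fun j => u j z * u (-j) z) k
        = ∫ z, (ζ z * ((U3.gr ρ z : ℝ) : ℂ)) * 0 := by
      refine hζ'.congr_ae isOpen_UH1 (f := fun z => X4 (fun j => u j z * u (-j) z) k)
        (f' := fun _ => 0) ?_
      filter_upwards [hodd _ hk1, hodd _ hk2, hodd _ hk3] with z a1 a2 a3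
      unfold X4
      beta_reduce
      rw [a1, a2, a3]
      ring
    rw [h1]
    simp

/-- the moments of `crossS`, in the plane -/
lemma cross_plane (hF : Fac Γ ρ) {s : ProbabilityTheory.Kernel ℍ S1}
    (hs : ∀ z, IsFiniteMeasure (s z)) (hu : ∀ k, LocL2 UH (u k))
    (hus : ∀ k, ∀ᵐ z ∂(volume.restrict UH), u k z = cof (s (ofComplex z)) k)
    {ζ : ℂ → ℂ} (hζ : Test UH ζ) (k : ℤ) :
    ∫ p : ℍ × S1, ζ p.1 * (p.2 : ℂ) ^ k ∂(crossS ρ s)
      = ∫ z, (ζ z * ((U3.gr ρ z : ℝ) : ℂ)) * X4 (fun j => u j z * u (-j) z) k := by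
  have hρ : Continuous ρ := STRUCT.cont_rho hF.smooth
  have hζ' := test_gr hF hζ
  rw [crossS_mom hρ hs (hu 0) (hus 0) hζ k]
  have e1 := STRUCT.integral_plane hρ hζ' (fun z => X4 (cc (s z)) k)
  have e2 : ∫ z : ℍ, (ζ z * ((U3.gr ρ z : ℝ) : ℂ))
      * ((z.im ^ 2 * Real.exp (-(2 * ρ z)) : ℝ) : ℂ) * X4 (cc (s z)) k ∂(Berry.area ρ)
      = ∫ z : ℍ, ζ z * X4 (cc (s z)) k ∂(Berry.area ρ) := by
    refine integral_congr_ae (Eventually.of_forall fun z => ?_)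
    have h1 : Real.exp (2 * ρ z) * Real.exp (-(2 * ρ z)) = 1 := by
      rw [← Real.exp_add, add_neg_cancel, Real.exp_zero]
    have h2 : U3.gr ρ z * (z.im ^ 2 * Real.exp (-(2 * ρ z))) = 1 := by
      unfold U3.gr
      rw [ofComplex_apply]
      have h3 : ((z : ℂ)).im = z.im := rfl
      have h4 := z.im_pos.ne'
      rw [h3]
      field_simp
      linear_combination h1
    have h5 : ((U3.gr ρ z : ℝ) : ℂ) * ((z.im ^ 2 * Real.exp (-(2 * ρ z)) : ℝ) : ℂ) = 1 := by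
      rw [← Complex.ofReal_mul, h2, Complex.ofReal_one]
    beta_reduce
    linear_combination (ζ z * X4 (cc (s z)) k) * h5
  rw [← e2]
  refine e1.symm.trans ?_
  refine hζ'.congr_ae isOpen_UH1 (f := fun z => X4 (cc (s (ofComplex z))) k)
    (f' := fun z => X4 (fun j => u j z * u (-j) z) k) ?_
  have hall : ∀ᵐ z ∂(volume.restrict UH), ∀ j, u j z = cof (s (ofComplex z)) j :=
    ae_all_iff.2 hus
  filter_upwards [hall] with z hz
  unfold X4 cc
  simp only [hz]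

end

end IDENT

open IDENT in
/-- **IDENT** -/
theorem ident (h1 : StmtJconv) (h2 : CRM.StmtDns) : StmtIdent := by
  intro Γ ρ h φ u s ϖ hF S hs L hus hodd hϖ hsym
  have hρ : Continuous ρ := STRUCT.cont_rho hF.smooth
  refine ext_mom h2 hϖ.fin (crossS_fin hρ hs (L.loc 0) (hus 0)) fun ζ hζ k => ?_
  rw [cross_plane hF hs L.loc hus hζ k]
  have hnat : ∀ j : ℕ, ∫ p : ℍ × S1, ζ p.1 * (p.2 : ℂ) ^ j ∂ϖ
      = ∫ z, (ζ z * ((U3.gr ρ z : ℝ) : ℂ)) * X4 (fun j => u j z * u (-j) z) j :=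
    fun j => link_mom h1 hF S L hodd hϖ hsym hζ j
  rcases Int.eq_nat_or_neg k with ⟨j, rfl | rfl⟩
  · rw [← hnat j]
    simp only [zpow_natCast]
  · have e1 : ∫ p : ℍ × S1, ζ p.1 * (p.2 : ℂ) ^ (-(j : ℤ)) ∂ϖ
        = ∫ p : ℍ × S1, ζ p.1 * (starRingEnd ℂ) (p.2 : ℂ) ^ j ∂ϖ := by
      refine integral_congr_ae (Eventually.of_forall fun p => ?_)
      beta_reduce
      rw [conj_eq_inv, zpow_neg, zpow_natCast, inv_pow]
    rw [e1, ← (hsym ζ hζ j).2, hnat j]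
    refine integral_congr_ae (Eventually.of_forall fun z => ?_)
    unfold X4
    beta_reduce
    rw [show -(j : ℤ) + 2 = -((j : ℤ) - 2) by ring, show -(j : ℤ) - 2 = -((j : ℤ) + 2) by ring]
    simp only [neg_neg]
    ring

end

end NFP
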