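import Pool.Agent.NFP.StI
import Pool.Agent.BWM.C44

/-!
# INFTY: the four-point functions if the fourth moments tend to infinity (helper83)
-/

open Complex MeasureTheory Filter Topology Set
open UpperHalfPlane hiding I
open scoped ContDiff MatrixGroups ProbabilityTheory

namespace NFP

open QE QE.NC

noncomputable section

namespace INFTY

variable {Γ : Subgroup SL(2, ℝ)} {ρ : ℍ → ℝ} {D : Set ℍ}

/-- bounds on compact sets -/
lemma lbdd4 [Countable Γ] (hF : Fac Γ ρ) (hDm : MeasurableSet D)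
    (hD : IsFundamentalDomain Γ D (volume : Measure ℍ)) {ψ : ℕ → ℍ → ℝ}
    (hc : ∀ n, Continuous (ψ n)) (hi : ∀ n, ∀ γ ∈ Γ, ∀ z, ψ n (γ • z) = ψ n z)
    (h4 : ∀ n, Berry.rAvg ρ D (fun z => ψ n z ^ 4) ≤ 1) :
    LBdd 4 UH (fun n z => (ψ n (ofComplex z) : ℂ)) := by
  intro K hK hKU
  have hρc : Continuous ρ := continuous_of_smooth hF.smooth
  obtain ⟨C, hC0, hC⟩ := loc_le (geo_of hDm hD hF.cpt hρc hF.inv) hρc hF.cpt hK hKU
  refine ⟨C, Eventually.of_forall fun n => ?_⟩
  have h1 := hC (fun z => ψ n z ^ 4) ((hc n).pow 4) (fun z => by positivity)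
    (fun γ hγ z => by rw [hi n γ hγ z])
  have h2 : ∫ z in K, ‖(ψ n (ofComplex z) : ℂ)‖ ^ 4 = ∫ z in K, ψ n (ofComplex z) ^ 4 := by
    refine integral_congr_ae (Eventually.of_forall fun z => ?_)
    beta_reduce
    rw [Complex.norm_real, Real.norm_eq_abs]
    exact Even.pow_abs ⟨2, rfl⟩ _
  rw [h2]
  exact h1.trans (mul_le_of_le_one_right hC0 (h4 n))

/-- the weak limit of the squares vanishes -/
lemma lim0 [Countable Γ] (hF : Fac Γ ρ) (hDm : MeasurableSet D)
    (hD : IsFundamentalDomain Γ D (volume : Measure ℍ)) {ψ : ℕ → ℍ → ℝ} {m : ℕ → ℝ}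
    (hc : ∀ n, Continuous (ψ n)) (hi : ∀ n, ∀ γ ∈ Γ, ∀ z, ψ n (γ • z) = ψ n z)
    (S : Setup UH (gR ρ) (aR ρ) (fun n => 1 / m n) (fun n z => (ψ n (ofComplex z) : ℂ)))
    {u : ℤ → ℂ → ℂ} (hu : ∀ k, LocL2 UH (u k))
    (hw : JLim UH (fun n => 1 / m n) (aR ρ) (fun n z => (ψ n (ofComplex z) : ℂ)) u)
    (hz : Tendsto (fun n => Berry.rAvg ρ D (fun z => ψ n z ^ 2)) atTop (𝓝 0)) (k : ℤ) :
    ∀ᵐ z ∂((volume : Measure ℂ).restrict UH), u k z = 0 := by
  have hρc : Continuous ρ := continuous_of_smooth hF.smooth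
  have h0 : ∀ᵐ z ∂((volume : Measure ℂ).restrict UH), u 0 z = 0 := by
    refine ae_zero_of_test S.op (hu 0) fun ζ hζ => ?_
    have t1 := (S.lim_zero hu hw 0).testVL hζ
    obtain ⟨C, hC0, hC⟩ := loc_le (geo_of hDm hD hF.cpt hρc hF.inv) hρc hF.cpt
      (show IsCompact (tsupport ζ) from hζ.supp) hζ.sub
    obtain ⟨B, hB⟩ := hζ.supp.exists_bound_of_continuous hζ.smooth.continuous
    have t2 : Tendsto (fun n => ∫ z, ζ z * (QE.E (fun n => 1 / m n) (aR ρ)
        (fun n z => (ψ n (ofComplex z) : ℂ)) 0 n z * QE.E (fun n => 1 / m n) (aR ρ)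
        (fun n z => (ψ n (ofComplex z) : ℂ)) 0 n z)) atTop (𝓝 0) := by
      refine squeeze_zero_norm (a := fun n => |B| * (C * Berry.rAvg ρ D (fun z => ψ n z ^ 2)))
        (fun n => ?_) ?_
      · have e1 : ∫ z, ζ z * (QE.E (fun n => 1 / m n) (aR ρ)
            (fun n z => (ψ n (ofComplex z) : ℂ)) 0 n z * QE.E (fun n => 1 / m n) (aR ρ)
            (fun n z => (ψ n (ofComplex z) : ℂ)) 0 n z)
            = ∫ z in tsupport ζ, ζ z * ((ψ n (ofComplex z) : ℂ) * (ψ n (ofComplex z) : ℂ)) := by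
          rw [setIntegral_eq_integral_of_forall_compl_eq_zero]
          · rfl
          · intro z hz
            rw [image_eq_zero_of_notMem_tsupport hz, zero_mul]
        rw [e1]
        have hcψ : ContinuousOn (fun z => ψ n (ofComplex z) ^ 2) (tsupport ζ) :=
          ((cont_ofComplex (hc n)).mono hζ.sub).pow 2
        have hint : IntegrableOn (fun z => |B| * ψ n (ofComplex z) ^ 2) (tsupport ζ) :=
          (continuousOn_const.mul hcψ).integrableOn_compact hζ.supp
        calc ‖∫ z in tsupport ζ, ζ z * ((ψ n (ofComplex z) : ℂ) * (ψ n (ofComplex z) : ℂ))‖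
            ≤ ∫ z in tsupport ζ, |B| * ψ n (ofComplex z) ^ 2 := by
              refine norm_integral_le_of_norm_le hint (Eventually.of_forall fun z => ?_)
              rw [norm_mul, norm_mul, Complex.norm_real, Real.norm_eq_abs, ← sq, sq_abs]
              exact mul_le_mul_of_nonneg_right ((hB z).trans (le_abs_self B)) (sq_nonneg _)
          _ = |B| * ∫ z in tsupport ζ, ψ n (ofComplex z) ^ 2 := integral_const_mul _ _
          _ ≤ _ := by
              refine mul_le_mul_of_nonneg_left ?_ (abs_nonneg _)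
              exact hC (fun z => ψ n z ^ 2) ((hc n).pow 2) (fun z => sq_nonneg _)
                (fun γ hγ z => by rw [hi n γ hγ z])
      · have := (hz.const_mul C).const_mul |B|
        rwa [mul_zero, mul_zero] at this
    exact tendsto_nhds_unique t1 t2
  filter_upwards [S.lim_bound hu hw k, h0] with z z1 z2
  rw [z2, Complex.zero_re] at z1
  exact norm_le_zero_iff.1 z1

/-- the local formula for sequences with vanishing limits -/
lemma dirK_zero (x : ℂ) : dirK (0 : Measure S1) x = 0 := by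
  unfold dirK
  rw [integral_zero_measure]

lemma dirWick_zero (x : Fin 4 → ℂ) : dirWick (0 : Measure S1) x = 0 := by
  unfold dirWick
  simp [dirK_zero]

lemma cof_zeroM (k : ℤ) : cof (0 : Measure S1) k = 0 := by
  unfold cof
  rw [integral_zero_measure]

/-- the setting of the correlations of the local waves -/
lemma ws_of [Countable Γ] (hF : Fac Γ ρ) (hDm : MeasurableSet D)
    (hD : IsFundamentalDomain Γ D (volume : Measure ℍ)) {ψ : ℕ → ℍ → ℝ} {m : ℕ → ℝ}
    (hc : ∀ n, Continuous (ψ n)) (hψ : Berry.REigenSeq Γ ρ ψ m) (h1 : ∀ n, 1 ≤ m n)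
    (S : Setup UH (gR ρ) (aR ρ) (fun n => 1 / m n) (fun n z => (ψ n (ofComplex z) : ℂ))) :
    WS Γ ρ D ψ m (fun n => 1 / m n) (gR ρ) where
  geo := geo_of hDm hD hF.cpt (continuous_of_smooth hF.smooth) hF.inv
  coc := hF.cpt
  rc := continuous_of_smooth hF.smooth
  pc := hc
  pinv := hψ.invariant
  mpos := fun n => by have := h1 n; linarith
  mlim := hψ.tendsto
  hm := fun _ => rfl
  set := S.congr_a fun z hz => wt_aR hz

/-- the local limit -/
lemma locLim (h2 : StmtFourVar) {ψ : ℕ → ℍ → ℝ} {m : ℕ → ℝ}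
    (W : WS Γ ρ D ψ m (fun n => 1 / m n) (gR ρ))
    (S : Setup UH (gR ρ) (aR ρ) (fun n => 1 / m n) (fun n z => (ψ n (ofComplex z) : ℂ)))
    {u : ℤ → ℂ → ℂ} (hu : ∀ k, LocL2 UH (u k))
    (hw : JLim UH (fun n => 1 / m n) (aR ρ) (fun n z => (ψ n (ofComplex z) : ℂ)) u)
    (hu0 : ∀ k, ∀ᵐ z ∂((volume : Measure ℂ).restrict UH), u k z = 0) (x : Fin 4 → ℂ)
    (η : ℂ → ℝ) (hη : ContDiff ℝ ∞ η) (hηs : HasCompactSupport η) (hηU : tsupport η ⊆ HH) :
    Tendsto (fun n => ∫ z, η z * (angProd ρ (ψ n) (m n) x (ofComplex z)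
      - defc x * ψ n (ofComplex z) ^ 4)) atTop (𝓝 0) := by
  obtain ⟨δ, hδ, hδU⟩ := exists_thick hηs hηU
  have h1 := (h2 UH (gR ρ) (aR ρ) (fun n => 1 / m n) (fun n z => (ψ n (ofComplex z) : ℂ)) u
    (fun _ => (0 : Measure S1)) S ⟨hu, hw⟩ (fun _ => inferInstance)
    (fun k => by filter_upwards [hu0 k] with z hz; rw [hz, cof_zeroM]) (fun k _ => hu0 k) x).2
    (tsupport η) hηs δ hδ hδU 2 two_ne_zero (fun i => frXi (fun n => 1 / m n) (em ρ) (x i))
    (fun i => (W.disp hηs hηU (x i)).congr_a fun z hz => (wt_aR (hηU hz)).symm)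
    (fun z => (η z : ℂ)) (test_of_smooth hη hηs hηU) (by rw [Test.tsupport_eq])
  have h3 : Tendsto (fun n => ((∫ z, η z * (angProd ρ (ψ n) (m n) x (ofComplex z)
      - defc x * ψ n (ofComplex z) ^ 4) : ℝ) : ℂ)) atTop (𝓝 0) := by
    refine h1.congr' ?_
    filter_upwards [W.ang_eq x hη hηs hηU, W.ac x] with n hn hac
    have e1 : ∫ θ, (∫ z, (η z : ℂ) * ∏ i, (ψ n (ofComplex (z + ((1 / m n : ℝ) : ℂ) * aR ρ z
        * frXi (fun n => 1 / m n) (em ρ) (x i) n θ z)) : ℂ)) ∂ang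
        = ((∫ z, η z * angProd ρ (ψ n) (m n) x (ofComplex z) : ℝ) : ℂ) := by
      rw [← hn]
      refine integral_congr_ae (Eventually.of_forall fun θ => ?_)
      refine integral_congr_ae (Eventually.of_forall fun z => ?_)
      beta_reduce
      by_cases hz : z ∈ UH
      · rw [wt_aR hz]
      · have : η z = 0 := image_eq_zero_of_notMem_tsupport fun hh => hz (hηU hh)
        rw [this]; simp
    have j1 : Integrable (fun z => η z * angProd ρ (ψ n) (m n) x (ofComplex z)) :=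
      (Surf.continuous_cut_mul hη.continuous hηU hac).integrable_of_hasCompactSupport
        hηs.mul_right
    have j2 : Integrable (fun z => η z * ψ n (ofComplex z) ^ 4) :=
      (Surf.continuous_cut_mul hη.continuous hηU
        ((W.pc n).pow 4)).integrable_of_hasCompactSupport hηs.mul_right
    have e2 : ∫ z, η z * (angProd ρ (ψ n) (m n) x (ofComplex z)
        - defc x * ψ n (ofComplex z) ^ 4) = (∫ z, η z * angProd ρ (ψ n) (m n) x (ofComplex z))
        - defc x * ∫ z, η z * ψ n (ofComplex z) ^ 4 := by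
      rw [← integral_const_mul, ← integral_sub j1 (j2.const_mul _)]
      congr 1; funext z; ring
    have e3 : ∫ z, (η z : ℂ) * ((ψ n (ofComplex z) : ℂ) * (ψ n (ofComplex z) : ℂ)
        * ((ψ n (ofComplex z) : ℂ) * (ψ n (ofComplex z) : ℂ)))
        = ((∫ z, η z * ψ n (ofComplex z) ^ 4 : ℝ) : ℂ) := by
      rw [← integral_complex_ofReal]
      refine integral_congr_ae (Eventually.of_forall fun z => ?_)
      push_cast
      ring
    rw [e2, Complex.ofReal_sub, Complex.ofReal_mul, ← e1, ← e3]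
    simp only [dirWick_zero, Measure.coe_zero, Pi.zero_apply, ENNReal.toReal_zero,
      Complex.ofReal_zero, mul_zero, integral_zero, sub_zero, zero_add, ne_eq,
      OfNat.ofNat_ne_zero, not_false_eq_true, zero_pow]
    ring
  have h4 := (Complex.continuous_re.tendsto _).comp h3
  simpa only [Function.comp_def, Complex.ofReal_re, Complex.zero_re] using h4

/-- from the local to the global limit, along a sequence with vanishing limits -/
lemma glob_core [Countable Γ] (h3 : StmtGlob) {ψ : ℕ → ℍ → ℝ} {m : ℕ → ℝ}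
    (W : WS Γ ρ D ψ m (fun n => 1 / m n) (gR ρ)) (x : Fin 4 → ℂ)
    (hloc : ∀ η : ℂ → ℝ, ContDiff ℝ ∞ η → HasCompactSupport η → tsupport η ⊆ HH →
      Tendsto (fun n => ∫ z, η z * (angProd ρ (ψ n) (m n) x (ofComplex z)
        - defc x * ψ n (ofComplex z) ^ 4)) atTop (𝓝 0))
    {w : ℍ → ℝ} (hw : Continuous w) (hwi : ∀ γ ∈ Γ, ∀ z, w (γ • z) = w z) :
    Tendsto (fun n => (∫ p, w p.1 * ∏ i, Berry.rWave ρ (ψ n) (m n) (x i) p
      ∂(Berry.rFrameProb ρ D)) - defc x * Berry.rAvg ρ D (fun z => w z * ψ n z ^ 4))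
      atTop (𝓝 0) := by
  have key := (h3 Γ ρ D (fun n z => angProd ρ (ψ n) (m n) x z - defc x * ψ n z ^ 4)
    (fun _ => 0) inferInstance W.geo W.rc W.coc
    ((W.ac x).mono fun n hn => hn.sub (continuous_const.mul ((W.pc n).pow 4)))
    (fun n γ hγ z => by
      rw [angProd_inv (W.pinv n) W.geo.inv (m n) x γ hγ z, W.pinv n γ hγ z])
    (fun K hKc hKU => by
      obtain ⟨C, hC⟩ := W.defect_bdd x (prod_le_four le_rfl) 0 (defc x) hKc hKU
      refine ⟨C, ?_⟩
      filter_upwards [hC] with n hn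
      simpa only [zero_add] using hn)
    (fun K hKc hKU => integrableOn_zero)
    (fun η hη hηs hηU => by
      simpa only [mul_zero, integral_zero] using hloc η hη hηs hηU)).2 w hw hwi
  have key2 := key.2
  have e0 : Berry.rAvg ρ D (fun z => w z * (fun _ : ℍ => (0 : ℝ)) z) = 0 := by
    unfold Berry.rAvg
    simp
  rw [e0] at key2
  refine key2.congr' ?_
  filter_upwards [W.wc x, W.ac x] with n hn1 hn2
  obtain ⟨C₁, hC₁⟩ := Berry.bdd_of_cocompact (f := fun z => w z * angProd ρ (ψ n) (m n) x z)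
    (hw.mul hn2)
    (fun γ hγ z => by rw [hwi γ hγ, angProd_inv (W.pinv n) W.geo.inv (m n) x γ hγ z]) W.coc
  obtain ⟨C₂, hC₂⟩ := Berry.bdd_of_cocompact (W.pc n) (W.pinv n) W.coc
  obtain ⟨C₃, hC₃⟩ := Berry.bdd_of_cocompact (f := fun z => w z * ψ n z ^ 4)
    (hw.mul ((W.pc n).pow 4))
    (fun γ hγ z => by rw [hwi γ hγ, W.pinv n γ hγ]) W.coc
  obtain ⟨C₄, hC₄⟩ := Berry.bdd_of_cocompact hw hwi W.coc
  have hcond : IsProbabilityMeasure (ProbabilityTheory.cond (Berry.area ρ) D) :=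
    ProbabilityTheory.cond_isProbabilityMeasure_of_finite (Berry.area_ne_zero W.geo)
      (Berry.area_ne_top W.geo)
  have i1 : Integrable (fun z => w z * angProd ρ (ψ n) (m n) x z)
      (ProbabilityTheory.cond (Berry.area ρ) D) :=
    Integrable.of_bound (hw.mul hn2).aestronglyMeasurable C₁ (Eventually.of_forall fun z => by
      rw [Real.norm_eq_abs]; exact hC₁ z)
  have i2 : Integrable (fun z => w z * ψ n z ^ 4) (ProbabilityTheory.cond (Berry.area ρ) D) :=
    Integrable.of_bound (hw.mul ((W.pc n).pow 4)).aestronglyMeasurable C₃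
      (Eventually.of_forall fun z => by rw [Real.norm_eq_abs]; exact hC₃ z)
  have i3 : Integrable (fun p : ℍ × ℝ => w p.1 * ∏ i, Berry.rWave ρ (ψ n) (m n) (x i) p)
      ((ProbabilityTheory.cond (Berry.area ρ) D).prod ang) := by
    refine Integrable.of_bound ((hw.comp continuous_fst).mul
      (continuous_finsetProd _ fun i _ => hn1 i)).aestronglyMeasurable
      (|C₄| * ∏ _i : Fin 4, |C₂|) (Eventually.of_forall fun p => ?_)
    rw [norm_mul, norm_prod]
    refine mul_le_mul ?_ (Finset.prod_le_prod (fun _ _ => norm_nonneg _) fun i _ => ?_)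
      (Finset.prod_nonneg fun _ _ => norm_nonneg _) (abs_nonneg _)
    · rw [Real.norm_eq_abs]
      exact (hC₄ _).trans (le_abs_self _)
    · rw [Real.norm_eq_abs]
      exact (hC₂ _).trans (le_abs_self _)
  have e1 : ∫ p, w p.1 * ∏ i, Berry.rWave ρ (ψ n) (m n) (x i) p ∂(Berry.rFrameProb ρ D)
      = ∫ z, w z * angProd ρ (ψ n) (m n) x z ∂(ProbabilityTheory.cond (Berry.area ρ) D) := by
    unfold Berry.rFrameProb
    rw [show (∫ p, w p.1 * ∏ i, Berry.rWave ρ (ψ n) (m n) (x i) p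
      ∂((ProbabilityTheory.cond (Berry.area ρ) D).prod ang))
      = ∫ z, ∫ θ, w z * ∏ i, Berry.rWave ρ (ψ n) (m n) (x i) (z, θ) ∂ang
        ∂(ProbabilityTheory.cond (Berry.area ρ) D) from integral_prod _ i3]
    refine integral_congr_ae (Eventually.of_forall fun z => ?_)
    beta_reduce
    rw [integral_const_mul]
    rfl
  have e2 : Berry.rAvg ρ D (fun z => w z * (angProd ρ (ψ n) (m n) x z - defc x * ψ n z ^ 4))
      = (∫ z, w z * angProd ρ (ψ n) (m n) x z ∂(ProbabilityTheory.cond (Berry.area ρ) D))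
        - defc x * ∫ z, w z * ψ n z ^ 4 ∂(ProbabilityTheory.cond (Berry.area ρ) D) := by
    rw [← integral_const_mul, ← integral_sub i1 (i2.const_mul _)]
    unfold Berry.rAvg
    congr 1; funext z; ring
  rw [e1, e2]
  rfl

/-- sequences with bounded fourth moments and vanishing second moments -/
lemma core [Countable Γ] (h2 : StmtFourVar) (h3 : StmtGlob) (hF : Fac Γ ρ)
    (hDm : MeasurableSet D) (hD : IsFundamentalDomain Γ D (volume : Measure ℍ))
    {ψ : ℕ → ℍ → ℝ} {m : ℕ → ℝ} (hψ : Berry.REigenSeq Γ ρ ψ m)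
    (hs : ∀ n, ContDiffOn ℝ ∞ (fun w : ℂ => ψ n (ofComplex w)) {w | 0 < w.im})
    (h1 : ∀ n, 1 ≤ m n) (h4 : ∀ n, Berry.rAvg ρ D (fun z => ψ n z ^ 4) ≤ 1)
    (hz : Tendsto (fun n => Berry.rAvg ρ D (fun z => ψ n z ^ 2)) atTop (𝓝 0))
    {w : ℍ → ℝ} (hw : Continuous w) (hwi : ∀ γ ∈ Γ, ∀ z, w (γ • z) = w z) (x : Fin 4 → ℂ) :
    ∃ s : ℕ → ℕ, StrictMono s ∧
      Tendsto (fun n => (∫ p, w p.1 * ∏ i, Berry.rWave ρ (ψ (s n)) (m (s n)) (x i) p
        ∂(Berry.rFrameProb ρ D)) - defc x * Berry.rAvg ρ D (fun z => w z * ψ (s n) z ^ 4))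
        atTop (𝓝 0) := by
  have hc : ∀ n, Continuous (ψ n) := fun n => continuous_of_smooth (hs n)
  have S := stmtSetup Γ ρ ψ m hF hψ hs h1 (lbdd4 hF hDm hD hc hψ.invariant h4)
  obtain ⟨s, hsm, u, hum, hu, hwu⟩ := exists_limits S
  refine ⟨s, hsm, ?_⟩
  have hψs := reig_comp hψ hsm.tendsto_atTop
  have S' := stmtSetup Γ ρ (fun n => ψ (s n)) (fun n => m (s n)) hF hψs (fun n => hs _)
    (fun n => h1 _) (lbdd4 hF hDm hD (fun n => hc _) (fun n => hψ.invariant _) (fun n => h4 _))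
  have hw' : JLim UH (fun n => 1 / m (s n)) (aR ρ) (fun n z => (ψ (s n) (ofComplex z) : ℂ)) u := by
    intro j k
    refine (hwu j k).congr fun n z _ => ?_
    rw [← E_sub (fun n => 1 / m n) (aR ρ) (fun n z => (ψ n (ofComplex z) : ℂ)) s j n z,
      ← E_sub (fun n => 1 / m n) (aR ρ) (fun n z => (ψ n (ofComplex z) : ℂ)) s k n z]
  have hu0 := lim0 (m := fun n => m (s n)) hF hDm hD (fun n => hc (s n))
    (fun n => hψ.invariant (s n)) S' hu hw' (hz.comp hsm.tendsto_atTop)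
  have W := ws_of hF hDm hD (fun n => hc (s n)) hψs (fun n => h1 _) S'
  exact glob_core h3 W x (fun η hη hηs hηU => locLim h2 W S' hu hw' hu0 x η hη hηs hηU) hw hwi

end INFTY

open INFTY

/-- **The module.** -/
theorem infty (h2 : StmtFourVar) (h3 : StmtGlob) : StmtInfty := by
  intro Γ ρ D φ m hΓ hF hDm hD hφ hs hn hk w hw hwi x
  have : Countable Γ := hΓ
  refine tendsto_of_subseq_tendsto fun ns hns => ?_
  obtain ⟨N, hN⟩ := (((hk.comp hns).eventually_ge_atTop 1).and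
    ((hφ.tendsto.comp hns).eventually_ge_atTop 1)).exists_forall_of_atTop
  set t : ℕ → ℕ := fun n => ns (n + N) with ht
  have htt : Tendsto t atTop atTop := hns.comp (tendsto_add_atTop_nat N)
  set k : ℕ → ℝ := fun n => Berry.rAvg ρ D (fun z => φ (t n) z ^ 4) with hkdef
  have hk1 : ∀ n, 1 ≤ k n := fun n => (hN (n + N) (Nat.le_add_left _ _)).1
  have hm1 : ∀ n, 1 ≤ m (t n) := fun n => (hN (n + N) (Nat.le_add_left _ _)).2
  have hkt : Tendsto k atTop atTop := hk.comp htt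
  set b : ℕ → ℝ := fun n => (Berry.rt4 (k n))⁻¹ with hbdef
  have hb4 : ∀ n, b n ^ 4 = (k n)⁻¹ := by
    intro n
    rw [hbdef]
    beta_reduce
    rw [inv_pow, Berry.rt4_pow (zero_le_one.trans (hk1 n))]
  have hb2 : Tendsto (fun n => b n ^ 2) atTop (𝓝 0) := by
    have e1 : ∀ n, b n ^ 2 = Real.sqrt ((k n)⁻¹) := by
      intro n
      rw [← hb4 n, show b n ^ 4 = (b n ^ 2) ^ 2 by ring, Real.sqrt_sq (sq_nonneg _)]
    have e2 : Tendsto (fun n => Real.sqrt ((k n)⁻¹)) atTop (𝓝 (Real.sqrt 0)) :=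
      (Real.continuous_sqrt.tendsto 0).comp (tendsto_inv_atTop_zero.comp hkt)
    rw [Real.sqrt_zero] at e2
    exact e2.congr fun n => (e1 n).symm
  have hψE := reig_scale (reig_comp hφ htt) b
  have hψs : ∀ n, ContDiffOn ℝ ∞ (fun w : ℂ => b n * φ (t n) (ofComplex w)) {w | 0 < w.im} :=
    fun n => contDiffOn_const.mul (hs (t n))
  have a4 : ∀ n, Berry.rAvg ρ D (fun z => (b n * φ (t n) z) ^ 4) = 1 := by
    intro n
    have : Berry.rAvg ρ D (fun z => (b n * φ (t n) z) ^ 4) = b n ^ 4 * k n := by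
      rw [hkdef]
      unfold Berry.rAvg
      rw [← integral_const_mul]
      congr 1; funext z; ring
    rw [this, hb4, inv_mul_cancel₀ (by have := hk1 n; linarith)]
  have a2 : ∀ n, Berry.rAvg ρ D (fun z => (b n * φ (t n) z) ^ 2) = b n ^ 2 := by
    intro n
    have : Berry.rAvg ρ D (fun z => (b n * φ (t n) z) ^ 2)
        = b n ^ 2 * Berry.rAvg ρ D (fun z => φ (t n) z ^ 2) := by
      unfold Berry.rAvg
      rw [← integral_const_mul]
      congr 1; funext z; ring
    rw [this, hn, mul_one]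
  obtain ⟨s, hsm, hlim⟩ := core (x := x) h2 h3 hF hDm hD hψE hψs hm1 (fun n => (a4 n).le)
    (hb2.congr fun n => (a2 n).symm) hw hwi
  refine ⟨fun n => s n + N, hlim.congr fun n => ?_⟩
  show (∫ p, w p.1 * ∏ i, Berry.rWave ρ (fun z => b (s n) * φ (t (s n)) z) (m (t (s n))) (x i) p
      ∂(Berry.rFrameProb ρ D))
      - defc x * Berry.rAvg ρ D (fun z => w z * (b (s n) * φ (t (s n)) z) ^ 4)
    = ((∫ p, w p.1 * (Berry.rWave ρ (φ (t (s n))) (m (t (s n))) (x 0) p
          * Berry.rWave ρ (φ (t (s n))) (m (t (s n))) (x 1) p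
          * Berry.rWave ρ (φ (t (s n))) (m (t (s n))) (x 2) p
          * Berry.rWave ρ (φ (t (s n))) (m (t (s n))) (x 3) p) ∂(Berry.rFrameProb ρ D))
        - Berry.rAvg ρ D (fun z => w z * φ (t (s n)) z ^ 4) / 3 * resK x)
        / k (s n)
  have c1 : Berry.rAvg ρ D (fun z => w z * (b (s n) * φ (t (s n)) z) ^ 4)
      = b (s n) ^ 4 * Berry.rAvg ρ D (fun z => w z * φ (t (s n)) z ^ 4) := by
    unfold Berry.rAvg
    rw [← integral_const_mul]
    congr 1; funext z; ring
  have c2 : ∫ p, w p.1 * ∏ i, Berry.rWave ρ (fun z => b (s n) * φ (t (s n)) z) (m (t (s n)))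
        (x i) p ∂(Berry.rFrameProb ρ D)
      = b (s n) ^ 4 * ∫ p, w p.1 * (Berry.rWave ρ (φ (t (s n))) (m (t (s n))) (x 0) p
          * Berry.rWave ρ (φ (t (s n))) (m (t (s n))) (x 1) p
          * Berry.rWave ρ (φ (t (s n))) (m (t (s n))) (x 2) p
          * Berry.rWave ρ (φ (t (s n))) (m (t (s n))) (x 3) p) ∂(Berry.rFrameProb ρ D) := by
    rw [← integral_const_mul]
    congr 1; funext p
    rw [Fin.prod_univ_four]
    unfold Berry.rWave
    ring
  have c3 : defc x = resK x / 3 := by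
    unfold defc resK
    ring
  rw [c1, c2, c3, hb4]
  ring

end

end NFP
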