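import Pool.Agent.NFP.StI

/-!
JCONV: the two kinds of jets agree up to `O(h)`, in the integrals of four jets of total spin zero.
-/

open MeasureTheory Filter Topology Set
open UpperHalfPlane hiding I
open scoped ContDiff MatrixGroups

namespace NFP

open QE QE.NC

noncomputable section

namespace JCONV

variable {U V : Set ℂ} {h : ℕ → ℝ}

theorem tameK_mono (hVU : V ⊆ U) {k : ℕ} : ∀ {u : ℕ → ℂ → ℂ}, TameK U h k u → TameK V h k u := by
  induction k with
  | zero => intro u hu; exact LBdd.mono_set hu hVU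
  | succ k ih => intro u hu; exact ⟨hu.1.mono_set hVU, ih hu.2.1, ih hu.2.2⟩

theorem tame_mono (hVU : V ⊆ U) {u : ℕ → ℂ → ℂ} (hu : Tame U h u) : Tame V h u :=
  ⟨fun n => (hu.smooth n).mono hVU, fun k => tameK_mono hVU (hu.bdd k)⟩

theorem near_tame (hU : IsOpen U) (hh0 : Tendsto h atTop (𝓝 0)) {u v : ℕ → ℂ → ℂ}
    (hn : Near U h u v) (hv : Tame U h v) : Tame U h u := by
  obtain ⟨w, hw, hw'⟩ := hn
  exact (hv.add hU (hw.const_mul hU (hbd hh0))).congr hU fun n z hz => (hw' n z hz).symm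

theorem setup_mono {g a : ℂ → ℂ} {φ : ℕ → ℂ → ℂ} (S : Setup U g a h φ) (hV : IsOpen V)
    (hVU : V ⊆ U) : Setup V g a h φ where
  op := hV
  hpos := S.hpos
  hlim := S.hlim
  ha := S.ha.mono hVU
  hg := S.hg.mono hVU
  areal z hz := S.areal z (hVU hz)
  ag z hz := S.ag z (hVU hz)
  tame := tame_mono hVU S.tame
  real n z hz := S.real n z (hVU hz)
  eig n z hz := S.eig n z (hVU hz)

theorem aR_eq {ρ : ℍ → ℝ} {σ : ℂ → ℝ} {z : ℂ} (hz : 0 < z.im)
    (hσ : Real.exp (2 * σ z) = U3.gr ρ z) : aR ρ z = QJ.ex σ (-1) z := by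
  unfold aR QJ.ex
  congr 1
  have h1 : 0 < z.im * Real.exp (-(ro ρ z)) := mul_pos hz (Real.exp_pos _)
  have h2 : 0 < Real.exp (((-1 : ℤ) : ℝ) * σ z) := Real.exp_pos _
  apply (sq_eq_sq₀ h1.le h2.le).1
  have h3 : Real.exp (((-1 : ℤ) : ℝ) * σ z) ^ 2 = (Real.exp (2 * σ z))⁻¹ := by
    rw [← Real.exp_nat_mul, ← Real.exp_neg]
    congr 1
    push_cast
    ring
  have h4 : Real.exp (-(ro ρ z)) ^ 2 = (Real.exp (2 * ρ (ofComplex z)))⁻¹ := by
    rw [← Real.exp_nat_mul, ← Real.exp_neg]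
    congr 1
    unfold ro
    push_cast
    ring
  rw [h3, hσ, mul_pow, h4]
  unfold U3.gr
  rw [inv_div, div_eq_mul_inv]

theorem ex_smooth {σ : ℂ → ℝ} (hσ : ContDiff ℝ ∞ σ) (k : ℤ) : ContDiff ℝ ∞ (QJ.ex σ k) :=
  Complex.ofRealCLM.contDiff.comp (Real.contDiff_exp.comp (contDiff_const.mul hσ))

theorem ex_mul (σ : ℂ → ℝ) (j k : ℤ) (z : ℂ) : QJ.ex σ j z * QJ.ex σ k z = QJ.ex σ (j + k) z := by
  unfold QJ.ex
  rw [← Complex.ofReal_mul, ← Real.exp_add]
  congr 2
  push_cast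
  ring

theorem near_jet {g a : ℂ → ℂ} {φ φ' : ℕ → ℂ → ℂ} {σ : ℂ → ℝ} (S : Setup V g a h φ)
    (hσ : ContDiff ℝ ∞ σ) (ha : ∀ z ∈ V, a z = QJ.ex σ (-1) z)
    (hφ : ∀ n, ∀ z ∈ V, φ' n z = φ n z) (k : ℕ) :
    Near V h (QJ.jet σ h φ' k) (fun n z => Complex.I ^ k * QE.jet h a φ k n z) := by
  induction k with
  | zero =>
    refine Near.of_eq S.op fun n z hz => ?_
    change φ' n z = Complex.I ^ 0 * φ n z
    rw [hφ n z hz, pow_zero, one_mul]
  | succ k ih =>
    have tv : Tame V h (fun n z => Complex.I ^ k * QE.jet h a φ k n z) :=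
      (S.tame_jet k).smul S.op _
    have tu : Tame V h (QJ.jet σ h φ' k) := near_tame S.op S.hlim ih tv
    have hb : ContDiff ℝ ∞ (fun z => 2 * QJ.ex σ ((k : ℤ) - 1) z * dz (QJ.ex σ (-(k : ℤ))) z) :=
      (contDiff_const.mul (ex_smooth hσ _)).mul (contDiff_dz (ex_smooth hσ _))
    have n1 := ((ih.LL S.op S.hlim S.ha tv.smooth).smul S.op Complex.I)
    have n2 : Near V h (fun n z => Complex.I *
        QE.LL h a (fun n z => Complex.I ^ k * QE.jet h a φ k n z) n z)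
        (fun n z => Complex.I ^ (k + 1) * QE.jet h a φ (k + 1) n z) := by
      refine Near.of_eq S.op fun n z hz => ?_
      change Complex.I * (-(2 * Complex.I * h n) * a z *
        dz (fun z => Complex.I ^ k * QE.jet h a φ k n z) z) =
        Complex.I ^ (k + 1) * (-(2 * Complex.I * h n) * a z * dz (QE.jet h a φ k n) z)
      rw [dz_const_mul _ ((S.tame_jet k).smooth.dAt S.op n hz)]
      ring
    have n0 : Near V h (QJ.jet σ h φ' (k + 1))
        (fun n z => Complex.I * QE.LL h a (QJ.jet σ h φ' k) n z) := by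
      refine ⟨_, tu.fn_mul S.op S.hlim hb.contDiffOn, fun n z hz => ?_⟩
      have d1 : DifferentiableAt ℝ (QJ.ex σ (-(k : ℤ))) z :=
        (ex_smooth hσ _).differentiable (by simp) z
      have d2 : DifferentiableAt ℝ (QJ.jet σ h φ' k n) z := tu.smooth.dAt S.op n hz
      change (h n : ℂ) * (2 * QJ.ex σ ((k : ℤ) - 1) z *
        dz (fun w => QJ.ex σ (-(k : ℤ)) w * QJ.jet σ h φ' k n w) z) =
        Complex.I * (-(2 * Complex.I * h n) * a z * dz (QJ.jet σ h φ' k n) z) +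
        (h n : ℂ) * (2 * QJ.ex σ ((k : ℤ) - 1) z * dz (QJ.ex σ (-(k : ℤ))) z *
          QJ.jet σ h φ' k n z)
      rw [dz_mul d1 d2, ha z hz]
      have e1 : QJ.ex σ ((k : ℤ) - 1) z * QJ.ex σ (-(k : ℤ)) z = QJ.ex σ (-1) z := by
        rw [ex_mul]
        congr 1
        ring
      rw [← e1]
      linear_combination (2 * (h n : ℂ) * (QJ.ex σ ((k : ℤ) - 1) z * QJ.ex σ (-(k : ℤ)) z) *
        dz (QJ.jet σ h φ' k n) z) * Complex.I_sq
    exact (n0.trans S.op n1).trans S.op n2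

theorem near_E {g a : ℂ → ℂ} {φ φ' : ℕ → ℂ → ℂ} {σ : ℂ → ℝ} (S : Setup V g a h φ)
    (hσ : ContDiff ℝ ∞ σ) (ha : ∀ z ∈ V, a z = QJ.ex σ (-1) z)
    (hφ : ∀ n, ∀ z ∈ V, φ' n z = φ n z) (j : ℤ) :
    Near V h (QJ.E σ h φ' j) (fun n z => Complex.I ^ j * QE.E h a φ j n z) := by
  cases j with
  | ofNat m =>
    have h1 := near_jet S hσ ha hφ m
    have h2 : (fun (n : ℕ) (z : ℂ) => Complex.I ^ (Int.ofNat m) * QE.E h a φ (Int.ofNat m) n z) =
        fun n z => Complex.I ^ m * QE.jet h a φ m n z := by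
      funext n z
      rw [Int.ofNat_eq_natCast, zpow_natCast]
      rfl
    rw [h2]
    exact h1
  | negSucc m =>
    have h1 := ((near_jet S hσ ha hφ (m + 1)).conj S.op).smul S.op ((-1) ^ (m + 1))
    refine h1.trans S.op (Near.of_eq S.op fun n z hz => ?_)
    change (-1) ^ (m + 1) * (starRingEnd ℂ) (Complex.I ^ (m + 1) * QE.jet h a φ (m + 1) n z) =
      Complex.I ^ (Int.negSucc m) * ((-1) ^ (m + 1) * (starRingEnd ℂ) (QE.jet h a φ (m + 1) n z))
    have h3 : Complex.I ^ (Int.negSucc m) = (starRingEnd ℂ) (Complex.I ^ (m + 1)) := by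
      rw [zpow_negSucc, map_pow, Complex.conj_I, ← Complex.inv_I, inv_pow]
    rw [h3, map_mul]
    ring

theorem int5 {f0 f1 f2 f3 f4 : ℂ → ℂ} (h0 : Integrable f0) (h1 : Integrable f1)
    (h2 : Integrable f2) (h3 : Integrable f3) (h4 : Integrable f4) :
    ∫ z, (f0 z + f1 z + f2 z + f3 z + f4 z) =
      (∫ z, f0 z) + (∫ z, f1 z) + (∫ z, f2 z) + (∫ z, f3 z) + ∫ z, f4 z := by
  have e1 : ∫ z, (f0 z + f1 z + f2 z + f3 z + f4 z) =
      (∫ z, (f0 z + f1 z + f2 z + f3 z)) + ∫ z, f4 z :=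
    integral_add (((h0.add h1).add h2).add h3) h4
  rw [e1, integral_add_four h0 h1 h2 h3]

theorem limit {a b c d : ℤ} {u P w : ℤ → ℕ → ℂ → ℂ} (hV : IsOpen V)
    (hh0 : Tendsto h atTop (𝓝 0)) (tu : ∀ j, Tame V h (u j)) (tP : ∀ j, Tame V h (P j))
    (tw : ∀ j, Tame V h (w j))
    (hu : ∀ j n, ∀ z ∈ V, u j n z = P j n z + (h n : ℂ) * w j n z) {ζ : ℂ → ℂ} (hζ : Test V ζ) :
    Tendsto (fun n => (∫ z, ζ z * (u a n z * u b n z * u c n z * u d n z))
      - ∫ z, ζ z * (P a n z * P b n z * (P c n z * P d n z))) atTop (𝓝 0) := by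
  have key : ∀ {x y x' y' : ℕ → ℂ → ℂ}, Tame V h x → Tame V h y → Tame V h x' → Tame V h y' →
      Tendsto (fun n => (h n : ℂ) * ∫ z, ζ z * ((x n z * y n z) * (x' n z * y' n z))) atTop
        (𝓝 0) := by
    intro x y x' y' hx hy hx' hy'
    exact tendsto_h_test_mul hh0 (hx.bdd4.mul4 hx.smooth hy.bdd4 hy.smooth)
      (hx.smooth.mul hy.smooth) (hx'.bdd4.mul4 hx'.smooth hy'.bdd4 hy'.smooth)
      (hx'.smooth.mul hy'.smooth) hζ
  have t1 := key (tw a) (tu b) (tu c) (tu d)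
  have t2 := key (tP a) (tw b) (tu c) (tu d)
  have t3 := key (tP a) (tP b) (tw c) (tu d)
  have t4 := key (tP a) (tP b) (tP c) (tw d)
  have t5 := ((t1.add t2).add t3).add t4
  simp only [add_zero] at t5
  refine t5.congr fun n => ?_
  have int : ∀ {x y x' y' : ℕ → ℂ → ℂ}, Tame V h x → Tame V h y → Tame V h x' → Tame V h y' →
      Integrable (fun z => ζ z * ((x n z * y n z) * (x' n z * y' n z))) := by
    intro x y x' y' hx hy hx' hy'
    exact hζ.int hV (((hx.smooth.mul hy.smooth).mul (hx'.smooth.mul hy'.smooth)) n)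
  have i0 := int (tP a) (tP b) (tP c) (tP d)
  have i1 := (int (tw a) (tu b) (tu c) (tu d)).const_mul (h n : ℂ)
  have i2 := (int (tP a) (tw b) (tu c) (tu d)).const_mul (h n : ℂ)
  have i3 := (int (tP a) (tP b) (tw c) (tu d)).const_mul (h n : ℂ)
  have i4 := (int (tP a) (tP b) (tP c) (tw d)).const_mul (h n : ℂ)
  have e := hζ.integral_congr (f := fun z => u a n z * u b n z * u c n z * u d n z)
    (f' := fun z => P a n z * P b n z * (P c n z * P d n z) +
      (h n : ℂ) * ((w a n z * u b n z) * (u c n z * u d n z)) +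
      (h n : ℂ) * ((P a n z * w b n z) * (u c n z * u d n z)) +
      (h n : ℂ) * ((P a n z * P b n z) * (w c n z * u d n z)) +
      (h n : ℂ) * ((P a n z * P b n z) * (P c n z * w d n z))) (fun z hz => by
        rw [hu a n z hz, hu b n z hz, hu c n z hz, hu d n z hz]
        ring)
  rw [e]
  have e2 : ∫ z, ζ z * (P a n z * P b n z * (P c n z * P d n z) +
      (h n : ℂ) * ((w a n z * u b n z) * (u c n z * u d n z)) +
      (h n : ℂ) * ((P a n z * w b n z) * (u c n z * u d n z)) +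
      (h n : ℂ) * ((P a n z * P b n z) * (w c n z * u d n z)) +
      (h n : ℂ) * ((P a n z * P b n z) * (P c n z * w d n z))) =
      ∫ z, ((((ζ z * ((P a n z * P b n z) * (P c n z * P d n z)) +
      (h n : ℂ) * (ζ z * ((w a n z * u b n z) * (u c n z * u d n z)))) +
      (h n : ℂ) * (ζ z * ((P a n z * w b n z) * (u c n z * u d n z)))) +
      (h n : ℂ) * (ζ z * ((P a n z * P b n z) * (w c n z * u d n z)))) +
      (h n : ℂ) * (ζ z * ((P a n z * P b n z) * (P c n z * w d n z)))) := by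
    refine integral_congr_ae (Eventually.of_forall fun z => ?_)
    beta_reduce
    ring
  rw [e2, int5 i0 i1 i2 i3 i4, integral_const_mul, integral_const_mul,
    integral_const_mul, integral_const_mul]
  ring

end JCONV

open JCONV in
theorem jconv : StmtJconv := by
  intro ρ h φ S V σ φ' A ζ hζ a b c d habcd
  have SV : Setup V (gR ρ) (aR ρ) h φ := setup_mono S A.op A.sub
  have ha : ∀ z ∈ V, aR ρ z = QJ.ex σ (-1) z := fun z hz => aR_eq (A.sub hz) (A.eg z hz)
  have hn := near_E SV A.loc.sm ha A.eφ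
  choose w hw hw' using hn
  have tP : ∀ j : ℤ, Tame V h (fun n z => Complex.I ^ j * QE.E h (aR ρ) φ j n z) := fun j =>
    (SV.tame_E j).smul A.op _
  have tu : ∀ j : ℤ, Tame V h (QJ.E σ h φ' j) := fun j =>
    near_tame A.op SV.hlim (near_E SV A.loc.sm ha A.eφ j) (tP j)
  have t := limit (a := a) (b := b) (c := c) (d := d) A.op SV.hlim tu tP hw hw' hζ
  refine t.congr fun n => ?_
  congr 1
  refine integral_congr_ae (Eventually.of_forall fun z => ?_)
  have h1 : Complex.I ^ a * Complex.I ^ b * (Complex.I ^ c * Complex.I ^ d) = 1 := by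
    rw [← zpow_add₀ Complex.I_ne_zero, ← zpow_add₀ Complex.I_ne_zero,
      ← zpow_add₀ Complex.I_ne_zero, ← add_assoc, habcd, zpow_zero]
  beta_reduce
  linear_combination (ζ z * (QE.E h (aR ρ) φ a n z * QE.E h (aR ρ) φ b n z
        * (QE.E h (aR ρ) φ c n z * QE.E h (aR ρ) φ d n z))) * h1

end

end NFP
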