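import Pool.Agent.NFP.St

/-!
# MARG: a measure on the half plane which agrees with a density on the test functions
-/

open Complex MeasureTheory Filter Topology Set
open UpperHalfPlane hiding I
open scoped ContDiff ENNReal NNReal

namespace NFP

open QE QE.NC

noncomputable section

namespace MARG

/-- the weight -/
def wgt (ρ : ℍ → ℝ) (z : ℍ) : ℝ := z.im ^ 2 * Real.exp (-(2 * ρ z))

lemma wgt_pos (ρ : ℍ → ℝ) (z : ℍ) : 0 < wgt ρ z := by
  have := z.im_pos
  unfold wgt
  positivity

lemma wgt_cont {ρ : ℍ → ℝ} (hρ : Continuous ρ) : Continuous (wgt ρ) := by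
  unfold wgt
  exact (UpperHalfPlane.continuous_im.pow 2).mul
    (Real.continuous_exp.comp (continuous_const.mul hρ).neg)

/-- smooth approximation of a continuous function with compact support -/
lemma exists_smooth {η : ℂ → ℝ} (hc : Continuous η) (hs : HasCompactSupport η) {δ : ℝ}
    (hδ : 0 < δ) : ∃ ψ : ℂ → ℝ, ContDiff ℝ ∞ ψ ∧ HasCompactSupport ψ ∧ tsupport ψ ⊆ tsupport η ∧
      ∀ z, |η z - ψ z| ≤ 6 * δ := by
  have hp : tsupport (fun z => max (η z) 0) ⊆ tsupport η := by
    refine closure_mono fun z hz h0 => hz ?_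
    change max (η z) 0 = 0
    rw [h0, max_self]
  have hq : tsupport (fun z => max (-η z) 0) ⊆ tsupport η := by
    refine closure_mono fun z hz h0 => hz ?_
    change max (-η z) 0 = 0
    rw [h0, neg_zero, max_self]
  obtain ⟨a, ha1, ha2, ha3, ha4, ha5, ha6⟩ := exists_smooth_below (ξ := fun z => max (η z) 0)
    (hc.max continuous_const) (hs.of_isClosed_subset (isClosed_tsupport _) hp)
    (fun z => le_max_right _ _) hδ
  obtain ⟨b, hb1, hb2, hb3, hb4, hb5, hb6⟩ := exists_smooth_below (ξ := fun z => max (-η z) 0)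
    (hc.neg.max continuous_const) (hs.of_isClosed_subset (isClosed_tsupport _) hq)
    (fun z => le_max_right _ _) hδ
  have hsub : tsupport (fun z => a z - b z) ⊆ tsupport η := by
    refine closure_minimal (fun z hz => ?_) (isClosed_tsupport η)
    by_contra h
    apply hz
    have h1 : a z = 0 := image_eq_zero_of_notMem_tsupport fun h' => h (hp (ha3 h'))
    have h2 : b z = 0 := image_eq_zero_of_notMem_tsupport fun h' => h (hq (hb3 h'))
    change a z - b z = 0
    rw [h1, h2, sub_zero]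
  refine ⟨fun z => a z - b z, ha1.sub hb1, hs.of_isClosed_subset (isClosed_tsupport _) hsub, hsub,
    fun z => ?_⟩
  have h1 := ha5 z
  have h2 := ha6 z
  have h3 := hb5 z
  have h4 := hb6 z
  beta_reduce at h1 h2 h3 h4 ⊢
  have h5 : η z = max (η z) 0 - max (-η z) 0 := by
    rcases le_total 0 (η z) with h | h
    · rw [max_eq_left h, max_eq_right (by linarith), sub_zero]
    · rw [max_eq_right h, max_eq_left (by linarith), zero_sub, neg_neg]
  rw [abs_le]
  constructor <;> linarith

lemma isCompact_pre {K : Set ℂ} (hK : IsCompact K) (hKU : K ⊆ UH) :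
    IsCompact (UpperHalfPlane.coe ⁻¹' K) := by
  refine (UpperHalfPlane.isOpenEmbedding_coe.isInducing.isCompact_preimage_iff ?_).2 hK
  intro z hz
  exact ⟨⟨z, hKU hz⟩, rfl⟩

/-- the identity for continuous functions -/
lemma key {ρ : ℍ → ℝ} {ν : Measure ℍ} {u : ℂ → ℂ} (hρ : Continuous ρ)
    (hν : ∀ K, IsCompact K → ν K < ⊤) (hu : LocL2 UH u)
    (h : ∀ ζ : ℂ → ℂ, Test UH ζ →
      ∫ z, ζ z * u z = ∫ z : ℍ, ζ z * ((wgt ρ z : ℝ) : ℂ) ∂ν)
    {η : ℂ → ℝ} (hc : Continuous η) (hs : HasCompactSupport η) (hU : tsupport η ⊆ UH) :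
    ∫ z, (η z : ℂ) * u z = ∫ z : ℍ, (η z : ℂ) * ((wgt ρ z : ℝ) : ℂ) ∂ν := by
  have fin : IsFiniteMeasureOnCompacts ν := ⟨fun K hK => hν K hK⟩
  have hK : IsCompact (tsupport η) := hs
  have hKm : MeasurableSet (tsupport η) := (isClosed_tsupport η).measurableSet
  have hKH := isCompact_pre hK hU
  have finK : IsFiniteMeasure ((volume : Measure ℂ).restrict (tsupport η)) :=
    ⟨by rw [Measure.restrict_apply_univ]; exact hK.measure_lt_top⟩
  have hui : IntegrableOn u (tsupport η) := (hu _ hK hU).integrable one_le_two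
  have hgi : IntegrableOn (wgt ρ) (UpperHalfPlane.coe ⁻¹' tsupport η) ν :=
    (wgt_cont hρ).continuousOn.integrableOn_compact hKH
  set A : ℝ := ∫ z in UpperHalfPlane.coe ⁻¹' tsupport η, wgt ρ z ∂ν with hA
  set B : ℝ := ∫ z in tsupport η, ‖u z‖ with hB
  have hA0 : 0 ≤ A := integral_nonneg fun z => (wgt_pos ρ z).le
  have hB0 : 0 ≤ B := integral_nonneg fun z => norm_nonneg _
  -- the two functionals
  have i1 : ∀ χ : ℂ → ℝ, Continuous χ → tsupport χ ⊆ tsupport η →
      Integrable (fun z => (χ z : ℂ) * u z) := by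
    intro χ hχ hχs
    have hcomp : HasCompactSupport χ := hs.of_isClosed_subset (isClosed_tsupport _) hχs
    obtain ⟨M, hM⟩ := hχ.bounded_above_of_compact_support hcomp
    have h1 : IntegrableOn (fun z => (χ z : ℂ) * u z) (tsupport η) := by
      refine Integrable.bdd_mul (c := M) hui
        (Complex.continuous_ofReal.comp hχ).aestronglyMeasurable (ae_of_all _ fun z => ?_)
      rw [Complex.norm_real]
      exact hM z
    refine (integrableOn_iff_integrable_of_support_subset fun z hz => ?_).1 h1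
    by_contra hz'
    apply hz
    have h2 : χ z = 0 := image_eq_zero_of_notMem_tsupport fun h' => hz' (hχs h')
    change (χ z : ℂ) * u z = 0
    rw [h2, Complex.ofReal_zero, zero_mul]
  have i2 : ∀ χ : ℂ → ℝ, Continuous χ → tsupport χ ⊆ tsupport η →
      Integrable (fun z : ℍ => (χ z : ℂ) * ((wgt ρ z : ℝ) : ℂ)) ν := by
    intro χ hχ hχs
    have hcc : Continuous fun z : ℍ => (χ z : ℂ) * ((wgt ρ z : ℝ) : ℂ) :=
      (Complex.continuous_ofReal.comp (hχ.comp UpperHalfPlane.continuous_coe)).mul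
        (Complex.continuous_ofReal.comp (wgt_cont hρ))
    refine hcc.integrable_of_hasCompactSupport
      (HasCompactSupport.of_support_subset_isCompact hKH fun z hz => ?_)
    by_contra hz'
    apply hz
    have h2 : χ z = 0 := image_eq_zero_of_notMem_tsupport fun h' => hz' (hχs h')
    change (χ z : ℂ) * ((wgt ρ z : ℝ) : ℂ) = 0
    rw [h2, Complex.ofReal_zero, zero_mul]
  have main : ∀ δ : ℝ, 0 < δ →
      dist (∫ z, (η z : ℂ) * u z) (∫ z : ℍ, (η z : ℂ) * ((wgt ρ z : ℝ) : ℂ) ∂ν)
        ≤ 6 * δ * (A + B) := by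
    intro δ hδ
    obtain ⟨ψ, hψ1, hψ2, hψ3, hψ4⟩ := exists_smooth hc hs hδ
    have hT : Test UH fun z => (ψ z : ℂ) := by
      have hsub : tsupport (fun z => (ψ z : ℂ)) ⊆ tsupport ψ := by
        refine closure_mono fun z hz h0 => hz ?_
        change (ψ z : ℂ) = 0
        rw [h0, Complex.ofReal_zero]
      exact ⟨Complex.ofRealCLM.contDiff.comp hψ1, hψ2.of_isClosed_subset (isClosed_tsupport _) hsub,
        hsub.trans (hψ3.trans hU)⟩
    have e0 := h _ hT
    have d1 : ‖(∫ z, (η z : ℂ) * u z) - ∫ z, (ψ z : ℂ) * u z‖ ≤ 6 * δ * B := by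
      rw [← integral_sub (i1 η hc subset_rfl) (i1 ψ hψ1.continuous hψ3)]
      have e1 : ∫ z, ((η z : ℂ) * u z - (ψ z : ℂ) * u z)
          = ∫ z in tsupport η, ((η z : ℂ) * u z - (ψ z : ℂ) * u z) := by
        rw [setIntegral_eq_integral_of_forall_compl_eq_zero]
        intro z hz
        rw [image_eq_zero_of_notMem_tsupport hz,
          image_eq_zero_of_notMem_tsupport (fun hz' => hz (hψ3 hz')), sub_self]
      rw [e1, hB, ← integral_const_mul]
      refine norm_integral_le_of_norm_le (hui.norm.const_mul _) (ae_of_all _ fun z => ?_)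
      rw [← sub_mul, norm_mul, ← Complex.ofReal_sub, Complex.norm_real, Real.norm_eq_abs]
      exact mul_le_mul_of_nonneg_right (hψ4 z) (norm_nonneg _)
    have d2 : ‖(∫ z : ℍ, (η z : ℂ) * ((wgt ρ z : ℝ) : ℂ) ∂ν)
        - ∫ z : ℍ, (ψ z : ℂ) * ((wgt ρ z : ℝ) : ℂ) ∂ν‖ ≤ 6 * δ * A := by
      rw [← integral_sub (i2 η hc subset_rfl) (i2 ψ hψ1.continuous hψ3)]
      have e1 : ∫ z : ℍ, ((η z : ℂ) * ((wgt ρ z : ℝ) : ℂ) - (ψ z : ℂ) * ((wgt ρ z : ℝ) : ℂ)) ∂ν
          = ∫ z in UpperHalfPlane.coe ⁻¹' tsupport η,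
            ((η z : ℂ) * ((wgt ρ z : ℝ) : ℂ) - (ψ z : ℂ) * ((wgt ρ z : ℝ) : ℂ)) ∂ν := by
        rw [setIntegral_eq_integral_of_forall_compl_eq_zero]
        intro z hz
        have hz1 : (z : ℂ) ∉ tsupport η := hz
        rw [image_eq_zero_of_notMem_tsupport hz1,
          image_eq_zero_of_notMem_tsupport (fun hz' => hz1 (hψ3 hz')), sub_self]
      rw [e1, hA, ← integral_const_mul]
      refine norm_integral_le_of_norm_le (hgi.const_mul _) (ae_of_all _ fun z => ?_)
      rw [← sub_mul, norm_mul, ← Complex.ofReal_sub, Complex.norm_real, Complex.norm_real,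
        Real.norm_eq_abs, Real.norm_eq_abs, abs_of_pos (wgt_pos ρ z)]
      exact mul_le_mul_of_nonneg_right (hψ4 z) (wgt_pos ρ z).le
    rw [dist_eq_norm]
    have e2 : (∫ z, (η z : ℂ) * u z) - (∫ z : ℍ, (η z : ℂ) * ((wgt ρ z : ℝ) : ℂ) ∂ν)
        = ((∫ z, (η z : ℂ) * u z) - ∫ z, (ψ z : ℂ) * u z)
          - ((∫ z : ℍ, (η z : ℂ) * ((wgt ρ z : ℝ) : ℂ) ∂ν)
            - ∫ z : ℍ, (ψ z : ℂ) * ((wgt ρ z : ℝ) : ℂ) ∂ν) := by
      rw [e0]
      ring
    rw [e2]
    calc _ ≤ 6 * δ * B + 6 * δ * A := (norm_sub_le _ _).trans (add_le_add d1 d2)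
      _ = 6 * δ * (A + B) := by ring
  refine eq_of_forall_dist_le fun ε hε => ?_
  refine (main (ε / (6 * (A + B + 1))) (by positivity)).trans ?_
  have h1 : 6 * (ε / (6 * (A + B + 1))) * (A + B) = ε * ((A + B) / (A + B + 1)) := by
    field_simp
  have h2 : (A + B) / (A + B + 1) ≤ 1 := (div_le_one (by positivity)).2 (by linarith)
  rw [h1]
  nlinarith

end MARG

open MARG in
theorem marg : StmtMarg := by
  intro ρ ν u hρ hν hum hu hre h
  have h' : ∀ ζ : ℂ → ℂ, Test UH ζ →
      ∫ z, ζ z * u z = ∫ z : ℍ, ζ z * ((wgt ρ z : ℝ) : ℂ) ∂ν := h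
  have fin : IsFiniteMeasureOnCompacts ν := ⟨fun K hK => hν K hK⟩
  set p : ℂ → ℝ := fun z => max (u z).re 0 with hp
  have hpm : Measurable p := (Complex.measurable_re.comp hum).max measurable_const
  have hp0 : ∀ z, 0 ≤ p z := fun z => le_max_right _ _
  have hPm : Measurable fun z : ℍ => ENNReal.ofReal (p z) :=
    ENNReal.measurable_ofReal.comp (hpm.comp UpperHalfPlane.measurable_coe)
  have hEm : Measurable fun z : ℍ => ENNReal.ofReal (Real.exp (2 * ρ z)) :=
    ENNReal.measurable_ofReal.comp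
      (Real.continuous_exp.comp (continuous_const.mul hρ)).measurable
  have hae : ∀ᵐ z : ℍ, u (z : ℂ) = (p z : ℂ) := by
    refine QE.FM.ae_H (P := fun z => u z = (p z : ℂ)) ?_
    filter_upwards [hre] with z hz
    apply Complex.ext
    · rw [Complex.ofReal_re]
      exact (max_eq_left hz.1).symm
    · rw [Complex.ofReal_im]
      exact hz.2
  have f2 : IsFiniteMeasureOnCompacts
      ((Berry.area ρ).withDensity (fun z => ENNReal.ofReal (p z))) := by
    refine ⟨fun K hK => ?_⟩
    rw [withDensity_apply _ hK.measurableSet]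
    have : IsFiniteMeasure ((volume : Measure ℍ).restrict K) :=
      ⟨by rw [Measure.restrict_apply_univ]; exact hK.measure_lt_top⟩
    have h1 : IntegrableOn (fun z : ℍ => u z) K volume :=
      (QE.FM.memLp_H hu hK).integrable one_le_two
    have h2 : IntegrableOn (fun z : ℍ => p z) K volume :=
      (h1.re).sup (integrable_zero _ _ _)
    obtain ⟨C, hC⟩ := (hK.image (Real.continuous_exp.comp (continuous_const.mul hρ) :
      Continuous fun z => Real.exp (2 * ρ z))).bddAbove
    have h3 : (Berry.area ρ).restrict K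
        ≤ (ENNReal.ofReal C) • ((volume : Measure ℍ).restrict K) := by
      rw [Berry.area, restrict_withDensity hK.measurableSet, ← withDensity_const]
      refine withDensity_mono ?_
      rw [EventuallyLE, ae_restrict_iff' hK.measurableSet]
      refine Eventually.of_forall fun z hz => ?_
      exact ENNReal.ofReal_le_ofReal (hC (mem_image_of_mem _ hz))
    have h4 : IntegrableOn (fun z : ℍ => p z) K (Berry.area ρ) :=
      (h2.smul_measure ENNReal.ofReal_ne_top).mono_measure h3
    exact (hasFiniteIntegral_iff_ofReal (Eventually.of_forall fun z => hp0 _)).1 h4.2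
  refine Measure.ext_of_integral_eq_on_compactlySupported fun f => ?_
  have hfc : Continuous fun z => f z := f.continuous
  obtain ⟨c, hcc, hcs, hcU, -, hc1⟩ := QE.Surf.exists_cut (K := tsupport fun z => f z)
    f.hasCompactSupport
  set k : ℍ → ℝ := fun z => f z / wgt ρ z with hk
  have hkc : Continuous k := hfc.div (wgt_cont hρ) fun z => (wgt_pos ρ z).ne'
  set η : ℂ → ℝ := fun w => c w * k (ofComplex w) with hη
  have hηc : Continuous η := QE.Surf.continuous_cut_mul hcc hcU hkc
  have hηsub : tsupport η ⊆ tsupport c := by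
    refine closure_mono fun z hz h0 => hz ?_
    change c z * k (ofComplex z) = 0
    rw [h0, zero_mul]
  have hηs : HasCompactSupport η := hcs.of_isClosed_subset (isClosed_tsupport _) hηsub
  have hηU : tsupport η ⊆ UH := hηsub.trans hcU
  have hηz : ∀ z : ℍ, η z = f z / wgt ρ z := by
    intro z
    change c z * k (ofComplex z) = _
    rw [ofComplex_apply]
    by_cases hz : z ∈ tsupport fun z => f z
    · rw [hc1 z hz, one_mul]
    · have : f z = 0 := image_eq_zero_of_notMem_tsupport hz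
      rw [hk]
      simp only [this, zero_div, mul_zero]
  have e1 := key hρ hν hu h' hηc hηs hηU
  have e2 : ∫ z : ℍ, (η z : ℂ) * ((wgt ρ z : ℝ) : ℂ) ∂ν = ((∫ z, f z ∂ν : ℝ) : ℂ) := by
    rw [← integral_complex_ofReal]
    refine integral_congr_ae (ae_of_all _ fun z => ?_)
    change (η z : ℂ) * ((wgt ρ z : ℝ) : ℂ) = (f z : ℂ)
    rw [hηz, ← Complex.ofReal_mul, div_mul_cancel₀ _ (wgt_pos ρ z).ne']
  have e3 : ∫ z, (η z : ℂ) * u z
      = ∫ z : ℍ, (((z : ℂ).im ^ 2 : ℝ) : ℂ) * ((η z : ℂ) * u z) := by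
    rw [QE.integral_uhp fun w => ((w.im ^ 2 : ℝ) : ℂ) * ((η w : ℂ) * u w)]
    rw [← setIntegral_eq_integral_of_forall_compl_eq_zero (s := UH)]
    · refine setIntegral_congr_fun (isOpen_lt continuous_const Complex.continuous_im).measurableSet
        fun w hw => ?_
      have hw' : (w.im : ℂ) ≠ 0 := by
        have : (0 : ℝ) < w.im := hw
        exact_mod_cast this.ne'
      push_cast
      field_simp
    · intro w hw
      have : η w = 0 := image_eq_zero_of_notMem_tsupport fun h' => hw (hηU h')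
      rw [this, Complex.ofReal_zero, zero_mul]
  have e4 : ∫ z, f z ∂((Berry.area ρ).withDensity (fun z => ENNReal.ofReal (p z)))
      = ∫ z : ℍ, Real.exp (2 * ρ z) * (p z * f z) := by
    rw [integral_withDensity_eq_integral_toReal_smul hPm
      (Eventually.of_forall fun z => ENNReal.ofReal_lt_top), Berry.area,
      integral_withDensity_eq_integral_toReal_smul hEm
      (Eventually.of_forall fun z => ENNReal.ofReal_lt_top)]
    refine integral_congr_ae (ae_of_all _ fun z => ?_)
    beta_reduce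
    rw [ENNReal.toReal_ofReal (hp0 _), ENNReal.toReal_ofReal (Real.exp_pos _).le, smul_eq_mul,
      smul_eq_mul]
  have e5 : ((∫ z : ℍ, Real.exp (2 * ρ z) * (p z * f z) : ℝ) : ℂ)
      = ∫ z : ℍ, (((z : ℂ).im ^ 2 : ℝ) : ℂ) * ((η z : ℂ) * u z) := by
    rw [← integral_complex_ofReal]
    refine integral_congr_ae ?_
    filter_upwards [hae] with z hz
    rw [hz, hηz, ← Complex.ofReal_mul, ← Complex.ofReal_mul]
    congr 1
    have h1 : Real.exp (2 * ρ z) * Real.exp (-(2 * ρ z)) = 1 := by
      rw [← Real.exp_add, add_neg_cancel, Real.exp_zero]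
    have h2 : ((z : ℂ).im) = z.im := rfl
    have h3 := z.im_pos.ne'
    rw [h2, wgt]
    have h4 := (Real.exp_pos (-(2 * ρ z))).ne'
    field_simp
    linear_combination (p z * f z) * h1
  have e6 : ((∫ z, f z ∂ν : ℝ) : ℂ)
      = ((∫ z, f z ∂((Berry.area ρ).withDensity (fun z => ENNReal.ofReal (p z))) : ℝ) : ℂ) := by
    rw [← e2, ← e1, e3, e4, e5]
  exact_mod_cast e6

end

end NFP
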