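import Pool.Agent.NFP.St
import Pool.Agent.BWM.C44

/-!
# Positivity of the resonant part in negative curvature
-/

open Complex MeasureTheory Filter Topology Set
open UpperHalfPlane hiding I
open scoped ContDiff MatrixGroups ProbabilityTheory ENNReal NNReal

namespace NFP

open QE QE.NC

namespace POS

/-- a kernel of finite measures is s-finite -/
theorem sfin {α β : Type*} [MeasurableSpace α] [MeasurableSpace β]
    (s : ProbabilityTheory.Kernel α β) (hs : ∀ z, IsFiniteMeasure (s z)) :
    ProbabilityTheory.IsSFiniteKernel s := by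
  classical
  have hm : Measurable fun z => s z univ := s.measurable_coe MeasurableSet.univ
  have hS : ∀ n : ℕ, MeasurableSet {z | s z univ ∈ Ico (n : ℝ≥0∞) (n + 1)} := fun n =>
    hm measurableSet_Ico
  refine ⟨fun n => ProbabilityTheory.Kernel.piecewise (hS n) s 0, fun n =>
    ⟨⟨n + 1, by finiteness, fun a => ?_⟩⟩, ?_⟩
  · rw [ProbabilityTheory.Kernel.piecewise_apply']
    split_ifs with h
    · exact h.2.le
    · simp
  · refine ProbabilityTheory.Kernel.ext fun z => Measure.ext fun A hA => ?_
    rw [ProbabilityTheory.Kernel.sum_apply' _ _ hA]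
    have hlt : s z univ ≠ ⊤ := measure_ne_top _ _
    set r := (s z univ).toReal with hr
    have hr0 : 0 ≤ r := ENNReal.toReal_nonneg
    have e : s z univ = ENNReal.ofReal r := (ENNReal.ofReal_toReal hlt).symm
    have hiff : ∀ n : ℕ, s z univ ∈ Ico (n : ℝ≥0∞) (n + 1) ↔ n = ⌊r⌋₊ := by
      intro n
      rw [e, mem_Ico, ← ENNReal.ofReal_natCast, ← ENNReal.ofReal_one,
        ← ENNReal.ofReal_add (by positivity) zero_le_one,
        ENNReal.ofReal_le_ofReal_iff hr0, ENNReal.ofReal_lt_ofReal_iff (by positivity),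
        eq_comm, Nat.floor_eq_iff hr0]
    rw [tsum_eq_single ⌊r⌋₊]
    · rw [ProbabilityTheory.Kernel.piecewise_apply']
      exact (if_pos ((hiff _).2 rfl)).symm
    · intro n hn
      rw [ProbabilityTheory.Kernel.piecewise_apply']
      exact (if_neg (fun h => hn ((hiff n).1 h))).trans (by simp)

/-- the first marginal -/
theorem fst_compProd {α β : Type*} [MeasurableSpace α] [MeasurableSpace β] (μ : Measure α)
    [SFinite μ] (s : ProbabilityTheory.Kernel α β) [ProbabilityTheory.IsSFiniteKernel s] :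
    (μ ⊗ₘ s).map Prod.fst = μ.withDensity (fun z => s z univ) := by
  ext A hA
  rw [Measure.map_apply measurable_fst hA, Measure.compProd_apply (measurable_fst hA),
    withDensity_apply _ hA, ← lintegral_indicator hA]
  refine lintegral_congr fun z => ?_
  by_cases hz : z ∈ A
  · rw [indicator_of_mem hz]
    congr 1
    ext y
    simp [hz]
  · rw [indicator_of_notMem hz]
    have : (Prod.mk z ⁻¹' (Prod.fst ⁻¹' A) : Set β) = ∅ := by
      ext y
      simp [hz]
    rw [this, measure_empty]

/-- integrals of functions of the first variable -/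
theorem int_fst {α β : Type*} [MeasurableSpace α] [MeasurableSpace β] (μ : Measure α)
    [SFinite μ] (s : ProbabilityTheory.Kernel α β) (hs : ∀ z, IsFiniteMeasure (s z))
    {G : α → ℂ} (hG : Measurable G) :
    ∫ p, G p.1 ∂(μ ⊗ₘ s) = ∫ z, (((s z univ).toReal : ℝ) : ℂ) * G z ∂μ := by
  have := sfin s hs
  have hm : Measurable fun z => s z univ := s.measurable_coe MeasurableSet.univ
  have e1 : ∫ p, G p.1 ∂(μ ⊗ₘ s) = ∫ z, G z ∂((μ ⊗ₘ s).map Prod.fst) :=
    (integral_map measurable_fst.aemeasurable hG.aestronglyMeasurable).symm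
  rw [e1, fst_compProd, integral_withDensity_eq_integral_toReal_smul hm
    (Eventually.of_forall fun z => measure_lt_top _ _)]
  refine integral_congr_ae (Eventually.of_forall fun z => ?_)
  simp only [Complex.real_smul]

/-- the volume of the upper half plane in the coordinate of the plane -/
theorem integral_uhp {F : ℍ → ℂ} :
    ∫ z, F z = ∫ w : ℂ in {w | 0 < w.im}, ((1 / w.im ^ 2 : ℝ) : ℂ) * F (ofComplex w) := by
  have hmp : MeasurePreserving UpperHalfPlane.coe
      ((volume : Measure ℂ).comap UpperHalfPlane.coe)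
      ((volume : Measure ℂ).restrict (.range UpperHalfPlane.coe)) :=
    ⟨measurable_coe, by rw [measurableEmbedding_coe.map_comap]⟩
  have hr : range UpperHalfPlane.coe = {w : ℂ | 0 < w.im} := range_coe
  have e1 : ∀ z : ℍ, ((1 / NNReal.mk z.im z.im_pos.le : ℝ≥0) ^ 2 : ℝ≥0)
      = Real.toNNReal (1 / z.im ^ 2) := by
    intro z
    have := z.im_pos
    ext
    rw [Real.coe_toNNReal _ (by positivity)]
    simp
  have hm : Measurable fun z : ℍ => ((1 / NNReal.mk z.im z.im_pos.le : ℝ≥0) ^ 2 : ℝ≥0) := by
    simp only [e1]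
    refine measurable_real_toNNReal.comp ?_
    exact measurable_const.div (continuous_im.measurable.pow_const 2)
  rw [volume_def, integral_withDensity_eq_integral_smul hm, ← hr,
    ← hmp.integral_comp measurableEmbedding_coe]
  refine integral_congr_ae (Eventually.of_forall fun z => ?_)
  have := z.im_pos
  beta_reduce
  rw [e1, ofComplex_apply, NNReal.smul_def, Real.coe_toNNReal _ (by positivity),
    Complex.real_smul]
  rfl

/-- local bounds for the density of the first marginal -/
theorem loc_fin {ρ : ℍ → ℝ} (hρ : Continuous ρ) (s : ProbabilityTheory.Kernel ℍ S1)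
    (hs : ∀ z, IsFiniteMeasure (s z))
    (hfin : ∀ K : Set ℍ, IsCompact K → ((Berry.area ρ) ⊗ₘ s) (K ×ˢ univ) < ⊤)
    {K : Set ℂ} (hK : IsCompact K) (hKU : K ⊆ {w : ℂ | 0 < w.im}) :
    ∫⁻ w in K, s (ofComplex w) univ < ⊤ := by
  have := sfin s hs
  have hoc : Measurable (ofComplex : ℂ → ℍ) := Surf.measurable_ofComplex
  have hsm : Measurable fun z => s z univ := s.measurable_coe MeasurableSet.univ
  have hK' : IsCompact (UpperHalfPlane.coe ⁻¹' K) := by
    rw [isOpenEmbedding_coe.isInducing.isCompact_preimage_iff]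
    · exact hK
    · rw [range_coe]; exact hKU
  have hU : IsOpen {w : ℂ | 0 < w.im} := isOpen_lt continuous_const Complex.continuous_im
  set K' : Set ℍ := UpperHalfPlane.coe ⁻¹' K with hK'def
  -- a constant
  have hcc : Continuous fun z : ℍ => z.im ^ 2 / Real.exp (2 * ρ z) :=
    (UpperHalfPlane.continuous_im.pow 2).div (Real.continuous_exp.comp (continuous_const.mul hρ))
      fun z => (Real.exp_pos _).ne'
  obtain ⟨C, hC⟩ := hK'.bddAbove_image hcc.continuousOn
  have hC' : ∀ z ∈ K', z.im ^ 2 ≤ (max C 0) * Real.exp (2 * ρ z) := fun z hz => by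
    have h1 : z.im ^ 2 / Real.exp (2 * ρ z) ≤ C := hC (mem_image_of_mem _ hz)
    rw [div_le_iff₀ (Real.exp_pos _)] at h1
    exact h1.trans (mul_le_mul_of_nonneg_right (le_max_left _ _) (Real.exp_pos _).le)
  have hmeas : Measurable fun z : ℍ => ENNReal.ofReal (z.im ^ 2) * s z univ :=
    (ENNReal.measurable_ofReal.comp (UpperHalfPlane.continuous_im.pow 2).measurable).mul hsm
  have hexp : Measurable fun z : ℍ => ENNReal.ofReal (Real.exp (2 * ρ z)) :=
    ENNReal.measurable_ofReal.comp
      (Real.continuous_exp.comp (continuous_const.mul hρ)).measurable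
  have h2 : ((Berry.area ρ) ⊗ₘ s) (K' ×ˢ univ)
      = ∫⁻ z in K', ENNReal.ofReal (Real.exp (2 * ρ z)) * s z univ := by
    have : SFinite (Berry.area ρ) := by unfold Berry.area; infer_instance
    have h3 : (K' ×ˢ univ : Set (ℍ × S1)) = Prod.fst ⁻¹' K' := by ext p; simp
    rw [h3, ← Measure.map_apply measurable_fst hK'.measurableSet, fst_compProd,
      withDensity_apply _ hK'.measurableSet]
    unfold Berry.area
    rw [restrict_withDensity hK'.measurableSet, lintegral_withDensity_eq_lintegral_mul _ hexp hsm]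
    rfl
  have h4 := hfin K' hK'
  rw [h2] at h4
  calc ∫⁻ w in K, s (ofComplex w) univ
      = ∫⁻ w : ℂ in {w | 0 < w.im}, ENNReal.ofReal (1 / w.im ^ 2) *
          K'.indicator (fun z => ENNReal.ofReal (z.im ^ 2) * s z univ) (ofComplex w) := by
        rw [← lintegral_indicator hK.measurableSet, ← lintegral_indicator hU.measurableSet]
        refine lintegral_congr fun w => ?_
        by_cases hw : w ∈ K
        · have hw' : 0 < w.im := hKU hw
          have e2 : ((ofComplex w : ℍ) : ℂ) = w := by rw [ofComplex_apply_of_im_pos hw']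
          have e3 : (ofComplex w : ℍ).im = w.im := by rw [ofComplex_apply_of_im_pos hw']; rfl
          have e4 : ofComplex w ∈ K' := by
            show ((ofComplex w : ℍ) : ℂ) ∈ K
            rw [e2]; exact hw
          rw [indicator_of_mem hw, indicator_of_mem (show w ∈ {w : ℂ | 0 < w.im} from hw'),
            indicator_of_mem e4, ← mul_assoc, ← ENNReal.ofReal_mul (by positivity), e3]
          have e5 : 1 / w.im ^ 2 * w.im ^ 2 = 1 := by field_simp
          rw [e5, ENNReal.ofReal_one, one_mul]
        · rw [indicator_of_notMem hw]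
          by_cases hw' : 0 < w.im
          · have e2 : ((ofComplex w : ℍ) : ℂ) = w := by rw [ofComplex_apply_of_im_pos hw']
            have e4 : ofComplex w ∉ K' := by
              show ¬ ((ofComplex w : ℍ) : ℂ) ∈ K
              rw [e2]; exact hw
            rw [indicator_of_mem (show w ∈ {w : ℂ | 0 < w.im} from hw'), indicator_of_notMem e4,
              mul_zero]
          · rw [indicator_of_notMem (show w ∉ {w : ℂ | 0 < w.im} from hw')]
    _ = ∫⁻ z : ℍ, K'.indicator (fun z => ENNReal.ofReal (z.im ^ 2) * s z univ) z :=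
        (QE.Surf.lintegral_uhp (hmeas.indicator hK'.measurableSet)).symm
    _ = ∫⁻ z in K', ENNReal.ofReal (z.im ^ 2) * s z univ :=
        lintegral_indicator hK'.measurableSet _
    _ ≤ ∫⁻ z in K', ENNReal.ofReal (max C 0) *
          (ENNReal.ofReal (Real.exp (2 * ρ z)) * s z univ) := by
        refine setLIntegral_mono' hK'.measurableSet fun z hz => ?_
        rw [← mul_assoc, ← ENNReal.ofReal_mul (le_max_right _ _)]
        gcongr
        exact hC' z hz
    _ = ENNReal.ofReal (max C 0) * ∫⁻ z in K', ENNReal.ofReal (Real.exp (2 * ρ z)) * s z univ :=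
        lintegral_const_mul _ (hexp.mul hsm)
    _ < ⊤ := ENNReal.mul_lt_top ENNReal.ofReal_lt_top h4

/-- test integrals of the density of the first marginal -/
theorem int_test {ρ : ℍ → ℝ} (hρ : Continuous ρ) (s : ProbabilityTheory.Kernel ℍ S1)
    (hs : ∀ z, IsFiniteMeasure (s z)) {ζ : ℂ → ℂ} (hζ : Test UH ζ) :
    ∫ p : ℍ × S1, ζ p.1 * ((p.1.im ^ 2 * Real.exp (-(2 * ρ p.1)) : ℝ) : ℂ)
        ∂((Berry.area ρ) ⊗ₘ s)
      = ∫ z, ζ z * ((((s (ofComplex z) univ).toReal : ℝ)) : ℂ) := by
  have : SFinite (Berry.area ρ) := by unfold Berry.area; infer_instance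
  have hexp : Measurable fun z : ℍ => ENNReal.ofReal (Real.exp (2 * ρ z)) :=
    ENNReal.measurable_ofReal.comp
      (Real.continuous_exp.comp (continuous_const.mul hρ)).measurable
  have hG : Measurable fun z : ℍ => ζ z * ((z.im ^ 2 * Real.exp (-(2 * ρ z)) : ℝ) : ℂ) := by
    have h1 : Continuous fun z : ℍ => ζ z * ((z.im ^ 2 * Real.exp (-(2 * ρ z)) : ℝ) : ℂ) :=
      (hζ.smooth.continuous.comp continuous_coe).mul (Complex.continuous_ofReal.comp
        ((UpperHalfPlane.continuous_im.pow 2).mul
          (Real.continuous_exp.comp (continuous_const.mul hρ).neg)))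
    exact h1.measurable
  have hU : MeasurableSet {w : ℂ | 0 < w.im} :=
    (isOpen_lt continuous_const Complex.continuous_im).measurableSet
  rw [int_fst (Berry.area ρ) s hs (G := fun z : ℍ => ζ z *
    ((z.im ^ 2 * Real.exp (-(2 * ρ z)) : ℝ) : ℂ)) hG]
  unfold Berry.area
  rw [integral_withDensity_eq_integral_toReal_smul hexp
    (Eventually.of_forall fun z => ENNReal.ofReal_lt_top), integral_uhp,
    ← integral_indicator hU]
  refine integral_congr_ae (Eventually.of_forall fun w => ?_)
  beta_reduce
  by_cases hw : 0 < w.im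
  · have e2 : ((ofComplex w : ℍ) : ℂ) = w := by rw [ofComplex_apply_of_im_pos hw]
    have e3 : (ofComplex w : ℍ).im = w.im := by rw [ofComplex_apply_of_im_pos hw]; rfl
    rw [indicator_of_mem (show w ∈ {w : ℂ | 0 < w.im} from hw),
      ENNReal.toReal_ofReal (Real.exp_pos _).le, Complex.real_smul, e2, e3]
    have h5 : Real.exp (2 * ρ (ofComplex w)) * Real.exp (-(2 * ρ (ofComplex w))) = 1 := by
      rw [← Real.exp_add, add_neg_cancel, Real.exp_zero]
    have h6 : (1 / w.im ^ 2) * (Real.exp (2 * ρ (ofComplex w)) *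
        (w.im ^ 2 * Real.exp (-(2 * ρ (ofComplex w))))) = 1 := by
      have h7 : (1 / w.im ^ 2) * w.im ^ 2 = 1 := by field_simp
      calc (1 / w.im ^ 2) * (Real.exp (2 * ρ (ofComplex w)) *
            (w.im ^ 2 * Real.exp (-(2 * ρ (ofComplex w)))))
          = ((1 / w.im ^ 2) * w.im ^ 2) * (Real.exp (2 * ρ (ofComplex w)) *
            Real.exp (-(2 * ρ (ofComplex w)))) := by ring
        _ = 1 := by rw [h7, h5, one_mul]
    calc ((1 / w.im ^ 2 : ℝ) : ℂ) * (((Real.exp (2 * ρ (ofComplex w)) : ℝ) : ℂ) *
          ((((s (ofComplex w) univ).toReal : ℝ) : ℂ) * (ζ w *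
            ((w.im ^ 2 * Real.exp (-(2 * ρ (ofComplex w))) : ℝ) : ℂ))))
        = (((1 / w.im ^ 2) * (Real.exp (2 * ρ (ofComplex w)) *
          (w.im ^ 2 * Real.exp (-(2 * ρ (ofComplex w))))) : ℝ) : ℂ) *
          (ζ w * (((s (ofComplex w) univ).toReal : ℝ) : ℂ)) := by
          push_cast; ring
      _ = ζ w * (((s (ofComplex w) univ).toReal : ℝ) : ℂ) := by
          rw [h6, Complex.ofReal_one, one_mul]
  · rw [indicator_of_notMem (show w ∉ {w : ℂ | 0 < w.im} from hw)]
    have h0 : ζ w = 0 := image_eq_zero_of_notMem_tsupport fun h => hw (hζ.sub h)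
    rw [h0, zero_mul]

/-- the weak limit is the density of the first marginal -/
theorem density {ρ : ℍ → ℝ} (hρ : Continuous ρ) (s : ProbabilityTheory.Kernel ℍ S1)
    (hs : ∀ z, IsFiniteMeasure (s z))
    (hfin : ∀ K : Set ℍ, IsCompact K → ((Berry.area ρ) ⊗ₘ s) (K ×ˢ univ) < ⊤)
    {u : ℂ → ℂ} (hu : LocL2 UH u)
    (h : ∀ ζ : ℂ → ℂ, Test UH ζ → ∫ z, ζ z * u z
      = ∫ p : ℍ × S1, ζ p.1 * ((p.1.im ^ 2 * Real.exp (-(2 * ρ p.1)) : ℝ) : ℂ)
        ∂((Berry.area ρ) ⊗ₘ s)) :
    ∀ᵐ z : ℍ, u z = (((s z univ).toReal : ℝ) : ℂ) := by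
  have hoc : Measurable (ofComplex : ℂ → ℍ) := Surf.measurable_ofComplex
  have hsm : Measurable fun z => s z univ := s.measurable_coe MeasurableSet.univ
  have hUo : IsOpen UH := isOpen_lt continuous_const Complex.continuous_im
  set f : ℂ → ℂ := fun w => (((s (ofComplex w) univ).toReal : ℝ) : ℂ) with hf
  have hfm : Measurable f :=
    Complex.measurable_ofReal.comp (hsm.comp hoc).ennreal_toReal
  have hfK : ∀ K : Set ℂ, IsCompact K → K ⊆ UH → IntegrableOn f K := by
    intro K hK hKU
    refine ⟨hfm.aestronglyMeasurable, ?_⟩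
    have h1 := loc_fin hρ s hs hfin hK hKU
    refine lt_of_le_of_lt (lintegral_mono fun w => ?_) h1
    rw [hf]
    simp only [enorm_eq_nnnorm]
    rw [← enorm_eq_nnnorm, ← ofReal_norm, Complex.norm_real, Real.norm_eq_abs,
      abs_of_nonneg ENNReal.toReal_nonneg]
    exact ENNReal.ofReal_toReal_le
  have huK : ∀ K : Set ℂ, IsCompact K → K ⊆ UH → IntegrableOn u K := by
    intro K hK hKU
    have : IsFiniteMeasure (volume.restrict K) := ⟨by simpa using hK.measure_lt_top⟩
    exact (hu K hK hKU).integrable (by norm_num)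
  have key : ∀ᵐ z ∂(volume : Measure ℂ), z ∈ UH → u z - f z = 0 := by
    refine hUo.ae_eq_zero_of_integral_contDiff_smul_eq_zero (f := fun z => u z - f z) ?_
      fun η h1 h2 h3 => ?_
    · rw [locallyIntegrableOn_iff hUo.isLocallyClosed]
      intro K hKU hK
      exact (huK K hK hKU).sub (hfK K hK hKU)
    · have hts : tsupport (fun z => (η z : ℂ)) ⊆ tsupport η := by
        refine closure_mono fun z hz => ?_
        simp only [Function.mem_support] at hz ⊢
        intro h0; exact hz (by simp [h0])
      have hT : Test UH (fun z => (η z : ℂ)) := ⟨ofRealCLM.contDiff.comp h1,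
        h2.of_isClosed_subset (isClosed_tsupport _) hts, hts.trans h3⟩
      have e1 := h _ hT
      rw [int_test hρ s hs hT] at e1
      have hsup : ∀ v : ℂ → ℂ, (∀ K : Set ℂ, IsCompact K → K ⊆ UH → IntegrableOn v K) →
          Integrable fun z => (η z : ℂ) * v z := by
        intro v hv
        have h5 := hv (tsupport fun z => (η z : ℂ)) hT.supp hT.sub
        obtain ⟨B, hB⟩ := hT.smooth.continuous.bounded_above_of_compact_support hT.supp
        have h6 : IntegrableOn (fun z => (η z : ℂ) * v z) (tsupport fun z => (η z : ℂ)) :=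
          Integrable.bdd_mul h5 hT.smooth.continuous.aestronglyMeasurable
            (Eventually.of_forall hB)
        refine (integrableOn_iff_integrable_of_support_subset ?_).1 h6
        intro z hz
        refine subset_tsupport _ fun h0 => hz ?_
        simp only [h0, zero_mul]
      have e2 : ∫ z, (η z : ℂ) * (u z - f z) = 0 := by
        simp only [mul_sub]
        rw [integral_sub (hsup u huK) (hsup f hfK), e1, sub_self]
      refine Eq.trans ?_ e2
      exact integral_congr_ae (Filter.Eventually.of_forall fun z => by simp)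
  have key2 : ∀ᵐ z ∂((volume : Measure ℂ).restrict UH), u z = f z := by
    rw [ae_restrict_iff' hUo.measurableSet]
    filter_upwards [key] with z hz hzU
    exact sub_eq_zero.1 (hz hzU)
  filter_upwards [FM.ae_H key2] with z hz
  rw [hz, hf]
  simp only [ofComplex_apply]

end POS

open POS Berry in
/-- **POS**: positivity of the resonant part in negative curvature -/
theorem pos (h1 : StmtSemTwo) : StmtPos := by
  intro Γ ρ D φ m s hΓ hF hpos hDm hD hφ hsm hB hs hSc w hw hw0 hwi ε hε
  have : Countable Γ := hΓ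
  have hρ : Continuous ρ := continuous_of_smooth hF.smooth
  have hK := hF.cpt
  obtain ⟨B, hB⟩ := hB
  obtain ⟨A, hA, hAeq⟩ := exists_rAvg_eq hDm hD hK hρ hF.inv
  by_contra hcon
  rw [Filter.not_eventually] at hcon
  obtain ⟨t, ht, htn⟩ := extraction_of_frequently_atTop hcon
  simp only [not_le] at htn
  have hc : ∀ n, Continuous (φ n) := fun n => continuous_of_smooth (hsm n)
  -- the fourth moments with respect to the hyperbolic area
  have hbd : ∃ C : ℝ, ∀ n, surfAvg D (fun z => φ (t n) z ^ 4) ≤ C := by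
    obtain ⟨M, hM⟩ := bdd_of_cocompact hρ hF.inv hK
    refine ⟨B / (A * Real.exp (-(2 * M))), fun n => ?_⟩
    have h2 := hB (t n)
    rw [hAeq] at h2
    rw [le_div_iff₀ (by positivity)]
    refine le_trans ?_ h2
    rw [mul_comm (surfAvg D fun z => φ (t n) z ^ 4), mul_assoc]
    refine mul_le_mul_of_nonneg_left ?_ hA.le
    rw [Surf.surfAvg_eq, Surf.surfAvg_eq, ← mul_assoc,
      mul_comm (Real.exp (-(2 * M))), mul_assoc, ← integral_const_mul]
    refine mul_le_mul_of_nonneg_left ?_ (by positivity)
    have i4 : IntegrableOn (fun z => φ (t n) z ^ 4) D (volume : Measure ℍ) :=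
      Surf.integrableOn_of_invariant hD hK ((hc _).pow 4) fun γ hγ z => by
        rw [hφ.invariant _ γ hγ]
    have i5 : IntegrableOn (fun z => Real.exp (2 * ρ z) * φ (t n) z ^ 4) D
        (volume : Measure ℍ) :=
      Surf.integrableOn_of_invariant hD hK
        ((Real.continuous_exp.comp (continuous_const.mul hρ)).mul ((hc _).pow 4))
        fun γ hγ z => by rw [hφ.invariant _ γ hγ, hF.inv γ hγ]
    refine integral_mono (i4.const_mul _) i5 fun z => ?_
    refine mul_le_mul_of_nonneg_right ?_ (by positivity)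
    refine Real.exp_le_exp.2 ?_
    have h5 := (abs_le.1 (hM z)).1
    linarith
  obtain ⟨C, hC⟩ := hbd
  obtain ⟨r, hr, u, p, L⟩ := exists_limSeqR stmtSetup stmtLim atoms hDm hD hF hpos
    (φ := fun n => φ (t n)) (m := fun n => m (t n)) (reig_comp hφ ht.tendsto_atTop)
    (fun n => hsm _) hC
  have G := L.good hD hK
  -- the weak limit of the squares is the density of the measure
  have hSc' : Semiclassical ρ (fun n => φ (t (r n))) (fun n => m (t (r n)))
      ((Berry.area ρ) ⊗ₘ s) :=
    ⟨hSc.fin, fun j k ζ a b c => (hSc.lim j k ζ a b c).comp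
      (ht.tendsto_atTop.comp hr.tendsto_atTop)⟩
  have hu0 : ∀ᵐ z : ℍ, u 0 z = (((s z univ).toReal : ℝ) : ℂ) := by
    refine density hρ s hs hSc.fin (L.loc 0) fun ζ hζ => ?_
    have h3 := h1 ρ _ _ _ hF.smooth L.set hSc' 0 0 ζ hζ
    have h4 := (L.set.lim_zero L.loc L.lim 0).test hζ
    have h5 := tendsto_nhds_unique h4 h3
    rw [h5]
    simp
  have hpq : ∀ᵐ z : ℍ, p z = (s z univ).toReal := by
    filter_upwards [hu0, L.pae] with z h2 h3
    rw [h3, h2, Complex.ofReal_re]
  have hrav : rAvg ρ D (fun z => w z * (s z univ).toReal ^ 2)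
      = rAvg ρ D (fun z => w z * p z ^ 2) := by
    unfold rAvg
    refine integral_congr_ae ?_
    have h2 : ProbabilityTheory.cond (Berry.area ρ) D ≪ (volume : Measure ℍ) :=
      ProbabilityTheory.cond_absolutelyContinuous.trans (by
        unfold Berry.area
        exact withDensity_absolutelyContinuous _ _)
    filter_upwards [h2.ae_le hpq] with z hz
    rw [hz]
  have h6 := G.four (fun z => Real.exp (2 * ρ z) * w z)
    ((Real.continuous_exp.comp (continuous_const.mul hρ)).mul hw)
    (fun z => mul_nonneg (Real.exp_pos _).le (hw0 z))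
    (fun γ hγ z => by rw [hF.inv γ hγ, hwi γ hγ]) (ε / A) (by positivity)
  obtain ⟨n, hn⟩ := h6.exists
  have h7 := htn (r n)
  rw [hrav, hAeq, hAeq] at h7
  simp only [mul_assoc] at hn
  have h8 := mul_le_mul_of_nonneg_left hn hA.le
  have h9 : A * (ε / A) = ε := by field_simp
  rw [mul_sub, h9] at h8
  linarith

end NFP
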