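import Pool.Agent.NFP.StU
import Pool.Agent.BWM.C41

/-!
# SEMU: the limits of the products of two jets are the moments of the semiclassical measure
-/

open Complex MeasureTheory Filter Topology Set
open UpperHalfPlane hiding I
open scoped ContDiff MatrixGroups

namespace NFP

open QE QE.NC QJ U3

noncomputable section

namespace SEMU

variable {ρ : ℍ → ℝ} {V : Set ℂ} {σ : ℂ → ℝ} {h : ℕ → ℝ} {φ' : ℕ → ℂ → ℂ}
  {μ : Measure (ℍ × S1)}

/-- the moments of the measure -/
def Mo (σ : ℂ → ℝ) (μ : Measure (ℍ × S1)) (k : ℤ) (ζ : ℂ → ℂ) : ℂ :=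
  ∫ p : ℍ × S1, ζ p.1 * ((Real.exp (-(2 * σ p.1)) : ℝ) : ℂ)
    * (Complex.I * (starRingEnd ℂ) (p.2 : ℂ)) ^ k ∂μ

/-- integrals with respect to the area as integrals in the plane -/
lemma int_area (hρ : ContDiffOn ℝ ∞ (ro ρ) UH) (F : ℂ → ℂ) :
    ∫ z : ℍ, F z ∂(Berry.area ρ) = ∫ z in UH, F z * (gr ρ z : ℂ) := by
  have hc : Continuous ρ := QE.continuous_of_smooth hρ
  have hm : Measurable fun z : ℍ => ENNReal.ofReal (Real.exp (2 * ρ z)) :=
    ENNReal.measurable_ofReal.comp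
      (Real.measurable_exp.comp (measurable_const.mul hc.measurable))
  unfold Berry.area
  rw [integral_withDensity_eq_integral_toReal_smul hm (ae_of_all _ fun z => ENNReal.ofReal_lt_top)]
  have h1 : ∀ z : ℍ, (ENNReal.ofReal (Real.exp (2 * ρ z))).toReal • F z
      = (fun w : ℂ => ((Real.exp (2 * ρ (ofComplex w)) : ℝ) : ℂ) * F w) z := by
    intro z
    rw [ENNReal.toReal_ofReal (Real.exp_pos _).le, Complex.real_smul]
    simp only [ofComplex_apply]
  simp_rw [h1]
  rw [QE.integral_uhp (fun w : ℂ => ((Real.exp (2 * ρ (ofComplex w)) : ℝ) : ℂ) * F w)]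
  refine integral_congr_ae (ae_of_all _ fun z => ?_)
  simp only [gr]
  push_cast
  ring

lemma zero_off {ζ : ℂ → ℂ} (hζ : Test V ζ) {z : ℂ} (hz : z ∉ V) : ζ z = 0 :=
  image_eq_zero_of_notMem_tsupport fun hh => hz (hζ.sub hh)

lemma ex_two {z : ℂ} (he : Real.exp (2 * σ z) = gr ρ z) : ex σ (-2) z * (gr ρ z : ℂ) = 1 := by
  unfold ex
  rw [← he, ← Complex.ofReal_mul, ← Real.exp_add]
  push_cast
  simp

/-- integrals against test functions -/
lemma int_test (hρ : ContDiffOn ℝ ∞ (ro ρ) UH) (hVU : V ⊆ UH)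
    (he : ∀ z ∈ V, Real.exp (2 * σ z) = gr ρ z) {ζ : ℂ → ℂ} (hζ : Test V ζ) (f : ℂ → ℂ) :
    ∫ z : ℍ, (ζ z * ex σ (-2) z) * f z ∂(Berry.area ρ) = ∫ z, ζ z * f z := by
  rw [int_area hρ (fun z => (ζ z * ex σ (-2) z) * f z)]
  have h1 : ∫ z in UH, ζ z * f z = ∫ z, ζ z * f z := by
    apply setIntegral_eq_integral_of_forall_compl_eq_zero
    intro z hz
    rw [zero_off hζ fun hh => hz (hVU hh), zero_mul]
  rw [← h1]
  refine integral_congr_ae (ae_of_all _ fun z => ?_)
  simp only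
  by_cases hz : z ∈ V
  · have h2 := ex_two (he z hz)
    linear_combination (ζ z * f z) * h2
  · rw [zero_off hζ hz]
    ring

/-- the symbol -/
def sy (ρ : ℍ → ℝ) (j k : ℕ) (p : ℍ × S1) : ℂ :=
  (((Real.exp (ρ p.1) / p.1.im * (p.2 : ℂ).re) ^ j
    * (Real.exp (ρ p.1) / p.1.im * (p.2 : ℂ).im) ^ k : ℝ) : ℂ)

lemma test_ex {ζ : ℂ → ℂ} (hσ : ContDiff ℝ ∞ σ) (hζ : Test V ζ) (k : ℤ) :
    Test V (fun z => ζ z * ex σ k z) :=
  QJ.test_mul hζ (contDiff_ex hσ k)

/-- the limits of the monomials -/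
lemma lim_mono {φ : ℕ → ℍ → ℝ} {m : ℕ → ℝ} (hρ : ContDiffOn ℝ ∞ (ro ρ) UH)
    (S : Semiclassical ρ φ m μ)
    (A : Agree V UH (gr ρ) (fun n => 1 / m n) (fun n z => (φ n (ofComplex z) : ℂ)) σ φ')
    {ζ : ℂ → ℂ} (hζ : Test V ζ) (j k : ℕ) :
    Tendsto (fun n => ∫ z, ζ z * (mono (1 / m n) (φ' n) j k z * φ' n z)) atTop
      (𝓝 (∫ p : ℍ × S1, (ζ p.1 * ex σ (-2) p.1) * sy ρ j k p ∂μ)) := by
  have hT := test_ex A.loc.sm hζ (-2)
  have h1 := S.lim j k (fun z => ζ z * ex σ (-2) z) hT.smooth hT.supp (hT.sub.trans A.sub)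
  refine h1.congr fun n => ?_
  rw [← int_test hρ A.sub A.eg hζ (fun z => mono (1 / m n) (φ' n) j k z * φ' n z)]
  refine integral_congr_ae (ae_of_all _ fun z => ?_)
  simp only
  by_cases hz : (z : ℂ) ∈ V
  · have e1 : mono (1 / m n) (φ' n) j k (z : ℂ)
        = (hD (1 / m n) 1)^[j] ((hD (1 / m n) Complex.I)^[k]
          (fun w => (φ n (ofComplex w) : ℂ))) z := by
      unfold mono
      exact hD_iterate_congr_on A.op (1 / m n) 1
        (hD_iterate_congr_on A.op (1 / m n) Complex.I (A.eφ n) k) j z hz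
    have e2 : φ' n (z : ℂ) = (φ n z : ℂ) := by
      rw [A.eφ n z hz, ofComplex_apply]
    rw [e1, e2]
  · rw [zero_off hζ hz]
    simp

/-- continuous functions on the space of directions, supported over a compact set, are integrable -/
lemma integ (hfin : ∀ K : Set ℍ, IsCompact K → μ (K ×ˢ univ) < ⊤) {ζ : ℂ → ℂ} (hζ : Test UH ζ)
    {F : ℍ × S1 → ℂ} (hF : Continuous F) :
    Integrable (fun p : ℍ × S1 => ζ p.1 * F p) μ := by
  set K : Set ℍ := UpperHalfPlane.coe ⁻¹' tsupport ζ with hK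
  have hKc : IsCompact K := by
    have h1 : IsCompact (UpperHalfPlane.coe '' K) := by
      have h2 : UpperHalfPlane.coe '' K = tsupport ζ := by
        rw [hK, image_preimage_eq_iff, QE.range_coe_eq]
        exact hζ.sub
      rw [h2]
      exact hζ.supp
    exact (UpperHalfPlane.isOpenEmbedding_coe.isInducing.isCompact_iff).2 h1
  have hKS : IsCompact (K ×ˢ (univ : Set S1)) := hKc.prod isCompact_univ
  have hc : Continuous fun p : ℍ × S1 => ζ p.1 * F p :=
    (hζ.smooth.continuous.comp (UpperHalfPlane.continuous_coe.comp continuous_fst)).mul hF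
  obtain ⟨C, hC⟩ := hKS.exists_bound_of_continuousOn hc.continuousOn
  have hsub : Function.support (fun p : ℍ × S1 => ζ p.1 * F p) ⊆ K ×ˢ (univ : Set S1) := by
    intro p hp
    refine ⟨?_, mem_univ _⟩
    show (p.1 : ℂ) ∈ tsupport ζ
    apply subset_tsupport
    intro h0
    apply hp
    show ζ (p.1 : ℂ) * F p = 0
    rw [h0, zero_mul]
  rw [← integrableOn_iff_integrable_of_support_subset hsub]
  refine Measure.integrableOn_of_bounded (hfin K hKc).ne hc.aestronglyMeasurable (M := C) ?_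
  have hms : MeasurableSet (K ×ˢ (univ : Set S1)) := hKc.measurableSet.prod MeasurableSet.univ
  filter_upwards [ae_restrict_mem hms] with p hp
  exact hC p hp

lemma cont_sy (hρ : ContDiffOn ℝ ∞ (ro ρ) UH) (j k : ℕ) : Continuous (sy ρ j k) := by
  have hc : Continuous ρ := QE.continuous_of_smooth hρ
  have h1 : Continuous fun p : ℍ × S1 => Real.exp (ρ p.1) / p.1.im :=
    (Real.continuous_exp.comp (hc.comp continuous_fst)).div
      (UpperHalfPlane.continuous_im.comp continuous_fst) fun p => p.1.im_pos.ne'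
  have h2 : Continuous fun p : ℍ × S1 => ((p.2 : S1) : ℂ) :=
    continuous_subtype_val.comp continuous_snd
  unfold sy
  exact Complex.continuous_ofReal.comp
    (((h1.mul (Complex.continuous_re.comp h2)).pow j).mul
      ((h1.mul (Complex.continuous_im.comp h2)).pow k))

/-- the conformal factor -/
lemma exp_sig {z : ℍ} (he : Real.exp (2 * σ z) = gr ρ z) :
    Real.exp (ρ z) / z.im = Real.exp (σ z) := by
  have h1 : (Real.exp (ρ z) / z.im) ^ 2 = Real.exp (σ z) ^ 2 := by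
    rw [← Real.exp_nat_mul, div_pow, ← Real.exp_nat_mul]
    push_cast
    rw [he]
    simp [gr]
  exact (sq_eq_sq₀ (div_nonneg (Real.exp_pos _).le z.im_pos.le) (Real.exp_pos _).le).1 h1

/-- the binomial expansion of the symbol -/
lemma sum_sy {a : ℕ} {p : ℍ × S1} (he : Real.exp (2 * σ p.1) = gr ρ p.1) :
    ∑ b ∈ Finset.HasAntidiagonal.antidiagonal a, ((a.choose b.1 : ℕ) * Complex.I ^ b.1) * sy ρ b.1 b.2 p
      = ex σ a p.1 * (Complex.I * (starRingEnd ℂ) (p.2 : ℂ)) ^ a := by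
  have h1 : ∀ j k : ℕ, sy ρ j k p = ((Real.exp (σ p.1) : ℝ) : ℂ) ^ (j + k)
      * (((p.2 : ℂ).re : ℂ) ^ j * ((p.2 : ℂ).im : ℂ) ^ k) := by
    intro j k
    unfold sy
    rw [exp_sig he]
    push_cast
    rw [mul_pow, mul_pow, pow_add]
    ring
  have h2 : Complex.I * (starRingEnd ℂ) (p.2 : ℂ)
      = Complex.I * ((p.2 : ℂ).re : ℂ) + ((p.2 : ℂ).im : ℂ) := by
    have h3 : (starRingEnd ℂ) (p.2 : ℂ) = ((p.2 : ℂ).re : ℂ) - ((p.2 : ℂ).im : ℂ) * Complex.I := by
      apply Complex.ext <;> simp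
    rw [h3]
    linear_combination (-((p.2 : ℂ).im : ℂ)) * Complex.I_sq
  have h4 : ex σ a p.1 = ((Real.exp (σ p.1) : ℝ) : ℂ) ^ a := by
    unfold ex
    rw [← Complex.ofReal_pow, ← Real.exp_nat_mul]
    push_cast
    rfl
  rw [h2, h4, add_pow, Finset.Nat.sum_antidiagonal_eq_sum_range_succ_mk, Finset.mul_sum]
  refine Finset.sum_congr rfl fun i hi => ?_
  have hi' : i + (a - i) = a := by
    have := Finset.mem_range.mp hi
    omega
  simp only
  rw [h1, hi']
  ring

lemma contOn_mono {f : ℂ → ℂ} (hf : ContDiff ℝ ∞ f) (t : ℝ) (j k : ℕ) : Continuous (mono t f j k) := by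
  have h1 := contDiffOn_mono isOpen_univ t hf.contDiffOn j k
  rw [contDiffOn_univ] at h1
  exact h1.continuous

/-- the moments with `a ≥ 0` -/
lemma lim_nat {φ : ℕ → ℍ → ℝ} {m : ℕ → ℝ} (hρ : ContDiffOn ℝ ∞ (ro ρ) UH)
    (S : Semiclassical ρ φ m μ)
    (A : Agree V UH (gr ρ) (fun n => 1 / m n) (fun n z => (φ n (ofComplex z) : ℂ)) σ φ')
    {ζ : ℂ → ℂ} (hζ : Test V ζ) (a : ℕ) :
    Tendsto (fun n => ∫ z, ζ z * (QJ.E σ (fun n => 1 / m n) φ' a n z
      * QJ.E σ (fun n => 1 / m n) φ' 0 n z)) atTop (𝓝 (Mo σ μ a ζ)) := by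
  set h : ℕ → ℝ := fun n => 1 / m n with hh
  have L := A.loc
  obtain ⟨B, hB, hW⟩ := U3.jetW V σ h φ' L a 0
  have hT := test_ex L.sm hζ (-a)
  -- the expansion of the jet
  have hexp : ∀ n, ∀ z, ζ z * (QJ.E σ h φ' a n z * QJ.E σ h φ' 0 n z)
      = (∑ b ∈ Finset.HasAntidiagonal.antidiagonal a, ((a.choose b.1 : ℕ) * Complex.I ^ b.1)
          * ((ζ z * ex σ (-a) z) * (mono (1 / m n) (φ' n) b.1 b.2 z * φ' n z)))
        - 2 ^ a * ((h n : ℂ) * (ζ z * (B n z * φ' n z))) := by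
    intro n z
    by_cases hz : z ∈ V
    · have h1 := hW n z hz
      have h2 := (dz_iterate_eq L.op (h n) (L.smφ n).contDiffOn a).2 z hz
      have h3 : W h φ' a 0 n z = ∑ b ∈ Finset.HasAntidiagonal.antidiagonal a,
          ((1 / 2) ^ a * ((a.choose b.1 : ℕ) * Complex.I ^ b.1))
            * mono (h n) (φ' n) b.1 b.2 z := by
        rw [← h2]
        simp [W]
      have h4 : (2 : ℂ)⁻¹ ^ a * 2 ^ a = 1 := by
        rw [← mul_pow]
        norm_num
      have h5 : QJ.E σ h φ' a n z = 2 ^ a * (ex σ (-a) z * W h φ' a 0 n z)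
          - 2 ^ a * ((h n : ℂ) * B n z) := by
        simp only [Nat.cast_zero, add_zero, pow_zero, mul_one, sub_zero] at h1
        linear_combination (-(2 : ℂ) ^ a) * h1 - QJ.E σ h φ' a n z * h4
      have h6 : QJ.E σ h φ' 0 n z = φ' n z := rfl
      have h7 : 2 ^ a * W h φ' a 0 n z = ∑ b ∈ Finset.HasAntidiagonal.antidiagonal a,
          ((a.choose b.1 : ℕ) * Complex.I ^ b.1) * mono (h n) (φ' n) b.1 b.2 z := by
        rw [h3, Finset.mul_sum]
        refine Finset.sum_congr rfl fun b _ => ?_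
        rw [one_div]
        linear_combination (((a.choose b.1 : ℕ) * Complex.I ^ b.1)
            * mono (h n) (φ' n) b.1 b.2 z) * h4
      have h8 : ∑ b ∈ Finset.HasAntidiagonal.antidiagonal a, ((a.choose b.1 : ℕ) * Complex.I ^ b.1)
          * ((ζ z * ex σ (-a) z) * (mono (1 / m n) (φ' n) b.1 b.2 z * φ' n z))
          = (ζ z * ex σ (-a) z * φ' n z) * (2 ^ a * W h φ' a 0 n z) := by
        rw [h7, Finset.mul_sum]
        refine Finset.sum_congr rfl fun b _ => ?_
        ring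
      rw [h8, h5, h6]
      ring
    · rw [zero_off hζ hz]
      simp
  have hint1 : ∀ n (b : ℕ × ℕ), Integrable (fun z => (ζ z * ex σ (-a) z)
      * (mono (1 / m n) (φ' n) b.1 b.2 z * φ' n z)) := fun n b =>
    hT.integrable_mul L.op
      ((contOn_mono (L.smφ n) _ b.1 b.2).mul (L.smφ n).continuous).continuousOn
  have hint2 : ∀ n, Integrable (fun z => ζ z * (B n z * φ' n z)) := fun n =>
    hζ.integrable_mul L.op (((hB.smooth n).continuous).mul (L.smφ n).continuous).continuousOn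
  have hexp2 : ∀ n, ∫ z, ζ z * (QJ.E σ h φ' a n z * QJ.E σ h φ' 0 n z)
      = (∑ b ∈ Finset.HasAntidiagonal.antidiagonal a, ((a.choose b.1 : ℕ) * Complex.I ^ b.1)
          * ∫ z, (ζ z * ex σ (-a) z) * (mono (1 / m n) (φ' n) b.1 b.2 z * φ' n z))
        - 2 ^ a * ((h n : ℂ) * ∫ z, ζ z * (B n z * φ' n z)) := by
    intro n
    simp only [hexp n]
    rw [integral_sub]
    · rw [integral_finsetSum _ fun b _ => (hint1 n b).const_mul _]
      simp only [integral_const_mul]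
    · exact integrable_finsetSum _ fun b _ => (hint1 n b).const_mul _
    · exact ((hint2 n).const_mul _).const_mul _
  -- the error term
  have herr : Tendsto (fun n => (h n : ℂ) * ∫ z, ζ z * (B n z * φ' n z)) atTop (𝓝 0) := by
    have hG := U3.groA V σ h φ' L
    have dφ : Dom V h φ' 1 φ' := Dom.phi L.smφ L.op
    have dB : Dom V h φ' 2 (fun n z => B n z * φ' n z) := hB.mul L.op dφ
    have zB := (U3.stmtIntA V h φ' _ L.hpos L.hlim L.smφ hG dB.smooth).2.2.1
      (dB.mono (by norm_num : 2 ≤ 3)).bq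
    exact IBP.lim_test L.hpos dB.smooth zB hζ
  have hlim : Tendsto (fun n => (∑ b ∈ Finset.HasAntidiagonal.antidiagonal a,
        ((a.choose b.1 : ℕ) * Complex.I ^ b.1)
          * ∫ z, (ζ z * ex σ (-a) z) * (mono (1 / m n) (φ' n) b.1 b.2 z * φ' n z))
        - 2 ^ a * ((h n : ℂ) * ∫ z, ζ z * (B n z * φ' n z))) atTop
      (𝓝 ((∑ b ∈ Finset.HasAntidiagonal.antidiagonal a, ((a.choose b.1 : ℕ) * Complex.I ^ b.1)
          * ∫ p : ℍ × S1, ((ζ p.1 * ex σ (-a) p.1) * ex σ (-2) p.1) * sy ρ b.1 b.2 p ∂μ)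
        - 2 ^ a * 0)) := by
    refine (tendsto_finsetSum _ fun b _ => ?_).sub (herr.const_mul _)
    exact (lim_mono hρ S A hT b.1 b.2).const_mul _
  have hval : (∑ b ∈ Finset.HasAntidiagonal.antidiagonal a, ((a.choose b.1 : ℕ) * Complex.I ^ b.1)
          * ∫ p : ℍ × S1, ((ζ p.1 * ex σ (-a) p.1) * ex σ (-2) p.1) * sy ρ b.1 b.2 p ∂μ)
        - 2 ^ a * 0 = Mo σ μ a ζ := by
    have hT2 : Test UH (fun z => (ζ z * ex σ (-a) z) * ex σ (-2) z) :=
      (test_ex L.sm hT (-2)).mono A.sub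
    rw [mul_zero, sub_zero]
    simp only [← integral_const_mul]
    rw [← integral_finsetSum]
    · unfold Mo
      refine integral_congr_ae (ae_of_all _ fun p => ?_)
      simp only
      by_cases hz : (p.1 : ℂ) ∈ V
      · have h1 := sum_sy (a := a) (p := p) (A.eg _ hz)
        have h2 : ∑ b ∈ Finset.HasAntidiagonal.antidiagonal a, ((a.choose b.1 : ℕ) * Complex.I ^ b.1)
            * (((ζ p.1 * ex σ (-a) p.1) * ex σ (-2) p.1) * sy ρ b.1 b.2 p)
            = ((ζ p.1 * ex σ (-a) p.1) * ex σ (-2) p.1)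
              * ∑ b ∈ Finset.HasAntidiagonal.antidiagonal a,
                ((a.choose b.1 : ℕ) * Complex.I ^ b.1) * sy ρ b.1 b.2 p := by
          rw [Finset.mul_sum]
          refine Finset.sum_congr rfl fun b _ => ?_
          ring
        rw [h2, h1]
        have h3 : ex σ (-a) p.1 * ex σ a p.1 = 1 := by
          rw [ex_mul, neg_add_cancel, ex_zero]
        have h4 : ex σ (-2) p.1 = ((Real.exp (-(2 * σ p.1)) : ℝ) : ℂ) := by
          unfold ex
          congr 2
          push_cast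
          ring
        rw [zpow_natCast, ← h4]
        linear_combination (ζ p.1 * ex σ (-2) p.1
          * (Complex.I * (starRingEnd ℂ) (p.2 : ℂ)) ^ a) * h3
      · rw [zero_off hζ hz]
        simp
    · intro b _
      exact (integ S.fin hT2 (cont_sy hρ b.1 b.2)).const_mul _
  rw [hval] at hlim
  exact hlim.congr fun n => (hexp2 n).symm

/-- complex conjugation of the moments -/
lemma conj_Mo (a : ℕ) (ζ : ℂ → ℂ) :
    (starRingEnd ℂ) (Mo σ μ a (fun z => (starRingEnd ℂ) (ζ z))) = Mo σ μ (-a) ζ := by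
  unfold Mo
  rw [← integral_conj]
  refine integral_congr_ae (ae_of_all _ fun p => ?_)
  simp only [map_mul, Complex.conj_conj, Complex.conj_ofReal, Complex.conj_I, zpow_natCast,
    map_pow]
  have h1 : (p.2 : ℂ) * (starRingEnd ℂ) (p.2 : ℂ) = 1 := by
    rw [Complex.mul_conj, Complex.normSq_eq_norm_sq, norm_eq_of_mem_sphere p.2]
    norm_num
  have h2 : -Complex.I * (p.2 : ℂ) = (Complex.I * (starRingEnd ℂ) (p.2 : ℂ))⁻¹ := by
    apply eq_inv_of_mul_eq_one_left
    linear_combination (-Complex.I ^ 2) * h1 - Complex.I_sq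
  rw [h2, zpow_neg, zpow_natCast, inv_pow]

/-- the moments with `a ≤ 0` -/
lemma lim_neg {φ : ℕ → ℍ → ℝ} {m : ℕ → ℝ} (hρ : ContDiffOn ℝ ∞ (ro ρ) UH)
    (S : Semiclassical ρ φ m μ)
    (A : Agree V UH (gr ρ) (fun n => 1 / m n) (fun n z => (φ n (ofComplex z) : ℂ)) σ φ')
    {ζ : ℂ → ℂ} (hζ : Test V ζ) (a : ℕ) :
    Tendsto (fun n => ∫ z, ζ z * (QJ.E σ (fun n => 1 / m n) φ' (-a) n z
      * QJ.E σ (fun n => 1 / m n) φ' 0 n z)) atTop (𝓝 ((-1) ^ a * Mo σ μ (-a) ζ)) := by
  have L := A.loc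
  have h1 := lim_nat hρ S A hζ.conj a
  have h2 := ((Complex.continuous_conj.tendsto _).comp h1).const_mul ((-1 : ℂ) ^ a)
  rw [conj_Mo] at h2
  refine h2.congr fun n => ?_
  simp only [Function.comp_apply]
  rw [← integral_conj, ← integral_const_mul]
  refine integral_congr_ae (ae_of_all _ fun z => ?_)
  simp only [map_mul, Complex.conj_conj]
  rw [WGA.conj_E L, WGA.conj_E L, zpow_natCast, zpow_zero, neg_zero]
  have h3 : ((-1 : ℂ) ^ a) * (-1) ^ a = 1 := by
    rw [← mul_pow]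
    norm_num
  linear_combination (ζ z * (QJ.E σ (fun n => 1 / m n) φ' (-a) n z
    * QJ.E σ (fun n => 1 / m n) φ' 0 n z)) * h3

end SEMU

open SEMU in
theorem semU : StmtSemU := by
  intro ρ φ m μ hρ H S V σ φ' A j l ζ hζ
  have L := A.loc
  set h : ℕ → ℝ := fun n => 1 / m n with hh
  have hrel : ∀ j l : ℤ, Tendsto (fun n => (∫ z, ζ z * (QJ.E σ h φ' (j + 1) n z * QJ.E σ h φ' l n z))
      + ∫ z, ζ z * (QJ.E σ h φ' j n z * QJ.E σ h φ' (l + 1) n z)) atTop (𝓝 0) :=
    fun j l => WGA.rel U3.groA U3.stmtIntA U3.stmtIbpA U3.stmtJetC L hζ j l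
  -- the moments up to signs
  obtain ⟨P, hP0, hP1, hP⟩ : ∃ P : ℤ → ℂ, (∀ k : ℤ, 0 ≤ k → P k = Mo σ μ k ζ) ∧
      (∀ k : ℤ, k ≤ 0 → P k = (-1) ^ k * Mo σ μ k ζ) ∧ ∀ k : ℤ,
      Tendsto (fun n => ∫ z, ζ z * (QJ.E σ h φ' k n z * QJ.E σ h φ' 0 n z)) atTop (𝓝 (P k)) := by
    refine ⟨fun k => if 0 ≤ k then Mo σ μ k ζ else (-1) ^ k * Mo σ μ k ζ, ?_, ?_, ?_⟩
    · intro k hk
      exact if_pos hk
    · intro k hk
      by_cases h0 : 0 ≤ k
      · have h1 : k = 0 := le_antisymm hk h0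
        subst h1
        simp
      · exact if_neg h0
    · intro k
      by_cases h0 : 0 ≤ k
      · obtain ⟨a, rfl⟩ := Int.eq_ofNat_of_zero_le h0
        simp only [h0, if_true]
        exact lim_nat hρ S A hζ a
      · obtain ⟨a, ha⟩ := Int.eq_ofNat_of_zero_le (show 0 ≤ -k by omega)
        have hk : k = -(a : ℤ) := by omega
        subst hk
        simp only [h0, if_false]
        have h1 := lim_neg hρ S A hζ a
        have h2 : (-1 : ℂ) ^ (-(a : ℤ)) = (-1) ^ a := by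
          rw [zpow_neg, zpow_natCast, ← inv_pow]
          norm_num
        rw [h2]
        exact h1
  -- all the products
  have key : ∀ (l j : ℤ), Tendsto (fun n => ∫ z, ζ z * (QJ.E σ h φ' j n z * QJ.E σ h φ' l n z))
      atTop (𝓝 ((-1) ^ l * P (j + l))) := by
    intro l
    induction l using Int.induction_on with
    | zero =>
      intro j
      rw [zpow_zero, one_mul, add_zero]
      exact hP j
    | succ l ih =>
      intro j
      have h1 := (hrel j l).sub (ih (j + 1))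
      have e1 : (0 : ℂ) - (-1) ^ (l : ℤ) * P (j + 1 + l)
          = (-1) ^ ((l : ℤ) + 1) * P (j + ((l : ℤ) + 1)) := by
        rw [zpow_add_one₀ (by norm_num), show j + 1 + (l : ℤ) = j + ((l : ℤ) + 1) by ring]
        ring
      rw [e1] at h1
      refine h1.congr fun n => ?_
      ring
    | pred l ih =>
      intro j
      have h1 := (hrel (j - 1) (-l - 1)).sub (ih (j - 1))
      rw [sub_add_cancel, sub_add_cancel] at h1
      have e1 : (0 : ℂ) - (-1) ^ (-(l : ℤ)) * P (j - 1 + -(l : ℤ))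
          = (-1) ^ (-(l : ℤ) - 1) * P (j + (-(l : ℤ) - 1)) := by
        rw [zpow_sub_one₀ (by norm_num), show j - 1 + -(l : ℤ) = j + (-(l : ℤ) - 1) by ring]
        norm_num
      rw [e1] at h1
      refine h1.congr fun n => ?_
      ring
  -- the signs
  have hsym : ∀ k : ℤ, P k = (-1) ^ k * P k := by
    intro k
    have h1 := key k 0
    rw [zero_add] at h1
    have h2 := hP k
    refine tendsto_nhds_unique h2 (h1.congr fun n => ?_)
    congr 1
    funext z
    ring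
  have hPM : ∀ k : ℤ, P k = Mo σ μ k ζ := by
    intro k
    rcases le_total 0 k with hk | hk
    · exact hP0 k hk
    · have h1 := hsym k
      rw [hP1 k hk] at h1
      rw [hP1 k hk, h1, ← mul_assoc, ← mul_zpow]
      norm_num
  have h1 := key l j
  rw [hPM] at h1
  exact h1

end

end NFP
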