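import Pool.Agent.NFP.StU
import Pool.Agent.BWM.C41

/-!
# A measure with the moments of the jets is the semiclassical measure (module USEM)
-/

open MeasureTheory Filter Topology Set
open UpperHalfPlane hiding I
open scoped ContDiff MatrixGroups NNReal

namespace NFP

open QE QE.NC QJ U3

noncomputable section

namespace USEM

/-! ### representation of the semiclassical monomials by the rescaled Wirtinger derivatives -/

lemma hD_one_eq (h : ℝ) (f : ℂ → ℂ) (z : ℂ) :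
    hD h 1 f z = -Complex.I * ((h : ℂ) * dz f z + (h : ℂ) * dzb f z) := by
  unfold hD dz dzb
  ring

lemma hD_I_eq (h : ℝ) (f : ℂ → ℂ) (z : ℂ) :
    hD h Complex.I f z = (h : ℂ) * dz f z - (h : ℂ) * dzb f z := by
  unfold hD dz dzb
  ring

lemma rep (h : ℕ → ℝ) (φ : ℕ → ℂ → ℂ) (hφ : ∀ n, ContDiff ℝ ∞ (φ n)) (j k : ℕ) :
    ∃ (ι : Type) (_ : Fintype ι) (c : ι → ℂ) (a b : ι → ℕ),
      (∀ n z, (hD (h n) 1)^[j] ((hD (h n) Complex.I)^[k] (φ n)) z = ∑ i, c i * W h φ (a i) (b i) n z) ∧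
      ∀ X Y : ℂ, (-Complex.I * (X + Y)) ^ j * (X - Y) ^ k = ∑ i, c i * (X ^ a i * Y ^ b i) := by
  have hsum : ∀ (v : ℂ) (ι : Type) (_ : Fintype ι) (c : ι → ℂ) (a b : ι → ℕ) (n : ℕ) (z : ℂ),
      hD (h n) v (fun w => ∑ i, c i * W h φ (a i) (b i) n w) z
        = ∑ i, c i * hD (h n) v (W h φ (a i) (b i) n) z := by
    intro v ι _ c a b n z
    exact hD_sum isOpen_univ (h n) v Finset.univ c (fun i => W h φ (a i) (b i) n)
      (fun i _ => (contDiff_W hφ (a i) (b i) n).contDiffOn) z (mem_univ z)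
  induction j with
  | zero =>
    induction k with
    | zero =>
      refine ⟨Unit, inferInstance, fun _ => 1, fun _ => 0, fun _ => 0, fun n z => ?_, fun X Y => ?_⟩
      · simp [W]
      · simp
    | succ k ih =>
      obtain ⟨ι, _, c, a, b, h1, h2⟩ := ih
      refine ⟨ι × Bool, inferInstance, fun p => if p.2 then c p.1 else -c p.1,
        fun p => if p.2 then a p.1 + 1 else a p.1, fun p => if p.2 then b p.1 else b p.1 + 1,
        fun n z => ?_, fun X Y => ?_⟩
      · simp only [Function.iterate_zero, id_eq] at h1 ⊢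
        rw [Function.iterate_succ_apply']
        have e : (hD (h n) Complex.I)^[k] (φ n) = fun w => ∑ i, c i * W h φ (a i) (b i) n w :=
          funext fun w => h1 n w
        rw [e, hsum, Fintype.sum_prod_type]
        refine Finset.sum_congr rfl fun i _ => ?_
        simp only [Fintype.sum_bool, if_true, Bool.false_eq_true, if_false]
        rw [hD_I_eq, hdz_W hφ, hdzb_W hφ]
        ring
      · have e : (-Complex.I * (X + Y)) ^ 0 * (X - Y) ^ (k + 1)
            = (X - Y) * ((-Complex.I * (X + Y)) ^ 0 * (X - Y) ^ k) := by ring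
        rw [e, h2, Finset.mul_sum, Fintype.sum_prod_type]
        refine Finset.sum_congr rfl fun i _ => ?_
        simp only [Fintype.sum_bool, if_true, Bool.false_eq_true, if_false]
        ring
  | succ j ih =>
    obtain ⟨ι, _, c, a, b, h1, h2⟩ := ih
    refine ⟨ι × Bool, inferInstance, fun p => -Complex.I * c p.1,
      fun p => if p.2 then a p.1 + 1 else a p.1, fun p => if p.2 then b p.1 else b p.1 + 1,
      fun n z => ?_, fun X Y => ?_⟩
    · rw [Function.iterate_succ_apply']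
      have e : (hD (h n) 1)^[j] ((hD (h n) Complex.I)^[k] (φ n))
          = fun w => ∑ i, c i * W h φ (a i) (b i) n w := funext fun w => h1 n w
      rw [e, hsum, Fintype.sum_prod_type]
      refine Finset.sum_congr rfl fun i _ => ?_
      simp only [Fintype.sum_bool, if_true, Bool.false_eq_true, if_false]
      rw [hD_one_eq, hdz_W hφ, hdzb_W hφ]
      ring
    · have e : (-Complex.I * (X + Y)) ^ (j + 1) * (X - Y) ^ k
          = (-Complex.I * (X + Y)) * ((-Complex.I * (X + Y)) ^ j * (X - Y) ^ k) := by ring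
      rw [e, h2, Finset.mul_sum, Fintype.sum_prod_type]
      refine Finset.sum_congr rfl fun i _ => ?_
      simp only [Fintype.sum_bool, if_true, Bool.false_eq_true, if_false]
      ring

/-! ### integrals over the half plane -/

lemma gr_smooth {ρ : ℍ → ℝ} (hρ : ContDiffOn ℝ ∞ (ro ρ) UH) : ContDiffOn ℝ ∞ (gr ρ) UH := by
  have h1 : ContDiffOn ℝ ∞ (fun z : ℂ => Real.exp (2 * ro ρ z)) UH := (contDiffOn_const.mul hρ).exp
  have h2 : ContDiffOn ℝ ∞ (fun z : ℂ => z.im ^ 2) UH := (Complex.imCLM.contDiff.pow 2).contDiffOn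
  exact h1.div h2 fun z hz => pow_ne_zero 2 (ne_of_gt hz)

lemma gr_pos' (ρ : ℍ → ℝ) {z : ℂ} (hz : z ∈ UH) : 0 < gr ρ z :=
  div_pos (Real.exp_pos _) (pow_pos hz 2)

lemma area_int {ρ : ℍ → ℝ} (hρ : ContDiffOn ℝ ∞ (ro ρ) UH) (f : ℂ → ℂ) :
    ∫ z : ℍ, f z ∂(Berry.area ρ) = ∫ z in UH, (gr ρ z : ℂ) * f z := by
  have hcont : Continuous ρ := by
    have h1 : Continuous fun z : ℍ => ro ρ (z : ℂ) :=
      hρ.continuousOn.comp_continuous UpperHalfPlane.continuous_coe fun z => z.im_pos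
    refine h1.congr fun z => ?_
    unfold ro
    rw [ofComplex_apply]
  have hm : Measurable fun z : ℍ => ENNReal.ofReal (Real.exp (2 * ρ z)) :=
    ENNReal.measurable_ofReal.comp (Real.continuous_exp.comp (continuous_const.mul hcont)).measurable
  unfold Berry.area
  rw [integral_withDensity_eq_integral_toReal_smul hm (ae_of_all _ fun _ => ENNReal.ofReal_lt_top)]
  have h1 : ∀ z : ℍ, (ENNReal.ofReal (Real.exp (2 * ρ z))).toReal • f z
      = (fun w : ℂ => (Real.exp (2 * ρ (ofComplex w)) : ℂ) * f w) z := by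
    intro z
    rw [ENNReal.toReal_ofReal (Real.exp_pos _).le, Complex.real_smul]
    simp only [ofComplex_apply]
  rw [integral_congr_ae (ae_of_all _ h1),
    integral_uhp (fun w : ℂ => (Real.exp (2 * ρ (ofComplex w)) : ℂ) * f w)]
  have hUH : MeasurableSet UH := (isOpen_lt continuous_const Complex.continuous_im).measurableSet
  refine setIntegral_congr_fun hUH fun z hz => ?_
  unfold gr
  push_cast
  ring

/-! ### error terms -/

lemma err {V : Set ℂ} {h : ℕ → ℝ} {u : ℕ → ℂ → ℂ} (hh : ∀ n, 0 < h n) (hu : ∀ n, ContDiff ℝ ∞ (u n))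
    (hz : HZ V h u) {ζ : ℂ → ℂ} (hζ : Test V ζ) :
    Tendsto (fun n => (h n : ℂ) * ∫ z, ζ z * u n z) atTop (𝓝 0) := by
  obtain ⟨M, hM⟩ := hζ.smooth.continuous.bounded_above_of_compact_support hζ.supp
  have h1 := (hz (tsupport ζ) hζ.supp hζ.sub).const_mul M
  rw [mul_zero] at h1
  refine squeeze_zero_norm (fun n => ?_) h1
  have hcont : Continuous fun z => ζ z * u n z := hζ.smooth.continuous.mul (hu n).continuous
  rw [norm_mul, Complex.norm_real, Real.norm_of_nonneg (hh n).le]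
  have e1 : ∫ z, ζ z * u n z = ∫ z in tsupport ζ, ζ z * u n z := by
    symm
    refine setIntegral_eq_integral_of_forall_compl_eq_zero fun z hz => ?_
    rw [image_eq_zero_of_notMem_tsupport hz, zero_mul]
  have hM0 : 0 ≤ M := (norm_nonneg _).trans (hM 0)
  have e2 : ‖∫ z in tsupport ζ, ζ z * u n z‖ ≤ M * ∫ z in tsupport ζ, ‖u n z‖ := by
    rw [← integral_const_mul]
    refine norm_integral_le_of_norm_le ?_ (ae_of_all _ fun z => ?_)
    · exact ((continuous_const.mul (hu n).continuous.norm).continuousOn).integrableOn_compact hζ.supp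
    · rw [norm_mul]
      exact mul_le_mul_of_nonneg_right (hM z) (norm_nonneg _)
  rw [e1]
  calc h n * ‖∫ z in tsupport ζ, ζ z * u n z‖ ≤ h n * (M * ∫ z in tsupport ζ, ‖u n z‖) :=
        mul_le_mul_of_nonneg_left e2 (hh n).le
    _ = M * (h n * ∫ z in tsupport ζ, ‖u n z‖) := by ring

lemma ex_mul (σ : ℂ → ℝ) (k : ℤ) (z : ℂ) : ex σ k z * ex σ (-k) z = 1 := by
  unfold ex
  rw [← Complex.ofReal_mul, ← Real.exp_add]
  have : (k : ℝ) * σ z + ((-k : ℤ) : ℝ) * σ z = 0 := by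
    push_cast
    ring
  rw [this, Real.exp_zero, Complex.ofReal_one]

lemma ex_smooth {σ : ℂ → ℝ} (hσ : ContDiff ℝ ∞ σ) (k : ℤ) : ContDiff ℝ ∞ (ex σ k) :=
  Complex.ofRealCLM.contDiff.comp (contDiff_const.mul hσ).exp

/-- the limit of one term -/
lemma piece {V : Set ℂ} {σ : ℂ → ℝ} {h : ℕ → ℝ} {φ : ℕ → ℂ → ℂ} (hL : LocB V σ h φ)
    (L : ℤ → (ℂ → ℂ) → ℂ)
    (hlim : ∀ (j : ℤ) (ζ : ℂ → ℂ), Test V ζ →
      Tendsto (fun n => ∫ z, ζ z * (QJ.E σ h φ j n z * QJ.E σ h φ 0 n z)) atTop (𝓝 (L j ζ)))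
    (a b : ℕ) {ζ : ℂ → ℂ} (hζ : Test V ζ) :
    Tendsto (fun n => ∫ z, ζ z * (W h φ a b n z * φ n z)) atTop
      (𝓝 ((2 : ℂ)⁻¹ ^ (a + b) * (-1) ^ b * L ((a : ℤ) - b) (fun z => ζ z * ex σ ((a : ℤ) + b) z))) := by
  obtain ⟨A, hA, hA2⟩ := jetW V σ h φ hL a b
  have hζ' : Test V (fun z => ζ z * ex σ ((a : ℤ) + b) z) := hζ.mul hL.op (ex_smooth hL.sm _).contDiffOn
  have hG := groA V σ h φ hL
  have hsm : ∀ n, ContDiff ℝ ∞ (fun z => A n z * φ n z) := fun n => (hA.smooth n).mul (hL.smφ n)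
  have h0 : Bq V h φ 1 φ := by
    have : Bq V h φ 1 (W h φ 0 0) := fun K _ _ =>
      ⟨0, 1, Filter.Eventually.of_forall fun n z _ => by
        rw [one_mul, pow_one]; exact W_sq_le le_rfl le_rfl n z⟩
    rwa [W_zero] at this
  have hB : Bq V h φ 3 (fun n z => A n z * φ n z) := (hA.bq.mul h0).mono (by norm_num)
  have hHZ := (stmtIntA V h φ (fun n z => A n z * φ n z) hL.hpos hL.hlim hL.smφ hG hsm).2.2.1 hB
  have t1 := (hlim ((a : ℤ) - b) _ hζ').const_mul ((2 : ℂ)⁻¹ ^ (a + b) * (-1) ^ b)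
  have t2 := err hL.hpos hsm hHZ hζ'
  have t3 := t1.add t2
  rw [add_zero] at t3
  refine t3.congr fun n => ?_
  have hc1 : Continuous fun z => (ζ z * ex σ ((a : ℤ) + b) z) * (QJ.E σ h φ ((a : ℤ) - b) n z * QJ.E σ h φ 0 n z) :=
    hζ'.smooth.continuous.mul ((E3Z.contDiff_E hL.sm hL.smφ _ n).continuous.mul
      (E3Z.contDiff_E hL.sm hL.smφ _ n).continuous)
  have hc2 : Continuous fun z => (ζ z * ex σ ((a : ℤ) + b) z) * (A n z * φ n z) :=
    hζ'.smooth.continuous.mul (hsm n).continuous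
  have i1 : Integrable fun z => (ζ z * ex σ ((a : ℤ) + b) z) * (QJ.E σ h φ ((a : ℤ) - b) n z * QJ.E σ h φ 0 n z) :=
    hc1.integrable_of_hasCompactSupport hζ'.supp.mul_right
  have i2 : Integrable fun z => (ζ z * ex σ ((a : ℤ) + b) z) * (A n z * φ n z) :=
    hc2.integrable_of_hasCompactSupport hζ'.supp.mul_right
  rw [← integral_const_mul, ← integral_const_mul, ← integral_add (i1.const_mul _) (i2.const_mul _)]
  refine integral_congr_ae (ae_of_all _ fun z => ?_)
  simp only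
  by_cases hz : z ∈ V
  · have e1 := hA2 n z hz
    have e2 := ex_mul σ ((a : ℤ) + b) z
    have e3 : QJ.E σ h φ 0 n z = φ n z := rfl
    rw [e3]
    linear_combination (-(ζ z * ex σ ((a : ℤ) + b) z * φ n z)) * e1 + (ζ z * W h φ a b n z * φ n z) * e2
  · have : ζ z = 0 := by
      by_contra hne
      exact hz (hζ.sub (subset_tsupport _ hne))
    rw [this]
    ring

/-! ### the moments -/

lemma int_p {μ : Measure (ℍ × S1)} (hfin : ∀ K : Set ℍ, IsCompact K → μ (K ×ˢ univ) < ⊤)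
    {g : ℂ → ℂ} (hg : Continuous g) (hgc : HasCompactSupport g) (hgs : tsupport g ⊆ UH) (k : ℤ) :
    Integrable (fun p : ℍ × S1 => g p.1 * (Complex.I * (starRingEnd ℂ) (p.2 : ℂ)) ^ k) μ := by
  have hK : IsCompact ((fun z : ℍ => (z : ℂ)) ⁻¹' tsupport g) := by
    refine (UpperHalfPlane.isOpenEmbedding_coe.isInducing.isCompact_preimage_iff ?_).2 hgc
    rw [range_coe_eq]
    exact hgs
  have hu : ∀ w : S1, ‖Complex.I * (starRingEnd ℂ) (w : ℂ)‖ = 1 := by
    intro w
    have h1 : ‖(w : ℂ)‖ = 1 := by simp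
    rw [norm_mul, Complex.norm_I, one_mul, RCLike.norm_conj, h1]
  obtain ⟨M, hM⟩ := hg.bounded_above_of_compact_support hgc
  have hcont : Continuous fun p : ℍ × S1 => g p.1 * (Complex.I * (starRingEnd ℂ) (p.2 : ℂ)) ^ k := by
    refine (hg.comp (UpperHalfPlane.continuous_coe.comp continuous_fst)).mul ?_
    refine Continuous.zpow₀ ?_ k fun p => Or.inl ?_
    · exact continuous_const.mul (Complex.continuous_conj.comp (continuous_subtype_val.comp continuous_snd))
    · intro h0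
      have := hu p.2
      rw [h0, norm_zero] at this
      exact zero_ne_one this
  have h1 : IntegrableOn (fun p : ℍ × S1 => g p.1 * (Complex.I * (starRingEnd ℂ) (p.2 : ℂ)) ^ k)
      (((fun z : ℍ => (z : ℂ)) ⁻¹' tsupport g) ×ˢ univ) μ := by
    refine Measure.integrableOn_of_bounded (M := M) (hfin _ hK).ne hcont.aestronglyMeasurable ?_
    refine ae_of_all _ fun p => ?_
    rw [norm_mul, norm_zpow, hu, one_zpow, mul_one]
    exact hM _
  refine h1.integrable_of_forall_notMem_eq_zero fun p hp => ?_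
  have h2 : (p.1 : ℂ) ∉ tsupport g := fun h => hp ⟨h, mem_univ _⟩
  rw [image_eq_zero_of_notMem_tsupport h2, zero_mul]

/-- the symbol -/
lemma symbol {ι : Type} [Fintype ι] {c : ι → ℂ} {a b : ι → ℕ} {j k : ℕ}
    (h : ∀ X Y : ℂ, (-Complex.I * (X + Y)) ^ j * (X - Y) ^ k = ∑ i, c i * (X ^ a i * Y ^ b i))
    (w : ℂ) (hw : ‖w‖ = 1) (s : ℝ) :
    ((((Real.exp s * w.re) ^ j * (Real.exp s * w.im) ^ k : ℝ)) : ℂ)
      = ∑ i, c i * ((2 : ℂ)⁻¹ ^ (a i + b i) * (-1) ^ b i * ((Real.exp (((a i : ℝ) + b i) * s) : ℝ) : ℂ)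
        * (Complex.I * (starRingEnd ℂ) w) ^ ((a i : ℤ) - b i)) := by
  have hww : w * (starRingEnd ℂ) w = 1 := by
    rw [Complex.mul_conj, Complex.normSq_eq_norm_sq, hw]
    simp
  have hu0 : Complex.I * (starRingEnd ℂ) w ≠ 0 := by
    intro h0
    have h1 : (starRingEnd ℂ) w = 0 := (mul_eq_zero.1 h0).resolve_left Complex.I_ne_zero
    rw [h1, mul_zero] at hww
    exact zero_ne_one hww
  have hinv : (Complex.I * (starRingEnd ℂ) w)⁻¹ = -Complex.I * w := by
    refine inv_eq_of_mul_eq_one_right ?_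
    linear_combination hww - w * (starRingEnd ℂ) w * Complex.I_mul_I
  have e1 : -Complex.I * ((Real.exp s : ℂ) / 2 * (Complex.I * (starRingEnd ℂ) w)
      + -((Real.exp s : ℂ) / 2 * (Complex.I * (starRingEnd ℂ) w)⁻¹)) = ((Real.exp s * w.re : ℝ) : ℂ) := by
    rw [hinv]
    have h1 : ((w.re : ℝ) : ℂ) = (w + (starRingEnd ℂ) w) / 2 := by
      rw [Complex.add_conj]
      push_cast
      ring
    rw [Complex.ofReal_mul, h1]
    linear_combination (-((Real.exp s : ℂ) * (w + (starRingEnd ℂ) w) / 2)) * Complex.I_mul_I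
  have e2 : ((Real.exp s : ℂ) / 2 * (Complex.I * (starRingEnd ℂ) w)
      - -((Real.exp s : ℂ) / 2 * (Complex.I * (starRingEnd ℂ) w)⁻¹)) = ((Real.exp s * w.im : ℝ) : ℂ) := by
    rw [hinv]
    have h1 : (starRingEnd ℂ) w - w = -(2 * w.im * Complex.I) := by
      have h3 := Complex.sub_conj w
      push_cast at h3
      linear_combination -h3
    rw [Complex.ofReal_mul]
    have h2 : (Real.exp s : ℂ) / 2 * (Complex.I * (starRingEnd ℂ) w)
        - -((Real.exp s : ℂ) / 2 * (-Complex.I * w))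
        = (Real.exp s : ℂ) / 2 * Complex.I * ((starRingEnd ℂ) w - w) := by ring
    rw [h2, h1]
    linear_combination (-((Real.exp s : ℂ) * w.im)) * Complex.I_mul_I
  have e3 := h ((Real.exp s : ℂ) / 2 * (Complex.I * (starRingEnd ℂ) w))
    (-((Real.exp s : ℂ) / 2 * (Complex.I * (starRingEnd ℂ) w)⁻¹))
  rw [e1, e2] at e3
  rw [Complex.ofReal_mul, Complex.ofReal_pow, Complex.ofReal_pow, e3]
  refine Finset.sum_congr rfl fun i _ => ?_
  congr 1
  have e4 : ((Real.exp (((a i : ℝ) + b i) * s) : ℝ) : ℂ) = (Real.exp s : ℂ) ^ (a i + b i) := by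
    rw [← Complex.ofReal_pow, ← Real.exp_nat_mul]
    push_cast
    rfl
  rw [e4, zpow_sub₀ hu0, zpow_natCast, zpow_natCast]
  generalize Complex.I * (starRingEnd ℂ) w = u
  rw [neg_pow]
  simp only [mul_pow, div_eq_mul_inv, inv_pow, pow_add]
  ring

end USEM

open USEM in
/-- USEM -/
theorem uSem : StmtUSem := by
  intro ρ φ m μ hρ hLU hfin hlim
  refine ⟨hfin, fun j k ζ hζ hζc hζs => ?_⟩
  have hUH : IsOpen UH := isOpen_lt continuous_const Complex.continuous_im
  obtain ⟨V, F, σ, φ', hKV, hVF, hFU, hF, hA⟩ := stmtLcz UH (gr ρ) (fun n => 1 / m n)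
    (fun n z => (φ n (ofComplex z) : ℂ)) hUH (gr_smooth hρ) (fun z hz => gr_pos' ρ hz) hLU
    (tsupport ζ) hζc hζs
  have hL := hA.loc
  have hTest : Test V ζ := ⟨hζ, hζc, hKV⟩
  have hT2 : Test V (fun z => ζ z * ex σ 2 z) := hTest.mul hL.op (ex_smooth hL.sm _).contDiffOn
  obtain ⟨ι, _, c, a, b, h1, h2⟩ := rep (fun n => 1 / m n) φ' hL.smφ j k
  have hlimV := hlim V σ φ' hA
  have t1 := tendsto_finsetSum (Finset.univ : Finset ι) fun i _ => (piece hL
    (fun j ζ => ∫ p : ℍ × S1, ζ p.1 * ((Real.exp (-(2 * σ p.1)) : ℝ) : ℂ)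
      * (Complex.I * (starRingEnd ℂ) (p.2 : ℂ)) ^ j ∂μ) hlimV (a i) (b i) hT2).const_mul (c i)
  have hsupp : ∀ z : ℂ, z ∉ V → ζ z = 0 := by
    intro z hz
    by_contra hne
    exact hz (hKV (subset_tsupport _ hne))
  have e1 : ∀ n, ∑ i, c i * ∫ z, (ζ z * ex σ 2 z) * (W (fun n => 1 / m n) φ' (a i) (b i) n z * φ' n z)
      = ∫ z : ℍ, ζ z * ((QE.hD (1 / m n) 1)^[j] ((QE.hD (1 / m n) Complex.I)^[k]
        (fun w => (φ n (ofComplex w) : ℂ))) z * (φ n z : ℂ)) ∂(Berry.area ρ) := by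
    intro n
    have i1 : ∀ i ∈ (Finset.univ : Finset ι), Integrable fun z => c i * ((ζ z * ex σ 2 z)
        * (W (fun n => 1 / m n) φ' (a i) (b i) n z * φ' n z)) := by
      intro i _
      have hc : Continuous fun z => (ζ z * ex σ 2 z) * (W (fun n => 1 / m n) φ' (a i) (b i) n z * φ' n z) :=
        hT2.smooth.continuous.mul ((contDiff_W hL.smφ _ _ n).continuous.mul (hL.smφ n).continuous)
      exact (hc.integrable_of_hasCompactSupport hT2.supp.mul_right).const_mul _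
    rw [Finset.sum_congr rfl fun i _ => (integral_const_mul (c i) _).symm, ← integral_finsetSum _ i1]
    have e2 : ∀ z : ℍ, ζ z * ((QE.hD (1 / m n) 1)^[j] ((QE.hD (1 / m n) Complex.I)^[k]
        (fun w => (φ n (ofComplex w) : ℂ))) z * (φ n z : ℂ))
        = (fun w : ℂ => ζ w * ((QE.hD (1 / m n) 1)^[j] ((QE.hD (1 / m n) Complex.I)^[k]
        (fun w => (φ n (ofComplex w) : ℂ))) w * (φ n (ofComplex w) : ℂ))) z := by
      intro z
      simp only [ofComplex_apply]
    rw [integral_congr_ae (ae_of_all _ e2), area_int hρ (fun w : ℂ => ζ w * ((QE.hD (1 / m n) 1)^[j]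
      ((QE.hD (1 / m n) Complex.I)^[k] (fun w => (φ n (ofComplex w) : ℂ))) w * (φ n (ofComplex w) : ℂ)))]
    symm
    rw [setIntegral_eq_integral_of_forall_compl_eq_zero fun z hz => by
      rw [hsupp z fun h => hz (hA.sub h)]
      ring]
    refine integral_congr_ae (ae_of_all _ fun z => ?_)
    simp only
    by_cases hz : z ∈ V
    · have e3 : (QE.hD (1 / m n) 1)^[j] ((QE.hD (1 / m n) Complex.I)^[k]
          (fun w => (φ n (ofComplex w) : ℂ))) z
          = (QE.hD (1 / m n) 1)^[j] ((QE.hD (1 / m n) Complex.I)^[k] (φ' n)) z := by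
        refine hD_iterate_congr_on hA.op (1 / m n) 1 (fun w hw => ?_) j z hz
        exact hD_iterate_congr_on hA.op (1 / m n) Complex.I (fun w hw => (hA.eφ n w hw).symm) k w hw
      have e4 : (gr ρ z : ℂ) = ex σ 2 z := by
        unfold ex
        rw [← hA.eg z hz]
        push_cast
        rfl
      rw [e3, e4, ← hA.eφ n z hz, h1 n z, Finset.sum_mul, Finset.mul_sum, Finset.mul_sum]
      refine Finset.sum_congr rfl fun i _ => ?_
      ring
    · rw [hsupp z hz]
      simp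
  refine (t1.congr e1).trans (le_of_eq ?_)
  congr 1
  -- the limit
  have i2 : ∀ i ∈ (Finset.univ : Finset ι), Integrable (fun p : ℍ × S1 => (c i * ((2 : ℂ)⁻¹ ^ (a i + b i)
      * (-1) ^ b i)) * ((ζ p.1 * ex σ 2 p.1 * ex σ ((a i : ℤ) + b i) p.1)
      * ((Real.exp (-(2 * σ p.1)) : ℝ) : ℂ) * (Complex.I * (starRingEnd ℂ) (p.2 : ℂ)) ^ ((a i : ℤ) - b i))) μ := by
    intro i _
    have hT3 : Test V (fun z => ζ z * ex σ 2 z * ex σ ((a i : ℤ) + b i) z * ex σ (-2) z) :=
      (hT2.mul hL.op (ex_smooth hL.sm _).contDiffOn).mul hL.op (ex_smooth hL.sm _).contDiffOn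
    have h3 := int_p hfin hT3.smooth.continuous hT3.supp (hT3.sub.trans hA.sub) ((a i : ℤ) - b i)
    refine (h3.const_mul (c i * ((2 : ℂ)⁻¹ ^ (a i + b i) * (-1) ^ b i))).congr (ae_of_all _ fun p => ?_)
    simp only
    have e5 : ex σ (-2) (p.1 : ℂ) = ((Real.exp (-(2 * σ p.1)) : ℝ) : ℂ) := by
      unfold ex
      congr 2
      push_cast
      ring
    rw [e5]
  have e6 : ∀ i, c i * ((2 : ℂ)⁻¹ ^ (a i + b i) * (-1) ^ b i * ∫ p : ℍ × S1,
      (ζ p.1 * ex σ 2 p.1 * ex σ ((a i : ℤ) + b i) p.1) * ((Real.exp (-(2 * σ p.1)) : ℝ) : ℂ)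
      * (Complex.I * (starRingEnd ℂ) (p.2 : ℂ)) ^ ((a i : ℤ) - b i) ∂μ)
      = ∫ p : ℍ × S1, (c i * ((2 : ℂ)⁻¹ ^ (a i + b i)
      * (-1) ^ b i)) * ((ζ p.1 * ex σ 2 p.1 * ex σ ((a i : ℤ) + b i) p.1)
      * ((Real.exp (-(2 * σ p.1)) : ℝ) : ℂ) * (Complex.I * (starRingEnd ℂ) (p.2 : ℂ)) ^ ((a i : ℤ) - b i)) ∂μ := by
    intro i
    rw [integral_const_mul]
    ring
  rw [Finset.sum_congr rfl fun i _ => e6 i, ← integral_finsetSum _ i2]
  refine integral_congr_ae (ae_of_all _ fun p => ?_)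
  simp only
  by_cases hz : (p.1 : ℂ) ∈ V
  · have hw : ‖(p.2 : ℂ)‖ = 1 := by simp
    have hy : 0 < p.1.im := p.1.im_pos
    have hσ : Real.exp (σ p.1) = Real.exp (ρ p.1) / p.1.im := by
      have h3 := hA.eg _ hz
      unfold gr at h3
      rw [ofComplex_apply] at h3
      have h4 : Real.exp (σ p.1) ^ 2 = (Real.exp (ρ p.1) / p.1.im) ^ 2 := by
        rw [div_pow, ← Real.exp_nat_mul, ← Real.exp_nat_mul]
        exact_mod_cast h3
      exact (pow_left_inj₀ (Real.exp_pos _).le (by positivity) two_ne_zero).1 h4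
    have h5 := symbol h2 (p.2 : ℂ) hw (σ p.1)
    rw [hσ] at h5
    rw [h5, Finset.mul_sum]
    refine Finset.sum_congr rfl fun i _ => ?_
    have e7 : ex σ ((a i : ℤ) + b i) (p.1 : ℂ) = ((Real.exp (((a i : ℝ) + b i) * σ p.1) : ℝ) : ℂ) := by
      unfold ex
      push_cast
      rfl
    have e8 : ex σ 2 (p.1 : ℂ) * ((Real.exp (-(2 * σ p.1)) : ℝ) : ℂ) = 1 := by
      unfold ex
      rw [← Complex.ofReal_mul, ← Real.exp_add]
      have : ((2 : ℤ) : ℝ) * σ p.1 + -(2 * σ p.1) = 0 := by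
        push_cast
        ring
      rw [this, Real.exp_zero, Complex.ofReal_one]
    rw [e7]
    linear_combination (c i * ((2 : ℂ)⁻¹ ^ (a i + b i) * (-1) ^ b i) * ζ p.1
      * ((Real.exp (((a i : ℝ) + b i) * σ p.1) : ℝ) : ℂ)
      * (Complex.I * (starRingEnd ℂ) (p.2 : ℂ)) ^ ((a i : ℤ) - b i)) * e8
  · rw [hsupp _ hz]
    simp

end

end NFP
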