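import Pool.Agent.NFP.Model
import Pool.Agent.NFP.FourVar
import Pool.Agent.NFP.SemTwo
import Pool.Agent.NFP.Ker
import Pool.Agent.NFP.Marg
import Pool.Agent.NFP.Struct
import Pool.Agent.NFP.Glob
import Pool.Agent.NFP.Bnd
import Pool.Agent.NFP.Pos
import Pool.Agent.NFP.SemU
import Pool.Agent.NFP.USem
import Pool.Agent.NFP.Exist
import Pool.Agent.NFP.Infty
import Pool.Agent.NFP.Jconv
import Pool.Agent.NFP.Ident
import Pool.Agent.CRM.DNS
import Pool.Agent.CRM.Glob
import Pool.Agent.CRN.FNF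

/-!
# Semiclassical measures and four-point functions: the closed theorems
-/

open Complex MeasureTheory Filter Topology Set
open UpperHalfPlane hiding I
open scoped ContDiff MatrixGroups ProbabilityTheory

namespace NFP

open QE QE.NC

noncomputable section

theorem fourVar_closed : StmtFourVar := fourVar model

theorem struct_closed : StmtStruct := struct_ semTwo ker marg

theorem bnd_closed : StmtBnd := bnd struct_closed fourVar_closed glob

theorem pos_closed : StmtPos := pos semTwo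

theorem exist_closed : StmtExist := exist uSem

theorem infty_closed : StmtInfty := infty fourVar_closed glob

/-- the data of a sequence with bounded fourth moments -/
theorem exists_dat {Γ : Subgroup SL(2, ℝ)} {ρ : ℍ → ℝ} {D : Set ℍ} {φ : ℕ → ℍ → ℝ} {m : ℕ → ℝ}
    {μ : Measure (ℍ × S1)} (hΓ : Countable Γ) (hF : Fac Γ ρ) (hDm : MeasurableSet D)
    (hD : IsFundamentalDomain Γ D (volume : Measure ℍ)) (hφ : Berry.REigenSeq Γ ρ φ m)
    (hs : ∀ n, ContDiffOn ℝ ∞ (fun w : ℂ => φ n (ofComplex w)) {w | 0 < w.im})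
    (hB : ∃ B : ℝ, ∀ n, Berry.rAvg ρ D (fun z => φ n z ^ 4) ≤ B) (hμ : Semiclassical ρ φ m μ) :
    ∃ (N : ℕ) (u : ℤ → ℂ → ℂ) (s : ProbabilityTheory.Kernel ℍ S1), (∀ n, 1 ≤ m (n + N)) ∧
      Semiclassical ρ (fun n => φ (n + N)) (fun n => m (n + N)) μ ∧
      μ = (Berry.area ρ) ⊗ₘ s ∧
      BND.Dat Γ ρ D (fun n => φ (n + N)) (fun n => m (n + N)) u s := by
  have h1 := struct_closed
  obtain ⟨B, hB⟩ := hB
  have hK := hF.cpt
  have hρc : Continuous ρ := continuous_of_smooth hF.smooth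
  have hc : ∀ n, Continuous (φ n) := fun n => continuous_of_smooth (hs n)
  obtain ⟨N, hN⟩ := (hφ.tendsto.eventually_ge_atTop 1).exists_forall_of_atTop
  have hshift : Tendsto (fun n : ℕ => n + N) atTop atTop := tendsto_add_atTop_nat N
  -- comparison of the averages
  obtain ⟨A₀, hA₀, hAv⟩ := exists_rAvg_eq hDm hD hK hρc hF.inv
  have hvc : Continuous fun z => Real.exp (2 * ρ z) :=
    Real.continuous_exp.comp (continuous_const.mul hρc)
  obtain ⟨Bv, hBv⟩ := Berry.bdd_of_cocompact (f := fun z => 1 / Real.exp (2 * ρ z))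
    (continuous_const.div hvc fun z => (Real.exp_pos _).ne')
    (fun γ hγ z => by rw [hF.inv γ hγ]) hK
  have hBv0 : 0 ≤ Bv := (abs_nonneg _).trans (hBv UpperHalfPlane.I)
  have hcomp : ∀ n, Berry.surfAvg D (fun z => φ n z ^ 4) ≤ Bv * A₀⁻¹ * B := by
    intro n
    have i1 : IntegrableOn (fun z => φ n z ^ 4) D (volume : Measure ℍ) :=
      Surf.integrableOn_of_invariant hD hK ((hc n).pow 4) fun γ hγ z => by
        rw [hφ.invariant n γ hγ]
    have i2 : IntegrableOn (fun z => Bv * (Real.exp (2 * ρ z) * φ n z ^ 4)) D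
        (volume : Measure ℍ) :=
      (Surf.integrableOn_of_invariant hD hK (hvc.mul ((hc n).pow 4)) fun γ hγ z => by
        show Real.exp (2 * ρ (γ • z)) * φ n (γ • z) ^ 4 = Real.exp (2 * ρ z) * φ n z ^ 4
        rw [hφ.invariant n γ hγ, hF.inv γ hγ]).const_mul _
    have h1 : Berry.surfAvg D (fun z => φ n z ^ 4)
        ≤ Berry.surfAvg D (fun z => Bv * (Real.exp (2 * ρ z) * φ n z ^ 4)) := by
      rw [Surf.surfAvg_eq, Surf.surfAvg_eq]
      refine mul_le_mul_of_nonneg_left (integral_mono i1 i2 fun z => ?_) (by positivity)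
      have h3 : 1 / Real.exp (2 * ρ z) ≤ Bv := (le_abs_self _).trans (hBv z)
      have h4 : 1 ≤ Bv * Real.exp (2 * ρ z) := by
        rw [div_le_iff₀ (Real.exp_pos _)] at h3
        exact h3
      have h5 : 0 ≤ φ n z ^ 4 := by positivity
      beta_reduce
      nlinarith
    rw [Surf.surfAvg_const_mul] at h1
    have h6 : Berry.surfAvg D (fun z => Real.exp (2 * ρ z) * φ n z ^ 4) ≤ A₀⁻¹ * B := by
      have h7 := hB n
      rw [hAv] at h7
      rw [le_inv_mul_iff₀ hA₀]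
      exact h7
    calc _ ≤ _ := h1
      _ ≤ Bv * (A₀⁻¹ * B) := mul_le_mul_of_nonneg_left h6 hBv0
      _ = _ := by ring
  have S := stmtSetup Γ ρ (fun n => φ (n + N)) (fun n => m (n + N)) hF (reig_comp hφ hshift)
    (fun n => hs _) (fun n => hN _ (Nat.le_add_left _ _))
    (bdd4_of_avg hD hK (fun n => hc (n + N)) (fun n => hφ.invariant _) (fun n => hcomp _))
  have hμ' : Semiclassical ρ (fun n => φ (n + N)) (fun n => m (n + N)) μ :=
    ⟨hμ.fin, fun j k ζ a1 a2 a3 => (hμ.lim j k ζ a1 a2 a3).comp hshift⟩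
  obtain ⟨u, s, hfin, hμe, -, hL, hcof, hodd⟩ := h1 ρ (fun n => φ (n + N)) (fun n => m (n + N)) μ
    hF.smooth S hμ'
  have T : BND.Dat Γ ρ D (fun n => φ (n + N)) (fun n => m (n + N)) u s := {
    ws := {
      geo := geo_of hDm hD hF.cpt hρc hF.inv
      coc := hF.cpt
      rc := hρc
      pc := fun n => hc _
      pinv := fun n => hφ.invariant _
      mpos := fun n => by have := hN (n + N) (Nat.le_add_left _ _); linarith
      mlim := hφ.tendsto.comp hshift
      hm := fun _ => rfl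
      set := S.congr_a fun z hz => wt_aR hz }
    set := S
    lim := hL
    fin := hfin
    cof := hcof
    odd := hodd }
  exact ⟨N, u, s, fun n => hN _ (Nat.le_add_left _ _), hμ', hμe, T⟩

/-- BDC: sequences with bounded fourth moments, with the crossing measure -/
def StmtBdc : Prop :=
  ∀ (Γ : Subgroup SL(2, ℝ)) (ρ : ℍ → ℝ) (D : Set ℍ) (φ : ℕ → ℍ → ℝ) (m : ℕ → ℝ)
    (μ ϖ : Measure (ℍ × S1)), Countable Γ → Fac Γ ρ → MeasurableSet D →
    IsFundamentalDomain Γ D (volume : Measure ℍ) → Berry.REigenSeq Γ ρ φ m →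
    (∀ n, ContDiffOn ℝ ∞ (fun w : ℂ => φ n (ofComplex w)) {w | 0 < w.im}) →
    (∀ n, Berry.rAvg ρ D (fun z => φ n z ^ 2) = 1) →
    (∃ B : ℝ, ∀ n, Berry.rAvg ρ D (fun z => φ n z ^ 4) ≤ B) → Semiclassical ρ φ m μ →
    CRM.Crossing ρ μ ϖ →
    ∃ s : ProbabilityTheory.Kernel ℍ S1, (∀ z, IsFiniteMeasure (s z)) ∧
      μ = (Berry.area ρ) ⊗ₘ s ∧ ϖ = crossS ρ s ∧
      IntegrableOn (fun z => (s z univ).toReal ^ 2) D (Berry.area ρ) ∧
      (∀ x : Fin 4 → ℂ, IntegrableOn (fun z => dirWick (s z) x) D (Berry.area ρ)) ∧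
      ∀ w : ℍ → ℝ, Continuous w → (∀ γ ∈ Γ, ∀ z, w (γ • z) = w z) → ∀ x : Fin 4 → ℂ,
      Tendsto (fun n => (∫ p, w p.1 * (Berry.rWave ρ (φ n) (m n) (x 0) p
          * Berry.rWave ρ (φ n) (m n) (x 1) p * Berry.rWave ρ (φ n) (m n) (x 2) p
          * Berry.rWave ρ (φ n) (m n) (x 3) p) ∂(Berry.rFrameProb ρ D))
        - (Berry.rAvg ρ D (fun z => w z * dirWick (s z) x)
          + (Berry.rAvg ρ D (fun z => w z * φ n z ^ 4)
            - 3 * Berry.rAvg ρ D (fun z => w z * (s z univ).toReal ^ 2)) / 3 * resK x))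
        atTop (𝓝 0)

theorem bdc (hI : StmtIdent) : StmtBdc := by
  intro Γ ρ D φ m μ ϖ hΓ hF hDm hD hφ hs hq hB hμ hϖ
  obtain ⟨N, u, s, hm1, hμ', hμe, T⟩ := exists_dat hΓ hF hDm hD hφ hs hB hμ
  have hK := hF.cpt
  have hm0 : ∀ n, 0 < m (n + N) := fun n => lt_of_lt_of_le one_pos (hm1 n)
  have hφ' : Berry.REigenSeq Γ ρ (fun n => φ (n + N)) (fun n => m (n + N)) :=
    reig_comp hφ (tendsto_add_atTop_nat N)
  have hL : U3.LocU UH (U3.gr ρ) (fun n => 1 / m (n + N))
      (fun n z => (φ (n + N) (ofComplex z) : ℂ)) :=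
    CRN.FNF.locU_full (φ := fun n => φ (n + N)) (m := fun n => m (n + N)) hDm hD hK hF.smooth
      hF.inv hφ' (fun n => hs _) (fun n => hq _) hm0
  have hJ : CRM.JG ρ (fun n => 1 / m (n + N)) (fun n z => (φ (n + N) (ofComplex z) : ℂ)) μ :=
    semU ρ (fun n => φ (n + N)) (fun n => m (n + N)) μ hF.smooth hL hμ'
  have hlink : CRN.LinkG ρ (fun n => 1 / m (n + N))
      (fun n z => (φ (n + N) (ofComplex z) : ℂ)) ϖ :=
    CRM.linkG_of hϖ (CRM.lnk Γ ρ hF _ _ μ ϖ hμ.fin hJ hϖ)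
  have hsym := CRM.sym Γ ρ hF _ _ μ ϖ hL hμ.fin hJ hϖ
  have hid : ϖ = crossS ρ s := hI Γ ρ _ _ u s ϖ hF T.set T.fin T.lim T.cof T.odd hlink hsym
  refine ⟨s, T.fin, hμe, hid, T.psq glob, T.wick_int fourVar_closed glob, fun w hw hwi x => ?_⟩
  rw [← tendsto_add_atTop_iff_nat N]
  exact T.main fourVar_closed glob w hw hwi x

theorem ident_closed : StmtIdent := ident jconv CRM.t_DNS

theorem bdc_closed : StmtBdc := bdc ident_closed

end

end NFP
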