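import Pool.Agent.NFP.St
import Pool.Agent.CRN.Defs

/-!
# Four-point functions of eigenfunctions: unbounded fourth moments, and the crossing measure of a
semiclassical measure with a square integrable density (statements)
-/

open Complex MeasureTheory Filter Topology Set
open UpperHalfPlane hiding I
open scoped ContDiff MatrixGroups ProbabilityTheory

namespace NFP

open QE QE.NC

noncomputable section

/-- INFTY: the four-point functions if the fourth moments tend to infinity.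
Proof (from `StmtFourVar`, `StmtGlob`). It suffices that every subsequence has a further subsequence
along which the claim holds (`tendsto_of_subseq_tendsto`). Let `k n = rAvg (φ n ^ 4)`,
`b n = k n ^ (-1/4)` (`rt4`, see `lin_lowerR` in C43:3683 for this scaling), `ψ n = b n * φ n`
(`reig_comp`, `reig_scale`): eigenfunctions with `rAvg ψ⁴ = 1` and `rAvg ψ² = b n ^ 2 → 0`.
`NC.stmtSetup` (C44) gives the `Setup` after a shift with `m ≥ 1`; `exists_limits` (C43:818) gives a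
further subsequence and `u` with `JetLim`. All `u k = 0` almost everywhere: by Cauchy-Schwarz
`|∫ ζ E_0 E_k| ≤ (∫ |ζ| ψ²)^{1/2} (∫ |ζ| ‖E_k‖²)^{1/2}`, the second factor is bounded (`tame_E`), the first
tends to zero (`loc_le`, C13); or `|u k| ≤ u 0` from `lim_pos` (C18) and `u 0 = 0`. So `StmtFourVar`
applies with the measures `σ z = 0` (`cof 0 k = 0`, `dirWick 0 x = 0`): for smooth `ζ`,
`∫ ζ angProd(ψ n)(x) - defc x * ∫ ζ ψ n ^ 4 → 0` (`WS`, `W.disp`, `W.ang_eq`, `exists_thick` as in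
`LimSeqR.three`, C43:4126). `StmtGlob` with `F n z = angProd ρ (ψ n) (m n) x z - defc x * ψ n z ^ 4`,
`H = 0` and the weight `w`; local bounds `W.angProd_bdd`, `W.bdd4`. Finally
`∫ w ∏ rWave(ψ n) = rAvg (w angProd(ψ n))` (`integral_prod`, as in `WS.wrap_gen`, C43:2636) and
`∏ rWave (ψ n) = b n ^ 4 * ∏ rWave (φ n)`, `b n ^ 4 = 1 / k n`, `defc = resK / 3`. -/
def StmtInfty : Prop :=
  ∀ (Γ : Subgroup SL(2, ℝ)) (ρ : ℍ → ℝ) (D : Set ℍ) (φ : ℕ → ℍ → ℝ) (m : ℕ → ℝ), Countable Γ →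
    Fac Γ ρ → MeasurableSet D → IsFundamentalDomain Γ D (volume : Measure ℍ) →
    Berry.REigenSeq Γ ρ φ m →
    (∀ n, ContDiffOn ℝ ∞ (fun w : ℂ => φ n (ofComplex w)) {w | 0 < w.im}) →
    (∀ n, Berry.rAvg ρ D (fun z => φ n z ^ 2) = 1) →
    Tendsto (fun n => Berry.rAvg ρ D (fun z => φ n z ^ 4)) atTop atTop →
    ∀ w : ℍ → ℝ, Continuous w → (∀ γ ∈ Γ, ∀ z, w (γ • z) = w z) → ∀ x : Fin 4 → ℂ,
      Tendsto (fun n => ((∫ p, w p.1 * (Berry.rWave ρ (φ n) (m n) (x 0) p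
          * Berry.rWave ρ (φ n) (m n) (x 1) p * Berry.rWave ρ (φ n) (m n) (x 2) p
          * Berry.rWave ρ (φ n) (m n) (x 3) p) ∂(Berry.rFrameProb ρ D))
        - Berry.rAvg ρ D (fun z => w z * φ n z ^ 4) / 3 * resK x)
        / Berry.rAvg ρ D (fun z => φ n z ^ 4)) atTop (𝓝 0)

/-- the image of `sin² · (s z × s z) d(area)` under `(z, w, w') ↦ (z, w / w')` -/
def crossS (ρ : ℍ → ℝ) (s : ProbabilityTheory.Kernel ℍ S1) : Measure (ℍ × S1) :=
  Measure.map (fun p : (ℍ × S1) × S1 => (p.1.1, p.1.2 / p.2))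
    ((((Berry.area ρ) ⊗ₘ s) ⊗ₘ (s.comap Prod.fst measurable_fst)).withDensity
      fun p => ENNReal.ofReal (((p.1.2 / p.2 : S1) : ℂ).im ^ 2))

/-- JCONV: the two kinds of jets agree up to `O(h)`, in the integrals of four jets of total spin zero.
Proof. On `V`: `e^{2σ} = gr ρ`, so `aR ρ z = e^{-σ z}`, `φ' n = φ n`. For `f` smooth on `V`:
`h D σ k f = 2 h e^{(k-1)σ} dz (e^{-kσ} f) = I * (-(2 I h) aR dz f) - 2 k h e^{-σ} (dz σ) f`, i.e.
`h D = I * LL + h * (smooth) * f` (`QJ.D`, `QE.LL` C01). By induction on `k : ℕ`: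
`QJ.jet σ h φ' k n z = I ^ k * QE.jet h a φ k n z + h n * w n z` on `V` with `w` tame on `V`
(`Near V h ...`; `Setup.mono`-type restriction to `V ⊆ UH`: all properties of `Setup` restrict to open
subsets; `S.tame_jet`, `Tame.fn_mul`, `Near.LL` as in `Setup.jet_near`, C04:593). Negative indices:
conjugate; `E (-k) = (-1)^k conj (E k)` in both conventions, and `conj (I ^ k) = I ^ (-k)`, so
`QJ.E j = I ^ j * QE.E j + h w_j` for all integers. The product of four with total spin zero has the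
factor `I ^ 0 = 1`; the error terms contain a factor `h n` and are products of four tame sequences,
bounded in `L⁴`, so their integrals against `ζ` tend to zero (`LBdd.test_mul`, `tendsto_h_int`). -/
def StmtJconv : Prop :=
  ∀ (ρ : ℍ → ℝ) (h : ℕ → ℝ) (φ : ℕ → ℂ → ℂ), Setup UH (gR ρ) (aR ρ) h φ →
    ∀ (V : Set ℂ) (σ : ℂ → ℝ) (φ' : ℕ → ℂ → ℂ), U3.Agree V UH (U3.gr ρ) h φ σ φ' →
    ∀ ζ : ℂ → ℂ, Test V ζ → ∀ a b c d : ℤ, a + b + c + d = 0 →
    Tendsto (fun n => QJ.E4 σ h φ' ζ a b c d n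
      - ∫ z, ζ z * (QE.E h (aR ρ) φ a n z * QE.E h (aR ρ) φ b n z
        * (QE.E h (aR ρ) φ c n z * QE.E h (aR ρ) φ d n z))) atTop (𝓝 0)

/-- IDENT: the crossing measure of a semiclassical measure with a square integrable density.
Proof (from `StmtJconv`, `CRM.StmtDns`). Let `ζ` be a test function on `UH`, `k` even;
`U3.stmtLcz` (C23) gives a chart `V, σ, φ'` with `tsupport ζ ⊆ V`. By `StmtJconv`, `jets_four_var`
(C05:3286, `pat = cl4` for total spin zero) and `LinkG.lim` for `(k, -k, 0, 0)`: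
`-2 ∫ ζ gr⁻¹ gk k dϖ = Gam u ζ k (-k) 0 0 - Gam u ζ 0 0 0 0 = -2 ∫ ζ (u_0² - u_k u_{-k})`
(`lk (gk) = - 2 gk k`, `gk 0 = 0`, all signs are `+`), and `u_0² - u_k u_{-k}
= ∬ (1 - Re (w / w')^k) ds_z ds_z = ∬ sin² (w / w') gk k (w / w') ds_z ds_z` at almost every `z`, since
`u_k = cof (s z) k`. So `ϖ` and `crossS ρ s` have the same integrals against `ζ(z) gk k (t)`, hence
against `ζ(z) Re t^k`, `k` even (`4 Re t^{2j} = gk (2j+2) t - 2 gk (2j) t + gk (2j-2) t`, `gk 2 = 2`).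
Both are symmetric: for `ϖ` this is the hypothesis; for `crossS`: `w ↔ w'` gives `t → t⁻¹`, and the odd
coefficients vanish because `u k = 0` a.e. for odd `k` (expand `sin² (t) t^k` in powers of `t`). So they
have the same integrals against `ζ(z) t^k` for all integers `k`, and `CRM.StmtDns` and
`Measure.ext_of_integral_eq_on_compactlySupported` give the equality (compare `CRM.StmtIvm`).
Both are finite over compact sets (`(s z univ)² = ‖u 0 z‖²` is locally integrable). -/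
def StmtIdent : Prop :=
  ∀ (Γ : Subgroup SL(2, ℝ)) (ρ : ℍ → ℝ) (h : ℕ → ℝ) (φ : ℕ → ℂ → ℂ) (u : ℤ → ℂ → ℂ)
    (s : ProbabilityTheory.Kernel ℍ S1) (ϖ : Measure (ℍ × S1)), Fac Γ ρ →
    Setup UH (gR ρ) (aR ρ) h φ → (∀ z, IsFiniteMeasure (s z)) → JetLim UH h (aR ρ) φ u →
    (∀ k, ∀ᵐ z ∂(volume.restrict UH), u k z = cof (s (ofComplex z)) k) →
    (∀ k, Odd k → ∀ᵐ z ∂(volume.restrict UH), u k z = 0) → CRN.LinkG ρ h φ ϖ →
    (∀ (ζ : ℂ → ℂ), Test UH ζ → ∀ k : ℕ,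
      (Odd k → ∫ p : ℍ × S1, ζ p.1 * (p.2 : ℂ) ^ k ∂ϖ = 0) ∧
      ∫ p : ℍ × S1, ζ p.1 * (p.2 : ℂ) ^ k ∂ϖ
        = ∫ p : ℍ × S1, ζ p.1 * (starRingEnd ℂ) (p.2 : ℂ) ^ k ∂ϖ) →
    ϖ = crossS ρ s

end

end NFP
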