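import Pool.Agent.NFP.St

/-!
# The four-point model of a measure on the circle (module NFP_MODEL)
-/

open Complex MeasureTheory Filter Topology Set
open UpperHalfPlane hiding I
open scoped ContDiff MatrixGroups ProbabilityTheory

namespace NFP

open QE QE.NC

noncomputable section

namespace MODEL

lemma nrm (w : S1) : ‖(w : ℂ)‖ = 1 := mem_sphere_zero_iff_norm.1 w.2

lemma ne0 (w : S1) : (w : ℂ) ≠ 0 := by
  intro h
  have := nrm w
  rw [h, norm_zero] at this
  exact zero_ne_one this

lemma inv_eq (w : S1) : ((w : ℂ))⁻¹ = (starRingEnd ℂ) (w : ℂ) := by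
  have h : Complex.normSq (w : ℂ) = 1 := by
    rw [Complex.normSq_eq_norm_sq, nrm]; norm_num
  rw [Complex.inv_def, h]
  simp

lemma nrm_inv (w : S1) : ‖((w : ℂ))⁻¹‖ = 1 := by rw [norm_inv, nrm, inv_one]

lemma cont_inv : Continuous fun w : S1 => ((w : ℂ))⁻¹ :=
  continuous_subtype_val.inv₀ ne0

/-- products of four plane waves on a finite measure space -/
lemma gen_eq {Ω : Type*} [MeasurableSpace Ω] (π : Measure Ω) [IsFiniteMeasure π]
    (v : Fin 4 → Ω → ℂ) (hv : ∀ i o, ‖v i o‖ = 1) (hm : ∀ i, Measurable (v i)) (y : Fin 4 → ℂ)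
    (N : ℕ) : ∑ p ∈ Fintype.piFinset (fun _ : Fin 4 => Finset.Icc (-(N : ℤ)) N),
      (∏ i, CN N (p i) (y i)) * ∫ o, ∏ i, v i o ^ (p i) ∂π
      = ∫ o, ∏ i, pp N (y i) (v i o) ∂π := by
  have hint : ∀ p ∈ Fintype.piFinset (fun _ : Fin 4 => Finset.Icc (-(N : ℤ)) N),
      Integrable (fun o => (∏ i, CN N (p i) (y i)) * ∏ i, v i o ^ (p i)) π := by
    intro p _
    have hc : Measurable (fun o => (∏ i, CN N (p i) (y i)) * ∏ i, v i o ^ (p i)) :=
      measurable_const.mul (Finset.measurable_fun_prod _ fun i _ => (hm i).pow_const (p i))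
    refine Integrable.of_bound hc.aestronglyMeasurable (‖∏ i, CN N (p i) (y i)‖)
      (Eventually.of_forall fun o => ?_)
    rw [norm_mul, norm_prod (Finset.univ) (fun i => v i o ^ (p i))]
    simp [hv]
  simp only [← integral_const_mul]
  rw [← integral_finset_sum _ hint]
  refine integral_congr_ae (Eventually.of_forall fun o => ?_)
  unfold pp
  beta_reduce
  rw [Finset.prod_univ_sum]
  refine Finset.sum_congr rfl fun p _ => ?_
  rw [Finset.prod_mul_distrib]

lemma meas_pp (N : ℕ) (y : ℂ) {Ω : Type*} [MeasurableSpace Ω] {v : Ω → ℂ} (hm : Measurable v) :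
    Measurable fun o => pp N y (v o) := by
  unfold pp
  exact Finset.measurable_fun_sum _ fun j _ => measurable_const.mul (hm.pow_const j)

lemma gen_norm {Ω : Type*} [MeasurableSpace Ω] (π : Measure Ω) [IsFiniteMeasure π]
    (v : Fin 4 → Ω → ℂ) (hv : ∀ i o, ‖v i o‖ = 1) (y : Fin 4 → ℂ) (N : ℕ) :
    ‖∫ o, ∏ i, pp N (y i) (v i o) ∂π‖ ≤ (∏ i, Real.exp ‖y i‖) * (π univ).toReal := by
  have := norm_integral_le_of_norm_le_const (μ := π) (f := fun o => ∏ i, pp N (y i) (v i o))
    (C := ∏ i, Real.exp ‖y i‖) (Eventually.of_forall fun o => by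
      rw [norm_prod]
      exact Finset.prod_le_prod (fun _ _ => norm_nonneg _) fun i _ => norm_pp_le (hv i o) N (y i))
  exact this

lemma gen_lim {Ω : Type*} [MeasurableSpace Ω] (π : Measure Ω) [IsFiniteMeasure π]
    (v : Fin 4 → Ω → ℂ) (hv : ∀ i o, ‖v i o‖ = 1) (hm : ∀ i, Measurable (v i)) (y : Fin 4 → ℂ) :
    Tendsto (fun N : ℕ => ∫ o, ∏ i, pp N (y i) (v i o) ∂π) atTop
      (𝓝 (∫ o, ∏ i, ee (y i) (v i o) ∂π)) := by
  refine tendsto_integral_of_dominated_convergence (fun _ => ∏ i, Real.exp ‖y i‖) (fun N => ?_)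
    (integrable_const _) (fun N => Eventually.of_forall fun o => ?_)
    (Eventually.of_forall fun o => ?_)
  · exact (Finset.measurable_fun_prod _ fun i _ => meas_pp N (y i) (hm i)).aestronglyMeasurable
  · rw [norm_prod]
    exact Finset.prod_le_prod (fun _ _ => norm_nonneg _) fun i _ => norm_pp_le (hv i o) N (y i)
  · exact tendsto_finset_prod _ fun i _ => tendsto_pp (hv i o) (y i)

/-- the Fourier transform of the measure -/
def hs (s : Measure S1) (x : ℂ) : ℂ := ∫ w : S1, ee x ((w : ℂ))⁻¹ ∂s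

lemma cont_ee {X : Type*} [TopologicalSpace X] {f g : X → ℂ} (hf : Continuous f)
    (hg : Continuous g) : Continuous fun w => ee (f w) (g w) := by
  unfold ee
  exact Complex.continuous_exp.comp (continuous_const.mul
    (Complex.continuous_ofReal.comp (Complex.continuous_re.comp (hf.mul hg))))

lemma cont_ee_inv (x : ℂ) : Continuous fun w : S1 => ee x ((w : ℂ))⁻¹ :=
  cont_ee continuous_const cont_inv

lemma norm_ee (y w : ℂ) : ‖ee y w‖ = 1 := by
  unfold ee
  rw [mul_comm]
  exact Complex.norm_exp_ofReal_mul_I _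

lemma int_pp (s : Measure S1) [IsFiniteMeasure s] (N : ℕ) (x : ℂ) :
    ∫ w : S1, pp N x ((w : ℂ))⁻¹ ∂s = ∑ j ∈ Finset.Icc (-(N : ℤ)) N, CN N j x * cof s j := by
  unfold pp cof
  rw [integral_finset_sum]
  · refine Finset.sum_congr rfl fun j _ => ?_
    rw [integral_const_mul]
    congr 1
    refine integral_congr_ae (Eventually.of_forall fun w => ?_)
    simp only [inv_zpow']
  · intro j _
    refine Integrable.of_bound (C := ‖CN N j x‖) (Measurable.aestronglyMeasurable ?_)
      (Eventually.of_forall fun w => ?_)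
    · exact measurable_const.mul (cont_inv.measurable.pow_const j)
    · rw [norm_mul, norm_zpow, nrm_inv, one_zpow, mul_one]

lemma tendsto_int_pp (s : Measure S1) [IsFiniteMeasure s] (x : ℂ) :
    Tendsto (fun N : ℕ => ∫ w : S1, pp N x ((w : ℂ))⁻¹ ∂s) atTop (𝓝 (hs s x)) := by
  refine tendsto_integral_of_dominated_convergence (fun _ => Real.exp ‖x‖) (fun N => ?_)
    (integrable_const _) (fun N => Eventually.of_forall fun w => ?_)
    (Eventually.of_forall fun w => ?_)
  · exact (meas_pp N x cont_inv.measurable).aestronglyMeasurable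
  · exact norm_pp_le (nrm_inv w) N x
  · exact tendsto_pp (nrm_inv w) x

lemma hs_neg (s : Measure S1) [IsFiniteMeasure s] (ho : ∀ k : ℤ, Odd k → cof s k = 0) (x : ℂ) :
    hs s (-x) = hs s x := by
  refine tendsto_nhds_unique (tendsto_int_pp s (-x)) ?_
  refine (tendsto_int_pp s x).congr fun N => ?_
  rw [int_pp, int_pp]
  refine Finset.sum_congr rfl fun j _ => ?_
  have h1 : CN N j (-x) = (-1) ^ j * CN N j x := by
    have := CN_rot N (u := -1) (by simp) j x
    rwa [neg_one_mul] at this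
  rw [h1]
  rcases Int.even_or_odd j with hj | hj
  · rw [hj.neg_one_zpow, one_mul]
  · rw [ho j hj]; ring

lemma int_ee' (s : Measure S1) [IsFiniteMeasure s] (x : ℂ) :
    Integrable (fun w : S1 => ee x ((w : ℂ))⁻¹) s :=
  Integrable.of_bound (cont_ee_inv x).aestronglyMeasurable 1
    (Eventually.of_forall fun w => (norm_ee _ _).le)

lemma hs_eq (s : Measure S1) [IsFiniteMeasure s] (ho : ∀ k : ℤ, Odd k → cof s k = 0) (x : ℂ) :
    hs s x = (dirK s x : ℂ) := by
  have h1 : hs s x + hs s (-x) = 2 * (dirK s x : ℂ) := by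
    unfold hs dirK
    rw [← integral_add (int_ee' s x) (int_ee' s (-x)), ← integral_complex_ofReal,
      ← integral_const_mul]
    refine integral_congr_ae (Eventually.of_forall fun w => ?_)
    beta_reduce
    unfold ee
    rw [inv_eq, Complex.ofReal_cos, Complex.cos, neg_mul, Complex.neg_re]
    push_cast
    rw [show I * -((x * (starRingEnd ℂ) (w : ℂ)).re : ℂ)
      = -((x * (starRingEnd ℂ) (w : ℂ)).re : ℂ) * I by ring, mul_comm I]
    ring
  rw [hs_neg s ho] at h1
  linear_combination (1 / 2) * h1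

lemma dirK_abs (s : Measure S1) [IsFiniteMeasure s] (x : ℂ) : |dirK s x| ≤ (s univ).toReal := by
  unfold dirK
  have := norm_integral_le_of_norm_le_const (μ := s)
    (f := fun w : S1 => Real.cos (x * (starRingEnd ℂ) (w : ℂ)).re) (C := 1)
    (Eventually.of_forall fun w => by
      rw [Real.norm_eq_abs]; exact Real.abs_cos_le_one _)
  rw [one_mul, Real.norm_eq_abs] at this
  exact this

lemma continuous_dirK (s : Measure S1) [IsFiniteMeasure s] : Continuous (dirK s) := by
  unfold dirK
  refine continuous_of_dominated (bound := fun _ => 1) (fun x => ?_) (fun x => ?_)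
    (integrable_const _) (Eventually.of_forall fun w => ?_)
  · have : Continuous fun w : S1 => Real.cos (x * (starRingEnd ℂ) (w : ℂ)).re := by fun_prop
    exact this.aestronglyMeasurable
  · exact Eventually.of_forall fun w => by
      rw [Real.norm_eq_abs]; exact Real.abs_cos_le_one _
  · fun_prop

lemma dirK_neg (s : Measure S1) (x : ℂ) : dirK s (-x) = dirK s x := by
  unfold dirK
  congr 1; funext w
  rw [neg_mul, Complex.neg_re, Real.cos_neg]

/-- the measure space of the angle and the two directions -/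
abbrev PI (s : Measure S1) : Measure (ℝ × (S1 × S1)) := ang.prod (s.prod s)

/-- the directions -/
def vv (c : Fin 4 → Bool) (i : Fin 4) (o : ℝ × (S1 × S1)) : ℂ :=
  uu o.1 * (if c i then ((o.2.1 : S1) : ℂ)⁻¹ else ((o.2.2 : S1) : ℂ)⁻¹)

lemma vv_norm (c : Fin 4 → Bool) (i : Fin 4) (o : ℝ × (S1 × S1)) : ‖vv c i o‖ = 1 := by
  unfold vv
  rw [norm_mul, norm_uu, one_mul]
  split_ifs
  · exact nrm_inv _
  · exact nrm_inv _

lemma vv_meas (c : Fin 4 → Bool) (i : Fin 4) : Measurable (vv c i) := by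
  unfold vv
  refine (continuous_uu.measurable.comp measurable_fst).mul ?_
  cases c i with
  | true =>
    simp only [if_true]
    exact cont_inv.measurable.comp (measurable_fst.comp measurable_snd)
  | false =>
    simp only [Bool.false_eq_true, if_false]
    exact cont_inv.measurable.comp (measurable_snd.comp measurable_snd)

lemma PI_univ (s : Measure S1) [IsFiniteMeasure s] :
    ((PI s) univ).toReal = (s univ).toReal ^ 2 := by
  unfold PI
  rw [← univ_prod_univ, Measure.prod_prod, ← univ_prod_univ, Measure.prod_prod, measure_univ,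
    one_mul, ENNReal.toReal_mul, sq]

lemma prod_zpow (u v v' : ℂ) (hu : u ≠ 0) (hv : v ≠ 0) (hv' : v' ≠ 0) (c : Fin 4 → Bool)
    (p : Fin 4 → ℤ) : ∏ i, (u * (if c i then v else v')) ^ (p i)
      = u ^ (∑ i, p i) * (v ^ (∑ i, if c i then p i else 0) * v' ^ (∑ i, if c i then 0 else p i)) := by
  have e : ∀ i, (u * (if c i then v else v')) ^ (p i)
      = u ^ (p i) * (v ^ (if c i then p i else 0) * v' ^ (if c i then 0 else p i)) := by
    intro i
    cases c i with
    | true => simp [mul_zpow]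
    | false => simp [mul_zpow]
  simp only [e, Finset.prod_mul_distrib, Fin.prod_univ_four, Fin.sum_univ_four]
  simp only [zpow_add₀ hu, zpow_add₀ hv, zpow_add₀ hv']

/-- the moments -/
lemma PI_mom (s : Measure S1) [IsFiniteMeasure s] (c : Fin 4 → Bool) (p : Fin 4 → ℤ) :
    ∫ o, ∏ i, vv c i o ^ (p i) ∂(PI s)
      = (if ∑ i, p i = 0 then 1 else 0)
        * (cof s (∑ i, if c i then p i else 0) * cof s (∑ i, if c i then 0 else p i)) := by
  have e : ∀ o : ℝ × (S1 × S1), ∏ i, vv c i o ^ (p i)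
      = uu o.1 ^ (∑ i, p i) * ((((o.2.1 : S1) : ℂ)⁻¹) ^ (∑ i, if c i then p i else 0)
        * (((o.2.2 : S1) : ℂ)⁻¹) ^ (∑ i, if c i then 0 else p i)) := by
    intro o
    unfold vv
    exact prod_zpow _ _ _ (uu_ne _) (inv_ne_zero (ne0 _)) (inv_ne_zero (ne0 _)) c p
  simp only [e]
  unfold PI
  rw [integral_prod_mul (fun t : ℝ => uu t ^ (∑ i, p i))
    (fun o : S1 × S1 => (((o.1 : S1) : ℂ)⁻¹) ^ (∑ i, if c i then p i else 0)
        * (((o.2 : S1) : ℂ)⁻¹) ^ (∑ i, if c i then 0 else p i)),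
    integral_prod_mul (fun w : S1 => ((w : ℂ)⁻¹) ^ (∑ i, if c i then p i else 0))
      (fun w : S1 => ((w : ℂ)⁻¹) ^ (∑ i, if c i then 0 else p i)), ang_zpow]
  unfold cof
  simp only [inv_zpow']

/-- the limit -/
lemma PI_ee (s : Measure S1) [IsFiniteMeasure s] (ho : ∀ k : ℤ, Odd k → cof s k = 0)
    (c : Fin 4 → Bool) (y : Fin 4 → ℂ) :
    ∫ o, ∏ i, ee (y i) (vv c i o) ∂(PI s)
      = ((∫ t, dirK s (uu t * ∑ i, if c i then y i else 0)
        * dirK s (uu t * ∑ i, if c i then 0 else y i) ∂ang : ℝ) : ℂ) := by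
  have ee0 : ∀ w, ee 0 w = 1 := by intro w; simp [ee]
  have eemul : ∀ y u v, ee y (u * v) = ee (u * y) v := by
    intro y u v
    unfold ee
    congr 3
    ring
  have e : ∀ o : ℝ × (S1 × S1), ∏ i, ee (y i) (vv c i o)
      = ee (uu o.1 * ∑ i, if c i then y i else 0) (((o.2.1 : S1) : ℂ)⁻¹)
        * ee (uu o.1 * ∑ i, if c i then 0 else y i) (((o.2.2 : S1) : ℂ)⁻¹) := by
    intro o
    have e1 : ∀ i, ee (y i) (vv c i o)
        = ee (uu o.1 * (if c i then y i else 0)) (((o.2.1 : S1) : ℂ)⁻¹)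
          * ee (uu o.1 * (if c i then 0 else y i)) (((o.2.2 : S1) : ℂ)⁻¹) := by
      intro i
      unfold vv
      cases c i with
      | true => simp [ee0, eemul]
      | false => simp [ee0, eemul]
    simp only [e1]
    rw [Finset.prod_mul_distrib, Fin.prod_univ_four, Fin.prod_univ_four, Fin.sum_univ_four,
      Fin.sum_univ_four, ee_add, ee_add, ee_add, ee_add, ee_add, ee_add]
    simp only [mul_add]
  simp only [e]
  unfold PI
  rw [integral_prod, ← integral_complex_ofReal]
  · refine integral_congr_ae (Eventually.of_forall fun t => ?_)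
    beta_reduce
    rw [integral_prod_mul (fun w : S1 => ee (uu t * ∑ i, if c i then y i else 0) ((w : ℂ))⁻¹)
      (fun w : S1 => ee (uu t * ∑ i, if c i then 0 else y i) ((w : ℂ))⁻¹)]
    have h1 := hs_eq s ho (uu t * ∑ i, if c i then y i else 0)
    have h2 := hs_eq s ho (uu t * ∑ i, if c i then 0 else y i)
    unfold hs at h1 h2
    rw [h1, h2]
    push_cast
    rfl
  · have hc : Continuous fun o : ℝ × (S1 × S1) =>
        ee (uu o.1 * ∑ i, if c i then y i else 0) (((o.2.1 : S1) : ℂ)⁻¹)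
        * ee (uu o.1 * ∑ i, if c i then 0 else y i) (((o.2.2 : S1) : ℂ)⁻¹) := by
      have h1 : Continuous fun o : ℝ × (S1 × S1) => uu o.1 := continuous_uu.comp continuous_fst
      have h2 : Continuous fun o : ℝ × (S1 × S1) => (((o.2.1 : S1) : ℂ)⁻¹) :=
        cont_inv.comp (continuous_fst.comp continuous_snd)
      have h3 : Continuous fun o : ℝ × (S1 × S1) => (((o.2.2 : S1) : ℂ)⁻¹) :=
        cont_inv.comp (continuous_snd.comp continuous_snd)
      exact (cont_ee (h1.mul continuous_const) h2).mul (cont_ee (h1.mul continuous_const) h3)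
    refine Integrable.of_bound hc.aestronglyMeasurable 1 (Eventually.of_forall fun o => ?_)
    rw [norm_mul, norm_ee, norm_ee, one_mul]

/-- the substitution -/
lemma ang_uu {f : ℂ → ℝ} :
    ∫ t, f (uu t) ∂ang = 1 / (2 * Real.pi) * ∫ θ in (0 : ℝ)..(2 * Real.pi),
      f (Complex.exp (θ * Complex.I)) := by
  rw [ang_int, smul_eq_mul, one_div]
  congr 1
  have h1 := intervalIntegral.integral_comp_sub_left (a := 0) (b := 2 * Real.pi)
    (fun θ : ℝ => f (Complex.exp (θ * Complex.I))) (2 * Real.pi)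
  rw [sub_zero, sub_self] at h1
  rw [← h1]
  refine intervalIntegral.integral_congr fun t _ => ?_
  beta_reduce
  congr 1
  unfold uu
  have h2 : (((2 * Real.pi - t : ℝ) : ℂ)) * I = 2 * Real.pi * I + -(t : ℂ) * I := by
    push_cast; ring
  rw [h2, Complex.exp_add, Complex.exp_two_pi_mul_I, one_mul]

end MODEL

open MODEL in
/-- MODEL -/
theorem model : StmtModel := by
  intro y
  refine ⟨3 * ∏ i, Real.exp ‖y i‖ + 3, by positivity, ?_⟩
  intro s hs' ho
  -- the three pairings
  set c1 : Fin 4 → Bool := ![true, true, false, false] with hc1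
  set c2 : Fin 4 → Bool := ![true, false, true, false] with hc2
  set c3 : Fin 4 → Bool := ![true, false, false, true] with hc3
  set g1 : Fin 4 → ℂ := ![-1, 1, -1, 1] with hg1
  set g2 : Fin 4 → ℂ := ![-1, -1, 1, 1] with hg2
  have n1 : ∀ i, ‖g1 i‖ = 1 := by intro i; fin_cases i <;> simp [hg1]
  have n2 : ∀ i, ‖g2 i‖ = 1 := by intro i; fin_cases i <;> simp [hg2]
  have hsum : ∀ N : ℕ, modN (cof s) y N
      = (∫ o, ∏ i, pp N (g1 i * y i) (vv c1 i o) ∂(PI s))
        + (∫ o, ∏ i, pp N (g2 i * y i) (vv c2 i o) ∂(PI s))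
        + ∫ o, ∏ i, pp N (g2 i * y i) (vv c3 i o) ∂(PI s) := by
    intro N
    rw [← gen_eq _ _ (vv_norm c1) (vv_meas c1), ← gen_eq _ _ (vv_norm c2) (vv_meas c2),
      ← gen_eq _ _ (vv_norm c3) (vv_meas c3), ← Finset.sum_add_distrib,
      ← Finset.sum_add_distrib]
    unfold modN
    refine Finset.sum_congr rfl fun p _ => ?_
    rw [PI_mom, PI_mom, PI_mom]
    have k1 : ∏ i, CN N (p i) (g1 i * y i)
        = (∏ i, CN N (p i) (y i)) * ((-1) ^ (p 0) * (-1) ^ (p 2)) := by
      have : ∀ i, CN N (p i) (g1 i * y i) = CN N (p i) (y i) * g1 i ^ (p i) := fun i => by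
        rw [CN_rot N (n1 i)]; ring
      simp only [this, Finset.prod_mul_distrib]
      congr 1
      simp [hg1, Fin.prod_univ_four]
    have k2 : ∏ i, CN N (p i) (g2 i * y i)
        = (∏ i, CN N (p i) (y i)) * ((-1) ^ (p 0) * (-1) ^ (p 1)) := by
      have : ∀ i, CN N (p i) (g2 i * y i) = CN N (p i) (y i) * g2 i ^ (p i) := fun i => by
        rw [CN_rot N (n2 i)]; ring
      simp only [this, Finset.prod_mul_distrib]
      congr 1
      simp [hg2, Fin.prod_univ_four]
    rw [k1, k2]
    have q1 : (∑ i, if c1 i then p i else 0) = p 0 + p 1 := by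
      simp [hc1, Fin.sum_univ_four]
    have q2 : (∑ i, if c1 i then 0 else p i) = p 2 + p 3 := by
      simp [hc1, Fin.sum_univ_four]
    have q3 : (∑ i, if c2 i then p i else 0) = p 0 + p 2 := by
      simp [hc2, Fin.sum_univ_four]
    have q4 : (∑ i, if c2 i then 0 else p i) = p 1 + p 3 := by
      simp [hc2, Fin.sum_univ_four]
    have q5 : (∑ i, if c3 i then p i else 0) = p 0 + p 3 := by
      simp [hc3, Fin.sum_univ_four]
    have q6 : (∑ i, if c3 i then 0 else p i) = p 1 + p 2 := by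
      simp [hc3, Fin.sum_univ_four]
    rw [q1, q2, q3, q4, q5, q6]
    unfold GW WW
    ring
  have hE : 0 ≤ ∏ i, Real.exp ‖y i‖ := Finset.prod_nonneg fun i _ => (Real.exp_pos _).le
  have hn : ∀ (g : Fin 4 → ℂ), (∀ i, ‖g i‖ = 1) → ∏ i, Real.exp ‖g i * y i‖
      = ∏ i, Real.exp ‖y i‖ := by
    intro g hg
    refine Finset.prod_congr rfl fun i _ => ?_
    rw [norm_mul, hg, one_mul]
  have hS0 : 0 ≤ (s univ).toReal := ENNReal.toReal_nonneg
  -- the limit
  have hcd := continuous_dirK s
  have hL : ((∫ t, dirK s (uu t * ∑ i, if c1 i then g1 i * y i else 0)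
        * dirK s (uu t * ∑ i, if c1 i then 0 else g1 i * y i) ∂ang)
      + (∫ t, dirK s (uu t * ∑ i, if c2 i then g2 i * y i else 0)
        * dirK s (uu t * ∑ i, if c2 i then 0 else g2 i * y i) ∂ang)
      + ∫ t, dirK s (uu t * ∑ i, if c3 i then g2 i * y i else 0)
        * dirK s (uu t * ∑ i, if c3 i then 0 else g2 i * y i) ∂ang) = dirWick s y := by
    have r1 : ∀ t : ℝ, dirK s (uu t * ∑ i, if c1 i then g1 i * y i else 0)
        * dirK s (uu t * ∑ i, if c1 i then 0 else g1 i * y i)
        = dirK s (uu t * (y 0 - y 1)) * dirK s (uu t * (y 2 - y 3)) := by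
      intro t
      have a1 : (∑ i, if c1 i then g1 i * y i else 0) = -(y 0 - y 1) := by
        simp [hc1, hg1, Fin.sum_univ_four]; ring
      have a2 : (∑ i, if c1 i then 0 else g1 i * y i) = -(y 2 - y 3) := by
        simp [hc1, hg1, Fin.sum_univ_four]; ring
      rw [a1, a2, mul_neg, mul_neg, dirK_neg, dirK_neg]
    have r2 : ∀ t : ℝ, dirK s (uu t * ∑ i, if c2 i then g2 i * y i else 0)
        * dirK s (uu t * ∑ i, if c2 i then 0 else g2 i * y i)
        = dirK s (uu t * (y 0 - y 2)) * dirK s (uu t * (y 1 - y 3)) := by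
      intro t
      have a1 : (∑ i, if c2 i then g2 i * y i else 0) = -(y 0 - y 2) := by
        simp [hc2, hg2, Fin.sum_univ_four]; ring
      have a2 : (∑ i, if c2 i then 0 else g2 i * y i) = -(y 1 - y 3) := by
        simp [hc2, hg2, Fin.sum_univ_four]; ring
      rw [a1, a2, mul_neg, mul_neg, dirK_neg, dirK_neg]
    have r3 : ∀ t : ℝ, dirK s (uu t * ∑ i, if c3 i then g2 i * y i else 0)
        * dirK s (uu t * ∑ i, if c3 i then 0 else g2 i * y i)
        = dirK s (uu t * (y 0 - y 3)) * dirK s (uu t * (y 1 - y 2)) := by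
      intro t
      have a1 : (∑ i, if c3 i then g2 i * y i else 0) = -(y 0 - y 3) := by
        simp [hc3, hg2, Fin.sum_univ_four]; ring
      have a2 : (∑ i, if c3 i then 0 else g2 i * y i) = -(y 1 - y 2) := by
        simp [hc3, hg2, Fin.sum_univ_four]; ring
      rw [a1, a2, mul_neg, mul_neg, dirK_neg, dirK_neg]
    simp only [r1, r2, r3]
    have hcu : ∀ a b : ℂ, Integrable (fun t => dirK s (uu t * a) * dirK s (uu t * b)) ang := by
      intro a b
      have hc : Continuous fun t => dirK s (uu t * a) * dirK s (uu t * b) :=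
        (hcd.comp (continuous_uu.mul continuous_const)).mul
          (hcd.comp (continuous_uu.mul continuous_const))
      refine Integrable.of_bound hc.aestronglyMeasurable ((s univ).toReal * (s univ).toReal)
        (Eventually.of_forall fun t => ?_)
      rw [norm_mul, Real.norm_eq_abs, Real.norm_eq_abs]
      exact mul_le_mul (dirK_abs s _) (dirK_abs s _) (abs_nonneg _) hS0
    have i12 := integral_add (hcu (y 0 - y 1) (y 2 - y 3)) (hcu (y 0 - y 2) (y 1 - y 3))
    have i123 := integral_add ((hcu (y 0 - y 1) (y 2 - y 3)).add (hcu (y 0 - y 2) (y 1 - y 3)))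
      (hcu (y 0 - y 3) (y 1 - y 2))
    simp only [Pi.add_apply] at i123
    rw [i12] at i123
    rw [← i123]
    unfold dirWick
    exact ang_uu (f := fun u => dirK s (u * (y 0 - y 1)) * dirK s (u * (y 2 - y 3))
      + dirK s (u * (y 0 - y 2)) * dirK s (u * (y 1 - y 3))
      + dirK s (u * (y 0 - y 3)) * dirK s (u * (y 1 - y 2)))
  have hlim : Tendsto (modN (cof s) y) atTop (𝓝 (dirWick s y : ℂ)) := by
    have t1 := gen_lim (PI s) (vv c1) (vv_norm c1) (vv_meas c1) (fun i => g1 i * y i)
    have t2 := gen_lim (PI s) (vv c2) (vv_norm c2) (vv_meas c2) (fun i => g2 i * y i)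
    have t3 := gen_lim (PI s) (vv c3) (vv_norm c3) (vv_meas c3) (fun i => g2 i * y i)
    have t := (t1.add t2).add t3
    rw [PI_ee s ho, PI_ee s ho, PI_ee s ho, ← Complex.ofReal_add, ← Complex.ofReal_add, hL] at t
    exact t.congr fun N => (hsum N).symm
  have hbd : ∀ N : ℕ, ‖modN (cof s) y N‖ ≤ 3 * (∏ i, Real.exp ‖y i‖) * (s univ).toReal ^ 2 := by
    intro N
    rw [hsum N]
    have b1 := gen_norm (PI s) (vv c1) (vv_norm c1) (fun i => g1 i * y i) N
    have b2 := gen_norm (PI s) (vv c2) (vv_norm c2) (fun i => g2 i * y i) N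
    have b3 := gen_norm (PI s) (vv c3) (vv_norm c3) (fun i => g2 i * y i) N
    rw [hn _ n1, PI_univ] at b1
    rw [hn _ n2, PI_univ] at b2 b3
    refine (norm_add_le _ _).trans ?_
    refine (add_le_add (norm_add_le _ _) le_rfl).trans ?_
    linarith
  have hS2 : 0 ≤ (s univ).toReal ^ 2 := by positivity
  refine ⟨fun N => (hbd N).trans ?_, ?_, hlim⟩
  · rw [add_mul]
    have : 0 ≤ 3 * (s univ).toReal ^ 2 := by positivity
    linarith
  · have h1 : ‖(dirWick s y : ℂ)‖ ≤ 3 * (∏ i, Real.exp ‖y i‖) * (s univ).toReal ^ 2 :=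
      le_of_tendsto hlim.norm (Eventually.of_forall hbd)
    rw [Complex.norm_real, Real.norm_eq_abs] at h1
    rw [add_mul]
    have : 0 ≤ 3 * (s univ).toReal ^ 2 := by positivity
    linarith

end

end NFP
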