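import Pool.Agent.NFP.Defs
import Pool.Agent.BWM.C21

/-!
# Four-point functions of eigenfunctions with bounded fourth moments: statements of the steps
-/

open Complex MeasureTheory Filter Topology Set
open UpperHalfPlane hiding I
open scoped ContDiff MatrixGroups ProbabilityTheory

namespace NFP

open QE QE.NC

noncomputable section

/-- the truncated four-point model of a family of weak limits `u`, at one point -/
def modN (u : ℤ → ℂ) (y : Fin 4 → ℂ) (N : ℕ) : ℂ :=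
  ∑ p ∈ Fintype.piFinset (fun _ : Fin 4 => Finset.Icc (-(N : ℤ)) N),
    (∏ i, CN N (p i) (y i)) * ((if ∑ i, p i = 0 then 1 else 0)
      * GW (fun k _ => u k) (p 0) (p 1) (p 2) (p 3) 0)

/-- MODEL: the four-point model of a measure on the circle without odd Fourier coefficients -/
def StmtModel : Prop :=
  ∀ y : Fin 4 → ℂ, ∃ C : ℝ, 0 ≤ C ∧ ∀ s : Measure S1, IsFiniteMeasure s →
    (∀ k : ℤ, Odd k → cof s k = 0) →
    (∀ N : ℕ, ‖modN (cof s) y N‖ ≤ C * (s univ).toReal ^ 2) ∧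
    |dirWick s y| ≤ C * (s univ).toReal ^ 2 ∧
    Tendsto (modN (cof s) y) atTop (𝓝 (dirWick s y : ℂ))

/-- FOURVAR: the local four-point formula for variable limits -/
def StmtFourVar : Prop :=
  ∀ (U : Set ℂ) (g a : ℂ → ℂ) (h : ℕ → ℝ) (φ : ℕ → ℂ → ℂ) (u : ℤ → ℂ → ℂ) (σ : ℂ → Measure S1),
    Setup U g a h φ → JetLim U h a φ u → (∀ z, IsFiniteMeasure (σ z)) →
    (∀ k, ∀ᵐ z ∂(volume.restrict U), u k z = cof (σ z) k) →
    (∀ k, Odd k → ∀ᵐ z ∂(volume.restrict U), u k z = 0) → ∀ y : Fin 4 → ℂ,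
    (∀ K, IsCompact K → K ⊆ U → IntegrableOn (fun z => dirWick (σ z) y) K ∧
      IntegrableOn (fun z => (σ z univ).toReal ^ 2) K) ∧
    ∀ K : Set ℂ, IsCompact K → ∀ δ > 0, Metric.cthickening (2 * δ) K ⊆ U → ∀ q : ℤ, q ≠ 0 →
    ∀ ξ : Fin 4 → ℕ → ℝ → ℂ → ℂ, (∀ i, Disp h a K q (y i) (ξ i)) →
    ∀ ζ : ℂ → ℂ, Test U ζ → tsupport ζ ⊆ K →
    Tendsto (fun n => (∫ θ, (∫ z, ζ z * ∏ i, φ n (z + h n * a z * ξ i n θ z)) ∂ang)
      - ((∫ z, ζ z * (dirWick (σ z) y : ℂ))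
        + ((∫ z, ζ z * (φ n z * φ n z * (φ n z * φ n z)))
          - 3 * ∫ z, ζ z * (((σ z univ).toReal ^ 2 : ℝ) : ℂ)) * (defc y : ℂ))) atTop (𝓝 0)

/-- SEMTWO: the limits of the products of two jets are the moments of the semiclassical measure -/
def StmtSemTwo : Prop :=
  ∀ (ρ : ℍ → ℝ) (φ : ℕ → ℍ → ℝ) (m : ℕ → ℝ) (μ : Measure (ℍ × S1)),
    ContDiffOn ℝ ∞ (ro ρ) UH →
    Setup UH (gR ρ) (aR ρ) (fun n => 1 / m n) (fun n z => (φ n (ofComplex z) : ℂ)) →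
    Semiclassical ρ φ m μ → ∀ (j l : ℤ) (ζ : ℂ → ℂ), Test UH ζ →
    Tendsto (fun n => ∫ z, ζ z
        * (E (fun n => 1 / m n) (aR ρ) (fun n z => (φ n (ofComplex z) : ℂ)) j n z
          * E (fun n => 1 / m n) (aR ρ) (fun n z => (φ n (ofComplex z) : ℂ)) l n z)) atTop
      (𝓝 ((-1) ^ j * ∫ p : ℍ × S1, ζ p.1 * ((p.1.im ^ 2 * Real.exp (-(2 * ρ p.1)) : ℝ) : ℂ)
        * (p.2 : ℂ) ^ (-(j + l)) ∂μ))

/-- KER: disintegration of a measure whose projection has a density -/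
def StmtKer : Prop :=
  ∀ (ρ : ℍ → ℝ) (μ : Measure (ℍ × S1)) (p : ℍ → ℝ), Continuous ρ →
    (∀ K : Set ℍ, IsCompact K → μ (K ×ˢ univ) < ⊤) → Measurable p → (∀ z, 0 ≤ p z) →
    μ.map Prod.fst = (Berry.area ρ).withDensity (fun z => ENNReal.ofReal (p z)) →
    ∃ s : ProbabilityTheory.Kernel ℍ S1, (∀ z, s z univ = ENNReal.ofReal (p z)) ∧
      μ = (Berry.area ρ) ⊗ₘ s

/-- MARG: a measure on the half plane which agrees with a density on the test functions -/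
def StmtMarg : Prop :=
  ∀ (ρ : ℍ → ℝ) (ν : Measure ℍ) (u : ℂ → ℂ), Continuous ρ → (∀ K, IsCompact K → ν K < ⊤) →
    Measurable u → LocL2 UH u →
    (∀ᵐ z ∂(volume.restrict UH), 0 ≤ (u z).re ∧ (u z).im = 0) →
    (∀ ζ : ℂ → ℂ, Test UH ζ →
      ∫ z, ζ z * u z = ∫ z : ℍ, ζ z * ((z.im ^ 2 * Real.exp (-(2 * ρ z)) : ℝ) : ℂ) ∂ν) →
    ν = (Berry.area ρ).withDensity (fun z => ENNReal.ofReal (max (u z).re 0))

/-- STRUCT: the semiclassical measure of a sequence bounded in `L⁴` has a density with values in the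
measures on the circle -/
def StmtStruct : Prop :=
  ∀ (ρ : ℍ → ℝ) (φ : ℕ → ℍ → ℝ) (m : ℕ → ℝ) (μ : Measure (ℍ × S1)),
    ContDiffOn ℝ ∞ (ro ρ) UH →
    Setup UH (gR ρ) (aR ρ) (fun n => 1 / m n) (fun n z => (φ n (ofComplex z) : ℂ)) →
    Semiclassical ρ φ m μ →
    ∃ (u : ℤ → ℂ → ℂ) (s : ProbabilityTheory.Kernel ℍ S1), (∀ z, IsFiniteMeasure (s z)) ∧
      μ = (Berry.area ρ) ⊗ₘ s ∧ (∀ k, Measurable (u k)) ∧
      JetLim UH (fun n => 1 / m n) (aR ρ) (fun n z => (φ n (ofComplex z) : ℂ)) u ∧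
      (∀ k, ∀ᵐ z ∂(volume.restrict UH), u k z = cof (s (ofComplex z)) k) ∧
      ∀ k, Odd k → ∀ᵐ z ∂(volume.restrict UH), u k z = 0

/-- GLOB: from local limits to averages, with a continuous weight -/
def StmtGlob : Prop :=
  ∀ (Γ : Subgroup SL(2, ℝ)) (ρ : ℍ → ℝ) (D : Set ℍ) (F : ℕ → ℍ → ℝ) (H : ℍ → ℝ), Countable Γ →
    Berry.Geo Γ ρ D → Continuous ρ → (∃ K : Set ℍ, IsCompact K ∧ ∀ z, ∃ γ ∈ Γ, γ • z ∈ K) →
    (∀ᶠ n in atTop, Continuous (F n)) → (∀ n, ∀ γ ∈ Γ, ∀ z, F n (γ • z) = F n z) →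
    (∀ K : Set ℂ, IsCompact K → K ⊆ HH → ∃ C : ℝ, ∀ᶠ n in atTop,
      ∫ z in K, |F n (ofComplex z)| ≤ C) →
    (∀ K : Set ℂ, IsCompact K → K ⊆ HH → IntegrableOn (fun z => H (ofComplex z)) K) →
    (∀ ψ : ℂ → ℝ, ContDiff ℝ ∞ ψ → HasCompactSupport ψ → tsupport ψ ⊆ HH →
      Tendsto (fun n => ∫ z, ψ z * F n (ofComplex z)) atTop (𝓝 (∫ z, ψ z * H (ofComplex z)))) →
    (∀ γ ∈ Γ, ∀ᵐ z : ℍ, H (γ • z) = H z) ∧
    ∀ w : ℍ → ℝ, Continuous w → (∀ γ ∈ Γ, ∀ z, w (γ • z) = w z) →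
      IntegrableOn (fun z => w z * H z) D (Berry.area ρ) ∧
      Tendsto (fun n => Berry.rAvg ρ D (fun z => w z * F n z)) atTop
        (𝓝 (Berry.rAvg ρ D (fun z => w z * H z)))

/-- BND: the four-point formula for sequences with bounded fourth moments, with a weight -/
def StmtBnd : Prop :=
  ∀ (Γ : Subgroup SL(2, ℝ)) (ρ : ℍ → ℝ) (D : Set ℍ) (φ : ℕ → ℍ → ℝ) (m : ℕ → ℝ)
    (μ : Measure (ℍ × S1)), Countable Γ → Fac Γ ρ → MeasurableSet D →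
    IsFundamentalDomain Γ D (volume : Measure ℍ) → Berry.REigenSeq Γ ρ φ m →
    (∀ n, ContDiffOn ℝ ∞ (fun w : ℂ => φ n (ofComplex w)) {w | 0 < w.im}) →
    (∃ B : ℝ, ∀ n, Berry.rAvg ρ D (fun z => φ n z ^ 4) ≤ B) → Semiclassical ρ φ m μ →
    ∃ s : ProbabilityTheory.Kernel ℍ S1, (∀ z, IsFiniteMeasure (s z)) ∧
      μ = (Berry.area ρ) ⊗ₘ s ∧ IntegrableOn (fun z => (s z univ).toReal ^ 2) D (Berry.area ρ) ∧
      (∀ x : Fin 4 → ℂ, IntegrableOn (fun z => dirWick (s z) x) D (Berry.area ρ)) ∧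
      ∀ w : ℍ → ℝ, Continuous w → (∀ γ ∈ Γ, ∀ z, w (γ • z) = w z) → ∀ x : Fin 4 → ℂ,
      Tendsto (fun n => (∫ p, w p.1 * (Berry.rWave ρ (φ n) (m n) (x 0) p
          * Berry.rWave ρ (φ n) (m n) (x 1) p * Berry.rWave ρ (φ n) (m n) (x 2) p
          * Berry.rWave ρ (φ n) (m n) (x 3) p) ∂(Berry.rFrameProb ρ D))
        - (Berry.rAvg ρ D (fun z => w z * dirWick (s z) x)
          + (Berry.rAvg ρ D (fun z => w z * φ n z ^ 4)
            - 3 * Berry.rAvg ρ D (fun z => w z * (s z univ).toReal ^ 2)) / 3 * resK x))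
        atTop (𝓝 0)

/-- POS: positivity of the resonant part in negative curvature -/
def StmtPos : Prop :=
  ∀ (Γ : Subgroup SL(2, ℝ)) (ρ : ℍ → ℝ) (D : Set ℍ) (φ : ℕ → ℍ → ℝ) (m : ℕ → ℝ)
    (s : ProbabilityTheory.Kernel ℍ S1), Countable Γ → Fac Γ ρ → (∀ z, 0 < lapR ρ z) →
    MeasurableSet D → IsFundamentalDomain Γ D (volume : Measure ℍ) → Berry.REigenSeq Γ ρ φ m →
    (∀ n, ContDiffOn ℝ ∞ (fun w : ℂ => φ n (ofComplex w)) {w | 0 < w.im}) →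
    (∃ B : ℝ, ∀ n, Berry.rAvg ρ D (fun z => φ n z ^ 4) ≤ B) → (∀ z, IsFiniteMeasure (s z)) →
    Semiclassical ρ φ m ((Berry.area ρ) ⊗ₘ s) →
    ∀ w : ℍ → ℝ, Continuous w → (∀ z, 0 ≤ w z) → (∀ γ ∈ Γ, ∀ z, w (γ • z) = w z) → ∀ ε > 0,
      ∀ᶠ n in atTop, 3 * Berry.rAvg ρ D (fun z => w z * (s z univ).toReal ^ 2) - ε
        ≤ Berry.rAvg ρ D (fun z => w z * φ n z ^ 4)

end

end NFP
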